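import Mathlib

/-!
PROJECT H*, PLAN L (MP_a54f13_nt), part HS/L: common definitions (helper81).

Cells: `V` finite, `g i` a real matrix of determinant one (representative of the cell in SL2(R)).
`w = K^-2`. A return from the cell with representative `a` to the cell with representative `b` of
level `m` is an integral matrix `h` with `det h = m^2` and `b^-1 h a = m * (near diagonal matrix)`.
-/

set_option autoImplicit false

namespace HSL

open Matrix

abbrev MR := Matrix (Fin 2) (Fin 2) ℝ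
abbrev MZ := Matrix (Fin 2) (Fin 2) ℤ

/-- the real matrix of an integral matrix -/
def toR (h : MZ) : MR := h.map (fun z : ℤ => (z : ℝ))

/-- frame of `h` seen from the cell `a` (source) to the cell `b` (target); for `det b = 1` this is
`b^-1 h a` -/
def fr (a b : MR) (h : MZ) : MR := b.adjugate * toR h * a

/-- primitive integral matrix -/
def Prim (h : MZ) : Prop := ∀ r : ℤ, (∀ i j, r ∣ h i j) → IsUnit r

/-- `M = m * (a, b; c, d)` with `|a|, |d| <= C`, `|b|, |c| <= C w` -/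
def Near (C w m : ℝ) (M : MR) : Prop :=
  |M 0 0| ≤ C * m ∧ |M 1 1| ≤ C * m ∧ |M 0 1| ≤ C * w * m ∧ |M 1 0| ≤ C * w * m

/-- return of level `m` from the cell `a` to the cell `b` -/
def Ret (C w : ℝ) (a b : MR) (m : ℕ) (h : MZ) : Prop :=
  h.det = (m : ℤ) ^ 2 ∧ 0 < m ∧ Near C w (m : ℝ) (fr a b h)

/-- twice the trace zero part: `2 s - tr s` -/
def tf (s : MZ) : MZ := (2 : ℤ) • s - s.trace • (1 : MZ)

/-- discriminant: `(tr s)^2 - 4 det s = - det (tf s)` -/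
def dsc (s : MZ) : ℤ := s.trace ^ 2 - 4 * s.det

/-- commutator -/
def brk (s t : MZ) : MZ := s * t - t * s

/-- square elements from the cell `a` to the cell `b`, two sided bounds -/
def SS (K N : ℝ) (a b : MR) : Set MZ :=
  {r | (∃ m : ℕ, 0 < m ∧ r.det = (m : ℤ) ^ 2) ∧
    K / N ≤ |fr a b r 0 0| ∧ |fr a b r 0 0| ≤ K * N ∧
    K / N ≤ |fr a b r 1 1| ∧ |fr a b r 1 1| ≤ K * N ∧
    |fr a b r 0 1| ≤ N / K ∧ |fr a b r 1 0| ≤ N / K}

/-- evaluation of a form in the four entries at an integral matrix -/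
noncomputable def ev (r : MZ) (f : MvPolynomial (Fin 2 × Fin 2) ℝ) : ℝ :=
  MvPolynomial.eval (fun ij : Fin 2 × Fin 2 => ((r ij.1 ij.2 : ℤ) : ℝ)) f

/-- no non-zero real form of degree `e` in the four entries vanishes on `S` -/
def Gen (e : ℕ) (S : Set MZ) : Prop :=
  ∀ f : MvPolynomial (Fin 2 × Fin 2) ℝ, f.IsHomogeneous e → (∀ r ∈ S, ev r f = 0) → f = 0

/-- right translation of forms: `sub h f (r) = f (r h)` -/
noncomputable def sub (h : MR) :
    MvPolynomial (Fin 2 × Fin 2) ℝ →ₐ[ℝ] MvPolynomial (Fin 2 × Fin 2) ℝ :=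
  MvPolynomial.aeval (fun ij : Fin 2 × Fin 2 =>
    ∑ k : Fin 2, MvPolynomial.X (ij.1, k) * MvPolynomial.C (h k ij.2))

/-- the forms of degree `e` vanishing on `S` -/
noncomputable def Van (e : ℕ) (S : Set MZ) : Submodule ℝ (MvPolynomial (Fin 2 × Fin 2) ℝ) where
  carrier := {f | f.IsHomogeneous e ∧ ∀ r ∈ S, ev r f = 0}
  add_mem' := by
    rintro f g ⟨hf, hf'⟩ ⟨hg, hg'⟩
    refine ⟨hf.add hg, fun r hr => ?_⟩
    simp only [ev, map_add]
    have h1 := hf' r hr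
    have h2 := hg' r hr
    simp only [ev] at h1 h2
    rw [h1, h2, add_zero]
  zero_mem' := ⟨MvPolynomial.isHomogeneous_zero _ _ _, fun r _ => by simp [ev]⟩
  smul_mem' := by
    rintro c f ⟨hf, hf'⟩
    refine ⟨(MvPolynomial.homogeneousSubmodule _ ℝ e).smul_mem c hf, fun r hr => ?_⟩
    have h1 := hf' r hr
    simp only [ev] at h1 ⊢
    rw [MvPolynomial.smul_eval, h1, mul_zero]

/-- A system of cells. `K` = inverse square root of the width `w`, `C` = constant of a single step,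
`R` = bound for the entries of the representatives. -/
structure Sys where
  ι : Type
  V : Finset ι
  g : ι → MR
  K : ℝ
  C : ℝ
  R : ℝ

namespace Sys

variable (S : Sys)

/-- width of the cells -/
noncomputable def w : ℝ := 1 / S.K ^ 2

/-- the representatives are unimodular and bounded -/
def Unim : Prop := ∀ i ∈ S.V, (S.g i).det = 1 ∧ ∀ a b, |S.g i a b| ≤ S.R

/-- one step from `i` to `j` with primes `p`, `q` of the set `Q` (`p = q` is allowed: then
`det h = p^4`, `h` primitive); the first prime is `p` -/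
def Step (Q : Finset ℕ) (i j : S.ι) (p q : ℕ) (h : MZ) : Prop :=
  p ∈ Q ∧ q ∈ Q ∧ Prim h ∧ Ret S.C S.w (S.g i) (S.g j) (p * q) h

/-- the kernel of `h` modulo `p` contains no short vector: no `u` with `u <> 0`, `|u_a| <= D` is
killed by `h` modulo `p` -/
def Dir (D : ℝ) (p : ℕ) (h : MZ) : Prop :=
  ∀ u : Fin 2 → ℤ, u ≠ 0 → (∀ a, |((u a : ℤ) : ℝ)| ≤ D) → ∃ a, ¬ (p : ℤ) ∣ (h *ᵥ u) a

/-- AI with directions, for all dense subsets `W` (density at least `K^-s0`) and all sub-pools `Q`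
of `pool` with at least `card pool / M` elements: at least `K^-σ P^4 |W|^2 / |V|` directional steps
inside `W`. -/
def AI (P : ℝ) (pool : Finset ℕ) (M : ℕ) (s0 D σ : ℝ) : Prop :=
  ∀ Q : Finset ℕ, Q ⊆ pool → pool.card ≤ M * Q.card →
  ∀ W : Finset S.ι, W ⊆ S.V → (S.V.card : ℝ) ≤ S.K ^ s0 * (W.card : ℝ) →
    ∃ T : Finset (S.ι × S.ι × ℕ × ℕ × MZ),
      (∀ t ∈ T, t.1 ∈ W ∧ t.2.1 ∈ W ∧
        S.Step Q t.1 t.2.1 t.2.2.1 t.2.2.2.1 t.2.2.2.2 ∧ Dir D t.2.2.1 t.2.2.2.2) ∧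
      P ^ 4 * (W.card : ℝ) ^ 2 ≤ S.K ^ σ * (S.V.card : ℝ) * (T.card : ℝ)

/-- bounded overlap of the cells: a point reached from a cell lies in at most `B` cells -/
def Ovl (C' B : ℝ) : Prop :=
  ∀ i ∈ S.V, ∀ (h : MZ) (m : ℕ), h.det = (m : ℤ) ^ 2 → 0 < m →
  ∀ T : Finset (S.ι × MZ),
    (∀ t ∈ T, t.1 ∈ S.V ∧ t.2.det = 1 ∧ Ret C' S.w (S.g i) (S.g t.1) m (t.2 * h)) →
    (T.card : ℝ) ≤ B

/-- no closed geodesic of height `<= K^(1-1/200)` within `K^(-1-1/200)`: the conclusion of the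
torus lemma (T) -/
def GoodT (i : S.ι) : Prop :=
  ∀ v : MZ, v ≠ 0 → v.trace = 0 → |fr (S.g i) (S.g i) v 0 0| ≤ S.K ^ (1 - 1/200 : ℝ) →
    |fr (S.g i) (S.g i) v 0 1| ≤ S.K ^ (-1 - 1/200 : ℝ) →
    |fr (S.g i) (S.g i) v 1 0| ≤ S.K ^ (-1 - 1/200 : ℝ) → False

/-- outside the cusp set: for every rational direction `q`, `|q|^2 <= K^ζ`, the frame coordinates
`(α, β) = g^-1 q` satisfy `|α β| >= K^(-1+ζ)` -/
def GoodZ (ζ : ℝ) (i : S.ι) : Prop :=
  ∀ q : Fin 2 → ℤ, q ≠ 0 → ((q 0 : ℝ) ^ 2 + (q 1 : ℝ) ^ 2) ≤ S.K ^ ζ →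
    S.K ^ (-1 + ζ : ℝ) ≤
      |((S.g i).adjugate *ᵥ (fun a => (q a : ℝ))) 0 *
        ((S.g i).adjugate *ᵥ (fun a => (q a : ℝ))) 1|

end Sys

end HSL
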