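import Pool.Agent.Lib.HS.L.Spec

/-!
PROJECT H*, PLAN L (MP_a54f13_nt), part HS/L, module Spl: splitting the pool.
-/

set_option autoImplicit false

namespace HSL

namespace Spl_aux

/-- the number of elements of `Fin n` in a residue class modulo `k` -/
theorem card_res (n k j : ℕ) (hj : j < k) :
    n / k ≤ (Finset.univ.filter fun i : Fin n => (i : ℕ) % k = j).card := by
  have hk : 0 < k := lt_of_le_of_lt (Nat.zero_le _) hj
  have hlt : ∀ i : Fin (n / k), j + k * (i : ℕ) < n := by
    intro i
    have h1 : (i : ℕ) + 1 ≤ n / k := i.2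
    have h2 : k * ((i : ℕ) + 1) ≤ n := by
      calc k * ((i : ℕ) + 1) ≤ k * (n / k) := Nat.mul_le_mul_left k h1
        _ ≤ n := Nat.mul_div_le n k
    rw [Nat.mul_add, Nat.mul_one] at h2
    omega
  calc n / k = (Finset.univ : Finset (Fin (n / k))).card := by
        rw [Finset.card_univ, Fintype.card_fin]
    _ ≤ (Finset.univ.filter fun i : Fin n => (i : ℕ) % k = j).card := by
        refine Finset.card_le_card_of_injOn (fun i => ⟨j + k * (i : ℕ), hlt i⟩) ?_ ?_
        · intro i _
          simp only [Finset.coe_filter, Finset.mem_univ, true_and, Set.mem_setOf_eq]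
          rw [Nat.add_mul_mod_self_left, Nat.mod_eq_of_lt hj]
        · intro i _ i' _ h
          have h1 : j + k * (i : ℕ) = j + k * (i' : ℕ) := congrArg Fin.val h
          have h2 : k * (i : ℕ) = k * (i' : ℕ) := Nat.add_left_cancel h1
          exact Fin.ext (Nat.eq_of_mul_eq_mul_left hk h2)

end Spl_aux

theorem tSpl : S_Spl := by
  intro pool k hk hkp
  refine ⟨fun j => (Finset.univ.filter fun i : Fin pool.card => (i : ℕ) % k = j).map
    (pool.orderEmbOfFin rfl).toEmbedding, ?_, ?_, ?_⟩
  · intro j x hx
    obtain ⟨i, _, rfl⟩ := Finset.mem_map.1 hx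
    exact Finset.orderEmbOfFin_mem pool rfl i
  · intro j hj
    rw [Finset.card_map]
    have h1 := Spl_aux.card_res pool.card k j hj
    have h2 : 1 ≤ pool.card / k := (Nat.le_div_iff_mul_le hk).2 (by omega)
    have h3 : pool.card < k * (pool.card / k) + k := by
      have h4 := Nat.div_add_mod pool.card k
      have h5 := Nat.mod_lt pool.card hk
      omega
    have h4 : k ≤ k * (pool.card / k) := Nat.le_mul_of_pos_right k h2
    calc pool.card ≤ k * (pool.card / k) + k := h3.le
      _ ≤ 4 * (k * (pool.card / k)) := by omega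
      _ = 4 * k * (pool.card / k) := (Nat.mul_assoc 4 k _).symm
      _ ≤ 4 * k * (Finset.univ.filter fun i : Fin pool.card => (i : ℕ) % k = j).card :=
        Nat.mul_le_mul_left _ h1
  · intro i j hij
    rw [Finset.disjoint_map]
    refine Finset.disjoint_left.2 fun x hx hx' => hij ?_
    rw [← (Finset.mem_filter.1 hx).2, (Finset.mem_filter.1 hx').2]

end HSL
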