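import Pool.Agent.Lib.HS.L.Spec

/-!
PROJECT H*, HS/L, module CL0: scalar loops (at most two first entries for a given second one).
-/

set_option autoImplicit false

namespace HSL

open Matrix

namespace CL0_aux

/-- two primitive proportional integral matrices are equal up to sign -/
theorem prim_prop (h1 h2 : MZ) (p1 : Prim h1) (p2 : Prim h2) (d c : ℤ) (hd : d ≠ 0)
    (h : ∀ i j, d * h1 i j = c * h2 i j) : h1 = h2 ∨ h1 = -h2 := by
  obtain ⟨g, d', c', hg, hcop, hd', hc'⟩ := Int.exists_gcd_one' (m := d) (n := c)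
    (Int.gcd_pos_of_ne_zero_left c hd)
  have hg0 : (g : ℤ) ≠ 0 := by exact_mod_cast hg.ne'
  have e : ∀ i j, d' * h1 i j = c' * h2 i j := by
    intro i j
    have h0 := h i j
    rw [hd', hc'] at h0
    have : (g : ℤ) * (d' * h1 i j) = (g : ℤ) * (c' * h2 i j) := by linear_combination h0
    exact mul_left_cancel₀ hg0 this
  have hco : IsCoprime d' c' := Int.isCoprime_iff_gcd_eq_one.2 hcop
  have u1 : IsUnit d' := p2 d' fun i j => hco.dvd_of_dvd_mul_left ⟨h1 i j, (e i j).symm⟩
  have u2 : IsUnit c' := p1 c' fun i j => hco.symm.dvd_of_dvd_mul_left ⟨h2 i j, e i j⟩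
  rcases Int.isUnit_iff.1 u1 with a | a <;> rcases Int.isUnit_iff.1 u2 with b | b
  · left
    ext i j
    have := e i j
    rw [a, b] at this
    linarith
  · right
    ext i j
    have := e i j
    rw [a, b] at this
    rw [Matrix.neg_apply]
    linarith
  · right
    ext i j
    have := e i j
    rw [a, b] at this
    rw [Matrix.neg_apply]
    linarith
  · left
    ext i j
    have := e i j
    rw [a, b] at this
    linarith

theorem scal (h1 h2 : MZ) (h : tf (h2.adjugate * h1) = 0) :
    ∀ i j, h2.det * h1 i j = (h2.adjugate * h1) 0 0 * h2 i j := by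
  set s := h2.adjugate * h1 with hs
  have e : ∀ i j, (tf s) i j = 0 := by
    intro i j
    rw [h]
    rfl
  have e00 := e 0 0
  have e01 := e 0 1
  have e10 := e 1 0
  have e11 := e 1 1
  simp only [tf, Matrix.trace_fin_two, Matrix.sub_apply, Matrix.smul_apply, smul_eq_mul] at e00 e01 e10 e11
  have o01 : (1 : MZ) 0 1 = 0 := by decide
  have o10 : (1 : MZ) 1 0 = 0 := by decide
  have o00 : (1 : MZ) 0 0 = 1 := by decide
  have o11 : (1 : MZ) 1 1 = 1 := by decide
  rw [o00] at e00
  rw [o01] at e01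
  rw [o10] at e10
  rw [o11] at e11
  have hm : h2 * s = h2.det • h1 := by
    rw [hs, ← Matrix.mul_assoc, Matrix.mul_adjugate, Matrix.smul_mul, Matrix.one_mul]
  intro i j
  have hij : (h2 * s) i j = h2.det * h1 i j := by
    rw [hm]
    rfl
  rw [← hij, Matrix.mul_apply, Fin.sum_univ_two]
  fin_cases j
  · have : s 1 0 = 0 := by linarith
    simp only [Fin.zero_eta, Fin.isValue]
    rw [this]
    ring
  · have h3 : s 0 1 = 0 := by linarith
    have h4 : s 1 1 = s 0 0 := by linarith
    simp only [Fin.mk_one, Fin.isValue]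
    rw [h3, h4]
    ring

end CL0_aux

open CL0_aux in
theorem tCL0 : S_CL0 := by
  classical
  intro ι H A hH hA hs
  have key : ∀ t ∈ A, t.2 ∈ H ∧ t.1.1 = t.2.1 ∧ (t.1.2 = t.2.2 ∨ t.1.2 = -t.2.2) := by
    intro t ht
    have h1 := hA ht
    rw [prs, Finset.mem_filter, Finset.mem_product] at h1
    obtain ⟨⟨a1, a2⟩, a3⟩ := h1
    refine ⟨a2, a3, ?_⟩
    have h2 := scal t.1.2 t.2.2 (hs t ht)
    exact prim_prop t.1.2 t.2.2 (hH _ a1).1 (hH _ a2).1 _ _ (hH _ a2).2.ne' h2
  have hc : A.card ≤ 2 * H.card := by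
    refine Finset.card_le_mul_card_image_of_maps_to (f := fun t => t.2) (fun t ht => (key t ht).1) 2 ?_
    intro b hb
    have hsub : A.filter (fun t => t.2 = b) ⊆ {((b.1, b.2), b), ((b.1, -b.2), b)} := by
      intro t ht
      rw [Finset.mem_filter] at ht
      obtain ⟨ht, htb⟩ := ht
      obtain ⟨-, k1, k2⟩ := key t ht
      rw [Finset.mem_insert, Finset.mem_singleton]
      rcases k2 with k2 | k2
      · left
        refine Prod.ext (Prod.ext ?_ ?_) htb
        · rw [k1, htb]
        · rw [k2, htb]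
      · right
        refine Prod.ext (Prod.ext ?_ ?_) htb
        · rw [k1, htb]
        · rw [k2, htb]
    exact (Finset.card_le_card hsub).trans Finset.card_le_two
  exact_mod_cast hc

end HSL
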