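import Pool.Agent.Lib.HS.L.Spec

/-! PROJECT H*, PLAN L (MP_a54f13_nt), part HS/L: module Fr (frames). -/

set_option autoImplicit false

namespace HSL

open Matrix

namespace Fr_aux

lemma toR_mul (a b : MZ) : toR (a * b) = toR a * toR b := by
  ext i j
  simp [toR, Matrix.mul_apply]

lemma toR_adj (h : MZ) : toR h.adjugate = (toR h).adjugate := by
  ext i j
  fin_cases i <;> fin_cases j <;> simp [toR, Matrix.adjugate_fin_two]

lemma det_toR (h : MZ) : (toR h).det = ((h.det : ℤ) : ℝ) := by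
  simp [toR, Matrix.det_fin_two]

lemma adj_adj (b : MR) : b.adjugate.adjugate = b := by
  ext i j
  fin_cases i <;> fin_cases j <;> simp [Matrix.adjugate_fin_two]

lemma fr_mul (a b c : MR) (r h : MZ) (hb : b.det = 1) : fr a c (r * h) = fr b c r * fr a b h := by
  have h1 : b * b.adjugate = 1 := by rw [Matrix.mul_adjugate, hb, one_smul]
  unfold fr
  rw [toR_mul]
  calc c.adjugate * (toR r * toR h) * a = c.adjugate * toR r * 1 * toR h * a := by
        simp only [Matrix.mul_assoc, Matrix.one_mul]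
    _ = c.adjugate * toR r * (b * b.adjugate) * toR h * a := by rw [h1]
    _ = c.adjugate * toR r * b * (b.adjugate * toR h * a) := by simp only [Matrix.mul_assoc]

lemma fr_adj (a b : MR) (h : MZ) : fr b a h.adjugate = (fr a b h).adjugate := by
  unfold fr
  rw [Matrix.adjugate_mul_distrib, Matrix.adjugate_mul_distrib, toR_adj, adj_adj, Matrix.mul_assoc]

lemma fr_det (a b : MR) (h : MZ) (ha : a.det = 1) (hb : b.det = 1) :
    (fr a b h).det = ((h.det : ℤ) : ℝ) := by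
  unfold fr
  rw [Matrix.det_mul, Matrix.det_mul, det_toR, Matrix.det_adjugate, ha, hb]
  simp

lemma fr_one (a : MR) (ha : a.det = 1) : fr a a 1 = 1 := by
  unfold fr
  have h1 : toR 1 = 1 := by
    ext i j
    fin_cases i <;> fin_cases j <;> simp [toR]
  rw [h1, Matrix.mul_one, Matrix.adjugate_mul, ha, one_smul]

lemma pair {x y u v X Y U V : ℝ} (hx : |x| ≤ X) (hy : |y| ≤ Y) (hu : |u| ≤ U) (hv : |v| ≤ V) :
    |x * u + y * v| ≤ X * U + Y * V := by
  have h1 : |x * u| ≤ X * U := by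
    rw [abs_mul]
    exact mul_le_mul hx hu (abs_nonneg _) ((abs_nonneg _).trans hx)
  have h2 : |y * v| ≤ Y * V := by
    rw [abs_mul]
    exact mul_le_mul hy hv (abs_nonneg _) ((abs_nonneg _).trans hy)
  exact (abs_add_le _ _).trans (add_le_add h1 h2)

lemma near_mul {C C' w m m' : ℝ} {M M' : MR} (hw : 0 ≤ w) (hw1 : w ≤ 1) (hC : 1 ≤ C) (hC' : 1 ≤ C')
    (hm : 0 ≤ m) (hm' : 0 ≤ m') (h : Near C w m M) (h' : Near C' w m' M') :
    Near (2 * C * C') w (m' * m) (M' * M) := by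
  obtain ⟨h1, h2, h3, h4⟩ := h
  obtain ⟨k1, k2, k3, k4⟩ := h'
  have hP : 0 ≤ C * C' * (m' * m) := by positivity
  have hww : w * w ≤ 1 := by nlinarith
  have e1 : C' * w * m' * (C * w * m) ≤ C * C' * (m' * m) := by
    calc C' * w * m' * (C * w * m) = (C * C' * (m' * m)) * (w * w) := by ring
      _ ≤ (C * C' * (m' * m)) * 1 := mul_le_mul_of_nonneg_left hww hP
      _ = _ := mul_one _
  refine ⟨?_, ?_, ?_, ?_⟩
  · rw [Matrix.mul_apply, Fin.sum_univ_two]
    refine (pair k1 k3 h1 h4).trans ?_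
    nlinarith [e1]
  · rw [Matrix.mul_apply, Fin.sum_univ_two]
    refine (pair k4 k2 h3 h2).trans ?_
    nlinarith [e1]
  · rw [Matrix.mul_apply, Fin.sum_univ_two]
    refine (pair k1 k3 h3 h2).trans (le_of_eq ?_)
    ring
  · rw [Matrix.mul_apply, Fin.sum_univ_two]
    refine (pair k4 k2 h1 h4).trans (le_of_eq ?_)
    ring

lemma ret_mono {C C' w : ℝ} {a b : MR} {m : ℕ} {h : MZ} (hw : 0 ≤ w) (hC : C ≤ C')
    (H : Ret C w a b m h) : Ret C' w a b m h := by
  obtain ⟨h1, h2, h3, h4, h5, h6⟩ := H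
  have hm : (0 : ℝ) ≤ m := Nat.cast_nonneg m
  have e1 : C * (m : ℝ) ≤ C' * m := mul_le_mul_of_nonneg_right hC hm
  have e2 : C * w * (m : ℝ) ≤ C' * w * m :=
    mul_le_mul_of_nonneg_right (mul_le_mul_of_nonneg_right hC hw) hm
  exact ⟨h1, h2, h3.trans e1, h4.trans e1, h5.trans e2, h6.trans e2⟩

lemma ret_mul {C C' w : ℝ} {a b c : MR} {m m' : ℕ} {r h : MZ} (hb : b.det = 1) (hw : 0 ≤ w)
    (hw1 : w ≤ 1) (hC : 1 ≤ C) (hC' : 1 ≤ C') (H : Ret C w a b m h) (H' : Ret C' w b c m' r) :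
    Ret (2 * C * C') w a c (m' * m) (r * h) := by
  obtain ⟨h1, h2, h3⟩ := H
  obtain ⟨k1, k2, k3⟩ := H'
  refine ⟨?_, Nat.mul_pos k2 h2, ?_⟩
  · rw [Matrix.det_mul, h1, k1]
    push_cast
    ring
  · rw [fr_mul a b c r h hb]
    push_cast
    exact near_mul hw hw1 hC hC' (Nat.cast_nonneg _) (Nat.cast_nonneg _) h3 k3

lemma ret_adj {C w : ℝ} {a b : MR} {m : ℕ} {h : MZ} (H : Ret C w a b m h) :
    Ret C w b a m h.adjugate := by
  obtain ⟨h1, h2, h3, h4, h5, h6⟩ := H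
  refine ⟨?_, h2, ?_⟩
  · rw [Matrix.det_adjugate, h1]
    simp
  · rw [fr_adj, Matrix.adjugate_fin_two]
    exact ⟨by simpa using h4, by simpa using h3, by simpa using h5, by simpa using h6⟩

end Fr_aux

theorem tFr : S_Fr :=
  ⟨fun a b c r h hb => Fr_aux.fr_mul a b c r h hb,
    fun a b h ha hb => Fr_aux.fr_det a b h ha hb,
    fun a b h => Fr_aux.fr_adj a b h,
    fun a ha => Fr_aux.fr_one a ha,
    fun _ _ _ _ _ _ _ _ _ _ hb hw hw1 hC hC' H H' => Fr_aux.ret_mul hb hw hw1 hC hC' H H',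
    fun _ _ _ _ _ _ H => Fr_aux.ret_adj H,
    fun _ _ _ _ _ _ _ hw hC H => Fr_aux.ret_mono hw hC H⟩

end HSL
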