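import Pool.Agent.Lib.HS.L.Mult
import Pool.Agent.Lib.HS.L.Fr
import Pool.Agent.Lib.MP_640417_ag.All.Divisor

/-!
# HS/L: the count lemma (CL) of note 4698

`count_CL`: the number of pairs of returns with the same end is bounded by a sum over the primitive parts
`s0` of the loops: `B 2^(8k) ∑ τ(n0^(4k)) (L²/n0)^(3/2)`, `det s0 = n0²`.
-/

set_option autoImplicit false

namespace HSL

open Matrix

/-! ### Contents and primitive parts -/

theorem ct_smul (n : ℕ) (A : MZ) : ct ((n : ℤ) • A) = n * ct A := by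
  unfold ct
  simp only [Matrix.smul_apply, smul_eq_mul]
  rw [Int.gcd_mul_left, Int.gcd_mul_left, Int.natAbs_natCast]
  push_cast
  rw [Int.gcd_mul_left, Int.natAbs_natCast]

theorem ct_prim {A : MZ} (h : Prim A) : ct A = 1 := by
  have h1 := h (ct A : ℤ) (ct_dvd A)
  exact Nat.isUnit_iff.1 (Int.ofNat_isUnit.1 h1)

/-- the primitive part -/
def pp (s : MZ) : MZ := Matrix.of fun i j => s i j / (ct s : ℤ)

theorem pp_eq (s : MZ) : s = (ct s : ℤ) • pp s := by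
  ext i j
  rw [Matrix.smul_apply, smul_eq_mul]
  show s i j = (ct s : ℤ) * (s i j / (ct s : ℤ))
  exact (Int.mul_ediv_cancel' (ct_dvd s i j)).symm

theorem pp_prim {s : MZ} (hs : s ≠ 0) : Prim (pp s) := by
  intro r hr
  have h1 : r * (ct s : ℤ) ∣ (ct s : ℤ) := by
    refine dvd_ct fun i j => ?_
    rw [show s i j = (ct s : ℤ) * pp s i j by
      conv_lhs => rw [pp_eq s]
      rw [Matrix.smul_apply, smul_eq_mul], mul_comm r]
    exact mul_dvd_mul_left _ (hr i j)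
  have h2 : (ct s : ℤ) ≠ 0 := by
    have := ct_pos hs
    exact_mod_cast this.ne'
  obtain ⟨c, hc⟩ := h1
  have h3 : (ct s : ℤ) * (r * c) = (ct s : ℤ) * 1 := by
    rw [mul_one]
    conv_rhs => rw [hc]
    ring
  exact IsUnit.of_mul_eq_one c (mul_left_cancel₀ h2 h3)

/-- the level: the square root of the determinant -/
def lvl (s : MZ) : ℕ := Nat.sqrt s.det.toNat

theorem lvl_eq {s : MZ} {n : ℕ} (h : s.det = (n : ℤ) ^ 2) : lvl s = n := by
  unfold lvl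
  rw [h]
  have : ((n : ℤ) ^ 2).toNat = n ^ 2 := by
    have e : ((n : ℤ) ^ 2) = ((n ^ 2 : ℕ) : ℤ) := by push_cast; rfl
    rw [e, Int.toNat_natCast]
  rw [this, Nat.sqrt_eq']

/-- **(M3)** the shape of the content of a loop -/
theorem shape {k : ℕ} {h1 h2 : MZ} {m1 m2 : ℕ} (p1 : Prim h1) (p2 : Prim h2) (d1 : h1.det = (m1 : ℤ) ^ 2)
    (d2 : h2.det = (m2 : ℤ) ^ 2) (hm1 : 0 < m1) (hm2 : 0 < m2) (l1 : m1.primeFactorsList.length ≤ 2 * k)
    (l2 : m2.primeFactorsList.length ≤ 2 * k) : h2.adjugate * h1 ≠ 0 ∧ ∃ n0 : ℕ, 0 < n0 ∧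
      (pp (h2.adjugate * h1)).det = (n0 : ℤ) ^ 2 ∧ ct (h2.adjugate * h1) * n0 = m1 * m2 ∧
      ∃ ca cb : ℕ, 0 < ca ∧ 0 < cb ∧ ca ∣ n0 ^ (4 * k) ∧ ct (h2.adjugate * h1) = ca * cb ^ 2 := by
  obtain ⟨s, hs⟩ : ∃ s : MZ, s = h2.adjugate * h1 := ⟨_, rfl⟩
  rw [← hs]
  have hdet : s.det = ((m1 * m2 : ℕ) : ℤ) ^ 2 := by
    rw [hs, Matrix.det_mul, Matrix.det_adjugate, d1, d2]
    push_cast
    simp
    ring
  have hmm : 0 < m1 * m2 := Nat.mul_pos hm1 hm2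
  have hs0 : s ≠ 0 := by
    intro h
    rw [h, Matrix.det_zero] at hdet
    have : (0 : ℤ) < ((m1 * m2 : ℕ) : ℤ) ^ 2 := by positivity
    omega
  refine ⟨hs0, ?_⟩
  have hc := ct_pos hs0
  set c := ct s with hcdef
  have hpp : s = (c : ℤ) • pp s := pp_eq s
  have hdet2 : ((m1 * m2 : ℕ) : ℤ) ^ 2 = (c : ℤ) ^ 2 * (pp s).det := by
    rw [← hdet]
    conv_lhs => rw [hpp]
    rw [Matrix.det_smul, Fintype.card_fin]
  have hcd : c ∣ m1 * m2 := by
    have h1 : ((c : ℤ)) ^ 2 ∣ ((m1 * m2 : ℕ) : ℤ) ^ 2 := ⟨_, hdet2⟩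
    have h2 : c ^ 2 ∣ (m1 * m2) ^ 2 := by exact_mod_cast h1
    exact (Nat.pow_dvd_pow_iff two_ne_zero).1 h2
  obtain ⟨n0, hn0⟩ := hcd
  have hn0p : 0 < n0 := by
    rcases Nat.eq_zero_or_pos n0 with h | h
    · rw [h, mul_zero] at hn0
      omega
    · exact h
  have hdpp : (pp s).det = (n0 : ℤ) ^ 2 := by
    have h1 : (c : ℤ) ^ 2 * (pp s).det = (c : ℤ) ^ 2 * (n0 : ℤ) ^ 2 := by
      rw [← hdet2, hn0]
      push_cast
      ring
    exact mul_left_cancel₀ (by positivity) h1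
  refine ⟨n0, hn0p, hdpp, hn0.symm, ?_⟩
  -- `m2² = c f`, `f ∣ n0²`
  obtain ⟨f, hf⟩ : ∃ f : ℕ, f = ct (h2 * pp s) := ⟨_, rfl⟩
  have hcf : c * f = m2 ^ 2 := by
    have e1 : h2 * s = ((m2 ^ 2 : ℕ) : ℤ) • h1 := by
      rw [hs, ← Matrix.mul_assoc, Matrix.mul_adjugate, d2, Matrix.smul_mul, Matrix.one_mul]
      push_cast
      rfl
    have e2 : h2 * s = (c : ℤ) • (h2 * pp s) := by
      conv_lhs => rw [hpp]
      rw [Matrix.mul_smul]
    rw [hf, ← ct_smul, ← e2, e1, ct_smul, ct_prim p1, mul_one]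
  have hfn : f ∣ n0 ^ 2 := by
    have e1 : (h2 * pp s) * (pp s).adjugate = ((n0 ^ 2 : ℕ) : ℤ) • h2 := by
      rw [Matrix.mul_assoc, Matrix.mul_adjugate, hdpp, Matrix.mul_smul, Matrix.mul_one]
      push_cast
      rfl
    have e2 : (f : ℤ) ∣ (ct (((n0 ^ 2 : ℕ) : ℤ) • h2) : ℤ) := by
      refine dvd_ct fun i j => ?_
      rw [← e1, Matrix.mul_apply]
      refine Finset.dvd_sum fun l _ => Dvd.dvd.mul_right ?_ _
      rw [hf]
      exact ct_dvd _ _ _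
    rw [ct_smul, ct_prim p2, mul_one] at e2
    exact_mod_cast e2
  -- the part of `c` composed of primes of `n0`
  set N := n0 ^ (4 * k) with hN
  have hNp : 0 < N := pow_pos hn0p _
  obtain ⟨ca, hca⟩ : ∃ ca : ℕ, ca = Nat.gcd c N := ⟨_, rfl⟩
  have hcap : 0 < ca := by
    rw [hca]
    exact Nat.gcd_pos_of_pos_left _ hc
  obtain ⟨d, hd⟩ : ca ∣ c := hca ▸ Nat.gcd_dvd_left c N
  have hdp : 0 < d := by
    rcases Nat.eq_zero_or_pos d with h | h
    · rw [h, mul_zero] at hd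
      omega
    · exact h
  have hcl : c.primeFactorsList.length ≤ 4 * k := by
    have h1 := length_mul hc.ne' hn0p.ne'
    rw [← hn0, length_mul hm1.ne' hm2.ne'] at h1
    omega
  have hcop : Nat.Coprime d n0 := by
    refine Nat.coprime_of_dvd fun p hp hpd hpn => ?_
    obtain ⟨v, hv⟩ : ∃ v : ℕ, v = c.factorization p := ⟨_, rfl⟩
    have hvk : v ≤ 4 * k := by
      rw [hv, ← Nat.primeFactorsList_count_eq]
      exact (List.count_le_length).trans hcl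
    have h1 : p ^ v ∣ ca := by
      rw [hca]
      refine Nat.dvd_gcd ?_ ?_
      · rw [hv]
        exact Nat.ordProj_dvd c p
      · rw [hN]
        exact (pow_dvd_pow p hvk).trans (pow_dvd_pow_of_dvd hpn _)
    have h2 : p ^ (v + 1) ∣ c := by
      rw [hd, pow_succ]
      exact mul_dvd_mul h1 hpd
    have h3 := (hp.pow_dvd_iff_le_factorization hc.ne').1 h2
    omega
  have hcop2 : Nat.Coprime d (ca * f) := by
    refine Nat.Coprime.mul_right ?_ ?_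
    · have h1 : Nat.Coprime d N := Nat.Coprime.pow_right _ hcop
      exact Nat.Coprime.coprime_dvd_right (hca ▸ Nat.gcd_dvd_right c N) h1
    · exact Nat.Coprime.coprime_dvd_right hfn (Nat.Coprime.pow_right _ hcop)
  have hdsq : d * (ca * f) = m2 ^ 2 := by
    rw [← hcf, hd]
    ring
  obtain ⟨cb, hcb⟩ := exists_eq_pow_of_mul_eq_pow (Nat.isUnit_iff.2 hcop2) hdsq
  refine ⟨ca, cb, hcap, ?_, hca ▸ Nat.gcd_dvd_right c N, ?_⟩
  · rcases Nat.eq_zero_or_pos cb with h | h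
    · rw [h] at hcb
      simp at hcb
      omega
    · exact h
  · rw [hd, hcb]

/-! ### The count -/

/-- properties of the primitive part `s0` of a loop at the cell `a` -/
def Pp (C' w L : ℝ) (a : MR) (s0 : MZ) : Prop :=
  Prim s0 ∧ 0 < lvl s0 ∧ s0.det = (lvl s0 : ℤ) ^ 2 ∧ (lvl s0 : ℝ) ≤ L ^ 2 ∧
    Near (2 * C' * C') w (lvl s0 : ℝ) (fr a a s0)

theorem fr_smul (a b : MR) (c : ℤ) (s : MZ) : fr a b (c • s) = (c : ℝ) • fr a b s := by
  have h1 : toR (c • s) = (c : ℝ) • toR s := by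
    ext i j
    show (((c • s) i j : ℤ) : ℝ) = (c : ℝ) * ((s i j : ℤ) : ℝ)
    rw [Matrix.smul_apply, smul_eq_mul]
    push_cast
    rfl
  unfold fr
  rw [h1, Matrix.mul_smul, Matrix.smul_mul]

theorem loop_props {S : Sys} {k : ℕ} {L : ℝ} (hC : 1 ≤ S.C) (hw : 0 ≤ S.w) (hw1 : S.w ≤ 1) (hU : S.Unim)
    {i : S.ι} {H : Finset (S.ι × MZ)} (hH : Hk S k L i H)
    {t : (S.ι × MZ) × (S.ι × MZ)} (ht : t ∈ prs H) :
    lp t ≠ 0 ∧ Pp ((2 * S.C) ^ k) S.w L (S.g i) (pp (lp t)) ∧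
      (ct (lp t) : ℝ) * lvl (pp (lp t)) ≤ L ^ 2 ∧
      ∃ ca cb : ℕ, 0 < ca ∧ 0 < cb ∧ ca ∣ lvl (pp (lp t)) ^ (4 * k) ∧ ct (lp t) = ca * cb ^ 2 := by
  classical
  obtain ⟨f1, -, -, -, f5, f6, -⟩ := tFr
  unfold prs at ht
  rw [Finset.mem_filter, Finset.mem_product] at ht
  obtain ⟨⟨ht1, ht2⟩, ht3⟩ := ht
  obtain ⟨v1, p1, m1, r1, b1, l1⟩ := hH t.1 ht1
  obtain ⟨v2, p2, m2, r2, b2, l2⟩ := hH t.2 ht2
  have hC' : 1 ≤ (2 * S.C) ^ k := one_le_pow₀ (by linarith)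
  obtain ⟨hs0, n0, hn0, hd, hc, ca, cb, hca, hcb, hcd, hcc⟩ :=
    shape p1 p2 r1.1 r2.1 r1.2.1 r2.2.1 l1 l2
  have hlv : lvl (pp (lp t)) = n0 := lvl_eq hd
  have hR := f5 ((2 * S.C) ^ k) ((2 * S.C) ^ k) S.w (S.g i) (S.g t.1.1) (S.g i) m1 m2 t.2.2.adjugate t.1.2
    (hU _ v1).1 hw hw1 hC' hC' r1 (by rw [ht3]; exact f6 _ _ _ _ _ _ r2)
  have hn : (0 : ℝ) ≤ (ct (lp t) : ℝ) := Nat.cast_nonneg _
  have hct : (0 : ℝ) < (ct (lp t) : ℝ) := by exact_mod_cast ct_pos hs0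
  have hb : (ct (lp t) : ℝ) * n0 ≤ L ^ 2 := by
    have e1 : (ct (lp t) : ℝ) * n0 = (m1 : ℝ) * m2 := by exact_mod_cast hc
    rw [e1, pow_two]
    exact mul_le_mul b1 b2 (Nat.cast_nonneg _) ((Nat.cast_nonneg _).trans b1)
  refine ⟨hs0, ⟨pp_prim hs0, ?_, ?_, ?_, ?_⟩, ?_, ca, cb, hca, hcb, ?_, hcc⟩
  · rw [hlv]
    exact hn0
  · rw [hlv]
    exact hd
  · rw [hlv]
    refine le_trans ?_ hb
    have : (1 : ℝ) ≤ (ct (lp t) : ℝ) := by exact_mod_cast ct_pos hs0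
    nlinarith [(Nat.cast_nonneg n0 : (0 : ℝ) ≤ n0)]
  · rw [hlv]
    have hN := hR.2.2
    have e0 : fr (S.g i) (S.g i) (t.2.2.adjugate * t.1.2) =
        (ct (lp t) : ℝ) • fr (S.g i) (S.g i) (pp (lp t)) := by
      have e1 : t.2.2.adjugate * t.1.2 = (ct (lp t) : ℤ) • pp (lp t) := pp_eq (lp t)
      rw [e1, fr_smul]
      push_cast
      rfl
    have e2 : (((m2 * m1 : ℕ)) : ℝ) = (ct (lp t) : ℝ) * n0 := by
      have : m2 * m1 = ct (lp t) * n0 := by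
        rw [mul_comm m2 m1]
        exact hc.symm
      rw [this]
      push_cast
      rfl
    rw [e0, e2] at hN
    unfold Near at hN ⊢
    simp only [Matrix.smul_apply, smul_eq_mul, abs_mul, abs_of_nonneg hn] at hN
    obtain ⟨g1, g2, g3, g4⟩ := hN
    refine ⟨?_, ?_, ?_, ?_⟩
    · refine le_of_mul_le_mul_left (g1.trans (le_of_eq ?_)) hct
      ring
    · refine le_of_mul_le_mul_left (g2.trans (le_of_eq ?_)) hct
      ring
    · refine le_of_mul_le_mul_left (g3.trans (le_of_eq ?_)) hct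
      ring
    · refine le_of_mul_le_mul_left (g4.trans (le_of_eq ?_)) hct
      ring
  · rw [hlv]
    exact hb
  · rw [hlv]
    exact hcd

/-- **(CL)** -/
theorem count_CL (S : Sys) (k : ℕ) (L B : ℝ) (hC : 1 ≤ S.C) (hw : 0 ≤ S.w) (hw1 : S.w ≤ 1) (hU : S.Unim)
    (hB : 1 ≤ B) (hO : S.Ovl ((2 * S.C) ^ k) B) (i : S.ι) (hi : i ∈ S.V)
    (H : Finset (S.ι × MZ)) (hH : Hk S k L i H) (A : Finset ((S.ι × MZ) × (S.ι × MZ))) (hA : A ⊆ prs H) :
    ∃ S0 : Finset MZ, (∀ s0 ∈ S0, Pp ((2 * S.C) ^ k) S.w L (S.g i) s0 ∧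
        ∃ t ∈ A, lp t = (ct (lp t) : ℤ) • s0 ∧ 0 < ct (lp t)) ∧
      (A.card : ℝ) ≤ B * 2 ^ (8 * k) *
        ∑ s0 ∈ S0, (((lvl s0) ^ (4 * k)).divisors.card : ℝ) * (L ^ 2 / lvl s0) ^ (3 / 2 : ℝ) := by
  classical
  refine ⟨A.image (fun t => pp (lp t)), ?_, ?_⟩
  · intro s0 hs0
    obtain ⟨t, ht, rfl⟩ := Finset.mem_image.1 hs0
    obtain ⟨h1, h2, -⟩ := loop_props hC hw hw1 hU hH (hA ht)
    exact ⟨h2, t, ht, pp_eq (lp t), ct_pos h1⟩
  set S0 := A.image (fun t => pp (lp t)) with hS0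
  set Sg := A.image lp with hSg
  have e1 : (A.card : ℝ) ≤ ∑ s ∈ Sg, B * 2 ^ (8 * k) * (ct s : ℝ) := by
    have h1 : A.card = ∑ s ∈ Sg, (A.filter (fun t => lp t = s)).card :=
      Finset.card_eq_sum_card_fiberwise (fun t ht => Finset.mem_coe.2
        (Finset.mem_image_of_mem lp (Finset.mem_coe.1 ht)))
    rw [h1]
    push_cast
    refine Finset.sum_le_sum fun s _ => ?_
    exact mult S k L B hB hO i hi H hH s _ ((Finset.filter_subset _ _).trans hA)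
      (fun t ht => (Finset.mem_filter.1 ht).2)
  have e2 : ∑ s ∈ Sg, (ct s : ℝ) = ∑ s0 ∈ S0, ∑ s ∈ Sg.filter (fun s => pp s = s0), (ct s : ℝ) := by
    refine (Finset.sum_fiberwise_of_maps_to ?_ _).symm
    intro s hs
    obtain ⟨t, ht, rfl⟩ := Finset.mem_image.1 hs
    exact Finset.mem_image.2 ⟨t, ht, rfl⟩
  have e3 : ∀ s0 ∈ S0, ∑ s ∈ Sg.filter (fun s => pp s = s0), (ct s : ℝ) ≤
      (((lvl s0) ^ (4 * k)).divisors.card : ℝ) * (L ^ 2 / lvl s0) ^ (3 / 2 : ℝ) := by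
    intro s0 hs0
    obtain ⟨t₀, ht₀, ht₁⟩ := Finset.mem_image.1 hs0
    obtain ⟨-, hPp, -⟩ := loop_props hC hw hw1 hU hH (hA ht₀)
    rw [ht₁] at hPp
    obtain ⟨-, hlpos, -, -, -⟩ := hPp
    have hl0 : (0 : ℝ) < lvl s0 := by exact_mod_cast hlpos
    set X : ℝ := L ^ 2 / lvl s0 with hX
    have hX0 : 0 ≤ X := by positivity
    set F := Sg.filter (fun s => pp s = s0) with hF
    have hprop : ∀ s ∈ F, (ct s : ℝ) ≤ X ∧ s = (ct s : ℤ) • s0 ∧ ∃ ca cb : ℕ, 0 < ca ∧ 0 < cb ∧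
        ca ∣ lvl s0 ^ (4 * k) ∧ ct s = ca * cb ^ 2 := by
      intro s hs
      obtain ⟨hs1, hs2⟩ := Finset.mem_filter.1 hs
      obtain ⟨t, ht, rfl⟩ := Finset.mem_image.1 hs1
      obtain ⟨-, -, h3, h4⟩ := loop_props hC hw hw1 hU hH (hA ht)
      rw [hs2] at h3 h4
      refine ⟨?_, ?_, h4⟩
      · rw [hX, le_div_iff₀ hl0]
        exact h3
      · rw [← hs2]
        exact pp_eq _
    choose! ca cb h1 h2 h3 h4 using fun s hs => (hprop s hs).2.2
    have hcard : (F.card : ℝ) ≤ (((lvl s0) ^ (4 * k)).divisors.card : ℝ) * √X := by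
      have g1 : F.card ≤ (((lvl s0) ^ (4 * k)).divisors ×ˢ Finset.Icc 1 ⌊√X⌋₊).card := by
        refine Finset.card_le_card_of_injOn (fun s => (ca s, cb s)) ?_ ?_
        · intro s hs
          have hs' := Finset.mem_coe.1 hs
          rw [Finset.mem_coe, Finset.mem_product]
          refine ⟨Nat.mem_divisors.2 ⟨h3 s hs', (pow_pos hlpos _).ne'⟩, ?_⟩
          rw [Finset.mem_Icc]
          refine ⟨h2 s hs', ?_⟩
          refine Nat.le_floor (Real.le_sqrt_of_sq_le ?_)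
          refine le_trans ?_ (hprop s hs').1
          have g2 : cb s ^ 2 ≤ ct s := by
            rw [h4 s hs']
            exact Nat.le_mul_of_pos_left _ (h1 s hs')
          exact_mod_cast g2
        · intro s hs s' hs' hss
          have hs1 := Finset.mem_coe.1 hs
          have hs2 := Finset.mem_coe.1 hs'
          have g3 := (Prod.mk.inj hss).1
          have g4 := (Prod.mk.inj hss).2
          have g5 : ct s = ct s' := by
            rw [h4 s hs1, h4 s' hs2, g3, g4]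
          rw [(hprop s hs1).2.1, (hprop s' hs2).2.1, g5]
      rw [Finset.card_product, Nat.card_Icc, Nat.add_sub_cancel] at g1
      calc (F.card : ℝ) ≤ (((lvl s0) ^ (4 * k)).divisors.card : ℝ) * (⌊√X⌋₊ : ℝ) := by exact_mod_cast g1
        _ ≤ _ := mul_le_mul_of_nonneg_left (Nat.floor_le (Real.sqrt_nonneg _)) (Nat.cast_nonneg _)
    calc ∑ s ∈ F, (ct s : ℝ) ≤ ∑ _s ∈ F, X := Finset.sum_le_sum fun s hs => (hprop s hs).1
      _ = (F.card : ℝ) * X := by rw [Finset.sum_const, nsmul_eq_mul]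
      _ ≤ ((((lvl s0) ^ (4 * k)).divisors.card : ℝ) * √X) * X := mul_le_mul_of_nonneg_right hcard hX0
      _ = (((lvl s0) ^ (4 * k)).divisors.card : ℝ) * X ^ (3 / 2 : ℝ) := by
          rw [mul_assoc]
          congr 1
          rcases hX0.eq_or_lt with h0 | h0
          · rw [← h0]
            norm_num
          · rw [Real.sqrt_eq_rpow]
            nth_rewrite 2 [← Real.rpow_one X]
            rw [← Real.rpow_add h0]
            norm_num
  calc (A.card : ℝ) ≤ ∑ s ∈ Sg, B * 2 ^ (8 * k) * (ct s : ℝ) := e1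
    _ = B * 2 ^ (8 * k) * ∑ s ∈ Sg, (ct s : ℝ) := by rw [Finset.mul_sum]
    _ ≤ _ := by
        rw [e2]
        exact mul_le_mul_of_nonneg_left (Finset.sum_le_sum e3) (by positivity)

end HSL
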