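import Mathlib

/-!
# Lattice points of `ℤ³` in a thin tube

helper26, package `HS/L`, repair (R1) of note 4706. If the tube `|F₀ v| ≤ T`, `|F₁ v|, |F₂ v| ≤ ρ` (three real
linear forms with determinant one) contains the points of the finite set `S`, then `S` has at most `162 T ρ²` points
or at most `486 C T ρ` points or at most `1 + 2 k` points, where `k • e` lies in `S` for some `e ≠ 0`.
-/

set_option autoImplicit false

namespace Pool.Agent.A54.HSL

open Finset

/-- the determinant of three integer vectors -/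
def d3 {R : Type*} [CommRing R] (u v w : Fin 3 → R) : R :=
  u 0 * (v 1 * w 2 - v 2 * w 1) - u 1 * (v 0 * w 2 - v 2 * w 0) + u 2 * (v 0 * w 1 - v 1 * w 0)

/-- the cross product -/
def cr {R : Type*} [CommRing R] (u v : Fin 3 → R) : Fin 3 → R :=
  ![u 1 * v 2 - u 2 * v 1, u 2 * v 0 - u 0 * v 2, u 0 * v 1 - u 1 * v 0]

/-- the sum of the absolute values -/
def n1 (u : Fin 3 → ℤ) : ℤ := |u 0| + |u 1| + |u 2|

lemma n1_nonneg (u : Fin 3 → ℤ) : 0 ≤ n1 u := by
  unfold n1; positivity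

lemma n1_pos {u : Fin 3 → ℤ} (h : u ≠ 0) : 0 < n1 u := by
  rcases (n1_nonneg u).lt_or_eq with h1 | h1
  · exact h1
  · exfalso
    apply h
    unfold n1 at h1
    have h0 := abs_nonneg (u 0)
    have h2 := abs_nonneg (u 1)
    have h3 := abs_nonneg (u 2)
    funext i
    have e0 : u 0 = 0 := abs_eq_zero.mp (by linarith)
    have e1 : u 1 = 0 := abs_eq_zero.mp (by linarith)
    have e2 : u 2 = 0 := abs_eq_zero.mp (by linarith)
    fin_cases i
    · exact e0
    · exact e1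
    · exact e2

lemma n1_smul (m : ℤ) (u : Fin 3 → ℤ) : n1 (m • u) = |m| * n1 u := by
  simp only [n1, Pi.smul_apply, smul_eq_mul, abs_mul]; ring

lemma cramer (u₁ u₂ u₃ v : Fin 3 → ℤ) :
    d3 u₁ u₂ u₃ • v = d3 v u₂ u₃ • u₁ + d3 u₁ v u₃ • u₂ + d3 u₁ u₂ v • u₃ := by
  funext i
  fin_cases i <;> simp [d3] <;> ring

lemma index_eq {u₁ u₂ u₃ : Fin 3 → ℤ} (hD : d3 u₁ u₂ u₃ ≠ 0) :
    Nat.card ((Fin 3 → ℤ) ⧸ Submodule.span ℤ (Set.range ![u₁, u₂, u₃])) = (d3 u₁ u₂ u₃).natAbs := by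
  have hdet : Matrix.det (Matrix.of ![u₁, u₂, u₃]) = d3 u₁ u₂ u₃ := by
    rw [Matrix.det_fin_three]
    simp [d3]
    ring
  have hli : LinearIndependent ℤ ![u₁, u₂, u₃] := by
    have h1 := Matrix.linearIndependent_rows_of_det_ne_zero (A := Matrix.of ![u₁, u₂, u₃])
      (by rw [hdet]; exact hD)
    exact h1
  have h2 := Submodule.natAbs_det_basis_change (Pi.basisFun ℤ (Fin 3))
    (Submodule.span ℤ (Set.range ![u₁, u₂, u₃])) (Module.Basis.span hli)
  rw [← h2]
  congr 1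
  have h3 : ((fun x : Submodule.span ℤ (Set.range ![u₁, u₂, u₃]) => (x : Fin 3 → ℤ)) ∘
      (Module.Basis.span hli)) = ![u₁, u₂, u₃] := by
    funext i
    simp [Module.Basis.span_apply]
  rw [h3, Pi.basisFun_det_apply]
  exact hdet

theorem card27 (S : Finset (Fin 3 → ℤ)) (u₁ u₂ u₃ : Fin 3 → ℤ) (hD : d3 u₁ u₂ u₃ ≠ 0)
    (h1 : ∀ v ∈ S, |d3 v u₂ u₃| ≤ |d3 u₁ u₂ u₃|) (h2 : ∀ v ∈ S, |d3 u₁ v u₃| ≤ |d3 u₁ u₂ u₃|)
    (h3 : ∀ v ∈ S, |d3 u₁ u₂ v| ≤ |d3 u₁ u₂ u₃|) :
    (S.card : ℤ) ≤ 27 * |d3 u₁ u₂ u₃| := by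
  classical
  set D := d3 u₁ u₂ u₃ with hDdef
  set N := Submodule.span ℤ (Set.range ![u₁, u₂, u₃]) with hN
  have hcard : Nat.card ((Fin 3 → ℤ) ⧸ N) = D.natAbs := index_eq hD
  have hDpos : 0 < |D| := abs_pos.mpr hD
  have hfin : Finite ((Fin 3 → ℤ) ⧸ N) := by
    apply Nat.finite_of_card_ne_zero
    rw [hcard]
    exact Int.natAbs_ne_zero.mpr hD
  let hft : Fintype ((Fin 3 → ℤ) ⧸ N) := Fintype.ofFinite _
  have key : S.card ≤ 27 * (Finset.univ : Finset ((Fin 3 → ℤ) ⧸ N)).card := by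
    apply Finset.card_le_mul_card_image_of_maps_to (f := fun v => Submodule.Quotient.mk (p := N) v)
    · intro a _; exact Finset.mem_univ _
    · intro b _
      have hT : ((Finset.Icc (-1 : ℤ) 1 ×ˢ Finset.Icc (-1 : ℤ) 1) ×ˢ Finset.Icc (-1 : ℤ) 1).card = 27 := by
        decide
      rw [← hT]
      apply Finset.card_le_card_of_injOn
        (fun v => (((d3 v u₂ u₃) / |D|, (d3 u₁ v u₃) / |D|), (d3 u₁ u₂ v) / |D|))
      · intro v hv
        have hvS : v ∈ S := (Finset.mem_filter.mp hv).1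
        have aux : ∀ p : ℤ, |p| ≤ |D| → p / |D| ∈ Finset.Icc (-1 : ℤ) 1 := by
          intro p hp
          rw [Finset.mem_Icc]
          obtain ⟨ha, hb⟩ := abs_le.mp hp
          constructor
          · rw [Int.le_ediv_iff_mul_le hDpos]; linarith
          · have h5 : p / |D| < 2 := by
              rw [Int.ediv_lt_iff_lt_mul hDpos]; linarith
            omega
        exact Finset.mem_product.mpr ⟨Finset.mem_product.mpr ⟨aux _ (h1 v hvS), aux _ (h2 v hvS)⟩,
          aux _ (h3 v hvS)⟩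
      · intro v hv v' hv' he
        have hq : Submodule.Quotient.mk (p := N) v = Submodule.Quotient.mk (p := N) v' := by
          rw [(Finset.mem_filter.mp hv).2, (Finset.mem_filter.mp hv').2]
        rw [Submodule.Quotient.eq, hN, Submodule.mem_span_range_iff_exists_fun] at hq
        obtain ⟨c, hc⟩ := hq
        have hc' : v - v' = c 0 • u₁ + c 1 • u₂ + c 2 • u₃ := by
          rw [← hc, Fin.sum_univ_three]
          simp
        have hv0 : ∀ i, v i = v' i + (c 0 * u₁ i + c 1 * u₂ i + c 2 * u₃ i) := by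
          intro i
          have := congrFun hc' i
          simp only [Pi.sub_apply, Pi.add_apply, Pi.smul_apply, smul_eq_mul] at this
          linarith
        simp only [Prod.mk.injEq] at he
        obtain ⟨⟨e1, e2⟩, e3⟩ := he
        have small : ∀ p q k : ℤ, p / |D| = q / |D| → p - q = k * D → k = 0 := by
          intro p q k hpq hk
          have ha := Int.emod_add_mul_ediv p |D|
          have hb := Int.emod_add_mul_ediv q |D|
          have hm1 := Int.emod_nonneg p hDpos.ne'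
          have hm2 := Int.emod_lt_of_pos p hDpos
          have hm3 := Int.emod_nonneg q hDpos.ne'
          have hm4 := Int.emod_lt_of_pos q hDpos
          have hpq' : |p - q| < |D| := by
            rw [abs_lt]
            rw [hpq] at ha
            constructor <;> linarith
          rw [hk, abs_mul] at hpq'
          by_contra hk0
          have : 1 ≤ |k| := Int.one_le_abs hk0
          nlinarith
        have k0 : c 0 = 0 := by
          apply small _ _ _ e1
          rw [hDdef]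
          simp only [d3, hv0]
          ring
        have k1 : c 1 = 0 := by
          apply small _ _ _ e2
          rw [hDdef]
          simp only [d3, hv0]
          ring
        have k2 : c 2 = 0 := by
          apply small _ _ _ e3
          rw [hDdef]
          simp only [d3, hv0]
          ring
        funext i
        rw [hv0 i, k0, k1, k2]
        ring
  have hu : (Finset.univ : Finset ((Fin 3 → ℤ) ⧸ N)).card = D.natAbs := by
    rw [← hcard, Nat.card_eq_fintype_card, Finset.card_univ]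
  rw [hu] at key
  have : (S.card : ℤ) ≤ ((27 * D.natAbs : ℕ) : ℤ) := by exact_mod_cast key
  rw [Nat.cast_mul, Int.natCast_natAbs] at this
  exact_mod_cast this

/-- a nonzero integer vector is a positive multiple of a primitive one -/
lemma prim (c : Fin 3 → ℤ) (hc : c ≠ 0) : ∃ (g : ℤ) (e a : Fin 3 → ℤ), 0 < g ∧ c = g • e ∧
    a 0 * e 0 + a 1 * e 1 + a 2 * e 2 = 1 := by
  set g : ℕ := Int.gcd (Int.gcd (c 0) (c 1)) (c 2) with hg
  have hgpos : 0 < g := by
    rcases Nat.eq_zero_or_pos g with h | h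
    · exfalso
      rw [hg, Int.gcd_eq_zero_iff] at h
      obtain ⟨h1, h2⟩ := h
      have h3 : Int.gcd (c 0) (c 1) = 0 := by exact_mod_cast h1
      rw [Int.gcd_eq_zero_iff] at h3
      apply hc
      funext i
      fin_cases i
      · exact h3.1
      · exact h3.2
      · exact h2
    · exact h
  have hgZ : (0 : ℤ) < g := by exact_mod_cast hgpos
  have d01 : (g : ℤ) ∣ (Int.gcd (c 0) (c 1) : ℤ) := Int.gcd_dvd_left ..
  have d2 : (g : ℤ) ∣ c 2 := Int.gcd_dvd_right ..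
  have d0 : (g : ℤ) ∣ c 0 := d01.trans (Int.gcd_dvd_left ..)
  have d1 : (g : ℤ) ∣ c 1 := d01.trans (Int.gcd_dvd_right ..)
  obtain ⟨e0, he0⟩ := d0
  obtain ⟨e1, he1⟩ := d1
  obtain ⟨e2, he2⟩ := d2
  have b1 := Int.gcd_eq_gcd_ab (c 0) (c 1)
  have b2 := Int.gcd_eq_gcd_ab (Int.gcd (c 0) (c 1) : ℤ) (c 2)
  set x := Int.gcdA (c 0) (c 1)
  set y := Int.gcdB (c 0) (c 1)
  set z := Int.gcdA (Int.gcd (c 0) (c 1) : ℤ) (c 2)
  set t := Int.gcdB (Int.gcd (c 0) (c 1) : ℤ) (c 2)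
  refine ⟨g, ![e0, e1, e2], ![x * z, y * z, t], hgZ, ?_, ?_⟩
  · funext i
    fin_cases i
    · simpa using he0
    · simpa using he1
    · simpa using he2
  · have h4 : (g : ℤ) * (x * z * e0 + y * z * e1 + t * e2) = g * 1 := by
      have h5 : (g : ℤ) = (c 0 * x + c 1 * y) * z + c 2 * t := by
        rw [← b1]; exact b2
      calc (g : ℤ) * (x * z * e0 + y * z * e1 + t * e2)
          = ((g * e0) * x + (g * e1) * y) * z + (g * e2) * t := by ring
        _ = g * 1 := by rw [← he0, ← he1, ← he2, mul_one]; exact h5.symm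
    have h6 := mul_left_cancel₀ hgZ.ne' h4
    simpa using h6

/-- rank two -/
theorem card2 (S : Finset (Fin 3 → ℤ)) (hS3 : ∀ u ∈ S, ∀ v ∈ S, ∀ w ∈ S, d3 u v w = 0)
    {u₁ u₂ : Fin 3 → ℤ} (hu₁ : u₁ ∈ S) (hu₂ : u₂ ∈ S) (hne : cr u₁ u₂ ≠ 0)
    (hmax : ∀ u ∈ S, ∀ v ∈ S, n1 (cr u v) ≤ n1 (cr u₁ u₂)) :
    (S.card : ℤ) ≤ 27 * n1 (cr u₁ u₂) := by
  obtain ⟨g, e, a, hg, hge, hae⟩ := prim _ hne
  have hD : d3 u₁ u₂ a = g := by
    have h0 := congrFun hge 0
    have h1 := congrFun hge 1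
    have h2 := congrFun hge 2
    simp only [cr, Matrix.cons_val_zero, Matrix.cons_val_one, Matrix.cons_val_two, Matrix.head_cons,
      Matrix.tail_cons, Pi.smul_apply, smul_eq_mul] at h0 h1 h2
    have : d3 u₁ u₂ a = a 0 * (u₁ 1 * u₂ 2 - u₁ 2 * u₂ 1) + a 1 * (u₁ 2 * u₂ 0 - u₁ 0 * u₂ 2)
        + a 2 * (u₁ 0 * u₂ 1 - u₁ 1 * u₂ 0) := by
      simp only [d3]; ring
    rw [this, h0, h1, h2]
    calc a 0 * (g * e 0) + a 1 * (g * e 1) + a 2 * (g * e 2)
        = g * (a 0 * e 0 + a 1 * e 1 + a 2 * e 2) := by ring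
      _ = g := by rw [hae, mul_one]
  have hDne : d3 u₁ u₂ a ≠ 0 := by rw [hD]; exact hg.ne'
  have hgn : g ≤ n1 (cr u₁ u₂) := by
    have h1 : n1 (cr u₁ u₂) = |g| * n1 e := by rw [hge, n1_smul]
    have he : e ≠ 0 := by
      intro h; rw [h] at hae; simp at hae
    have h2 := n1_pos he
    rw [h1, abs_of_pos hg]
    nlinarith
  -- coordinates
  have hp3 : ∀ v ∈ S, d3 u₁ u₂ v = 0 := fun v hv => hS3 _ hu₁ _ hu₂ _ hv
  have hcr : ∀ v ∈ S, d3 u₁ u₂ a • v = d3 v u₂ a • u₁ + d3 u₁ v a • u₂ := by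
    intro v hv
    have := cramer u₁ u₂ a v
    rw [hp3 v hv, zero_smul, add_zero] at this
    exact this
  have hcomp : ∀ v ∈ S, ∀ i, d3 u₁ u₂ a * v i = d3 v u₂ a * u₁ i + d3 u₁ v a * u₂ i := by
    intro v hv i
    have := congrFun (hcr v hv) i
    simpa using this
  have hn : 0 < n1 (cr u₁ u₂) := n1_pos hne
  have c1 : ∀ v ∈ S, |d3 v u₂ a| ≤ |d3 u₁ u₂ a| := by
    intro v hv
    have h1 : d3 u₁ u₂ a • cr v u₂ = d3 v u₂ a • cr u₁ u₂ := by
      have q := hcomp v hv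
      funext i
      have q0 := q 0
      have q1 := q 1
      have q2 := q 2
      fin_cases i
      · simp only [cr, Pi.smul_apply, smul_eq_mul, Fin.zero_eta, Matrix.cons_val_zero]
        linear_combination q1 * u₂ 2 - q2 * u₂ 1
      · simp only [cr, Pi.smul_apply, smul_eq_mul, Fin.mk_one, Matrix.cons_val_one, Matrix.cons_val]
        linear_combination q2 * u₂ 0 - q0 * u₂ 2
      · simp only [cr, Pi.smul_apply, smul_eq_mul, Fin.reduceFinMk, Matrix.cons_val]
        linear_combination q0 * u₂ 1 - q1 * u₂ 0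
    have h2 : |d3 u₁ u₂ a| * n1 (cr v u₂) = |d3 v u₂ a| * n1 (cr u₁ u₂) := by
      rw [← n1_smul, h1, n1_smul]
    have h3 := hmax v hv u₂ hu₂
    have h4 := abs_nonneg (d3 u₁ u₂ a)
    by_contra hcon
    push Not at hcon
    have : |d3 u₁ u₂ a| * n1 (cr v u₂) < |d3 v u₂ a| * n1 (cr u₁ u₂) :=
      calc |d3 u₁ u₂ a| * n1 (cr v u₂) ≤ |d3 u₁ u₂ a| * n1 (cr u₁ u₂) := by gcongr
        _ < |d3 v u₂ a| * n1 (cr u₁ u₂) := by gcongr
    linarith
  have c2 : ∀ v ∈ S, |d3 u₁ v a| ≤ |d3 u₁ u₂ a| := by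
    intro v hv
    have h1 : d3 u₁ u₂ a • cr u₁ v = d3 u₁ v a • cr u₁ u₂ := by
      have q := hcomp v hv
      funext i
      have q0 := q 0
      have q1 := q 1
      have q2 := q 2
      fin_cases i
      · simp only [cr, Pi.smul_apply, smul_eq_mul, Fin.zero_eta, Matrix.cons_val_zero]
        linear_combination q2 * u₁ 1 - q1 * u₁ 2
      · simp only [cr, Pi.smul_apply, smul_eq_mul, Fin.mk_one, Matrix.cons_val_one, Matrix.cons_val]
        linear_combination q0 * u₁ 2 - q2 * u₁ 0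
      · simp only [cr, Pi.smul_apply, smul_eq_mul, Fin.reduceFinMk, Matrix.cons_val]
        linear_combination q1 * u₁ 0 - q0 * u₁ 1
    have h2 : |d3 u₁ u₂ a| * n1 (cr u₁ v) = |d3 u₁ v a| * n1 (cr u₁ u₂) := by
      rw [← n1_smul, h1, n1_smul]
    have h3 := hmax u₁ hu₁ v hv
    have h4 := abs_nonneg (d3 u₁ u₂ a)
    by_contra hcon
    push Not at hcon
    have : |d3 u₁ u₂ a| * n1 (cr u₁ v) < |d3 u₁ v a| * n1 (cr u₁ u₂) :=
      calc |d3 u₁ u₂ a| * n1 (cr u₁ v) ≤ |d3 u₁ u₂ a| * n1 (cr u₁ u₂) := by gcongr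
        _ < |d3 u₁ v a| * n1 (cr u₁ u₂) := by gcongr
    linarith
  have key := card27 S u₁ u₂ a hDne c1 c2 (fun v hv => by rw [hp3 v hv, abs_zero]; exact abs_nonneg _)
  rw [hD, abs_of_pos hg] at key
  linarith

/-- rank one -/
theorem card1 (S : Finset (Fin 3 → ℤ)) (hS2 : ∀ u ∈ S, ∀ v ∈ S, cr u v = 0) :
    S.card ≤ 1 ∨ ∃ (k : ℕ) (e : Fin 3 → ℤ), 1 ≤ k ∧ e ≠ 0 ∧ (k : ℤ) • e ∈ S ∧ S.card ≤ 2 * k + 1 := by
  classical
  by_cases h0 : ∃ u ∈ S, u ≠ 0
  swap
  · left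
    push Not at h0
    rw [Finset.card_le_one]
    intro a ha b hb
    rw [h0 a ha, h0 b hb]
  right
  obtain ⟨w, hw, hw0⟩ := h0
  obtain ⟨u, hu, hmax⟩ := Finset.exists_max_image S n1 ⟨w, hw⟩
  have hu0 : u ≠ 0 := by
    intro h
    have h1 := hmax w hw
    have h2 := n1_pos hw0
    rw [h] at h1
    simp [n1] at h1 h2
    have h3 := n1_nonneg w
    unfold n1 at h3
    linarith
  obtain ⟨g, e, a, hg, hge, hae⟩ := prim u hu0
  have he : e ≠ 0 := by
    intro h; rw [h] at hae; simp at hae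
  refine ⟨g.toNat, e, ?_, he, ?_, ?_⟩
  · omega
  · rw [Int.toNat_of_nonneg hg.le, ← hge]; exact hu
  · have hpar : ∀ v ∈ S, v = (a 0 * v 0 + a 1 * v 1 + a 2 * v 2) • e := by
      intro v hv
      have h1 := hS2 v hv u hu
      have h10 := congrFun h1 0
      have h11 := congrFun h1 1
      have h12 := congrFun h1 2
      simp only [cr, hge, Pi.smul_apply, smul_eq_mul, Matrix.cons_val_zero, Matrix.cons_val_one,
        Matrix.cons_val, Pi.zero_apply] at h10 h11 h12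
      have k0 : v 1 * e 2 - v 2 * e 1 = 0 := by
        have : g * (v 1 * e 2 - v 2 * e 1) = 0 := by linear_combination h10
        exact (mul_eq_zero.mp this).resolve_left hg.ne'
      have k1 : v 2 * e 0 - v 0 * e 2 = 0 := by
        have : g * (v 2 * e 0 - v 0 * e 2) = 0 := by linear_combination h11
        exact (mul_eq_zero.mp this).resolve_left hg.ne'
      have k2 : v 0 * e 1 - v 1 * e 0 = 0 := by
        have : g * (v 0 * e 1 - v 1 * e 0) = 0 := by linear_combination h12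
        exact (mul_eq_zero.mp this).resolve_left hg.ne'
      funext i
      fin_cases i
      · simp only [Fin.zero_eta, Pi.smul_apply, smul_eq_mul]
        linear_combination (-(v 0)) * hae - a 2 * k1 + a 1 * k2
      · simp only [Fin.mk_one, Pi.smul_apply, smul_eq_mul]
        linear_combination (-(v 1)) * hae + a 2 * k0 - a 0 * k2
      · simp only [Fin.reduceFinMk, Pi.smul_apply, smul_eq_mul]
        linear_combination (-(v 2)) * hae - a 1 * k0 + a 0 * k1
    have hsub : S ⊆ (Finset.Icc (-g) g).image (fun m => m • e) := by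
      intro v hv
      rw [Finset.mem_image]
      refine ⟨a 0 * v 0 + a 1 * v 1 + a 2 * v 2, ?_, (hpar v hv).symm⟩
      have h1 := hmax v hv
      rw [hpar v hv, hge, n1_smul, n1_smul, abs_of_pos hg] at h1
      have h2 := n1_pos he
      have h3 := le_of_mul_le_mul_right h1 h2
      rw [Finset.mem_Icc]
      have h4 : (a 0 * ((a 0 * v 0 + a 1 * v 1 + a 2 * v 2) • e) 0
          + a 1 * ((a 0 * v 0 + a 1 * v 1 + a 2 * v 2) • e) 1
          + a 2 * ((a 0 * v 0 + a 1 * v 1 + a 2 * v 2) • e) 2) = a 0 * v 0 + a 1 * v 1 + a 2 * v 2 := by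
        simp only [Pi.smul_apply, smul_eq_mul]
        linear_combination (a 0 * v 0 + a 1 * v 1 + a 2 * v 2) * hae
      exact abs_le.mp h3
    have hc := Finset.card_le_card hsub
    have hc2 := hc.trans Finset.card_image_le
    rw [Int.card_Icc] at hc2
    omega

/-- **lattice points in a convex body, integral form**: all triple determinants are at most `B₃`, all cross products
have norm at most `B₂` -/
theorem card_alt (S : Finset (Fin 3 → ℤ)) {B₂ B₃ : ℤ} (h2 : ∀ u ∈ S, ∀ v ∈ S, n1 (cr u v) ≤ B₂)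
    (h3 : ∀ u ∈ S, ∀ v ∈ S, ∀ w ∈ S, |d3 u v w| ≤ B₃) :
    (S.card : ℤ) ≤ 27 * B₃ ∨ (S.card : ℤ) ≤ 27 * B₂ ∨ S.card ≤ 1 ∨
      ∃ (k : ℕ) (e : Fin 3 → ℤ), 1 ≤ k ∧ e ≠ 0 ∧ (k : ℤ) • e ∈ S ∧ S.card ≤ 2 * k + 1 := by
  classical
  by_cases hr3 : ∃ u ∈ S, ∃ v ∈ S, ∃ w ∈ S, d3 u v w ≠ 0
  · left
    obtain ⟨u, hu, v, hv, w, hw, hD⟩ := hr3
    obtain ⟨⟨⟨u₁, u₂⟩, u₃⟩, hmem, hmax⟩ := Finset.exists_max_image ((S ×ˢ S) ×ˢ S)
      (fun t => |d3 t.1.1 t.1.2 t.2|) ⟨((u, v), w), by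
        exact Finset.mem_product.mpr ⟨Finset.mem_product.mpr ⟨hu, hv⟩, hw⟩⟩
    rw [Finset.mem_product, Finset.mem_product] at hmem
    obtain ⟨⟨m1, m2⟩, m3⟩ := hmem
    simp only at m1 m2 m3
    have hle : ∀ x ∈ S, ∀ y ∈ S, ∀ z ∈ S, |d3 x y z| ≤ |d3 u₁ u₂ u₃| := by
      intro x hx y hy z hz
      exact hmax ((x, y), z) (Finset.mem_product.mpr ⟨Finset.mem_product.mpr ⟨hx, hy⟩, hz⟩)
    have hne : d3 u₁ u₂ u₃ ≠ 0 := by
      have h4 := hle u hu v hv w hw
      have h5 := abs_pos.mpr hD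
      exact abs_pos.mp (h5.trans_le h4)
    have := card27 S u₁ u₂ u₃ hne (fun x hx => hle _ hx _ m2 _ m3) (fun x hx => hle _ m1 _ hx _ m3)
      (fun x hx => hle _ m1 _ m2 _ hx)
    linarith [h3 u₁ m1 u₂ m2 u₃ m3]
  push Not at hr3
  by_cases hr2 : ∃ u ∈ S, ∃ v ∈ S, cr u v ≠ 0
  · right; left
    obtain ⟨u, hu, v, hv, hD⟩ := hr2
    obtain ⟨⟨u₁, u₂⟩, hmem, hmax⟩ := Finset.exists_max_image (S ×ˢ S)
      (fun t => n1 (cr t.1 t.2)) ⟨(u, v), Finset.mem_product.mpr ⟨hu, hv⟩⟩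
    rw [Finset.mem_product] at hmem
    obtain ⟨m1, m2⟩ := hmem
    simp only at m1 m2
    have hle : ∀ x ∈ S, ∀ y ∈ S, n1 (cr x y) ≤ n1 (cr u₁ u₂) := by
      intro x hx y hy
      exact hmax (x, y) (Finset.mem_product.mpr ⟨hx, hy⟩)
    have hne : cr u₁ u₂ ≠ 0 := by
      intro h
      have h4 := hle u hu v hv
      have h5 := n1_pos hD
      rw [h] at h4
      simp [n1] at h4
      have h6 := n1_nonneg (cr u v)
      unfold n1 at h5 h6
      linarith
    have := card2 S hr3 m1 m2 hne hle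
    linarith [h2 u₁ m1 u₂ m2]
  push Not at hr2
  right; right
  exact card1 S hr2

/-- **lattice points in a thin tube** -/
theorem lat_tube (a : Fin 3 → Fin 3 → ℝ) {C T ρ : ℝ} (hC : ∀ i j, |a i j| ≤ C) (hdet : d3 (a 0) (a 1) (a 2) = 1)
    (hρ : 0 ≤ ρ) (hρT : ρ ≤ T) (S : Finset (Fin 3 → ℤ))
    (h0 : ∀ v ∈ S, |∑ j, a 0 j * v j| ≤ T) (h1 : ∀ v ∈ S, |∑ j, a 1 j * v j| ≤ ρ)
    (h2 : ∀ v ∈ S, |∑ j, a 2 j * v j| ≤ ρ) :
    (S.card : ℝ) ≤ 162 * (T * ρ ^ 2) ∨ (S.card : ℝ) ≤ 486 * (C * (T * ρ)) ∨ S.card ≤ 1 ∨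
      ∃ (k : ℕ) (e : Fin 3 → ℤ), 1 ≤ k ∧ e ≠ 0 ∧ |∑ j, a 0 j * e j| ≤ T / k ∧ |∑ j, a 1 j * e j| ≤ ρ / k ∧
        |∑ j, a 2 j * e j| ≤ ρ / k ∧ S.card ≤ 2 * k + 1 := by
  have hT : 0 ≤ T := hρ.trans hρT
  have hC0 : 0 ≤ C := (abs_nonneg _).trans (hC 0 0)
  set F : (Fin 3 → ℤ) → Fin 3 → ℝ := fun v i => ∑ j, a i j * v j with hF
  have eF : ∀ v i, F v i = a i 0 * v 0 + a i 1 * v 1 + a i 2 * v 2 := by
    intro v i; simp [hF, Fin.sum_univ_three]
  have g0 : ∀ v ∈ S, |F v 0| ≤ T := h0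
  have g1 : ∀ v ∈ S, |F v 1| ≤ ρ := h1
  have g2 : ∀ v ∈ S, |F v 2| ≤ ρ := h2
  have hd : a 0 0 * (a 1 1 * a 2 2 - a 1 2 * a 2 1) - a 0 1 * (a 1 0 * a 2 2 - a 1 2 * a 2 0)
      + a 0 2 * (a 1 0 * a 2 1 - a 1 1 * a 2 0) = 1 := hdet
  -- determinants
  have k3 : ∀ u ∈ S, ∀ v ∈ S, ∀ w ∈ S, |d3 u v w| ≤ ⌊6 * (T * ρ ^ 2)⌋ := by
    intro u hu v hv w hw
    rw [Int.le_floor]
    have e1 : ((|d3 u v w| : ℤ) : ℝ) = |d3 (F u) (F v) (F w)| := by
      rw [Int.cast_abs]
      congr 1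
      have : d3 (F u) (F v) (F w) = (a 0 0 * (a 1 1 * a 2 2 - a 1 2 * a 2 1)
          - a 0 1 * (a 1 0 * a 2 2 - a 1 2 * a 2 0) + a 0 2 * (a 1 0 * a 2 1 - a 1 1 * a 2 0)) *
          ((d3 u v w : ℤ) : ℝ) := by
        simp only [d3, eF]; push_cast; ring
      rw [this, hd, one_mul]
    rw [e1]
    have b1 := g0 u hu
    have b2 := g1 u hu
    have b3 := g2 u hu
    have b4 := g0 v hv
    have b5 := g1 v hv
    have b6 := g2 v hv
    have b7 := g0 w hw
    have b8 := g1 w hw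
    have b9 := g2 w hw
    have tri : |d3 (F u) (F v) (F w)| ≤ |F u 0| * (|F v 1| * |F w 2| + |F v 2| * |F w 1|)
        + |F u 1| * (|F v 0| * |F w 2| + |F v 2| * |F w 0|)
        + |F u 2| * (|F v 0| * |F w 1| + |F v 1| * |F w 0|) := by
      simp only [d3]
      refine (abs_add_le _ _).trans (add_le_add ((abs_sub _ _).trans (add_le_add ?_ ?_)) ?_)
      · rw [abs_mul]; gcongr; exact (abs_sub _ _).trans (by rw [abs_mul, abs_mul])
      · rw [abs_mul]; gcongr; exact (abs_sub _ _).trans (by rw [abs_mul, abs_mul])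
      · rw [abs_mul]; gcongr; exact (abs_sub _ _).trans (by rw [abs_mul, abs_mul])
    refine tri.trans ?_
    calc |F u 0| * (|F v 1| * |F w 2| + |F v 2| * |F w 1|)
        + |F u 1| * (|F v 0| * |F w 2| + |F v 2| * |F w 0|)
        + |F u 2| * (|F v 0| * |F w 1| + |F v 1| * |F w 0|)
        ≤ T * (ρ * ρ + ρ * ρ) + ρ * (T * ρ + ρ * T) + ρ * (T * ρ + ρ * T) := by gcongr
      _ = 6 * (T * ρ ^ 2) := by ring
  -- cross products
  have k2 : ∀ u ∈ S, ∀ v ∈ S, n1 (cr u v) ≤ ⌊18 * (C * (T * ρ))⌋ := by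
    intro u hu v hv
    rw [Int.le_floor]
    set X : Fin 3 → ℝ := cr (F u) (F v) with hX
    have X0 : |X 0| ≤ 2 * (T * ρ) := by
      have : X 0 = F u 1 * F v 2 - F u 2 * F v 1 := by simp [hX, cr]
      rw [this]
      refine (abs_sub _ _).trans ?_
      rw [abs_mul, abs_mul]
      calc |F u 1| * |F v 2| + |F u 2| * |F v 1| ≤ ρ * ρ + ρ * ρ := by
            gcongr
            · exact g1 u hu
            · exact g2 v hv
            · exact g2 u hu
            · exact g1 v hv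
        _ ≤ T * ρ + T * ρ := by gcongr
        _ = 2 * (T * ρ) := by ring
    have X1 : |X 1| ≤ 2 * (T * ρ) := by
      have : X 1 = F u 2 * F v 0 - F u 0 * F v 2 := by simp [hX, cr]
      rw [this]
      refine (abs_sub _ _).trans ?_
      rw [abs_mul, abs_mul]
      calc |F u 2| * |F v 0| + |F u 0| * |F v 2| ≤ ρ * T + T * ρ := by
            gcongr
            · exact g2 u hu
            · exact g0 v hv
            · exact g0 u hu
            · exact g2 v hv
        _ = 2 * (T * ρ) := by ring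
    have X2 : |X 2| ≤ 2 * (T * ρ) := by
      have : X 2 = F u 0 * F v 1 - F u 1 * F v 0 := by simp [hX, cr]
      rw [this]
      refine (abs_sub _ _).trans ?_
      rw [abs_mul, abs_mul]
      calc |F u 0| * |F v 1| + |F u 1| * |F v 0| ≤ T * ρ + ρ * T := by
            gcongr
            · exact g0 u hu
            · exact g1 v hv
            · exact g1 u hu
            · exact g0 v hv
        _ = 2 * (T * ρ) := by ring
    have comp : ∀ i, ((cr u v i : ℤ) : ℝ) = a 0 i * X 0 + a 1 i * X 1 + a 2 i * X 2 := by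
      intro i
      have x0 : X 0 = F u 1 * F v 2 - F u 2 * F v 1 := by simp [hX, cr]
      have x1 : X 1 = F u 2 * F v 0 - F u 0 * F v 2 := by simp [hX, cr]
      have x2 : X 2 = F u 0 * F v 1 - F u 1 * F v 0 := by simp [hX, cr]
      rw [x0, x1, x2]
      simp only [eF]
      fin_cases i
      · simp only [cr, Fin.zero_eta, Matrix.cons_val_zero]
        push_cast
        linear_combination (-((u 1 : ℝ) * v 2 - u 2 * v 1)) * hd
      · simp only [cr, Fin.mk_one, Matrix.cons_val_one, Matrix.cons_val]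
        push_cast
        linear_combination (-((u 2 : ℝ) * v 0 - u 0 * v 2)) * hd
      · simp only [cr, Fin.reduceFinMk, Matrix.cons_val]
        push_cast
        linear_combination (-((u 0 : ℝ) * v 1 - u 1 * v 0)) * hd
    have bound : ∀ i, |((cr u v i : ℤ) : ℝ)| ≤ 6 * (C * (T * ρ)) := by
      intro i
      rw [comp i]
      refine (abs_add_le _ _).trans ?_
      have q1 := abs_add_le (a 0 i * X 0) (a 1 i * X 1)
      rw [abs_mul, abs_mul] at q1
      rw [abs_mul (a 2 i)]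
      have r0 : |a 0 i| * |X 0| ≤ C * (2 * (T * ρ)) := by gcongr; exact hC 0 i
      have r1 : |a 1 i| * |X 1| ≤ C * (2 * (T * ρ)) := by gcongr; exact hC 1 i
      have r2 : |a 2 i| * |X 2| ≤ C * (2 * (T * ρ)) := by gcongr; exact hC 2 i
      linarith
    have b0 := bound 0
    have b1 := bound 1
    have b2 := bound 2
    unfold n1
    push_cast
    linarith
  rcases card_alt S k2 k3 with h | h | h | ⟨k, e, hk, he, hm, hcard⟩
  · left
    have h5 : (S.card : ℝ) ≤ 27 * (⌊6 * (T * ρ ^ 2)⌋ : ℝ) := by exact_mod_cast h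
    have h6 := Int.floor_le (6 * (T * ρ ^ 2))
    linarith
  · right; left
    have h5 : (S.card : ℝ) ≤ 27 * (⌊18 * (C * (T * ρ))⌋ : ℝ) := by exact_mod_cast h
    have h6 := Int.floor_le (18 * (C * (T * ρ)))
    linarith
  · right; right; left; exact h
  · right; right; right
    have hk0 : (0 : ℝ) < k := by exact_mod_cast hk
    have hsc : ∀ i, F ((k : ℤ) • e) i = k * F e i := by
      intro i; rw [eF, eF]; simp only [Pi.smul_apply, smul_eq_mul]; push_cast; ring
    refine ⟨k, e, hk, he, ?_, ?_, ?_, hcard⟩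
    · have h5 := g0 _ hm
      rw [hsc, abs_mul, abs_of_pos hk0] at h5
      rw [le_div_iff₀ hk0, mul_comm]; exact h5
    · have h5 := g1 _ hm
      rw [hsc, abs_mul, abs_of_pos hk0] at h5
      rw [le_div_iff₀ hk0, mul_comm]; exact h5
    · have h5 := g2 _ hm
      rw [hsc, abs_mul, abs_of_pos hk0] at h5
      rw [le_div_iff₀ hk0, mul_comm]; exact h5

end Pool.Agent.A54.HSL
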