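import Pool.Agent.Lib.HS.L.SpecCL
import Pool.Agent.Lib.HS.L.Lat

/-!
PROJECT H*, HS/L: `tTub`, the tube count for good cells. Proof in the docstring of `SpecCL.lean`.
-/

set_option autoImplicit false

namespace HSL

open Matrix Pool.Agent.A54.HSL

/-- the vector of a traceless matrix -/
def vec (v : MZ) : Fin 3 → ℤ := ![v 0 0, v 0 1, v 1 0]

/-- the traceless matrix of a vector -/
def mat (u : Fin 3 → ℤ) : MZ := !![u 0, u 1; u 2, -u 0]

/-- the coefficients of the frame coordinates -/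
def co (g : MR) : Fin 3 → Fin 3 → ℝ :=
  ![![g 0 0 * g 1 1 + g 0 1 * g 1 0, g 1 0 * g 1 1, -(g 0 0 * g 0 1)],
    ![2 * g 0 1 * g 1 1, g 1 1 ^ 2, -g 0 1 ^ 2],
    ![-(2 * g 0 0 * g 1 0), -g 1 0 ^ 2, g 0 0 ^ 2]]

theorem mat_trace (u : Fin 3 → ℤ) : (mat u).trace = 0 := by
  rw [Matrix.trace_fin_two]; simp [mat]

theorem vec_mat (u : Fin 3 → ℤ) : vec (mat u) = u := by
  funext i; fin_cases i <;> simp [vec, mat]

theorem mat_vec (v : MZ) (hv : v.trace = 0) : mat (vec v) = v := by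
  rw [Matrix.trace_fin_two] at hv
  ext i j
  fin_cases i <;> fin_cases j <;> simp [vec, mat]
  linarith

theorem mat_ne_zero {u : Fin 3 → ℤ} (hu : u ≠ 0) : mat u ≠ 0 := by
  intro h
  apply hu
  rw [← vec_mat u, h]
  funext i; fin_cases i <;> simp [vec]

theorem fr_vec (g : MR) (v : MZ) (hv : v.trace = 0) :
    fr g g v 0 0 = ∑ j, co g 0 j * (vec v j : ℝ) ∧ fr g g v 0 1 = ∑ j, co g 1 j * (vec v j : ℝ) ∧
      fr g g v 1 0 = ∑ j, co g 2 j * (vec v j : ℝ) := by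
  have h11 : (v 1 1 : ℝ) = -(v 0 0 : ℝ) := by
    rw [Matrix.trace_fin_two] at hv
    have : v 1 1 = - v 0 0 := by linarith
    rw [this]; push_cast; ring
  have a00 : g.adjugate 0 0 = g 1 1 := by simp [Matrix.adjugate_fin_two]
  have a01 : g.adjugate 0 1 = -g 0 1 := by simp [Matrix.adjugate_fin_two]
  have a10 : g.adjugate 1 0 = -g 1 0 := by simp [Matrix.adjugate_fin_two]
  have a11 : g.adjugate 1 1 = g 0 0 := by simp [Matrix.adjugate_fin_two]
  refine ⟨?_, ?_, ?_⟩ <;>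
    simp only [fr, Matrix.mul_apply, Fin.sum_univ_two, toR, Matrix.map_apply, a00, a01, a10, a11,
      h11, co, vec, Fin.sum_univ_three, Matrix.cons_val_zero, Matrix.cons_val_one,
      Matrix.cons_val] <;> ring

theorem co_det (g : MR) (hg : g.det = 1) : d3 (co g 0) (co g 1) (co g 2) = 1 := by
  rw [Matrix.det_fin_two] at hg
  have h3 : (g 0 0 * g 1 1 - g 0 1 * g 1 0) ^ 3 = 1 := by rw [hg]; norm_num
  simp only [d3, co, Matrix.cons_val_zero, Matrix.cons_val_one, Matrix.cons_val]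
  linear_combination h3

theorem co_le (g : MR) {R : ℝ} (hR : 1 ≤ R) (hg : ∀ a b, |g a b| ≤ R) (i j : Fin 3) :
    |co g i j| ≤ 2 * R ^ 2 := by
  have h2 : ∀ a b c d, |g a b * g c d| ≤ R ^ 2 := by
    intro a b c d
    rw [abs_mul, sq]
    exact mul_le_mul (hg _ _) (hg _ _) (abs_nonneg _) (by linarith)
  have hsq : ∀ a b, |g a b ^ 2| ≤ R ^ 2 := by
    intro a b
    have := h2 a b a b
    rwa [← sq] at this
  have hR2 : 0 ≤ R ^ 2 := by positivity
  fin_cases i <;> fin_cases j <;>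
    simp only [co, Fin.zero_eta, Fin.mk_one, Fin.reduceFinMk, Fin.isValue, Matrix.cons_val_zero,
      Matrix.cons_val_one, Matrix.cons_val]
  · refine (abs_add_le _ _).trans ?_
    linarith [h2 0 0 1 1, h2 0 1 1 0]
  · linarith [h2 1 0 1 1]
  · rw [abs_neg]; linarith [h2 0 0 0 1]
  · rw [mul_assoc, abs_mul, abs_two]; linarith [h2 0 1 1 1]
  · linarith [hsq 1 1]
  · rw [abs_neg]; linarith [hsq 0 1]
  · rw [abs_neg, mul_assoc, abs_mul, abs_two]; linarith [h2 0 0 1 0]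
  · rw [abs_neg]; linarith [hsq 1 0]
  · linarith [hsq 0 0]

theorem good_lt (S : Sys) (hK : 1 ≤ S.K) {i : S.ι} (hg : S.GoodT i) {T : ℝ} {v : MZ} (hv : v ≠ 0)
    (ht : v.trace = 0) (h0 : |fr (S.g i) (S.g i) v 0 0| ≤ T)
    (h1 : |fr (S.g i) (S.g i) v 0 1| ≤ T / S.K ^ 2)
    (h2 : |fr (S.g i) (S.g i) v 1 0| ≤ T / S.K ^ 2) : S.K ^ (1 - 1 / 200 : ℝ) < T := by
  by_contra hc
  push Not at hc
  have hK0 : 0 < S.K := by linarith
  have h3 : T / S.K ^ 2 ≤ S.K ^ (-1 - 1 / 200 : ℝ) := by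
    rw [div_le_iff₀ (by positivity)]
    calc T ≤ S.K ^ (1 - 1 / 200 : ℝ) := hc
      _ = S.K ^ (-1 - 1 / 200 : ℝ) * S.K ^ 2 := by
        rw [← Real.rpow_natCast S.K 2, ← Real.rpow_add hK0]
        congr 1; norm_num
  exact hg v hv ht (h0.trans hc) (h1.trans h3) (h2.trans h3)

theorem tTub : S_Tub := by
  intro R hR
  have hR2 : 1 ≤ R ^ 2 := by nlinarith
  refine ⟨972 * R ^ 2, by nlinarith, ?_⟩
  intro S hSR hK hU i hi hg T hT W hW
  classical
  have hK0 : 0 < S.K := by linarith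
  have hK2 : 1 ≤ S.K ^ 2 := by nlinarith
  obtain ⟨hdet, hent⟩ := hU i hi
  rw [hSR] at hent
  have hP : 0 < S.K ^ (1 - 1 / 200 : ℝ) := by positivity
  have hne : W.Nonempty → S.K ^ (1 - 1 / 200 : ℝ) ≤ T := by
    rintro ⟨v, hv⟩
    obtain ⟨a1, a2, a3, a4, a5⟩ := hW v hv
    exact (good_lt S hK hg a1 a2 a3 a4 a5).le
  have hinj : Set.InjOn vec (W : Set MZ) := by
    intro v hv v' hv' he
    rw [← mat_vec v (hW v hv).2.1, ← mat_vec v' (hW v' hv').2.1, he]
  have hcard : (W.image vec).card = W.card := Finset.card_image_of_injOn hinj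
  have hone : W.card ≤ 1 → (W.card : ℝ) ≤ T / S.K ^ (1 - 1 / 200 : ℝ) := by
    intro h
    rcases W.eq_empty_or_nonempty with he | hn
    · rw [he]; simp; positivity
    · have h1 : (W.card : ℝ) ≤ 1 := by exact_mod_cast h
      exact h1.trans ((one_le_div hP).2 (hne hn))
  -- a vector in the k-th part of the tube
  have hkth : ∀ (k : ℕ) (e : Fin 3 → ℤ), 1 ≤ k → e ≠ 0 → |∑ j, co (S.g i) 0 j * (e j : ℝ)| ≤ T / k →
      |∑ j, co (S.g i) 1 j * (e j : ℝ)| ≤ T / S.K ^ 2 / k →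
      |∑ j, co (S.g i) 2 j * (e j : ℝ)| ≤ T / S.K ^ 2 / k → W.card ≤ 2 * k + 1 →
      (W.card : ℝ) ≤ 3 * (T / S.K ^ (1 - 1 / 200 : ℝ)) := by
    intro k e hk he b0 b1 b2 hc
    have hk0 : (0 : ℝ) < k := by exact_mod_cast hk
    have hk1 : (1 : ℝ) ≤ k := by exact_mod_cast hk
    obtain ⟨c0, c1, c2⟩ := fr_vec (S.g i) (mat e) (mat_trace e)
    rw [vec_mat] at c0 c1 c2
    have := good_lt S hK hg (T := T / k) (mat_ne_zero he) (mat_trace e) (by rw [c0]; exact b0)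
      (by rw [c1, div_right_comm]; exact b1) (by rw [c2, div_right_comm]; exact b2)
    rw [lt_div_iff₀ hk0] at this
    have h3 : (k : ℝ) ≤ T / S.K ^ (1 - 1 / 200 : ℝ) := by
      rw [le_div_iff₀ hP]; linarith
    have h4 : (W.card : ℝ) ≤ 2 * k + 1 := by exact_mod_cast hc
    linarith
  have hTP : 0 ≤ T / S.K ^ (1 - 1 / 200 : ℝ) := by positivity
  have hT3 : 0 ≤ T ^ 3 / S.K ^ 4 := by positivity
  have hT2 : 0 ≤ T ^ 2 / S.K ^ 2 := by positivity
  refine ⟨hne, ?_, ?_⟩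
  · have hmem : ∀ u ∈ W.image vec, |∑ j, co (S.g i) 0 j * (u j : ℝ)| ≤ T ∧
        |∑ j, co (S.g i) 1 j * (u j : ℝ)| ≤ T / S.K ^ 2 ∧
        |∑ j, co (S.g i) 2 j * (u j : ℝ)| ≤ T / S.K ^ 2 := by
      intro u hu
      obtain ⟨v, hv, rfl⟩ := Finset.mem_image.1 hu
      obtain ⟨a1, a2, a3, a4, a5⟩ := hW v hv
      obtain ⟨c0, c1, c2⟩ := fr_vec (S.g i) v a2
      rw [← c0, ← c1, ← c2]
      exact ⟨a3, a4, a5⟩
    have hlat := lat_tube (co (S.g i)) (C := 2 * R ^ 2) (T := T) (ρ := T / S.K ^ 2)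
      (co_le (S.g i) hR hent) (co_det (S.g i) hdet) (by positivity) (div_le_self hT hK2)
      (W.image vec) (fun u hu => (hmem u hu).1) (fun u hu => (hmem u hu).2.1)
      (fun u hu => (hmem u hu).2.2)
    rw [hcard] at hlat
    have e1 : T * (T / S.K ^ 2) ^ 2 = T ^ 3 / S.K ^ 4 := by field_simp
    have e2 : T * (T / S.K ^ 2) = T ^ 2 / S.K ^ 2 := by field_simp
    rw [e1, e2] at hlat
    rcases hlat with h | h | h | ⟨k, e, hk, he, b0, b1, b2, hc⟩
    · nlinarith [mul_nonneg (by positivity : (0:ℝ) ≤ R ^ 2) hT3, mul_nonneg (by positivity : (0:ℝ) ≤ R ^ 2) hT2, mul_nonneg (by positivity : (0:ℝ) ≤ R ^ 2) hTP]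
    · nlinarith [mul_nonneg (by positivity : (0:ℝ) ≤ R ^ 2) hT3, mul_nonneg (by positivity : (0:ℝ) ≤ R ^ 2) hT2, mul_nonneg (by positivity : (0:ℝ) ≤ R ^ 2) hTP]
    · have := hone h
      nlinarith [mul_nonneg (by positivity : (0:ℝ) ≤ R ^ 2) hT3, mul_nonneg (by positivity : (0:ℝ) ≤ R ^ 2) hT2, mul_nonneg (by positivity : (0:ℝ) ≤ R ^ 2) hTP]
    · have := hkth k e hk he b0 b1 b2 hc
      nlinarith [mul_nonneg (by positivity : (0:ℝ) ≤ R ^ 2) hT3, mul_nonneg (by positivity : (0:ℝ) ≤ R ^ 2) hT2, mul_nonneg (by positivity : (0:ℝ) ≤ R ^ 2) hTP]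
  · intro hcomm
    have hcr : ∀ u ∈ W.image vec, ∀ u' ∈ W.image vec, cr u u' = 0 := by
      intro u hu u' hu'
      obtain ⟨v, hv, rfl⟩ := Finset.mem_image.1 hu
      obtain ⟨v', hv', rfl⟩ := Finset.mem_image.1 hu'
      have h1 := hcomm v hv v' hv'
      have t1 := (hW v hv).2.1
      have t2 := (hW v' hv').2.1
      rw [Matrix.trace_fin_two] at t1 t2
      have h00 := congrFun (congrFun h1 0) 0
      have h01 := congrFun (congrFun h1 0) 1
      have h10 := congrFun (congrFun h1 1) 0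
      simp only [brk, Matrix.sub_apply, Matrix.mul_apply, Fin.sum_univ_two, Matrix.zero_apply]
        at h00 h01 h10
      have t1' : v 1 1 = - v 0 0 := by linarith
      have t2' : v' 1 1 = - v' 0 0 := by linarith
      rw [t1', t2'] at h01 h10
      funext j
      fin_cases j <;>
        simp only [cr, vec, Fin.zero_eta, Fin.mk_one, Fin.reduceFinMk, Fin.isValue,
          Matrix.cons_val_zero, Matrix.cons_val_one, Matrix.cons_val, Pi.zero_apply] <;> linarith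
    rcases card1 (W.image vec) hcr with h | ⟨k, e, hk, he, hmem, hc⟩
    · rw [hcard] at h
      have := hone h
      nlinarith
    · rw [hcard] at hc
      obtain ⟨v, hv, hve⟩ := Finset.mem_image.1 hmem
      obtain ⟨a1, a2, a3, a4, a5⟩ := hW v hv
      obtain ⟨c0, c1, c2⟩ := fr_vec (S.g i) v a2
      have hk0 : (0 : ℝ) < k := by exact_mod_cast hk
      have hsum : ∀ l : Fin 3, ∑ j, co (S.g i) l j * (vec v j : ℝ) =
          k * ∑ j, co (S.g i) l j * (e j : ℝ) := by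
        intro l
        rw [hve, Finset.mul_sum]
        apply Finset.sum_congr rfl
        intro j _
        simp only [Pi.smul_apply, smul_eq_mul]
        push_cast; ring
      have hdiv : ∀ (l : Fin 3) (X : ℝ), |∑ j, co (S.g i) l j * (vec v j : ℝ)| ≤ X →
          |∑ j, co (S.g i) l j * (e j : ℝ)| ≤ X / k := by
        intro l X h
        rw [hsum, abs_mul, abs_of_pos hk0] at h
        rw [le_div_iff₀ hk0]; linarith
      have := hkth k e hk he (hdiv 0 _ (by rw [← c0]; exact a3)) (hdiv 1 _ (by rw [← c1]; exact a4))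
        (hdiv 2 _ (by rw [← c2]; exact a5)) hc
      nlinarith

end HSL
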