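import Pool.Agent.Lib.HS.L.Cor
import Pool.Agent.Lib.HS.L.Tub

/-!
PROJECT H*, HS/L: `tCLAm`, the main part of S_CLA. Proof in the docstring of `SpecCL.lean`.
-/

set_option autoImplicit false

namespace HSL

open Matrix

theorem rpow_three_half (T : ℝ) (hT : 0 ≤ T) : T ^ (3 / 2 : ℝ) = √T ^ 3 := by
  rw [Real.sqrt_eq_rpow, ← Real.rpow_natCast, ← Real.rpow_mul hT]
  norm_num

/-- from `T^3`, `T^2`, `T` to `T^(3/2)` -/
theorem tube_exp {C1 D K L P T : ℝ} (hC1 : 0 ≤ C1) (hD : 1 ≤ D) (hK : 1 ≤ K) (hL : 1 ≤ L)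
    (hP : 0 < P) (hT : 1 ≤ T) (hTL : T ≤ L ^ 2) (hPT : P ≤ D * T) :
    C1 * ((D * T) ^ 3 / K ^ 4 + (D * T) ^ 2 / K ^ 2 + D * T / P) ≤
      C1 * (D ^ 3 * L ^ 3 / K ^ 4 + D ^ 2 * L / K ^ 2 + D ^ 2 / (P * √P)) * T ^ (3 / 2 : ℝ) := by
  rw [rpow_three_half T (by linarith)]
  set s := √T with hs
  have hs0 : 0 ≤ s := Real.sqrt_nonneg _
  have hss : s * s = T := Real.mul_self_sqrt (by linarith)
  have hsL : s ≤ L := by
    rw [hs, Real.sqrt_le_left (by linarith)]; exact hTL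
  have hs1 : 1 ≤ s := by
    rw [hs]; exact Real.one_le_sqrt.2 hT
  have hsP : √P ≤ D * s := by
    rw [Real.sqrt_le_left (by positivity)]
    have : D * T ≤ (D * s) ^ 2 := by
      have h1 : (D * s) ^ 2 = D * (D * T) := by rw [← hss]; ring
      rw [h1]
      have : 0 ≤ D * T := by positivity
      nlinarith
    linarith
  have hsqP : 0 < √P := Real.sqrt_pos.2 hP
  have e1 : (D * T) ^ 3 / K ^ 4 ≤ D ^ 3 * L ^ 3 / K ^ 4 * s ^ 3 := by
    have h1 : (D * T) ^ 3 = D ^ 3 * s ^ 3 * s ^ 3 := by rw [← hss]; ring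
    have h2 : s ^ 3 ≤ L ^ 3 := pow_le_pow_left₀ hs0 hsL 3
    rw [h1, div_mul_eq_mul_div]
    apply div_le_div_of_nonneg_right _ (by positivity)
    calc D ^ 3 * s ^ 3 * s ^ 3 ≤ D ^ 3 * L ^ 3 * s ^ 3 := by gcongr
      _ = _ := by ring
  have e2 : (D * T) ^ 2 / K ^ 2 ≤ D ^ 2 * L / K ^ 2 * s ^ 3 := by
    have h1 : (D * T) ^ 2 = D ^ 2 * s * s ^ 3 := by rw [← hss]; ring
    rw [h1, div_mul_eq_mul_div]
    apply div_le_div_of_nonneg_right _ (by positivity)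
    calc D ^ 2 * s * s ^ 3 ≤ D ^ 2 * L * s ^ 3 := by gcongr
      _ = _ := by ring
  have e3 : D * T / P ≤ D ^ 2 / (P * √P) * s ^ 3 := by
    rw [div_mul_eq_mul_div, div_le_div_iff₀ hP (by positivity)]
    calc D * T * (P * √P) = D * T * P * √P := by ring
      _ ≤ D * T * P * (D * s) := by gcongr
      _ = D ^ 2 * s ^ 3 * P := by rw [← hss]; ring
  calc C1 * ((D * T) ^ 3 / K ^ 4 + (D * T) ^ 2 / K ^ 2 + D * T / P)
      ≤ C1 * (D ^ 3 * L ^ 3 / K ^ 4 * s ^ 3 + D ^ 2 * L / K ^ 2 * s ^ 3 +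
          D ^ 2 / (P * √P) * s ^ 3) := by
        apply mul_le_mul_of_nonneg_left _ hC1
        linarith
    _ = _ := by ring

theorem K_le_P {K : ℝ} (hK : 1 ≤ K) :
    K ≤ K ^ (1 - 1 / 200 : ℝ) * √(K ^ (1 - 1 / 200 : ℝ)) := by
  have hKp : 0 < K := by linarith
  rw [Real.sqrt_eq_rpow, ← Real.rpow_mul hKp.le, ← Real.rpow_add hKp]
  calc K = K ^ (1 : ℝ) := (Real.rpow_one K).symm
    _ ≤ _ := Real.rpow_le_rpow_of_exponent_le hK (by norm_num)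

theorem tCLAm (hCor : S_Cor) (hTub : S_Tub) : S_CLAm := by
  intro k C R ε hk hC hR hε
  obtain ⟨K0, hK0⟩ := hCor k C R (ε / 2) hk hC hR (by positivity)
  obtain ⟨C1, hC1, hT1⟩ := hTub R hR
  set C' : ℝ := (2 * C) ^ k with hC'def
  have hC'1 : 1 ≤ C' := one_le_pow₀ (by linarith)
  set D : ℝ := 4 * C' ^ 2 with hD
  have hD1 : 1 ≤ D := by
    have : 1 ≤ C' ^ 2 := one_le_pow₀ hC'1
    linarith
  set X : ℝ := C1 * (D ^ 3 * 4 ^ (6 * k) + D ^ 2 * 4 ^ (4 * k) + D ^ 2 * 4 ^ (3 * k)) with hX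
  have hX0 : 0 ≤ X := by positivity
  refine ⟨max K0 (max (4 ^ k) (X ^ (2 / ε))), ?_⟩
  intro S B hSC hSR hK hB hU hO i hi hg H hH A hA hdsc
  have hK1 : K0 ≤ S.K := (le_max_left _ _).trans hK
  have hK4 : 4 ^ k ≤ S.K := (le_max_left _ _).trans ((le_max_right _ _).trans hK)
  have hK3 : X ^ (2 / ε) ≤ S.K := (le_max_right _ _).trans ((le_max_right _ _).trans hK)
  have h4k : (1 : ℝ) ≤ 4 ^ k := one_le_pow₀ (by norm_num)
  have hK2 : 1 ≤ S.K := h4k.trans hK4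
  have hKp : 0 < S.K := by linarith
  have hXK : X ≤ S.K ^ (ε / 2) := by
    have h1 := Real.rpow_le_rpow (by positivity) hK3 (by positivity : (0 : ℝ) ≤ ε / 2)
    rw [← Real.rpow_mul hX0] at h1
    have h2 : 2 / ε * (ε / 2) = 1 := by field_simp
    rw [h2, Real.rpow_one] at h1
    exact h1
  set P : ℝ := S.K ^ (1 - 1 / 200 : ℝ) with hP
  have hP0 : 0 < P := by positivity
  set L : ℝ := 4 ^ k * S.K with hL
  have hL1 : 1 ≤ L := by nlinarith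
  have hLK : L ≤ S.K ^ 3 := by
    calc L ≤ S.K * S.K := mul_le_mul_of_nonneg_right hK4 hKp.le
      _ ≤ S.K ^ 3 := by nlinarith [mul_pos hKp hKp]
  have hKP : S.K ≤ P * √P := K_le_P hK2
  have hsqP : 0 < P * √P := mul_pos hP0 (Real.sqrt_pos.2 hP0)
  set M : ℝ := C1 * (D ^ 3 * L ^ 3 / S.K ^ 4 + D ^ 2 * L / S.K ^ 2 + D ^ 2 / (P * √P)) with hM
  have hM0 : 0 ≤ M := by positivity
  have hmain := hK0 S B L M hSC hSR hK1 hB hU hO hL1 hLK hM0 i hi H hH A hA hdsc ?_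
  · refine hmain.trans ?_
    have hLM : L ^ 3 * M ≤ X * S.K ^ 2 := by
      have e1 : L ^ 3 * (D ^ 3 * L ^ 3 / S.K ^ 4) = D ^ 3 * 4 ^ (6 * k) * S.K ^ 2 := by
        rw [hL, pow_mul' (4 : ℝ) 6 k]; field_simp
      have e2 : L ^ 3 * (D ^ 2 * L / S.K ^ 2) = D ^ 2 * 4 ^ (4 * k) * S.K ^ 2 := by
        rw [hL, pow_mul' (4 : ℝ) 4 k]; field_simp
      have e3 : L ^ 3 * (D ^ 2 / (P * √P)) ≤ D ^ 2 * 4 ^ (3 * k) * S.K ^ 2 := by
        rw [← mul_div_assoc, div_le_iff₀ hsqP, hL, pow_mul' (4 : ℝ) 3 k]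
        calc (4 ^ k * S.K) ^ 3 * D ^ 2 = D ^ 2 * (4 ^ k) ^ 3 * S.K ^ 2 * S.K := by ring
          _ ≤ D ^ 2 * (4 ^ k) ^ 3 * S.K ^ 2 * (P * √P) := by gcongr
      calc L ^ 3 * M = C1 * (L ^ 3 * (D ^ 3 * L ^ 3 / S.K ^ 4) + L ^ 3 * (D ^ 2 * L / S.K ^ 2) +
            L ^ 3 * (D ^ 2 / (P * √P))) := by rw [hM]; ring
        _ ≤ C1 * (D ^ 3 * 4 ^ (6 * k) * S.K ^ 2 + D ^ 2 * 4 ^ (4 * k) * S.K ^ 2 +
            D ^ 2 * 4 ^ (3 * k) * S.K ^ 2) := by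
            apply mul_le_mul_of_nonneg_left _ (by linarith)
            rw [e1, e2]; linarith
        _ = X * S.K ^ 2 := by rw [hX]; ring
    have e4 : S.K ^ (2 + ε) = S.K ^ (ε / 2) * S.K ^ (ε / 2) * S.K ^ 2 := by
      rw [← Real.rpow_natCast S.K 2, ← Real.rpow_add hKp, ← Real.rpow_add hKp]
      congr 1; push_cast; ring
    calc B * S.K ^ (ε / 2) * L ^ 3 * M = B * S.K ^ (ε / 2) * (L ^ 3 * M) := by ring
      _ ≤ B * S.K ^ (ε / 2) * (X * S.K ^ 2) := mul_le_mul_of_nonneg_left hLM (by positivity)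
      _ ≤ B * S.K ^ (ε / 2) * (S.K ^ (ε / 2) * S.K ^ 2) := by
          apply mul_le_mul_of_nonneg_left _ (by positivity)
          exact mul_le_mul_of_nonneg_right hXK (by positivity)
      _ = B * S.K ^ (2 + ε) := by rw [e4]; ring
  · intro T W hT hTL hW
    rcases W.eq_empty_or_nonempty with he | hne
    · rw [he]; simp only [Finset.card_empty, Nat.cast_zero]; positivity
    obtain ⟨t1, t2, -⟩ := hT1 S hSR hK2 hU i hi hg (D * T) (by positivity) W (by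
      intro v hv
      obtain ⟨a1, a2, a3, a4, a5, -⟩ := hW v hv
      refine ⟨?_, a2, a3, a4, a5⟩
      rintro rfl
      apply a1
      simp)
    exact t2.trans (tube_exp (by linarith) hD1 hK2 hL1 hP0 hT hTL (t1 hne))

end HSL
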