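import Pool.Agent.Lib.HS.L.SpecCL

/-!
PROJECT H*, HS/L: `tCLD`, the dyadic form of the count lemma. Proof in the docstring of `SpecCL.lean`.
-/

set_option autoImplicit false

namespace HSL

open Matrix

theorem rpow_thr (L : ℝ) (hL : 0 ≤ L) : (L ^ 2) ^ (3 / 2 : ℝ) = L ^ 3 := by
  rw [← Real.rpow_natCast L 2, ← Real.rpow_mul hL, ← Real.rpow_natCast L 3]
  norm_num

theorem dy_fib {ι : Type} (A : Finset ((ι × MZ) × (ι × MZ))) (L M : ℝ) (hL : 1 ≤ L) (hM : 0 ≤ M)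
    (h : ∀ (T : ℝ) (S0 : Finset (MZ × ℕ)), 1 ≤ T → T ≤ L ^ 2 →
        (∀ r ∈ S0, PP A L r ∧ (r.2 : ℝ) ≤ T) → (S0.card : ℝ) ≤ M * T ^ (3 / 2 : ℝ))
    (j : ℕ) (S1 : Finset (MZ × ℕ)) (hS1 : ∀ r ∈ S1, PP A L r ∧ Nat.log 2 r.2 = j) :
    ∑ r ∈ S1, (L ^ 2 / (r.2 : ℝ)) ^ (3 / 2 : ℝ) ≤ 3 * L ^ 3 * M := by
  have hL0 : 0 < L := by linarith
  have hL2 : 1 ≤ L ^ 2 := by nlinarith
  have hj : (0 : ℝ) < 2 ^ j := by positivity
  have hcard : (S1.card : ℝ) ≤ M * (2 * 2 ^ j) ^ (3 / 2 : ℝ) := by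
    refine (h (min (2 * 2 ^ j) (L ^ 2)) S1 (le_min ?_ hL2) (min_le_right _ _) ?_).trans ?_
    · have : (1 : ℝ) ≤ 2 ^ j := one_le_pow₀ (by norm_num)
      linarith
    · intro r hr
      obtain ⟨h1, h2⟩ := hS1 r hr
      refine ⟨h1, le_min ?_ h1.2.2.2.1⟩
      have h3 : r.2 < 2 ^ (Nat.log 2 r.2).succ := Nat.lt_pow_succ_log_self (by norm_num) _
      rw [h2, Nat.pow_succ] at h3
      have h4 : (r.2 : ℝ) < 2 ^ j * 2 := by exact_mod_cast h3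
      linarith
    · apply mul_le_mul_of_nonneg_left _ hM
      exact Real.rpow_le_rpow (le_min (by positivity) (by positivity)) (min_le_left _ _)
        (by norm_num)
  have hterm : ∀ r ∈ S1, (L ^ 2 / (r.2 : ℝ)) ^ (3 / 2 : ℝ) ≤ (L ^ 2 / 2 ^ j) ^ (3 / 2 : ℝ) := by
    intro r hr
    obtain ⟨h1, h2⟩ := hS1 r hr
    have h3 : 2 ^ j ≤ r.2 := by
      rw [← h2]; exact Nat.pow_log_le_self 2 (Nat.pos_iff_ne_zero.1 h1.2.1)
    have h4 : (2 : ℝ) ^ j ≤ r.2 := by exact_mod_cast h3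
    apply Real.rpow_le_rpow (by positivity) _ (by norm_num)
    exact div_le_div_of_nonneg_left (by positivity) hj h4
  calc ∑ r ∈ S1, (L ^ 2 / (r.2 : ℝ)) ^ (3 / 2 : ℝ)
      ≤ ∑ r ∈ S1, (L ^ 2 / 2 ^ j) ^ (3 / 2 : ℝ) := Finset.sum_le_sum hterm
    _ = (S1.card : ℝ) * (L ^ 2 / 2 ^ j) ^ (3 / 2 : ℝ) := by rw [Finset.sum_const, nsmul_eq_mul]
    _ ≤ (M * (2 * 2 ^ j) ^ (3 / 2 : ℝ)) * (L ^ 2 / 2 ^ j) ^ (3 / 2 : ℝ) :=
        mul_le_mul_of_nonneg_right hcard (by positivity)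
    _ = M * ((2 * 2 ^ j) * (L ^ 2 / 2 ^ j)) ^ (3 / 2 : ℝ) := by
        rw [Real.mul_rpow (x := (2 * 2 ^ j)) (by positivity) (by positivity)]; ring
    _ = M * (2 ^ (3 / 2 : ℝ) * L ^ 3) := by
        rw [show (2 * 2 ^ j) * (L ^ 2 / 2 ^ j) = 2 * L ^ 2 by field_simp,
          Real.mul_rpow (by norm_num) (by positivity), rpow_thr L hL0.le]
    _ ≤ 3 * L ^ 3 * M := by
        have h2 : (2 : ℝ) ^ (3 / 2 : ℝ) ≤ 3 := by
          have h5 : (2 : ℝ) ^ (3 / 2 : ℝ) ≤ 9 ^ (1 / 2 : ℝ) := by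
            rw [show (3 / 2 : ℝ) = 3 * (1 / 2) by norm_num, Real.rpow_mul (by norm_num)]
            exact Real.rpow_le_rpow (by positivity) (by norm_num) (by norm_num)
          have h6 : (9 : ℝ) ^ (1 / 2 : ℝ) = 3 := by
            rw [← Real.sqrt_eq_rpow, show (9 : ℝ) = 3 ^ 2 by norm_num]
            exact Real.sqrt_sq (by norm_num)
          linarith
        have h3 : 0 ≤ M * L ^ 3 := by positivity
        nlinarith

theorem tCLD (hCL : S_CL) : S_CLD := by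
  intro k C ε hk hC hε
  obtain ⟨K0, hK0⟩ := hCL k C (ε / 2) hk hC (by positivity)
  refine ⟨max K0 (max 1 ((144 / ε + 3) ^ (4 / ε))), ?_⟩
  intro S B L M hSC hK hB hU hO hL hLK hM i hi H hH A hA h
  have hK1 : K0 ≤ S.K := (le_max_left _ _).trans hK
  have hK2 : 1 ≤ S.K := (le_max_left _ _).trans ((le_max_right _ _).trans hK)
  have hK3 : (144 / ε + 3) ^ (4 / ε) ≤ S.K := (le_max_right _ _).trans ((le_max_right _ _).trans hK)
  have hKp : 0 < S.K := by linarith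
  obtain ⟨S0, hS0, hA0⟩ := hK0 S B L hSC hK1 hB hU hO hL hLK i hi H hH A hA
  classical
  have hsum : ∑ r ∈ S0, (L ^ 2 / (r.2 : ℝ)) ^ (3 / 2 : ℝ) ≤
      ((Nat.log 2 ⌊L ^ 2⌋₊ : ℝ) + 1) * (3 * L ^ 3 * M) := by
    have hmaps : ∀ r ∈ S0, Nat.log 2 r.2 ∈ Finset.range (Nat.log 2 ⌊L ^ 2⌋₊ + 1) := by
      intro r hr
      rw [Finset.mem_range, Nat.lt_succ_iff]
      exact Nat.log_mono_right (Nat.le_floor (hS0 r hr).2.2.2.1)
    rw [← Finset.sum_fiberwise_of_maps_to hmaps]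
    calc ∑ j ∈ Finset.range (Nat.log 2 ⌊L ^ 2⌋₊ + 1), ∑ r ∈ S0.filter (fun r => Nat.log 2 r.2 = j),
          (L ^ 2 / (r.2 : ℝ)) ^ (3 / 2 : ℝ)
        ≤ ∑ j ∈ Finset.range (Nat.log 2 ⌊L ^ 2⌋₊ + 1), 3 * L ^ 3 * M := by
          apply Finset.sum_le_sum
          intro j _
          apply dy_fib A L M hL hM h j
          intro r hr
          rw [Finset.mem_filter] at hr
          exact ⟨hS0 r hr.1, hr.2⟩
      _ = _ := by rw [Finset.sum_const, Finset.card_range, nsmul_eq_mul]; push_cast; ring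
  have hJ : (Nat.log 2 ⌊L ^ 2⌋₊ : ℝ) ≤ 12 * Real.log S.K := by
    have hfl : ⌊L ^ 2⌋₊ ≠ 0 := by
      have : 1 ≤ ⌊L ^ 2⌋₊ := Nat.le_floor (by push_cast; nlinarith)
      omega
    have h1 : ((2 ^ Nat.log 2 ⌊L ^ 2⌋₊ : ℕ) : ℝ) ≤ (⌊L ^ 2⌋₊ : ℝ) := by
      exact_mod_cast Nat.pow_log_le_self 2 hfl
    have h2 : (⌊L ^ 2⌋₊ : ℝ) ≤ L ^ 2 := Nat.floor_le (by positivity)
    have h3 : L ^ 2 ≤ S.K ^ 6 := by
      calc L ^ 2 ≤ (S.K ^ 3) ^ 2 := pow_le_pow_left₀ (by linarith) hLK 2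
        _ = S.K ^ 6 := by ring
    have h4 := Real.log_le_log (by positivity) (h1.trans (h2.trans h3))
    push_cast at h4
    rw [Real.log_pow, Real.log_pow] at h4
    have hl2 : (1 / 2 : ℝ) ≤ Real.log 2 := by
      have := Real.log_two_gt_d9
      linarith
    have h5 : (0 : ℝ) ≤ (Nat.log 2 ⌊L ^ 2⌋₊ : ℝ) := Nat.cast_nonneg _
    push_cast at h4
    nlinarith
  have hlog : Real.log S.K ≤ S.K ^ (ε / 4) / (ε / 4) := Real.log_le_rpow_div hKp.le (by positivity)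
  have hone : 1 ≤ S.K ^ (ε / 4) := Real.one_le_rpow hK2 (by positivity)
  have hc : 144 / ε + 3 ≤ S.K ^ (ε / 4) := by
    have h1 := Real.rpow_le_rpow (by positivity) hK3 (by positivity : (0 : ℝ) ≤ ε / 4)
    rw [← Real.rpow_mul (by positivity)] at h1
    have h2 : 4 / ε * (ε / 4) = 1 := by field_simp
    rw [h2, Real.rpow_one] at h1
    exact h1
  have hfin : ((Nat.log 2 ⌊L ^ 2⌋₊ : ℝ) + 1) * 3 ≤ S.K ^ (ε / 2) := by
    have h1 : S.K ^ (ε / 2) = S.K ^ (ε / 4) * S.K ^ (ε / 4) := by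
      rw [← Real.rpow_add hKp]; congr 1; ring
    have h2 : S.K ^ (ε / 4) / (ε / 4) = 4 / ε * S.K ^ (ε / 4) := by field_simp
    rw [h2] at hlog
    rw [h1]
    calc ((Nat.log 2 ⌊L ^ 2⌋₊ : ℝ) + 1) * 3 ≤ (12 * (4 / ε * S.K ^ (ε / 4)) + 1) * 3 := by linarith
      _ ≤ (144 / ε + 3) * S.K ^ (ε / 4) := by
          have : 12 * (4 / ε * S.K ^ (ε / 4)) * 3 = 144 / ε * S.K ^ (ε / 4) := by ring
          nlinarith
      _ ≤ _ := mul_le_mul_of_nonneg_right hc (by positivity)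
  have hLM : 0 ≤ L ^ 3 * M := by positivity
  calc (A.card : ℝ) ≤ B * S.K ^ (ε / 2) * ∑ r ∈ S0, (L ^ 2 / (r.2 : ℝ)) ^ (3 / 2 : ℝ) := hA0
    _ ≤ B * S.K ^ (ε / 2) * (((Nat.log 2 ⌊L ^ 2⌋₊ : ℝ) + 1) * (3 * L ^ 3 * M)) :=
        mul_le_mul_of_nonneg_left hsum (by positivity)
    _ = B * S.K ^ (ε / 2) * ((((Nat.log 2 ⌊L ^ 2⌋₊ : ℝ) + 1) * 3) * (L ^ 3 * M)) := by ring
    _ ≤ B * S.K ^ (ε / 2) * (S.K ^ (ε / 2) * (L ^ 3 * M)) := by
        apply mul_le_mul_of_nonneg_left _ (by positivity)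
        exact mul_le_mul_of_nonneg_right hfin hLM
    _ = B * S.K ^ ε * L ^ 3 * M := by
        have : S.K ^ ε = S.K ^ (ε / 2) * S.K ^ (ε / 2) := by
          rw [← Real.rpow_add hKp]; congr 1; ring
        rw [this]; ring

end HSL
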