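import Pool.Agent.Lib.HS.L.Fbr

/-!
PROJECT H*, HS/L: `tCor`. Proof in the docstring of `SpecCL.lean`.
-/

set_option autoImplicit false

namespace HSL

open Matrix

theorem mem_prs {ι : Type} {H : Finset (ι × MZ)} {t : (ι × MZ) × (ι × MZ)} :
    t ∈ prs H ↔ t.1 ∈ H ∧ t.2 ∈ H ∧ t.1.1 = t.2.1 := by
  simp only [prs, Finset.mem_filter, Finset.mem_product, and_assoc]

theorem adj_entries (a : MR) : a.adjugate 0 0 = a 1 1 ∧ a.adjugate 0 1 = -a 0 1 ∧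
    a.adjugate 1 0 = -a 1 0 ∧ a.adjugate 1 1 = a 0 0 := by
  refine ⟨?_, ?_, ?_, ?_⟩ <;> simp [Matrix.adjugate_fin_two]

theorem fr_tf (a : MR) (s : MZ) : fr a a (tf s) 0 0 = fr a a s 0 0 - fr a a s 1 1 ∧
    fr a a (tf s) 0 1 = 2 * fr a a s 0 1 ∧ fr a a (tf s) 1 0 = 2 * fr a a s 1 0 := by
  obtain ⟨a00, a01, a10, a11⟩ := adj_entries a
  refine ⟨?_, ?_, ?_⟩ <;>
    simp only [fr, Matrix.mul_apply, Fin.sum_univ_two, toR, Matrix.map_apply, a00, a01, a10, a11,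
      tf_apply00, tf_apply01, tf_apply10, tf_apply11] <;> push_cast <;> ring

theorem fr_trace (a : MR) (s : MZ) (ha : a.det = 1) :
    ((s.trace : ℤ) : ℝ) = fr a a s 0 0 + fr a a s 1 1 := by
  obtain ⟨a00, a01, a10, a11⟩ := adj_entries a
  rw [Matrix.det_fin_two] at ha
  rw [Matrix.trace_fin_two]
  simp only [fr, Matrix.mul_apply, Fin.sum_univ_two, toR, Matrix.map_apply, a00, a01, a10, a11]
  push_cast
  linear_combination (-(s 0 0 : ℝ) - s 1 1) * ha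

/-- data of a primitive part -/
theorem pp_frame (hFr : S_Fr) (k : ℕ) (S : Sys) (L : ℝ) (hC : 1 ≤ S.C) (hK : 1 ≤ S.K)
    (hU : S.Unim) (i : S.ι) (hi : i ∈ S.V) (H : Finset (S.ι × MZ)) (hH : Hk S k L i H)
    (A : Finset ((S.ι × MZ) × (S.ι × MZ))) (hA : A ⊆ prs H) (r : MZ × ℕ) (hr : PP A L r) :
    Near (2 * ((2 * S.C) ^ k) ^ 2) S.w r.2 (fr (S.g i) (S.g i) r.1) := by
  obtain ⟨hp, hn0, hdet, hnL, t, htA, c, hc, hlp⟩ := hr
  obtain ⟨h1, h2, h3⟩ := mem_prs.1 (hA htA)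
  obtain ⟨v1, -, m1, r1, -, -⟩ := hH t.1 h1
  obtain ⟨v2, -, m2, r2, -, -⟩ := hH t.2 h2
  rw [← h3] at r2
  have hw0 : 0 ≤ S.w := by unfold Sys.w; positivity
  have hw1 : S.w ≤ 1 := by
    unfold Sys.w
    rw [div_le_one (by positivity)]
    nlinarith
  have hC' : 1 ≤ (2 * S.C) ^ k := one_le_pow₀ (by linarith)
  exact tFrm hFr ((2 * S.C) ^ k) S.w (S.g i) (S.g t.1.1) m1 m2 r.2 t.1.2 t.2.2 r.1 c (hU i hi).1
    (hU _ v1).1 hw0 hw1 hC' r1 r2 hc hn0 hdet hlp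

theorem tCor (hFr : S_Fr) (hCLD : S_CLD) : S_Cor := by
  intro k C R ε hk hC hR hε
  obtain ⟨K0, hK0⟩ := hCLD k C (ε / 2) hk hC (by positivity)
  obtain ⟨CF, hCF, hF⟩ := tFbr (ε / 48) (by positivity)
  set C' : ℝ := (2 * C) ^ k with hC'def
  have hC'1 : 1 ≤ C' := one_le_pow₀ (by linarith)
  set X : ℝ := CF * (32 * C' ^ 4) ^ (ε / 48) with hX
  have hX0 : 0 ≤ X := by positivity
  refine ⟨max K0 (max 1 (X ^ (4 / ε))), ?_⟩
  intro S B L M hSC hSR hK hB hU hO hL hLK hM i hi H hH A hA hdsc h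
  have hK1 : K0 ≤ S.K := (le_max_left _ _).trans hK
  have hK2 : 1 ≤ S.K := (le_max_left _ _).trans ((le_max_right _ _).trans hK)
  have hK3 : X ^ (4 / ε) ≤ S.K := (le_max_right _ _).trans ((le_max_right _ _).trans hK)
  have hKp : 0 < S.K := by linarith
  have hXK : X ≤ S.K ^ (ε / 4) := by
    have h1 := Real.rpow_le_rpow (by positivity) hK3 (by positivity : (0 : ℝ) ≤ ε / 4)
    rw [← Real.rpow_mul hX0] at h1
    have h2 : 4 / ε * (ε / 4) = 1 := by field_simp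
    rw [h2, Real.rpow_one] at h1
    exact h1
  have hSC1 : 1 ≤ S.C := by rw [hSC]; exact hC
  have hmain := hK0 S B L (S.K ^ (ε / 2) * M) hSC hK1 hB hU hO hL hLK (by positivity) i hi H hH A hA
  refine (hmain ?_).trans (le_of_eq ?_)
  swap
  · have : S.K ^ ε = S.K ^ (ε / 2) * S.K ^ (ε / 2) := by
      rw [← Real.rpow_add hKp]; congr 1; ring
    rw [this]; ring
  intro T S0 hT hTL hS0
  classical
  set W : Finset MZ := S0.image (fun r => tf r.1) with hW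
  have hwdef : S.w = 1 / S.K ^ 2 := rfl
  -- frames
  have hfr : ∀ r ∈ S0, |fr (S.g i) (S.g i) (tf r.1) 0 0| ≤ 4 * C' ^ 2 * r.2 ∧
      |fr (S.g i) (S.g i) (tf r.1) 0 1| ≤ 4 * C' ^ 2 * r.2 / S.K ^ 2 ∧
      |fr (S.g i) (S.g i) (tf r.1) 1 0| ≤ 4 * C' ^ 2 * r.2 / S.K ^ 2 ∧
      |((r.1.trace : ℤ) : ℝ)| ≤ 4 * C' ^ 2 * r.2 := by
    intro r hr
    obtain ⟨n1, n2, n3, n4⟩ := pp_frame hFr k S L hSC1 hK2 hU i hi H hH A hA r (hS0 r hr).1
    rw [hSC, ← hC'def] at n1 n2 n3 n4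
    obtain ⟨e1, e2, e3⟩ := fr_tf (S.g i) r.1
    rw [hwdef] at n3 n4
    refine ⟨?_, ?_, ?_, ?_⟩
    · rw [e1]
      calc |fr (S.g i) (S.g i) r.1 0 0 - fr (S.g i) (S.g i) r.1 1 1|
          ≤ |fr (S.g i) (S.g i) r.1 0 0| + |fr (S.g i) (S.g i) r.1 1 1| := abs_sub _ _
        _ ≤ _ := by linarith
    · rw [e2, abs_mul, abs_two]
      have : 4 * C' ^ 2 * (r.2 : ℝ) / S.K ^ 2 = 2 * (2 * C' ^ 2 * (1 / S.K ^ 2) * (r.2 : ℝ)) := by ring
      rw [this]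
      linarith
    · rw [e3, abs_mul, abs_two]
      have : 4 * C' ^ 2 * (r.2 : ℝ) / S.K ^ 2 = 2 * (2 * C' ^ 2 * (1 / S.K ^ 2) * (r.2 : ℝ)) := by ring
      rw [this]
      linarith
    · rw [fr_trace (S.g i) r.1 (hU i hi).1]
      calc |fr (S.g i) (S.g i) r.1 0 0 + fr (S.g i) (S.g i) r.1 1 1|
          ≤ |fr (S.g i) (S.g i) r.1 0 0| + |fr (S.g i) (S.g i) r.1 1 1| := abs_add_le _ _
        _ ≤ _ := by linarith
  have hLK2 : L ^ 2 ≤ S.K ^ 6 := by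
    calc L ^ 2 ≤ (S.K ^ 3) ^ 2 := pow_le_pow_left₀ (by linarith) hLK 2
      _ = S.K ^ 6 := by ring
  have hK6 : 1 ≤ S.K ^ 6 := one_le_pow₀ hK2
  have hC'2 : 1 ≤ C' ^ 2 := one_le_pow₀ hC'1
  have hC'4 : 1 ≤ C' ^ 4 := one_le_pow₀ hC'1
  have hds : ∀ r ∈ S0, dsc r.1 ≠ 0 := by
    intro r hr h0
    obtain ⟨-, -, -, -, t, htA, c, hc, hlp⟩ := (hS0 r hr).1
    apply hdsc t htA
    rw [hlp, dsc_smul, h0, mul_zero]
  have hWcard : (W.card : ℝ) ≤ M * T ^ (3 / 2 : ℝ) := by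
    apply h T W hT hTL
    intro v hv
    obtain ⟨r, hr, rfl⟩ := Finset.mem_image.1 hv
    obtain ⟨f1, f2, f3, -⟩ := hfr r hr
    have hrT : (r.2 : ℝ) ≤ T := (hS0 r hr).2
    have hm : 4 * C' ^ 2 * (r.2 : ℝ) ≤ 4 * C' ^ 2 * T := by
      apply mul_le_mul_of_nonneg_left hrT (by positivity)
    have hm2 : 4 * C' ^ 2 * (r.2 : ℝ) / S.K ^ 2 ≤ 4 * C' ^ 2 * T / S.K ^ 2 := by
      apply div_le_div_of_nonneg_right hm (by positivity)
    refine ⟨?_, tf_trace _, f1.trans hm, f2.trans hm2, f3.trans hm2, ?_⟩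
    · rw [tf_det]; exact neg_ne_zero.2 (hds r hr)
    · obtain ⟨-, -, -, -, t, htA, c, hc, hlp⟩ := (hS0 r hr).1
      exact ⟨t, htA, c, r.1, hc, hlp, rfl⟩
  -- fibres
  have hZ : 1 ≤ 32 * C' ^ 4 * S.K ^ 12 := by
    have : 1 ≤ S.K ^ 12 := one_le_pow₀ hK2
    nlinarith
  have hfib : ∀ v ∈ W, ((S0.filter (fun r => tf r.1 = v)).card : ℝ) ≤ S.K ^ (ε / 2) := by
    intro v hv
    obtain ⟨r0, hr0, hr0v⟩ := Finset.mem_image.1 hv
    have hb := hF (32 * C' ^ 4 * S.K ^ 12) hZ v ?_ ?_ (S0.filter (fun r => tf r.1 = v)) ?_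
    · refine hb.trans ?_
      rw [Real.mul_rpow (by positivity) (by positivity), ← Real.rpow_natCast S.K 12,
        ← Real.rpow_mul hKp.le]
      have e1 : ((12 : ℕ) : ℝ) * (ε / 48) = ε / 4 := by push_cast; ring
      rw [e1, ← mul_assoc, ← hX]
      calc X * S.K ^ (ε / 4) ≤ S.K ^ (ε / 4) * S.K ^ (ε / 4) :=
            mul_le_mul_of_nonneg_right hXK (by positivity)
        _ = S.K ^ (ε / 2) := by rw [← Real.rpow_add hKp]; congr 1; ring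
    · rw [← hr0v, tf_det]; exact neg_ne_zero.2 (hds r0 hr0)
    · rw [← hr0v]
      obtain ⟨f1, f2, f3, -⟩ := hfr r0 hr0
      have hdet : (((tf r0.1).det : ℤ) : ℝ) = (fr (S.g i) (S.g i) (tf r0.1)).det :=
        (hFr.2.1 (S.g i) (S.g i) (tf r0.1) (hU i hi).1 (hU i hi).1).symm
      have htr := fr_trace (S.g i) (tf r0.1) (hU i hi).1
      rw [tf_trace] at htr
      have h11 : fr (S.g i) (S.g i) (tf r0.1) 1 1 = - fr (S.g i) (S.g i) (tf r0.1) 0 0 := by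
        push_cast at htr; linarith
      rw [hdet, Matrix.det_fin_two, h11]
      have hn : (r0.2 : ℝ) ≤ S.K ^ 6 := ((hS0 r0 hr0).2.trans hTL).trans hLK2
      have hq : 4 * C' ^ 2 * (r0.2 : ℝ) ≤ 4 * C' ^ 2 * S.K ^ 6 :=
        mul_le_mul_of_nonneg_left hn (by positivity)
      have g1 : |fr (S.g i) (S.g i) (tf r0.1) 0 0| ≤ 4 * C' ^ 2 * S.K ^ 6 := f1.trans hq
      have hd : 4 * C' ^ 2 * (r0.2 : ℝ) / S.K ^ 2 ≤ 4 * C' ^ 2 * (r0.2 : ℝ) :=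
        div_le_self (by positivity) (one_le_pow₀ hK2)
      have g2 := (f2.trans hd).trans hq
      have g3 := (f3.trans hd).trans hq
      calc |fr (S.g i) (S.g i) (tf r0.1) 0 0 * -fr (S.g i) (S.g i) (tf r0.1) 0 0 -
            fr (S.g i) (S.g i) (tf r0.1) 0 1 * fr (S.g i) (S.g i) (tf r0.1) 1 0|
          ≤ |fr (S.g i) (S.g i) (tf r0.1) 0 0 * -fr (S.g i) (S.g i) (tf r0.1) 0 0| +
            |fr (S.g i) (S.g i) (tf r0.1) 0 1 * fr (S.g i) (S.g i) (tf r0.1) 1 0| := abs_sub _ _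
        _ = |fr (S.g i) (S.g i) (tf r0.1) 0 0| * |fr (S.g i) (S.g i) (tf r0.1) 0 0| +
            |fr (S.g i) (S.g i) (tf r0.1) 0 1| * |fr (S.g i) (S.g i) (tf r0.1) 1 0| := by
            rw [abs_mul, abs_mul, abs_neg]
        _ ≤ (4 * C' ^ 2 * S.K ^ 6) * (4 * C' ^ 2 * S.K ^ 6) +
            (4 * C' ^ 2 * S.K ^ 6) * (4 * C' ^ 2 * S.K ^ 6) := by gcongr
        _ = 32 * C' ^ 4 * S.K ^ 12 := by ring
    · intro r hr
      rw [Finset.mem_filter] at hr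
      obtain ⟨f1, f2, f3, f4⟩ := hfr r hr.1
      have hn : (r.2 : ℝ) ≤ S.K ^ 6 := ((hS0 r hr.1).2.trans hTL).trans hLK2
      have hq : 4 * C' ^ 2 * (r.2 : ℝ) ≤ 4 * C' ^ 2 * S.K ^ 6 :=
        mul_le_mul_of_nonneg_left hn (by positivity)
      have hz : 4 * C' ^ 2 * S.K ^ 6 ≤ 32 * C' ^ 4 * S.K ^ 12 := by
        have h1 : S.K ^ 6 ≤ S.K ^ 12 := pow_le_pow_right₀ hK2 (by norm_num)
        have h2 : C' ^ 2 ≤ C' ^ 4 := pow_le_pow_right₀ hC'1 (by norm_num)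
        have h3 : C' ^ 2 * S.K ^ 6 ≤ C' ^ 4 * S.K ^ 12 :=
          mul_le_mul h2 h1 (by positivity) (by positivity)
        have h4 : 0 ≤ C' ^ 4 * S.K ^ 12 := by positivity
        nlinarith
      refine ⟨hr.2, (hS0 r hr.1).1.2.2.1, f4.trans (hq.trans hz), ?_⟩
      have : 2 * (r.2 : ℝ) ≤ 4 * C' ^ 2 * (r.2 : ℝ) := by
        apply mul_le_mul_of_nonneg_right _ (Nat.cast_nonneg _)
        nlinarith
      exact this.trans (hq.trans hz)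
  have hsum : (S0.card : ℝ) = ∑ v ∈ W, ((S0.filter (fun r => tf r.1 = v)).card : ℝ) := by
    have h0 : S0.card = ∑ v ∈ W, (S0.filter (fun r => tf r.1 = v)).card :=
      Finset.card_eq_sum_card_fiberwise (fun r hr => Finset.mem_image_of_mem _ hr)
    rw [← Nat.cast_sum, ← h0]
  rw [hsum]
  calc ∑ v ∈ W, ((S0.filter (fun r => tf r.1 = v)).card : ℝ) ≤ ∑ v ∈ W, S.K ^ (ε / 2) :=
        Finset.sum_le_sum hfib
    _ = S.K ^ (ε / 2) * (W.card : ℝ) := by rw [Finset.sum_const, nsmul_eq_mul]; ring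
    _ ≤ S.K ^ (ε / 2) * (M * T ^ (3 / 2 : ℝ)) := mul_le_mul_of_nonneg_left hWcard (by positivity)
    _ = S.K ^ (ε / 2) * M * T ^ (3 / 2 : ℝ) := by ring

end HSL
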