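import Pool.Agent.Lib.HS.L.SpecCL
import Pool.Agent.Lib.HS.L.CL

/-!
# HS/L: the statements M2 and CL of SpecCL
-/

set_option autoImplicit false

namespace HSL

open Matrix

theorem M2M_large {c ε : ℝ} (hc : 1 ≤ c) (hε : 0 < ε) {K : ℝ} (hK : c ^ (1 / ε) ≤ K) : c ≤ K ^ ε := by
  have hc0 : 0 < c := by linarith
  calc c = (c ^ (1 / ε)) ^ ε := by
        rw [← Real.rpow_mul hc0.le, one_div, inv_mul_cancel₀ hε.ne', Real.rpow_one]
    _ ≤ K ^ ε := Real.rpow_le_rpow (by positivity) hK hε.le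

/-- **M2** -/
theorem tM2 : S_M2 := by
  intro k C ε _ _ hε
  refine ⟨((2 : ℝ) ^ (8 * k)) ^ (1 / ε), ?_⟩
  intro S B L hSC hK hB _ hO _ _ i hi H hH A hA s g hg hs
  subst hSC
  have h1 := mult S k L B hB hO i hi H hH s A hA hs
  have h2 : (2 : ℝ) ^ (8 * k) ≤ S.K ^ ε := M2M_large (one_le_pow₀ (by norm_num)) hε hK
  have h3 : (ct s : ℝ) ≤ g := by
    have h4 := hg (ct s : ℤ) (fun a b => ct_dvd s a b)
    rw [abs_of_nonneg (Int.natCast_nonneg _)] at h4
    exact_mod_cast h4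
  refine h1.trans ?_
  refine mul_le_mul (mul_le_mul_of_nonneg_left h2 (by linarith)) h3 (Nat.cast_nonneg _) ?_
  have : 0 ≤ S.K ^ ε := le_trans (by positivity) h2
  positivity

/-- **CL** -/
theorem tCL : S_CL := by
  classical
  intro k C ε hk hC hε
  have hk0 : (0 : ℝ) < k := by
    have : 0 < k := hk
    exact_mod_cast this
  obtain ⟨Cd, hCd, hdiv⟩ := Pool.Agent.Lib.MP_640417_ag.All.divisor_bound (ε / (48 * k)) (by positivity)
  refine ⟨max 1 ((1 + 2 ^ (8 * k) * Cd) ^ (1 / (ε / 2))), ?_⟩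
  intro S B L hSC hK hB hU hO hL hLK i hi H hH A hA
  subst hSC
  have hK1 : 1 ≤ S.K := (le_max_left _ _).trans hK
  have hK0 : 0 < S.K := by linarith
  have hKc : 1 + 2 ^ (8 * k) * Cd ≤ S.K ^ (ε / 2) :=
    M2M_large (by have : 0 < 2 ^ (8 * k) * Cd := by positivity
                  linarith) (by linarith) ((le_max_right _ _).trans hK)
  have hw : 0 ≤ S.w := by
    unfold Sys.w
    positivity
  have hw1 : S.w ≤ 1 := by
    unfold Sys.w
    rw [div_le_one (by positivity)]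
    exact one_le_pow₀ hK1
  obtain ⟨S0, h1, h2⟩ := count_CL S k L B hC hw hw1 hU hB hO i hi H hH A hA
  refine ⟨S0.image (fun s0 => (s0, lvl s0)), ?_, ?_⟩
  · intro r hr
    obtain ⟨s0, hs0, rfl⟩ := Finset.mem_image.1 hr
    obtain ⟨⟨p1, p2, p3, p4, -⟩, t, ht, e1, e2⟩ := h1 s0 hs0
    exact ⟨p1, p2, p3, p4, t, ht, (ct (lp t) : ℤ), by exact_mod_cast e2.ne', e1⟩
  · have hsum : ∑ r ∈ S0.image (fun s0 => (s0, lvl s0)), (L ^ 2 / (r.2 : ℝ)) ^ (3 / 2 : ℝ) =
        ∑ s0 ∈ S0, (L ^ 2 / (lvl s0 : ℝ)) ^ (3 / 2 : ℝ) := by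
      rw [Finset.sum_image]
      intro a _ b _ hab
      exact (Prod.mk.inj hab).1
    rw [hsum]
    refine h2.trans ?_
    rw [mul_assoc B, mul_assoc B]
    refine mul_le_mul_of_nonneg_left ?_ (by linarith)
    rw [Finset.mul_sum, Finset.mul_sum]
    refine Finset.sum_le_sum fun s0 hs0 => ?_
    obtain ⟨⟨p1, p2, p3, p4, -⟩, -⟩ := h1 s0 hs0
    have hn : (0 : ℝ) < lvl s0 := by exact_mod_cast p2
    have h3 : (((lvl s0) ^ (4 * k)).divisors.card : ℝ) ≤ Cd * S.K ^ (ε / 2) := by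
      refine (hdiv _ (pow_pos p2 _)).trans (mul_le_mul_of_nonneg_left ?_ hCd.le)
      have h4 : (((lvl s0) ^ (4 * k) : ℕ) : ℝ) ≤ S.K ^ (24 * k : ℕ) := by
        push_cast
        calc (lvl s0 : ℝ) ^ (4 * k) ≤ ((S.K ^ 3) ^ 2) ^ (4 * k) := by
              refine pow_le_pow_left₀ hn.le (p4.trans ?_) _
              exact pow_le_pow_left₀ (by linarith) hLK 2
          _ = S.K ^ (24 * k) := by rw [← pow_mul, ← pow_mul]; congr 1; ring
      calc (((lvl s0) ^ (4 * k) : ℕ) : ℝ) ^ (ε / (48 * k)) ≤ (S.K ^ (24 * k : ℕ)) ^ (ε / (48 * k)) :=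
            Real.rpow_le_rpow (Nat.cast_nonneg _) h4 (by positivity)
        _ = S.K ^ (ε / 2) := by
            rw [← Real.rpow_natCast, ← Real.rpow_mul hK0.le]
            congr 1
            push_cast
            field_simp
            ring
    have h5 : (2 : ℝ) ^ (8 * k) * (((lvl s0) ^ (4 * k)).divisors.card : ℝ) ≤ S.K ^ ε := by
      calc (2 : ℝ) ^ (8 * k) * (((lvl s0) ^ (4 * k)).divisors.card : ℝ)
          ≤ 2 ^ (8 * k) * (Cd * S.K ^ (ε / 2)) := mul_le_mul_of_nonneg_left h3 (by positivity)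
        _ = (2 ^ (8 * k) * Cd) * S.K ^ (ε / 2) := by ring
        _ ≤ S.K ^ (ε / 2) * S.K ^ (ε / 2) :=
            mul_le_mul_of_nonneg_right (by linarith) (by positivity)
        _ = S.K ^ ε := by
            rw [← Real.rpow_add hK0]
            congr 1
            ring
    rw [← mul_assoc]
    exact mul_le_mul_of_nonneg_right h5 (by positivity)

end HSL
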