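import Pool.Agent.Lib.HS.L.Spec

/-!
# HS/L/CLN: few loops with negative discriminant
-/

set_option autoImplicit false

namespace HSL

open Matrix

namespace CLNM

lemma toR_adj (h : MZ) : toR h.adjugate = (toR h).adjugate := by
  ext i j
  fin_cases i <;> fin_cases j <;> simp [toR, adjugate_fin_two]

lemma toR_mul (h h' : MZ) : toR (h * h') = toR h * toR h' := by
  ext i j
  simp [toR, Matrix.mul_apply]

lemma adj_adj (b : MR) : b.adjugate.adjugate = b := by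
  ext i j
  fin_cases i <;> fin_cases j <;> simp [adjugate_fin_two]

/-- the frame of the loop -/
lemma fr_lp (a b : MR) (hb : b.det = 1) (h1 h2 : MZ) :
    fr a a (h2.adjugate * h1) = (fr a b h2).adjugate * fr a b h1 := by
  unfold fr
  rw [toR_mul, toR_adj, adjugate_mul_distrib, adjugate_mul_distrib, adj_adj]
  have h : b * b.adjugate = 1 := by rw [mul_adjugate, hb, one_smul]
  calc a.adjugate * ((toR h2).adjugate * toR h1) * a
      = a.adjugate * ((toR h2).adjugate * 1 * toR h1) * a := by rw [Matrix.mul_one]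
    _ = a.adjugate * ((toR h2).adjugate * (b * b.adjugate) * toR h1) * a := by rw [h]
    _ = a.adjugate * ((toR h2).adjugate * b) * (b.adjugate * toR h1 * a) := by
        simp only [Matrix.mul_assoc]

lemma toR_eq (a b : MR) (ha : a.det = 1) (hb : b.det = 1) (h : MZ) :
    toR h = b * fr a b h * a.adjugate := by
  unfold fr
  have h1 : b * b.adjugate = 1 := by rw [mul_adjugate, hb, one_smul]
  have h2 : a * a.adjugate = 1 := by rw [mul_adjugate, ha, one_smul]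
  calc toR h = 1 * toR h * 1 := by rw [Matrix.mul_one, Matrix.one_mul]
    _ = (b * b.adjugate) * toR h * (a * a.adjugate) := by rw [h1, h2]
    _ = b * (b.adjugate * toR h * a) * a.adjugate := by simp only [Matrix.mul_assoc]

lemma tr_fr (a : MR) (ha : a.det = 1) (s : MZ) :
    fr a a s 0 0 + fr a a s 1 1 = ((s.trace : ℤ) : ℝ) := by
  have h := toR_eq a a ha ha s
  have h1 : (toR s).trace = (fr a a s).trace := by
    rw [h, Matrix.trace_mul_comm, ← Matrix.mul_assoc, adjugate_mul, ha, one_smul, Matrix.one_mul]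
  have h2 : (toR s).trace = ((s.trace : ℤ) : ℝ) := by
    simp [toR, Matrix.trace_fin_two]
  rw [← h2, h1, Matrix.trace_fin_two]

lemma det_toR (s : MZ) : (toR s).det = ((s.det : ℤ) : ℝ) := by
  rw [Matrix.det_fin_two, Matrix.det_fin_two]
  simp [toR]

lemma det_fr (a : MR) (ha : a.det = 1) (s : MZ) : (fr a a s).det = ((s.det : ℤ) : ℝ) := by
  unfold fr
  rw [Matrix.det_mul, Matrix.det_mul, det_toR, Matrix.det_adjugate, ha]
  simp

/-- entries of a return -/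
lemma entry_le {C' w R : ℝ} {a b : MR} {m : ℕ} {h : MZ} (hC : 0 ≤ C') (hw1 : w ≤ 1) (hw0 : 0 ≤ w)
    (hR : 0 ≤ R) (ha : a.det = 1) (hb : b.det = 1) (haR : ∀ i j, |a i j| ≤ R)
    (hbR : ∀ i j, |b i j| ≤ R) (hn : Near C' w (m : ℝ) (fr a b h)) (i j : Fin 2) :
    |((h i j : ℤ) : ℝ)| ≤ 4 * R ^ 2 * (C' * m) := by
  have h0 : ((h i j : ℤ) : ℝ) = (b * fr a b h * a.adjugate) i j := by
    rw [← toR_eq a b ha hb h]; rfl
  have hm : (0 : ℝ) ≤ m := Nat.cast_nonneg m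
  obtain ⟨n1, n2, n3, n4⟩ := hn
  have hcm : C' * w * m ≤ C' * m := by
    have : C' * w ≤ C' := by nlinarith
    exact mul_le_mul_of_nonneg_right this hm
  have hf : ∀ p q, |fr a b h p q| ≤ C' * m := by
    intro p q
    fin_cases p <;> fin_cases q
    · exact n1
    · exact n3.trans hcm
    · exact n4.trans hcm
    · exact n2
  have hadj : ∀ p q, |a.adjugate p q| ≤ R := by
    intro p q
    fin_cases p <;> fin_cases q
    · simpa [adjugate_fin_two] using haR 1 1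
    · simpa [adjugate_fin_two] using haR 0 1
    · simpa [adjugate_fin_two] using haR 1 0
    · simpa [adjugate_fin_two] using haR 0 0
  have hB : 0 ≤ C' * m := mul_nonneg hC hm
  have h3 : ∀ p q r t, |b p q * fr a b h q r * a.adjugate r t| ≤ R ^ 2 * (C' * m) := by
    intro p q r t
    rw [abs_mul, abs_mul]
    have e1 : |b p q| * |fr a b h q r| ≤ R * (C' * m) :=
      mul_le_mul (hbR p q) (hf q r) (abs_nonneg _) hR
    have e2 : |b p q| * |fr a b h q r| * |a.adjugate r t| ≤ R * (C' * m) * R :=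
      mul_le_mul e1 (hadj r t) (abs_nonneg _) (mul_nonneg hR hB)
    calc _ ≤ R * (C' * m) * R := e2
      _ = R ^ 2 * (C' * m) := by ring
  rw [h0]
  simp only [Matrix.mul_apply, Fin.sum_univ_two]
  have e := h3 i 0 0 j
  have e' := h3 i 1 0 j
  have e'' := h3 i 0 1 j
  have e''' := h3 i 1 1 j
  rw [add_mul, add_mul]
  refine (abs_add_le _ _).trans ?_
  refine (add_le_add (abs_add_le _ _) (abs_add_le _ _)).trans ?_
  linarith

/-- the box of matrices -/
def Bx (Z : ℕ) : Finset MZ :=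
  (Finset.univ : Finset (Fin 2 → Fin 2 → Fin (2 * Z + 1))).image
    (fun f => Matrix.of (fun i j => ((f i j : ℕ) : ℤ) - (Z : ℤ)))

lemma card_Bx (Z : ℕ) : (Bx Z).card ≤ (2 * Z + 1) ^ 4 := by
  refine Finset.card_image_le.trans ?_
  rw [Finset.card_univ, Fintype.card_fun, Fintype.card_fun, Fintype.card_fin, Fintype.card_fin]
  exact le_of_eq (by ring)

lemma mem_Bx (Z : ℕ) (h : MZ) (hh : ∀ i j, |h i j| ≤ (Z : ℤ)) : h ∈ Bx Z := by
  unfold Bx
  rw [Finset.mem_image]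
  have hb : ∀ i j, -(Z : ℤ) ≤ h i j ∧ h i j ≤ Z := fun i j => abs_le.1 (hh i j)
  refine ⟨fun i j => ⟨(h i j + Z).toNat, ?_⟩, Finset.mem_univ _, ?_⟩
  · have := hb i j
    omega
  · ext i j
    have := hb i j
    simp only [Matrix.of_apply]
    omega

/-- arithmetic of the discriminant from below -/
lemma ar1 (t p : ℤ) (hp : 0 < p) (h : t ^ 2 - 4 * p ^ 2 < 0) : 2 * p ≤ 4 * p ^ 2 - t ^ 2 := by
  have h1 : |t| < 2 * p := by
    apply abs_lt_of_sq_lt_sq _ (by positivity)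
    nlinarith
  have h2 : t ^ 2 = |t| ^ 2 := (sq_abs _).symm
  rw [h2]
  nlinarith [abs_nonneg t]

lemma ar2 {x y a b E : ℝ} (e1 : |a * b| ≤ E * E) :
    4 * (x * y - a * b) - (x + y) ^ 2 ≤ 4 * E ^ 2 := by
  have e2 := neg_abs_le (a * b)
  nlinarith [sq_nonneg (x - y)]

lemma ar3 {m1 m2 Y : ℝ} (h1 : 1 ≤ m1) (h2 : 1 ≤ m2) (h : m1 * m2 ≤ Y) : m1 ≤ Y ∧ m2 ≤ Y := by
  constructor
  · nlinarith
  · nlinarith

lemma ar4 {z c t : ℝ} (h : z ≤ c * t) (ht : 1 ≤ t) : 2 * z + 1 ≤ (2 * c + 1) * t := by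
  nlinarith

end CLNM

open CLNM

theorem tCLN : S_CLN := by
  classical
  intro k C R θ hk hC hR hθ hθ1
  set C' : ℝ := (2 * C) ^ k with hC'
  have hC'1 : 1 ≤ C' := one_le_pow₀ (by linarith)
  set c : ℝ := 4 * R ^ 2 * (C' * (8 * C' ^ 4 * (16 ^ k) ^ 2)) with hc
  have hc0 : 0 ≤ c := by positivity
  refine ⟨max 1 ((2 * c + 1) ^ 8), ?_⟩
  intro S B hSC hSR hK hB hU hO i hi H hH A hA hneg
  have hK1 : 1 ≤ S.K := (le_max_left _ _).trans hK
  have hK2 : (2 * c + 1) ^ 8 ≤ S.K := (le_max_right _ _).trans hK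
  have hK0 : 0 < S.K := by linarith
  have hw : S.w = 1 / S.K ^ 2 := rfl
  have hw0 : 0 ≤ S.w := by rw [hw]; positivity
  have hw1 : S.w ≤ 1 := by
    rw [hw, div_le_one (by positivity)]
    exact one_le_pow₀ hK1
  set Kt : ℝ := S.K ^ (4 * θ) with hKt
  have hKt1 : 1 ≤ Kt := Real.one_le_rpow hK1 (by linarith)
  set Y : ℝ := 8 * C' ^ 4 * ((16 ^ k) ^ 2 * Kt) with hY
  have hY0 : 0 ≤ Y := by positivity
  set Z : ℕ := ⌊4 * R ^ 2 * (C' * Y)⌋₊ with hZ
  -- the bound for the levels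
  have lev : ∀ t ∈ A, (∀ p q, |t.1.2 p q| ≤ (Z : ℤ)) ∧ (∀ p q, |t.2.2 p q| ≤ (Z : ℤ)) ∧
      t.1.1 ∈ S.V ∧ t.1.1 = t.2.1 ∧
      ∃ m : ℕ, Ret C' S.w (S.g i) (S.g t.1.1) m t.1.2 := by
    intro t ht
    have ht1 : t.1 ∈ H ∧ t.2 ∈ H ∧ t.1.1 = t.2.1 := by
      have := hA ht
      unfold prs at this
      rw [Finset.mem_filter, Finset.mem_product] at this
      exact ⟨this.1.1, this.1.2, this.2⟩
    obtain ⟨hz, -, m1, hr1, hm1, -⟩ := hH t.1 ht1.1
    obtain ⟨-, -, m2, hr2, hm2, -⟩ := hH t.2 ht1.2.1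
    rw [← ht1.2.2] at hr2
    rw [hSC, ← hC'] at hr1 hr2
    obtain ⟨ha, haR⟩ := hU i hi
    obtain ⟨hb, hbR⟩ := hU t.1.1 hz
    rw [hSR] at haR hbR
    obtain ⟨hd1, hp1, hn1⟩ := hr1
    obtain ⟨hd2, hp2, hn2⟩ := hr2
    have hp1' : (1 : ℝ) ≤ m1 := by exact_mod_cast hp1
    have hp2' : (1 : ℝ) ≤ m2 := by exact_mod_cast hp2
    have hmm : 0 < (m1 : ℝ) * m2 := by positivity
    -- the loop
    set s : MZ := t.2.2.adjugate * t.1.2 with hs
    have hsl : lp t = s := rfl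
    have hdet : s.det = ((m1 : ℤ) * m2) ^ 2 := by
      rw [hs, Matrix.det_mul, Matrix.det_adjugate, hd1, hd2]
      simp
      ring
    have hF := fr_lp (S.g i) (S.g t.1.1) hb t.1.2 t.2.2
    rw [← hs] at hF
    set M1 := fr (S.g i) (S.g t.1.1) t.1.2 with hM1
    set M2 := fr (S.g i) (S.g t.1.1) t.2.2 with hM2
    set F := fr (S.g i) (S.g i) s with hFd
    obtain ⟨a1, a2, a3, a4⟩ := hn1
    obtain ⟨b1, b2, b3, b4⟩ := hn2
    have hcw : 0 ≤ C' * S.w := by positivity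
    have F01 : |F 0 1| ≤ 2 * C' ^ 2 * S.w * (m1 * m2) := by
      have e : F 0 1 = M2 1 1 * M1 0 1 - M2 0 1 * M1 1 1 := by
        rw [hF]; simp [Matrix.mul_apply, Fin.sum_univ_two, adjugate_fin_two]; ring
      rw [e]
      have e1 : |M2 1 1 * M1 0 1| ≤ (C' * m2) * (C' * S.w * m1) := by
        rw [abs_mul]; exact mul_le_mul b2 a3 (abs_nonneg _) (by positivity)
      have e2 : |M2 0 1 * M1 1 1| ≤ (C' * S.w * m2) * (C' * m1) := by
        rw [abs_mul]; exact mul_le_mul b3 a2 (abs_nonneg _) (by positivity)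
      calc |M2 1 1 * M1 0 1 - M2 0 1 * M1 1 1| ≤ |M2 1 1 * M1 0 1| + |M2 0 1 * M1 1 1| := abs_sub _ _
        _ ≤ (C' * m2) * (C' * S.w * m1) + (C' * S.w * m2) * (C' * m1) := add_le_add e1 e2
        _ = 2 * C' ^ 2 * S.w * (m1 * m2) := by ring
    have F10 : |F 1 0| ≤ 2 * C' ^ 2 * S.w * (m1 * m2) := by
      have e : F 1 0 = M2 0 0 * M1 1 0 - M2 1 0 * M1 0 0 := by
        rw [hF]; simp [Matrix.mul_apply, Fin.sum_univ_two, adjugate_fin_two]; ring
      rw [e]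
      have e1 : |M2 0 0 * M1 1 0| ≤ (C' * m2) * (C' * S.w * m1) := by
        rw [abs_mul]; exact mul_le_mul b1 a4 (abs_nonneg _) (by positivity)
      have e2 : |M2 1 0 * M1 0 0| ≤ (C' * S.w * m2) * (C' * m1) := by
        rw [abs_mul]; exact mul_le_mul b4 a1 (abs_nonneg _) (by positivity)
      calc |M2 0 0 * M1 1 0 - M2 1 0 * M1 0 0| ≤ |M2 0 0 * M1 1 0| + |M2 1 0 * M1 0 0| := abs_sub _ _
        _ ≤ (C' * m2) * (C' * S.w * m1) + (C' * S.w * m2) * (C' * m1) := add_le_add e1 e2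
        _ = 2 * C' ^ 2 * S.w * (m1 * m2) := by ring
    have htr : F 0 0 + F 1 1 = ((s.trace : ℤ) : ℝ) := tr_fr _ ha s
    have hdF : F 0 0 * F 1 1 - F 0 1 * F 1 0 = ((s.det : ℤ) : ℝ) := by
      rw [← det_fr _ ha s, Matrix.det_fin_two]
    have hdsc : s.trace ^ 2 - 4 * s.det < 0 := by
      have := hneg t ht
      rw [hsl] at this
      exact this
    -- the discriminant from below
    have hD : 2 * ((m1 : ℤ) * m2) ≤ 4 * s.det - s.trace ^ 2 := by
      have hpos : 0 < (m1 : ℤ) * m2 := by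
        have h1 : (0 : ℤ) < m1 := by exact_mod_cast hp1
        have h2 : (0 : ℤ) < m2 := by exact_mod_cast hp2
        exact mul_pos h1 h2
      rw [hdet] at hdsc ⊢
      exact ar1 _ _ hpos hdsc
    have hD' : 2 * ((m1 : ℝ) * m2) ≤ 4 * ((s.det : ℤ) : ℝ) - ((s.trace : ℤ) : ℝ) ^ 2 := by
      exact_mod_cast hD
    have hup : 4 * ((s.det : ℤ) : ℝ) - ((s.trace : ℤ) : ℝ) ^ 2 ≤
        4 * (2 * C' ^ 2 * S.w * (m1 * m2)) ^ 2 := by
      rw [← hdF, ← htr]
      have e1 : |F 0 1 * F 1 0| ≤ (2 * C' ^ 2 * S.w * (m1 * m2)) * (2 * C' ^ 2 * S.w * (m1 * m2)) := by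
        rw [abs_mul]; exact mul_le_mul F01 F10 (abs_nonneg _) (by positivity)
      exact ar2 e1
    have hL : (m1 : ℝ) * m2 ≤ (4 ^ k * S.K ^ (1 + θ)) ^ 2 := by
      rw [sq]
      exact mul_le_mul hm1 hm2 (by positivity) (by positivity)
    have hwL : S.w * (4 ^ k * S.K ^ (1 + θ)) ^ 2 = 16 ^ k * S.K ^ (2 * θ) := by
      have e1 : (S.K ^ (1 + θ)) ^ 2 = S.K ^ 2 * S.K ^ (2 * θ) := by
        rw [← Real.rpow_natCast (S.K ^ (1 + θ)) 2, ← Real.rpow_mul hK0.le,
          ← Real.rpow_natCast S.K 2, ← Real.rpow_add hK0]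
        congr 1; push_cast; ring
      have e2 : ((4 : ℝ) ^ k) ^ 2 = 16 ^ k := by
        rw [← pow_mul, mul_comm k 2, pow_mul]; norm_num
      rw [hw, mul_pow, e1, e2]
      field_simp
    have hsm : S.w * (m1 * m2) ≤ 16 ^ k * S.K ^ (2 * θ) := by
      rw [← hwL]
      exact mul_le_mul_of_nonneg_left hL hw0
    have hm12 : (m1 : ℝ) * m2 ≤ Y := by
      have e1 : (S.w * (m1 * m2)) ^ 2 ≤ (16 ^ k * S.K ^ (2 * θ)) ^ 2 :=
        pow_le_pow_left₀ (by positivity) hsm 2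
      have e2 : (16 ^ k * S.K ^ (2 * θ)) ^ 2 = (16 ^ k) ^ 2 * Kt := by
        rw [mul_pow, hKt, ← Real.rpow_natCast (S.K ^ (2 * θ)) 2, ← Real.rpow_mul hK0.le]
        congr 2; push_cast; ring
      rw [e2] at e1
      have e3 : 2 * ((m1 : ℝ) * m2) ≤ 16 * C' ^ 4 * (S.w * (m1 * m2)) ^ 2 := by
        refine (hD'.trans hup).trans (le_of_eq ?_)
        ring
      have e4 : 16 * C' ^ 4 * (S.w * (m1 * m2)) ^ 2 ≤ 16 * C' ^ 4 * ((16 ^ k) ^ 2 * Kt) :=
        mul_le_mul_of_nonneg_left e1 (by positivity)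
      rw [hY]
      linarith
    obtain ⟨hm1Y, hm2Y⟩ := ar3 hp1' hp2' hm12
    have hR0 : 0 ≤ R := by linarith
    have hent : ∀ (h : MZ) (m : ℕ), (m : ℝ) ≤ Y → Near C' S.w (m : ℝ) (fr (S.g i) (S.g t.1.1) h) →
        ∀ p q, |h p q| ≤ (Z : ℤ) := by
      intro h m hmY hn p q
      have e1 := entry_le (by linarith) hw1 hw0 hR0 ha hb haR hbR hn p q
      have e2 : 4 * R ^ 2 * (C' * m) ≤ 4 * R ^ 2 * (C' * Y) := by
        refine mul_le_mul_of_nonneg_left (mul_le_mul_of_nonneg_left hmY (by linarith)) (by positivity)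
      have e3 : ((|h p q| : ℤ) : ℝ) ≤ 4 * R ^ 2 * (C' * Y) := by
        push_cast
        exact e1.trans e2
      have e4 : ((|h p q|).toNat : ℝ) ≤ 4 * R ^ 2 * (C' * Y) := by
        have : (((|h p q|).toNat : ℤ) : ℝ) = ((|h p q| : ℤ) : ℝ) := by
          rw [Int.toNat_of_nonneg (abs_nonneg _)]
        rw [← this] at e3
        exact_mod_cast e3
      have e5 : (|h p q|).toNat ≤ Z := Nat.le_floor e4
      have e6 : |h p q| = ((|h p q|).toNat : ℤ) := (Int.toNat_of_nonneg (abs_nonneg _)).symm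
      rw [e6]
      exact_mod_cast e5
    exact ⟨hent _ m1 hm1Y ⟨a1, a2, a3, a4⟩, hent _ m2 hm2Y ⟨b1, b2, b3, b4⟩, hz, ht1.2.2, m1,
      hd1, hp1, a1, a2, a3, a4⟩
  -- counting
  have hcard : (A.card : ℝ) ≤ (((Bx Z) ×ˢ (Bx Z)).card : ℝ) * B := by
    have hmap : ∀ t ∈ A, (t.1.2, t.2.2) ∈ (Bx Z) ×ˢ (Bx Z) := by
      intro t ht
      obtain ⟨h1, h2, -⟩ := lev t ht
      exact Finset.mem_product.2 ⟨mem_Bx Z _ h1, mem_Bx Z _ h2⟩
    rw [Finset.card_eq_sum_card_fiberwise hmap]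
    push_cast
    calc (∑ y ∈ (Bx Z) ×ˢ (Bx Z), ((A.filter fun t => (t.1.2, t.2.2) = y).card : ℝ))
        ≤ ∑ _y ∈ (Bx Z) ×ˢ (Bx Z), B := by
          refine Finset.sum_le_sum fun y _ => ?_
          set Fb := A.filter fun t => (t.1.2, t.2.2) = y with hFb
          rcases Finset.eq_empty_or_nonempty Fb with he | ⟨t0, ht0⟩
          · rw [he]; simp; linarith
          · have ht0A : t0 ∈ A := (Finset.mem_filter.1 ht0).1
            have ht0y : (t0.1.2, t0.2.2) = y := (Finset.mem_filter.1 ht0).2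
            obtain ⟨-, -, -, -, m0, hr0⟩ := lev t0 ht0A
            have hcF : Fb.card = (Fb.image fun t => (t.1.1, (1 : MZ))).card := by
              rw [Finset.card_image_of_injOn]
              intro t ht t' ht' h
              have e1 := Finset.mem_filter.1 (Finset.mem_coe.1 ht)
              have e2 := Finset.mem_filter.1 (Finset.mem_coe.1 ht')
              have h' : (t.1.1, (1 : MZ)) = (t'.1.1, (1 : MZ)) := h
              have e3 : t.1.1 = t'.1.1 := (Prod.mk.inj h').1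
              have e4 : (t.1.2, t.2.2) = (t'.1.2, t'.2.2) := e1.2.trans e2.2.symm
              have e5 : t.1.2 = t'.1.2 := (Prod.mk.inj e4).1
              have e6 : t.2.2 = t'.2.2 := (Prod.mk.inj e4).2
              have e7 := (lev t e1.1).2.2.2.1
              have e8 := (lev t' e2.1).2.2.2.1
              exact Prod.ext (Prod.ext e3 e5) (Prod.ext (by rw [← e7, ← e8, e3]) e6)
            rw [hcF]
            refine hO i hi t0.1.2 m0 hr0.1 hr0.2.1 _ ?_
            intro u hu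
            obtain ⟨t, ht, rfl⟩ := Finset.mem_image.1 hu
            have e1 := Finset.mem_filter.1 ht
            have e5 : t.1.2 = t0.1.2 := (Prod.mk.inj (e1.2.trans ht0y.symm)).1
            obtain ⟨-, -, hz, -, m, hr⟩ := lev t e1.1
            have hmm : m = m0 := by
              have e6 : ((m : ℤ)) ^ 2 = (m0 : ℤ) ^ 2 := by rw [← hr.1, ← hr0.1, e5]
              have e7 : (m : ℤ) = m0 :=
                (pow_left_inj₀ (by positivity) (by positivity) two_ne_zero).1 e6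
              exact_mod_cast e7
            refine ⟨hz, Matrix.det_one, ?_⟩
            rw [Matrix.one_mul, ← e5, ← hmm]
            exact hr
      _ = (((Bx Z) ×ˢ (Bx Z)).card : ℝ) * B := by
          rw [Finset.sum_const, nsmul_eq_mul]
  have hZr : (Z : ℝ) ≤ c * Kt := by
    refine (Nat.floor_le (by positivity)).trans (le_of_eq ?_)
    rw [hc, hY]; ring
  have hbx : (((Bx Z) ×ˢ (Bx Z)).card : ℝ) ≤ S.K ^ (2 : ℝ) := by
    have h1 : ((Bx Z).card : ℝ) ≤ (2 * (Z : ℝ) + 1) ^ 4 := by exact_mod_cast card_Bx Z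
    have h2 : (((Bx Z) ×ˢ (Bx Z)).card : ℝ) ≤ (2 * (Z : ℝ) + 1) ^ 8 := by
      rw [Finset.card_product]
      push_cast
      calc ((Bx Z).card : ℝ) * (Bx Z).card ≤ (2 * (Z : ℝ) + 1) ^ 4 * (2 * (Z : ℝ) + 1) ^ 4 :=
            mul_le_mul h1 h1 (by positivity) (by positivity)
        _ = (2 * (Z : ℝ) + 1) ^ 8 := by ring
    have h3 : 2 * (Z : ℝ) + 1 ≤ (2 * c + 1) * Kt := ar4 hZr hKt1
    have h4 : (2 * (Z : ℝ) + 1) ^ 8 ≤ ((2 * c + 1) * Kt) ^ 8 :=
      pow_le_pow_left₀ (by positivity) h3 8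
    have h5 : Kt ^ 8 ≤ S.K := by
      rw [hKt, ← Real.rpow_natCast (S.K ^ (4 * θ)) 8, ← Real.rpow_mul hK0.le]
      calc S.K ^ (4 * θ * (8 : ℕ)) ≤ S.K ^ (1 : ℝ) := by
            apply Real.rpow_le_rpow_of_exponent_le hK1
            push_cast
            linarith
        _ = S.K := Real.rpow_one _
    calc (((Bx Z) ×ˢ (Bx Z)).card : ℝ) ≤ ((2 * c + 1) * Kt) ^ 8 := h2.trans h4
      _ = (2 * c + 1) ^ 8 * Kt ^ 8 := by rw [mul_pow]
      _ ≤ S.K * S.K := mul_le_mul hK2 h5 (by positivity) hK0.le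
      _ = S.K ^ (2 : ℝ) := by rw [← sq]; norm_cast
  calc (A.card : ℝ) ≤ (((Bx Z) ×ˢ (Bx Z)).card : ℝ) * B := hcard
    _ ≤ S.K ^ (2 : ℝ) * B := mul_le_mul_of_nonneg_right hbx (by linarith)
    _ = B * S.K ^ (2 : ℝ) := mul_comm _ _

end HSL
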