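import Pool.Agent.Lib.HS.L.SpecCL
import Pool.Agent.Lib.HS.L.CLN

/-!
PROJECT H*, HS/L: `tCNil`, nilpotent loops at level `K` (S_CNil of SpecCL.lean).
-/

set_option autoImplicit false

namespace HSL

open Matrix CLNM

namespace Nil_aux

theorem tf00 (s : MZ) : tf s 0 0 = s 0 0 - s 1 1 := by
  simp only [tf, Matrix.sub_apply, Matrix.smul_apply, smul_eq_mul, Matrix.one_apply_eq,
    Matrix.trace_fin_two]
  ring

theorem tf11 (s : MZ) : tf s 1 1 = s 1 1 - s 0 0 := by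
  simp only [tf, Matrix.sub_apply, Matrix.smul_apply, smul_eq_mul, Matrix.one_apply_eq,
    Matrix.trace_fin_two]
  ring

theorem tf01 (s : MZ) : tf s 0 1 = 2 * s 0 1 := by
  simp only [tf, Matrix.sub_apply, Matrix.smul_apply, smul_eq_mul,
    Matrix.one_apply_ne (show (0 : Fin 2) ≠ 1 by decide)]
  ring

theorem tf10 (s : MZ) : tf s 1 0 = 2 * s 1 0 := by
  simp only [tf, Matrix.sub_apply, Matrix.smul_apply, smul_eq_mul,
    Matrix.one_apply_ne (show (1 : Fin 2) ≠ 0 by decide)]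
  ring

theorem ext_tf {s s' : MZ} (h : tf s = tf s') (ht : s.trace = s'.trace) : s = s' := by
  have h00 := congrFun (congrFun h 0) 0
  have h01 := congrFun (congrFun h 0) 1
  have h10 := congrFun (congrFun h 1) 0
  rw [tf00, tf00] at h00
  rw [tf01, tf01] at h01
  rw [tf10, tf10] at h10
  rw [Matrix.trace_fin_two, Matrix.trace_fin_two] at ht
  ext i j
  fin_cases i <;> fin_cases j <;> simp only [Fin.zero_eta, Fin.mk_one, Fin.isValue] <;> omega

/-- entries of `a G a.adjugate` -/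
theorem conj_le {R Y : ℝ} (a G : MR) (hR : 0 ≤ R) (hY : 0 ≤ Y) (ha : ∀ i j, |a i j| ≤ R)
    (hG : ∀ i j, |G i j| ≤ Y) (i j : Fin 2) : |(a * G * a.adjugate) i j| ≤ 4 * R ^ 2 * Y := by
  have hadj : ∀ p q, |a.adjugate p q| ≤ R := by
    intro p q
    fin_cases p <;> fin_cases q
    · simpa [adjugate_fin_two] using ha 1 1
    · simpa [adjugate_fin_two] using ha 0 1
    · simpa [adjugate_fin_two] using ha 1 0
    · simpa [adjugate_fin_two] using ha 0 0
  have h3 : ∀ p q r t, |a p q * G q r * a.adjugate r t| ≤ R ^ 2 * Y := by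
    intro p q r t
    rw [abs_mul, abs_mul]
    have e1 : |a p q| * |G q r| ≤ R * Y := mul_le_mul (ha p q) (hG q r) (abs_nonneg _) hR
    have e2 : |a p q| * |G q r| * |a.adjugate r t| ≤ R * Y * R :=
      mul_le_mul e1 (hadj r t) (abs_nonneg _) (mul_nonneg hR hY)
    calc _ ≤ R * Y * R := e2
      _ = R ^ 2 * Y := by ring
  simp only [Matrix.mul_apply, Fin.sum_univ_two]
  have e := h3 i 0 0 j
  have e' := h3 i 1 0 j
  have e'' := h3 i 0 1 j
  have e''' := h3 i 1 1 j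
  rw [add_mul, add_mul]
  refine (abs_add_le _ _).trans ?_
  refine (add_le_add (abs_add_le _ _) (abs_add_le _ _)).trans ?_
  linarith

/-- the traceless part in the frame -/
theorem tf_conj (a : MR) (ha : a.det = 1) (s : MZ) (i j : Fin 2) :
    ((tf s i j : ℤ) : ℝ) = (a * !![fr a a s 0 0 - fr a a s 1 1, 2 * fr a a s 0 1;
      2 * fr a a s 1 0, fr a a s 1 1 - fr a a s 0 0] * a.adjugate) i j := by
  have h0 := toR_eq a a ha ha s
  have htr := tr_fr a ha s
  set F := fr a a s with hF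
  have hG : (!![F 0 0 - F 1 1, 2 * F 0 1; 2 * F 1 0, F 1 1 - F 0 0] : MR) =
      (2 : ℝ) • F - ((s.trace : ℤ) : ℝ) • (1 : MR) := by
    rw [← htr]
    ext p q
    fin_cases p <;> fin_cases q <;>
      simp only [Fin.zero_eta, Fin.mk_one, Fin.isValue, Matrix.of_apply, Matrix.cons_val', Matrix.cons_val_zero,
        Matrix.cons_val_one, Matrix.cons_val_fin_one, Matrix.sub_apply, Matrix.smul_apply, smul_eq_mul,
        Matrix.one_apply_eq, Matrix.one_apply_ne (show (0 : Fin 2) ≠ 1 by decide),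
        Matrix.one_apply_ne (show (1 : Fin 2) ≠ 0 by decide)] <;> ring
  rw [hG, Matrix.mul_sub, Matrix.sub_mul, Matrix.mul_smul, Matrix.smul_mul, ← h0, Matrix.mul_smul,
    Matrix.smul_mul, Matrix.mul_one, mul_adjugate, ha, one_smul]
  simp only [Matrix.sub_apply, Matrix.smul_apply, smul_eq_mul]
  have e1 : ((tf s i j : ℤ) : ℝ) = 2 * ((s i j : ℤ) : ℝ) - ((s.trace : ℤ) : ℝ) * (((1 : MZ) i j : ℤ) : ℝ) := by
    simp only [tf, Matrix.sub_apply, Matrix.smul_apply, smul_eq_mul]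
    push_cast
    ring
  have e2 : (((1 : MZ) i j : ℤ) : ℝ) = (1 : MR) i j := by
    fin_cases i <;> fin_cases j <;> simp
  rw [e1, e2]
  rfl

end Nil_aux

open Nil_aux

theorem tCNil (h2 : S_M2) : S_CNil := by
  classical
  intro k C R ε hk hC hR hε
  set C' : ℝ := (2 * C) ^ k with hC'
  have hC'1 : 1 ≤ C' := one_le_pow₀ (by linarith)
  set c1 : ℝ := 2 * C' ^ 2 * 16 ^ k with hc1
  have hc10 : 0 ≤ c1 := by positivity
  set Z : ℕ := ⌊8 * R ^ 2 * c1⌋₊ with hZ
  obtain ⟨K1, hM2⟩ := h2 k C (ε / 2) hk hC (by linarith)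
  set c2 : ℝ := ((2 * (Z : ℝ) + 1) ^ 4 * (5 * 16 ^ k)) * Z with hc2
  have hc20 : 0 ≤ c2 := by positivity
  refine ⟨max (max 1 (4 ^ k)) (max K1 ((1 + c2) ^ (1 / (ε / 2)))), ?_⟩
  intro S B hSC hSR hK hB hU hO i hi H hH A hA hn
  have hK1 : 1 ≤ S.K := ((le_max_left _ _).trans (le_max_left _ _)).trans hK
  have hK4 : (4 : ℝ) ^ k ≤ S.K := ((le_max_right _ _).trans (le_max_left _ _)).trans hK
  have hKM : K1 ≤ S.K := ((le_max_left _ _).trans (le_max_right _ _)).trans hK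
  have hKc : (1 + c2) ^ (1 / (ε / 2)) ≤ S.K := ((le_max_right _ _).trans (le_max_right _ _)).trans hK
  have hK0 : 0 < S.K := by linarith
  have hcK : c2 ≤ S.K ^ (ε / 2) := by
    have h0 : 0 < 1 + c2 := by linarith
    calc c2 ≤ 1 + c2 := by linarith
      _ = ((1 + c2) ^ (1 / (ε / 2))) ^ (ε / 2) := by
        rw [← Real.rpow_mul h0.le, one_div, inv_mul_cancel₀ (by linarith), Real.rpow_one]
      _ ≤ S.K ^ (ε / 2) := Real.rpow_le_rpow (by positivity) hKc (by linarith)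
  have hw : S.w = 1 / S.K ^ 2 := rfl
  have hw0 : 0 ≤ S.w := by rw [hw]; positivity
  have hR0 : 0 ≤ R := by linarith
  set L : ℝ := 4 ^ k * S.K with hL
  have h4k : (1 : ℝ) ≤ 4 ^ k := one_le_pow₀ (by norm_num)
  have hL1 : 1 ≤ L := by rw [hL]; nlinarith
  have hL3 : L ≤ S.K ^ 3 := by
    rw [hL]
    calc 4 ^ k * S.K ≤ S.K * S.K := mul_le_mul_of_nonneg_right hK4 hK0.le
      _ = S.K ^ 2 := by ring
      _ ≤ S.K ^ 3 := pow_le_pow_right₀ hK1 (by norm_num)
  have hLL : L * L = 16 ^ k * S.K ^ 2 := by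
    have e : ((4 : ℝ) ^ k) * 4 ^ k = 16 ^ k := by
      rw [← mul_pow]; norm_num
    calc L * L = (4 ^ k * 4 ^ k) * S.K ^ 2 := by rw [hL]; ring
      _ = 16 ^ k * S.K ^ 2 := by rw [e]
  have hwL : S.w * (L * L) = 16 ^ k := by
    rw [hLL, hw]
    field_simp
  -- facts for the elements of A
  have key : ∀ t ∈ A, (∀ p q, |tf (lp t) p q| ≤ (Z : ℤ)) ∧
      |(((lp t).trace : ℤ) : ℝ)| ≤ 2 * (16 ^ k * S.K ^ 2) := by
    intro t ht
    have ht1 : t.1 ∈ H ∧ t.2 ∈ H ∧ t.1.1 = t.2.1 := by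
      have := hA ht
      unfold prs at this
      rw [Finset.mem_filter, Finset.mem_product] at this
      exact ⟨this.1.1, this.1.2, this.2⟩
    obtain ⟨hz, -, m1, hr1, hm1, -⟩ := hH t.1 ht1.1
    obtain ⟨-, -, m2, hr2, hm2, -⟩ := hH t.2 ht1.2.1
    rw [← ht1.2.2] at hr2
    rw [hSC, ← hC'] at hr1 hr2
    obtain ⟨ha, haR⟩ := hU i hi
    obtain ⟨hb, hbR⟩ := hU t.1.1 hz
    rw [hSR] at haR hbR
    obtain ⟨hd1, hp1, hn1⟩ := hr1
    obtain ⟨hd2, hp2, hn2⟩ := hr2
    have hp1' : (0 : ℝ) < m1 := by exact_mod_cast hp1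
    have hp2' : (0 : ℝ) < m2 := by exact_mod_cast hp2
    have hmmL : (m1 : ℝ) * m2 ≤ L * L := mul_le_mul hm1 hm2 hp2'.le (by linarith)
    have hsm : S.w * (m1 * m2) ≤ 16 ^ k := by
      rw [← hwL]
      exact mul_le_mul_of_nonneg_left hmmL hw0
    set s : MZ := t.2.2.adjugate * t.1.2 with hs
    have hsl : lp t = s := rfl
    have hdet : s.det = ((m1 : ℤ) * m2) ^ 2 := by
      rw [hs, Matrix.det_mul, Matrix.det_adjugate, hd1, hd2]
      simp
      ring
    have hF := fr_lp (S.g i) (S.g t.1.1) hb t.1.2 t.2.2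
    rw [← hs] at hF
    obtain ⟨hdsc, -⟩ := hn t ht
    rw [hsl] at hdsc ⊢
    set M1 := fr (S.g i) (S.g t.1.1) t.1.2 with hM1
    set M2 := fr (S.g i) (S.g t.1.1) t.2.2 with hM2'
    obtain ⟨a1, a2, a3, a4⟩ := hn1
    obtain ⟨b1, b2, b3, b4⟩ := hn2
    have hcw : 0 ≤ C' * S.w := by positivity
    have F01 : |fr (S.g i) (S.g i) s 0 1| ≤ c1 := by
      have e : fr (S.g i) (S.g i) s 0 1 = M2 1 1 * M1 0 1 - M2 0 1 * M1 1 1 := by
        rw [hF]; simp [Matrix.mul_apply, Fin.sum_univ_two, adjugate_fin_two]; ring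
      rw [e]
      have e1 : |M2 1 1 * M1 0 1| ≤ (C' * m2) * (C' * S.w * m1) := by
        rw [abs_mul]; exact mul_le_mul b2 a3 (abs_nonneg _) (by positivity)
      have e2 : |M2 0 1 * M1 1 1| ≤ (C' * S.w * m2) * (C' * m1) := by
        rw [abs_mul]; exact mul_le_mul b3 a2 (abs_nonneg _) (by positivity)
      calc |M2 1 1 * M1 0 1 - M2 0 1 * M1 1 1| ≤ |M2 1 1 * M1 0 1| + |M2 0 1 * M1 1 1| := abs_sub _ _
        _ ≤ 2 * C' ^ 2 * (S.w * (m1 * m2)) := by nlinarith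
        _ ≤ c1 := mul_le_mul_of_nonneg_left hsm (by positivity)
    have F10 : |fr (S.g i) (S.g i) s 1 0| ≤ c1 := by
      have e : fr (S.g i) (S.g i) s 1 0 = M2 0 0 * M1 1 0 - M2 1 0 * M1 0 0 := by
        rw [hF]; simp [Matrix.mul_apply, Fin.sum_univ_two, adjugate_fin_two]; ring
      rw [e]
      have e1 : |M2 0 0 * M1 1 0| ≤ (C' * m2) * (C' * S.w * m1) := by
        rw [abs_mul]; exact mul_le_mul b1 a4 (abs_nonneg _) (by positivity)
      have e2 : |M2 1 0 * M1 0 0| ≤ (C' * S.w * m2) * (C' * m1) := by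
        rw [abs_mul]; exact mul_le_mul b4 a1 (abs_nonneg _) (by positivity)
      calc |M2 0 0 * M1 1 0 - M2 1 0 * M1 0 0| ≤ |M2 0 0 * M1 1 0| + |M2 1 0 * M1 0 0| := abs_sub _ _
        _ ≤ 2 * C' ^ 2 * (S.w * (m1 * m2)) := by nlinarith
        _ ≤ c1 := mul_le_mul_of_nonneg_left hsm (by positivity)
    set F := fr (S.g i) (S.g i) s with hFd
    have htr : F 0 0 + F 1 1 = ((s.trace : ℤ) : ℝ) := tr_fr _ ha s
    have hdF : F 0 0 * F 1 1 - F 0 1 * F 1 0 = ((s.det : ℤ) : ℝ) := by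
      rw [← det_fr _ ha s, Matrix.det_fin_two]
    have hd0 : ((s.trace : ℤ) : ℝ) ^ 2 - 4 * ((s.det : ℤ) : ℝ) = 0 := by
      have h0 : s.trace ^ 2 - 4 * s.det = 0 := hdsc
      exact_mod_cast h0
    have hx : |F 0 0 - F 1 1| ≤ 2 * c1 := by
      have e1 : (F 0 0 - F 1 1) ^ 2 = -4 * (F 0 1 * F 1 0) := by
        rw [← htr, ← hdF] at hd0
        linarith [hd0]
      have e2 : |F 0 1 * F 1 0| ≤ c1 * c1 := by
        rw [abs_mul]; exact mul_le_mul F01 F10 (abs_nonneg _) hc10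
      have e3 := neg_abs_le (F 0 1 * F 1 0)
      apply abs_le_of_sq_le_sq _ (by linarith)
      nlinarith
    refine ⟨?_, ?_⟩
    · intro p q
      have e1 := tf_conj (S.g i) ha s p q
      rw [← hFd] at e1
      have hG : ∀ p q, |(!![F 0 0 - F 1 1, 2 * F 0 1; 2 * F 1 0, F 1 1 - F 0 0] : MR) p q| ≤ 2 * c1 := by
        intro p q
        fin_cases p <;> fin_cases q
        · simpa using hx
        · simp only [Fin.zero_eta, Fin.mk_one, Fin.isValue, Matrix.of_apply, Matrix.cons_val', Matrix.cons_val_zero,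
            Matrix.cons_val_one, Matrix.cons_val_fin_one]
          rw [abs_mul, abs_of_pos (show (0 : ℝ) < 2 by norm_num)]
          linarith
        · simp only [Fin.zero_eta, Fin.mk_one, Fin.isValue, Matrix.of_apply, Matrix.cons_val', Matrix.cons_val_zero,
            Matrix.cons_val_one, Matrix.cons_val_fin_one]
          rw [abs_mul, abs_of_pos (show (0 : ℝ) < 2 by norm_num)]
          linarith
        · have : |F 1 1 - F 0 0| ≤ 2 * c1 := by rw [abs_sub_comm]; exact hx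
          simpa using this
      have e2 := conj_le (S.g i) _ hR0 (by linarith : (0 : ℝ) ≤ 2 * c1) haR hG p q
      rw [← e1] at e2
      have e3 : ((|tf s p q| : ℤ) : ℝ) ≤ 8 * R ^ 2 * c1 := by
        push_cast
        refine e2.trans (le_of_eq ?_)
        ring
      have e4 : ((|tf s p q|).toNat : ℝ) ≤ 8 * R ^ 2 * c1 := by
        have : (((|tf s p q|).toNat : ℤ) : ℝ) = ((|tf s p q| : ℤ) : ℝ) := by
          rw [Int.toNat_of_nonneg (abs_nonneg _)]
        rw [← this] at e3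
        exact_mod_cast e3
      have e5 : (|tf s p q|).toNat ≤ Z := Nat.le_floor e4
      have e6 : |tf s p q| = ((|tf s p q|).toNat : ℤ) := (Int.toNat_of_nonneg (abs_nonneg _)).symm
      rw [e6]
      exact_mod_cast e5
    · rw [hdet] at hd0
      have e1 : ((s.trace : ℤ) : ℝ) ^ 2 = (2 * ((m1 : ℝ) * m2)) ^ 2 := by
        push_cast at hd0
        linarith
      have e2 : |((s.trace : ℤ) : ℝ)| = 2 * ((m1 : ℝ) * m2) := by
        rw [← abs_of_nonneg (show (0 : ℝ) ≤ 2 * ((m1 : ℝ) * m2) by positivity)]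
        exact (sq_eq_sq_iff_abs_eq_abs _ _).1 e1
      rw [e2, ← hLL]
      linarith
  -- counting
  set N : ℕ := ⌊2 * (16 ^ k * S.K ^ 2)⌋₊ with hN
  have hmap : ∀ t ∈ A, (tf (lp t), (lp t).trace) ∈ (Bx Z) ×ˢ (Finset.Icc (-(N : ℤ)) N) := by
    intro t ht
    obtain ⟨k1, k2⟩ := key t ht
    refine Finset.mem_product.2 ⟨mem_Bx Z _ k1, ?_⟩
    rw [Finset.mem_Icc, ← abs_le]
    have e3 : ((|(lp t).trace| : ℤ) : ℝ) ≤ 2 * (16 ^ k * S.K ^ 2) := by
      push_cast
      exact k2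
    have e4 : ((|(lp t).trace|).toNat : ℝ) ≤ 2 * (16 ^ k * S.K ^ 2) := by
      have : (((|(lp t).trace|).toNat : ℤ) : ℝ) = ((|(lp t).trace| : ℤ) : ℝ) := by
        rw [Int.toNat_of_nonneg (abs_nonneg _)]
      rw [← this] at e3
      exact_mod_cast e3
    have e5 : (|(lp t).trace|).toNat ≤ N := Nat.le_floor e4
    have e6 : |(lp t).trace| = ((|(lp t).trace|).toNat : ℤ) := (Int.toNat_of_nonneg (abs_nonneg _)).symm
    change |(lp t).trace| ≤ (N : ℤ)
    rw [e6]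
    exact_mod_cast e5
  have hKe : 0 ≤ S.K ^ (ε / 2) := (Real.rpow_pos_of_pos hK0 _).le
  have hfib : ∀ y ∈ (Bx Z) ×ˢ (Finset.Icc (-(N : ℤ)) N),
      ((A.filter fun t => (tf (lp t), (lp t).trace) = y).card : ℝ) ≤ B * S.K ^ (ε / 2) * Z := by
    intro y _
    set Fb := A.filter fun t => (tf (lp t), (lp t).trace) = y with hFb
    rcases Finset.eq_empty_or_nonempty Fb with he | ⟨t0, ht0⟩
    · rw [he]
      simp only [Finset.card_empty, Nat.cast_zero]
      positivity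
    · have ht0A : t0 ∈ A := (Finset.mem_filter.1 ht0).1
      have ht0y := (Finset.mem_filter.1 ht0).2
      refine hM2 S B L hSC hKM hB hU hO hL1 hL3 i hi H hH Fb
        ((Finset.filter_subset _ _).trans hA) (lp t0) Z ?_ ?_
      · intro c hc
        obtain ⟨k1, -⟩ := key t0 ht0A
        have hne := (hn t0 ht0A).2
        have hex : ∃ p q, tf (lp t0) p q ≠ 0 := by
          by_contra hcon
          push Not at hcon
          exact hne (Matrix.ext fun p q => hcon p q)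
        obtain ⟨p, q, hpq⟩ := hex
        have hdv : c ∣ tf (lp t0) p q := by
          have : ∀ p q, c ∣ tf (lp t0) p q := by
            intro p q
            fin_cases p <;> fin_cases q <;> simp only [Fin.zero_eta, Fin.mk_one, Fin.isValue]
            · rw [tf00]; exact dvd_sub (hc 0 0) (hc 1 1)
            · rw [tf01]; exact (hc 0 1).mul_left 2
            · rw [tf10]; exact (hc 1 0).mul_left 2
            · rw [tf11]; exact dvd_sub (hc 1 1) (hc 0 0)
          exact this p q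
        have h1 : |c| ∣ |tf (lp t0) p q| := (abs_dvd_abs _ _).2 hdv
        exact (Int.le_of_dvd (abs_pos.2 hpq) h1).trans (k1 p q)
      · intro t ht
        have hty := (Finset.mem_filter.1 ht).2
        have e := hty.trans ht0y.symm
        exact ext_tf (Prod.mk.inj e).1 (Prod.mk.inj e).2
  have hcard : (A.card : ℝ) ≤ (((Bx Z) ×ˢ (Finset.Icc (-(N : ℤ)) N)).card : ℝ) *
      (B * S.K ^ (ε / 2) * Z) := by
    rw [Finset.card_eq_sum_card_fiberwise hmap]
    push_cast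
    calc (∑ y ∈ (Bx Z) ×ˢ (Finset.Icc (-(N : ℤ)) N),
          ((A.filter fun t => (tf (lp t), (lp t).trace) = y).card : ℝ))
        ≤ ∑ _y ∈ (Bx Z) ×ˢ (Finset.Icc (-(N : ℤ)) N), (B * S.K ^ (ε / 2) * Z) :=
          Finset.sum_le_sum hfib
      _ = _ := by rw [Finset.sum_const, nsmul_eq_mul]
  have hcB : (((Bx Z) ×ˢ (Finset.Icc (-(N : ℤ)) N)).card : ℝ) ≤
      (2 * (Z : ℝ) + 1) ^ 4 * (5 * (16 ^ k * S.K ^ 2)) := by
    rw [Finset.card_product]
    push_cast
    have e1 : ((Bx Z).card : ℝ) ≤ (2 * (Z : ℝ) + 1) ^ 4 := by exact_mod_cast card_Bx Z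
    have e2 : ((Finset.Icc (-(N : ℤ)) N).card : ℝ) ≤ 5 * (16 ^ k * S.K ^ 2) := by
      rw [Int.card_Icc]
      have e3 : ((N : ℤ) + 1 - -(N : ℤ)).toNat = 2 * N + 1 := by omega
      rw [e3]
      push_cast
      have e4 : (N : ℝ) ≤ 2 * (16 ^ k * S.K ^ 2) := Nat.floor_le (by positivity)
      have e5 : (1 : ℝ) ≤ 16 ^ k * S.K ^ 2 :=
        one_le_mul_of_one_le_of_one_le (one_le_pow₀ (by norm_num)) (one_le_pow₀ hK1)
      linarith
    exact mul_le_mul e1 e2 (Nat.cast_nonneg _) (by positivity)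
  have hB0 : 0 ≤ B := by linarith
  calc (A.card : ℝ) ≤ (((Bx Z) ×ˢ (Finset.Icc (-(N : ℤ)) N)).card : ℝ) * (B * S.K ^ (ε / 2) * Z) := hcard
    _ ≤ ((2 * (Z : ℝ) + 1) ^ 4 * (5 * (16 ^ k * S.K ^ 2))) * (B * S.K ^ (ε / 2) * Z) :=
        mul_le_mul_of_nonneg_right hcB (by positivity)
    _ = c2 * (B * S.K ^ 2 * S.K ^ (ε / 2)) := by rw [hc2]; ring
    _ ≤ S.K ^ (ε / 2) * (B * S.K ^ 2 * S.K ^ (ε / 2)) :=
        mul_le_mul_of_nonneg_right hcK (by positivity)
    _ = B * S.K ^ (2 + ε) := by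
        have e1 : S.K ^ (2 + ε) = S.K ^ 2 * (S.K ^ (ε / 2) * S.K ^ (ε / 2)) := by
          rw [← Real.rpow_add hK0, ← Real.rpow_natCast S.K 2, ← Real.rpow_add hK0]
          congr 1
          push_cast
          ring
        rw [e1]
        ring

end HSL
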