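import Pool.Agent.Lib.HS.L.SpecCL
import Pool.Agent.Lib.HS.Bd.SqLine

/-!
PROJECT H*, HS/L: `tFbr` (number of `s0` with given traceless part), `tFrm` (frame of the primitive
part). Proofs in the docstrings of `SpecCL.lean`.
-/

set_option autoImplicit false

namespace HSL

open Matrix

theorem tf_apply00 (s : MZ) : tf s 0 0 = s 0 0 - s 1 1 := by
  simp only [tf, Matrix.sub_apply, Matrix.smul_apply, smul_eq_mul, Matrix.one_apply_eq,
    Matrix.trace_fin_two]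
  ring

theorem tf_apply11 (s : MZ) : tf s 1 1 = s 1 1 - s 0 0 := by
  simp only [tf, Matrix.sub_apply, Matrix.smul_apply, smul_eq_mul, Matrix.one_apply_eq,
    Matrix.trace_fin_two]
  ring

theorem tf_apply01 (s : MZ) : tf s 0 1 = 2 * s 0 1 := by
  simp only [tf, Matrix.sub_apply, Matrix.smul_apply, smul_eq_mul,
    Matrix.one_apply_ne (show (0 : Fin 2) ≠ 1 by decide)]
  ring

theorem tf_apply10 (s : MZ) : tf s 1 0 = 2 * s 1 0 := by
  simp only [tf, Matrix.sub_apply, Matrix.smul_apply, smul_eq_mul,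
    Matrix.one_apply_ne (show (1 : Fin 2) ≠ 0 by decide)]
  ring

theorem tf_trace (s : MZ) : (tf s).trace = 0 := by
  rw [Matrix.trace_fin_two, tf_apply00, tf_apply11]; ring

theorem tf_det (s : MZ) : (tf s).det = - dsc s := by
  rw [Matrix.det_fin_two, tf_apply00, tf_apply01, tf_apply10, tf_apply11, dsc,
    Matrix.trace_fin_two, Matrix.det_fin_two]
  ring

theorem tf_smul (c : ℤ) (s : MZ) : tf (c • s) = c • tf s := by
  ext i j
  fin_cases i <;> fin_cases j <;>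
    simp only [Fin.zero_eta, Fin.mk_one, Fin.isValue, Matrix.smul_apply, smul_eq_mul, tf_apply00,
      tf_apply01, tf_apply10, tf_apply11] <;> ring

theorem dsc_smul (c : ℤ) (s : MZ) : dsc (c • s) = c ^ 2 * dsc s := by
  simp only [dsc, Matrix.trace_fin_two, Matrix.det_fin_two, Matrix.smul_apply, smul_eq_mul]
  ring

theorem ext_tf {s s' : MZ} (h : tf s = tf s') (ht : s.trace = s'.trace) : s = s' := by
  have h00 := congrFun (congrFun h 0) 0
  have h01 := congrFun (congrFun h 0) 1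
  have h10 := congrFun (congrFun h 1) 0
  rw [tf_apply00, tf_apply00] at h00
  rw [tf_apply01, tf_apply01] at h01
  rw [tf_apply10, tf_apply10] at h10
  rw [Matrix.trace_fin_two, Matrix.trace_fin_two] at ht
  ext i j
  fin_cases i <;> fin_cases j <;> simp only [Fin.zero_eta, Fin.mk_one, Fin.isValue] <;> omega

theorem tFbr : S_Fbr := by
  intro ε hε
  obtain ⟨C, hC, h⟩ := Pool.Agent.A54.HSBd.pell_card ε hε
  refine ⟨C, hC, fun Z hZ v hv hvZ S0 hS => ?_⟩
  classical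
  have hinj : Set.InjOn (fun r : MZ × ℕ => (r.1.trace, 2 * (r.2 : ℤ))) (S0 : Set (MZ × ℕ)) := by
    intro r hr r' hr' he
    simp only [Prod.mk.injEq] at he
    have e1 : r.1 = r'.1 := ext_tf ((hS r hr).1.trans (hS r' hr').1.symm) he.1
    have e2 : r.2 = r'.2 := by have := he.2; omega
    exact Prod.ext e1 e2
  rw [← Finset.card_image_of_injOn hinj]
  apply h Z hZ 1 (-v.det) one_ne_zero (neg_ne_zero.2 hv) (by rw [Int.cast_neg, abs_neg]; exact hvZ)
  intro q hq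
  obtain ⟨r, hr, rfl⟩ := Finset.mem_image.1 hq
  obtain ⟨h1, h2, h3, h4⟩ := hS r hr
  refine ⟨?_, h3, ?_⟩
  · simp only
    rw [← h1, tf_det, dsc, h2]
    ring
  · push_cast
    rw [abs_of_nonneg (by positivity)]
    exact h4

theorem toR_smul (c : ℤ) (s : MZ) : toR (c • s) = (c : ℝ) • toR s := by
  ext i j
  simp only [toR, Matrix.map_apply, Matrix.smul_apply, smul_eq_mul, Int.cast_mul]

theorem fr_zsm (a b : MR) (c : ℤ) (s : MZ) : fr a b (c • s) = (c : ℝ) • fr a b s := by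
  rw [fr, fr, toR_smul, Matrix.mul_smul, Matrix.smul_mul]

theorem tFrm (hFr : S_Fr) : S_Frm := by
  intro C' w a b m1 m2 n0 h1 h2 s0 c ha hb hw hw1 hC' hr1 hr2 hc hn0 hs0 hs
  obtain ⟨-, -, -, -, f5, f6, -⟩ := hFr
  have r2 := f6 C' w a b m2 h2 hr2
  have r3 := f5 C' C' w a b a m1 m2 h2.adjugate h1 hb hw hw1 hC' hC' hr1 r2
  obtain ⟨hdet, hpos, hnear⟩ := r3
  rw [hs] at hdet hnear
  -- |c| n0 = m2 m1
  have hcn : |(c : ℝ)| * (n0 : ℝ) = ((m2 * m1 : ℕ) : ℝ) := by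
    have e1 : (c * (n0 : ℤ)) ^ 2 = ((m2 * m1 : ℕ) : ℤ) ^ 2 := by
      rw [← hdet, Matrix.det_smul, Fintype.card_fin, hs0]; ring
    have e2 : ((c : ℝ) * (n0 : ℝ)) ^ 2 = ((m2 * m1 : ℕ) : ℝ) ^ 2 := by exact_mod_cast e1
    have e3 := (sq_eq_sq_iff_abs_eq_abs _ _).1 e2
    rw [abs_mul, abs_of_nonneg (Nat.cast_nonneg n0 : (0 : ℝ) ≤ n0),
      abs_of_nonneg (Nat.cast_nonneg (m2 * m1) : (0 : ℝ) ≤ ((m2 * m1 : ℕ) : ℝ))] at e3
    exact e3
  have hcpos : 0 < |(c : ℝ)| := abs_pos.2 (by exact_mod_cast hc)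
  have key : ∀ (D : ℝ) (i j : Fin 2), |fr a a (c • s0) i j| ≤ D * ((m2 * m1 : ℕ) : ℝ) →
      |fr a a s0 i j| ≤ D * (n0 : ℝ) := by
    intro D i j h
    rw [fr_zsm, Matrix.smul_apply, smul_eq_mul, abs_mul, ← hcn] at h
    have : |(c : ℝ)| * |fr a a s0 i j| ≤ |(c : ℝ)| * (D * (n0 : ℝ)) := by
      calc _ ≤ _ := h
        _ = _ := by ring
    exact le_of_mul_le_mul_left this hcpos
  obtain ⟨n1, n2, n3, n4⟩ := hnear
  have e : 2 * C' * C' = 2 * C' ^ 2 := by ring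
  rw [e] at n1 n2 n3 n4
  exact ⟨key _ _ _ n1, key _ _ _ n2, key _ _ _ n3, key _ _ _ n4⟩

end HSL
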