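import Pool.Agent.Lib.HS.L.Spec

/-!
# HS/L: multiplicities of loops, part 1: the number of right divisors of an integral matrix

`hermite`: pairwise inequivalent (left multiplication by SL2(Z)) right divisors `h` of `s` of determinant
`M` are at most `tau(M) * content(s)`. Proof: Hermite form `(α, β; 0, δ)`.
-/

set_option autoImplicit false

namespace HSL

open Matrix

/-- content -/
def ct (s : MZ) : ℕ := Int.gcd (Int.gcd (s 0 0) (s 0 1)) (Int.gcd (s 1 0) (s 1 1))

theorem dvd_ct {s : MZ} {e : ℤ} (h : ∀ i j, e ∣ s i j) : e ∣ (ct s : ℤ) := by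
  unfold ct
  exact Int.dvd_coe_gcd (Int.dvd_coe_gcd (h 0 0) (h 0 1)) (Int.dvd_coe_gcd (h 1 0) (h 1 1))

theorem ct_dvd (s : MZ) (i j : Fin 2) : (ct s : ℤ) ∣ s i j := by
  unfold ct
  have h1 : (Int.gcd (Int.gcd (s 0 0) (s 0 1)) (Int.gcd (s 1 0) (s 1 1)) : ℤ) ∣
      (Int.gcd (s 0 0) (s 0 1) : ℤ) := (Int.gcd_dvd_left _ _)
  have h2 : (Int.gcd (Int.gcd (s 0 0) (s 0 1)) (Int.gcd (s 1 0) (s 1 1)) : ℤ) ∣
      (Int.gcd (s 1 0) (s 1 1) : ℤ) := (Int.gcd_dvd_right _ _)
  fin_cases i <;> fin_cases j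
  · exact h1.trans (Int.gcd_dvd_left _ _)
  · exact h1.trans (Int.gcd_dvd_right _ _)
  · exact h2.trans (Int.gcd_dvd_left _ _)
  · exact h2.trans (Int.gcd_dvd_right _ _)

theorem ct_pos {s : MZ} (h : s ≠ 0) : 0 < ct s := by
  rw [Nat.pos_iff_ne_zero]
  intro h0
  apply h
  ext i j
  have := ct_dvd s i j
  rw [h0] at this
  simpa using this

namespace MultM

/-- Hermite form -/
theorem hermite_form (h : MZ) (M : ℤ) (hM : 0 < M) (hd : h.det = M) :
    ∃ (γ : MZ) (α β δ : ℤ), γ.det = 1 ∧ 0 < α ∧ 0 ≤ β ∧ β < δ ∧ α * δ = M ∧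
      γ * h = !![α, β; 0, δ] := by
  obtain ⟨g, hg⟩ : ∃ g : ℕ, g = Int.gcd (h 0 0) (h 1 0) := ⟨_, rfl⟩
  have hdet : h 0 0 * h 1 1 - h 0 1 * h 1 0 = M := by
    rw [← hd, Matrix.det_fin_two]
  have hg0 : (g : ℤ) ≠ 0 := by
    intro h0
    have h1 : Int.gcd (h 0 0) (h 1 0) = 0 := by rw [← hg]; exact_mod_cast h0
    rw [Int.gcd_eq_zero_iff] at h1
    rw [h1.1, h1.2] at hdet
    simp at hdet
    omega
  have hgp : (0 : ℤ) < g := lt_of_le_of_ne (Int.natCast_nonneg g) (Ne.symm hg0)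
  obtain ⟨a, ha⟩ : (g : ℤ) ∣ h 0 0 := hg ▸ (Int.gcd_dvd_left _ _)
  obtain ⟨c, hc⟩ : (g : ℤ) ∣ h 1 0 := hg ▸ (Int.gcd_dvd_right _ _)
  obtain ⟨x, y, hxy⟩ : ∃ x y : ℤ, h 0 0 * x + h 1 0 * y = g :=
    ⟨_, _, by rw [hg]; exact (Int.gcd_eq_gcd_ab (h 0 0) (h 1 0)).symm⟩
  have h1 : a * x + c * y = 1 := by
    have : (g : ℤ) * (a * x + c * y) = g * 1 := by
      rw [mul_one]
      calc (g : ℤ) * (a * x + c * y) = (g * a) * x + (g * c) * y := by ring
        _ = g := by rw [← ha, ← hc]; exact hxy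
    exact mul_left_cancel₀ hg0 this
  set δ : ℤ := a * h 1 1 - c * h 0 1 with hδ
  set b : ℤ := x * h 0 1 + y * h 1 1 with hb
  have hgδ : (g : ℤ) * δ = M := by
    rw [← hdet, ha, hc, hδ]
    ring
  have hδp : 0 < δ := by
    by_contra hcon
    rw [not_lt] at hcon
    have : (g : ℤ) * δ ≤ 0 := mul_nonpos_of_nonneg_of_nonpos hgp.le hcon
    omega
  refine ⟨!![x + (b / δ) * c, y - (b / δ) * a; -c, a], g, b % δ, δ, ?_, hgp,
    Int.emod_nonneg _ hδp.ne', Int.emod_lt_of_pos _ hδp, hgδ, ?_⟩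
  · rw [Matrix.det_fin_two_of]
    linear_combination h1
  · have hm := Int.emod_add_mul_ediv b δ
    have e00 : (x + (b / δ) * c) * h 0 0 + (y - (b / δ) * a) * h 1 0 = (g : ℤ) := by
      rw [← hxy]
      linear_combination (b / δ) * c * ha - (b / δ) * a * hc
    have e01 : (x + (b / δ) * c) * h 0 1 + (y - (b / δ) * a) * h 1 1 = b % δ := by
      linear_combination (-1 : ℤ) * hm
    have e10 : -c * h 0 0 + a * h 1 0 = 0 := by
      linear_combination (-c) * ha + a * hc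
    have e11 : -c * h 0 1 + a * h 1 1 = δ := by
      rw [hδ]
      ring
    ext i j
    rw [Matrix.mul_apply, Fin.sum_univ_two]
    fin_cases i <;> fin_cases j
    · exact e00
    · exact e01
    · exact e10
    · exact e11

/-- solutions of a pair of linear congruences -/
theorem congr_card {ι : Type} (T : Finset ι) (b : ι → ℤ) (δ t0 t1 a0 a1 : ℤ) (c : ℕ) (hδ : 0 < δ)
    (hb : ∀ i ∈ T, 0 ≤ b i ∧ b i < δ) (h0 : ∀ i ∈ T, δ ∣ b i * t0 - a0)
    (h1 : ∀ i ∈ T, δ ∣ b i * t1 - a1) (hinj : ∀ i ∈ T, ∀ j ∈ T, b i = b j → i = j)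
    (hc : ∀ e : ℤ, e ∣ t0 → e ∣ t1 → e ∣ a0 → e ∣ a1 → e ∣ (c : ℤ)) (hc0 : 0 < c) :
    T.card ≤ c := by
  rcases T.eq_empty_or_nonempty with hT | ⟨i₀, hi₀⟩
  · rw [hT, Finset.card_empty]
    exact Nat.zero_le _
  obtain ⟨u, hu⟩ : ∃ u : ℕ, u = Int.gcd t0 t1 := ⟨_, rfl⟩
  obtain ⟨e, he⟩ : ∃ e : ℕ, e = Int.gcd δ u := ⟨_, rfl⟩
  have hepos : 0 < e := by
    rw [he]
    exact Int.gcd_pos_of_ne_zero_left _ hδ.ne'
  obtain ⟨D, u', hDu, hD, hu'⟩ := Int.exists_gcd_one (m := δ) (n := (u : ℤ)) (by rw [← he]; exact hepos)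
  rw [← he] at hD hu'
  have hDpos : 0 < D := by
    by_contra hcon
    rw [not_lt] at hcon
    have : D * (e : ℤ) ≤ 0 := mul_nonpos_of_nonpos_of_nonneg hcon (Int.natCast_nonneg e)
    omega
  have hut0 : (u : ℤ) ∣ t0 := hu ▸ (Int.gcd_dvd_left _ _)
  have hut1 : (u : ℤ) ∣ t1 := hu ▸ (Int.gcd_dvd_right _ _)
  have heu : (e : ℤ) ∣ u := ⟨u', by rw [hu']; ring⟩
  have heδ : (e : ℤ) ∣ δ := ⟨D, by rw [hD]; ring⟩
  -- the content
  have hec : e ≤ c := by
    have h2 : (e : ℤ) ∣ c := by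
      refine hc e (heu.trans hut0) (heu.trans hut1) ?_ ?_
      · have h3 := heδ.trans (h0 i₀ hi₀)
        have h4 : (e : ℤ) ∣ b i₀ * t0 := (heu.trans hut0).mul_left _
        exact (dvd_sub_right h4).1 h3
      · have h3 := heδ.trans (h1 i₀ hi₀)
        have h4 : (e : ℤ) ∣ b i₀ * t1 := (heu.trans hut1).mul_left _
        exact (dvd_sub_right h4).1 h3
    exact Nat.le_of_dvd hc0 (by exact_mod_cast h2)
  refine le_trans ?_ hec
  -- congruence modulo `D`
  have hmod : ∀ i ∈ T, D ∣ b i - b i₀ := by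
    intro i hi
    have h2 : δ ∣ (b i - b i₀) * t0 := by
      have := dvd_sub (h0 i hi) (h0 i₀ hi₀)
      have e1 : b i * t0 - a0 - (b i₀ * t0 - a0) = (b i - b i₀) * t0 := by ring
      rwa [e1] at this
    have h3 : δ ∣ (b i - b i₀) * t1 := by
      have := dvd_sub (h1 i hi) (h1 i₀ hi₀)
      have e1 : b i * t1 - a1 - (b i₀ * t1 - a1) = (b i - b i₀) * t1 := by ring
      rwa [e1] at this
    have h4 : δ ∣ (b i - b i₀) * u := by
      have e1 : (u : ℤ) = t0 * Int.gcdA t0 t1 + t1 * Int.gcdB t0 t1 := by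
        rw [hu]
        exact Int.gcd_eq_gcd_ab t0 t1
      rw [e1]
      have e2 : (b i - b i₀) * (t0 * Int.gcdA t0 t1 + t1 * Int.gcdB t0 t1) =
          ((b i - b i₀) * t0) * Int.gcdA t0 t1 + ((b i - b i₀) * t1) * Int.gcdB t0 t1 := by ring
      rw [e2]
      exact dvd_add (h2.mul_right _) (h3.mul_right _)
    rw [hD, hu'] at h4
    have h5 : D ∣ (b i - b i₀) * u' := by
      have e1 : (b i - b i₀) * (u' * (e : ℤ)) = ((b i - b i₀) * u') * e := by ring
      rw [e1] at h4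
      exact Int.dvd_of_mul_dvd_mul_right (by exact_mod_cast hepos.ne') h4
    exact (Int.isCoprime_iff_gcd_eq_one.2 hDu).dvd_of_dvd_mul_right h5
  refine (Finset.card_le_card_of_injOn (t := Finset.range e) (fun i => (b i / D).toNat) ?_ ?_).trans
    (le_of_eq (Finset.card_range e))
  · intro i hi
    obtain ⟨h2, h3⟩ := hb i (Finset.mem_coe.1 hi)
    rw [Finset.coe_range, Set.mem_Iio]
    have h4 : 0 ≤ b i / D := Int.ediv_nonneg h2 hDpos.le
    have h5 : b i / D < e := by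
      rw [Int.ediv_lt_iff_lt_mul hDpos, mul_comm]
      rwa [← hD]
    show (b i / D).toNat < e
    omega
  · intro i hi j hj hij
    have hi' := Finset.mem_coe.1 hi
    have hj' := Finset.mem_coe.1 hj
    dsimp only at hij
    have h2 : 0 ≤ b i / D := Int.ediv_nonneg (hb i hi').1 hDpos.le
    have h3 : 0 ≤ b j / D := Int.ediv_nonneg (hb j hj').1 hDpos.le
    have h4 : b i / D = b j / D := by omega
    have h5 : b i % D = b j % D := by
      refine Int.ModEq.symm ?_
      rw [Int.modEq_iff_dvd]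
      have := dvd_sub (hmod i hi') (hmod j hj')
      have e1 : b i - b i₀ - (b j - b i₀) = b i - b j := by ring
      rwa [e1] at this
    refine hinj i hi' j hj' ?_
    rw [← Int.emod_add_mul_ediv (b i) D, ← Int.emod_add_mul_ediv (b j) D, h4, h5]

end MultM

open MultM

/-- **right divisors** -/
theorem hermite (s : MZ) (hs : s ≠ 0) (M : ℕ) (hM : 0 < M) (T : Finset MZ)
    (hT : ∀ h ∈ T, h.det = (M : ℤ) ∧ ∃ g : MZ, s = g * h)
    (hinj : ∀ h ∈ T, ∀ h' ∈ T, ∀ γ : MZ, γ.det = 1 → h' = γ * h → h = h') :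
    T.card ≤ M.divisors.card * ct s := by
  classical
  have hM' : (0 : ℤ) < M := by exact_mod_cast hM
  choose! γ α β δ h1 h2 h3 h4 h5 h6 using fun h (hh : h ∈ T) => hermite_form h M hM' (hT h hh).1
  have key : ∀ h ∈ T, ∀ h' ∈ T, α h = α h' → β h = β h' → h = h' := by
    intro h hh h' hh' ha hb
    have hδ : δ h = δ h' := by
      have e1 := (h5 h hh).trans (h5 h' hh').symm
      rw [ha] at e1
      exact mul_left_cancel₀ (h2 h' hh').ne' e1
    refine hinj h hh h' hh' ((γ h').adjugate * γ h) ?_ ?_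
    · rw [Matrix.det_mul, Matrix.det_adjugate, h1 h hh, h1 h' hh']
      simp
    · have e2 : γ h * h = γ h' * h' := by
        rw [h6 h hh, h6 h' hh', ha, hb, hδ]
      rw [Matrix.mul_assoc, e2, ← Matrix.mul_assoc, Matrix.adjugate_mul, h1 h' hh', one_smul,
        Matrix.one_mul]
  have hk := Finset.card_le_mul_card_image (f := fun h => (α h).toNat) T (ct s) (by
    intro a ha
    obtain ⟨h₀, hh₀, rfl⟩ := Finset.mem_image.1 ha
    have haeq : ∀ h ∈ T.filter (fun h => (α h).toNat = (α h₀).toNat), α h = α h₀ := by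
      intro h hh
      obtain ⟨k1, k2⟩ := Finset.mem_filter.1 hh
      have := h2 h k1
      have := h2 h₀ hh₀
      omega
    have hδeq : ∀ h ∈ T.filter (fun h => (α h).toNat = (α h₀).toNat), δ h = δ h₀ := by
      intro h hh
      obtain ⟨k1, k2⟩ := Finset.mem_filter.1 hh
      have e1 := (h5 h k1).trans (h5 h₀ hh₀).symm
      rw [haeq h hh] at e1
      exact mul_left_cancel₀ (h2 h₀ hh₀).ne' e1
    have hδ₀ : 0 < δ h₀ := lt_of_le_of_lt (h3 h₀ hh₀) (h4 h₀ hh₀)
    -- the cofactors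
    have hG : ∀ h ∈ T, ∃ G : MZ, s 0 0 = G 0 0 * α h ∧ s 1 0 = G 1 0 * α h ∧
        s 0 1 = G 0 0 * β h + G 0 1 * δ h ∧ s 1 1 = G 1 0 * β h + G 1 1 * δ h := by
      intro h hh
      obtain ⟨g, hg⟩ := (hT h hh).2
      have e1 : s = (g * (γ h).adjugate) * !![α h, β h; 0, δ h] := by
        rw [← h6 h hh, Matrix.mul_assoc, ← Matrix.mul_assoc (γ h).adjugate, Matrix.adjugate_mul,
          h1 h hh, one_smul, Matrix.one_mul]
        exact hg
      refine ⟨g * (γ h).adjugate, ?_, ?_, ?_, ?_⟩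
      · conv_lhs => rw [e1]
        rw [Matrix.mul_apply, Fin.sum_univ_two]
        simp
      · conv_lhs => rw [e1]
        rw [Matrix.mul_apply, Fin.sum_univ_two]
        simp
      · conv_lhs => rw [e1]
        rw [Matrix.mul_apply, Fin.sum_univ_two]
        simp
      · conv_lhs => rw [e1]
        rw [Matrix.mul_apply, Fin.sum_univ_two]
        simp
    obtain ⟨G₀, g1, g2, g3, g4⟩ := hG h₀ hh₀
    have hα₀ : α h₀ ≠ 0 := (h2 h₀ hh₀).ne'
    refine congr_card (T.filter (fun h => (α h).toNat = (α h₀).toNat)) β (δ h₀) (G₀ 0 0) (G₀ 1 0)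
      (s 0 1) (s 1 1) (ct s) hδ₀ ?_ ?_ ?_ ?_ ?_ (ct_pos hs)
    · intro h hh
      rw [← hδeq h hh]
      exact ⟨h3 h (Finset.mem_filter.1 hh).1, h4 h (Finset.mem_filter.1 hh).1⟩
    · intro h hh
      obtain ⟨G, f1, f2, f3, f4⟩ := hG h (Finset.mem_filter.1 hh).1
      rw [haeq h hh] at f1
      have f5 : G 0 0 = G₀ 0 0 := mul_right_cancel₀ hα₀ (f1.symm.trans g1)
      rw [f3, f5, hδeq h hh]
      exact ⟨-G 0 1, by ring⟩
    · intro h hh
      obtain ⟨G, f1, f2, f3, f4⟩ := hG h (Finset.mem_filter.1 hh).1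
      rw [haeq h hh] at f2
      have f5 : G 1 0 = G₀ 1 0 := mul_right_cancel₀ hα₀ (f2.symm.trans g2)
      rw [f4, f5, hδeq h hh]
      exact ⟨-G 1 1, by ring⟩
    · intro h hh h' hh' hb
      exact key h (Finset.mem_filter.1 hh).1 h' (Finset.mem_filter.1 hh').1
        ((haeq h hh).trans (haeq h' hh').symm) hb
    · intro e e1 e2 e3 e4
      refine dvd_ct fun i j => ?_
      fin_cases i <;> fin_cases j
      · show e ∣ s 0 0
        rw [g1]
        exact e1.mul_right _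
      · exact e3
      · show e ∣ s 1 0
        rw [g2]
        exact e2.mul_right _
      · exact e4)
  refine hk.trans ?_
  rw [mul_comm]
  refine Nat.mul_le_mul_right _ (Finset.card_le_card ?_)
  intro a ha
  obtain ⟨h, hh, rfl⟩ := Finset.mem_image.1 ha
  rw [Nat.mem_divisors]
  refine ⟨?_, hM.ne'⟩
  have h7 : α h ∣ (M : ℤ) := ⟨δ h, (h5 h hh).symm⟩
  have h8 : ((α h).toNat : ℤ) = α h := Int.toNat_of_nonneg (h2 h hh).le
  rw [← h8] at h7
  exact_mod_cast h7

/-! ### Pairs with a given loop -/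

/-- left equivalence -/
def eqv : Setoid MZ where
  r h h' := ∃ γ : MZ, γ.det = 1 ∧ h' = γ * h
  iseqv :=
    { refl := fun h => ⟨1, Matrix.det_one, (Matrix.one_mul h).symm⟩
      symm := by
        rintro h h' ⟨γ, h1, h2⟩
        refine ⟨γ.adjugate, ?_, ?_⟩
        · rw [Matrix.det_adjugate, h1]
          simp
        · rw [h2, ← Matrix.mul_assoc, Matrix.adjugate_mul, h1, one_smul, Matrix.one_mul]
      trans := by
        rintro a b c ⟨γ, h1, h2⟩ ⟨γ', h3, h4⟩
        exact ⟨γ' * γ, by rw [Matrix.det_mul, h1, h3, mul_one],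
          by rw [h4, h2, Matrix.mul_assoc]⟩ }

theorem card_divisors_le (n : ℕ) (hn : n ≠ 0) : n.divisors.card ≤ 2 ^ n.primeFactorsList.length := by
  induction n using Nat.recOnMul with
  | zero => exact absurd rfl hn
  | one => simp
  | prime p hp =>
    rw [Nat.primeFactorsList_prime hp, hp.divisors]
    exact Finset.card_le_two
  | mul a b ha hb =>
    have ha0 : a ≠ 0 := fun h => hn (by rw [h, zero_mul])
    have hb0 : b ≠ 0 := fun h => hn (by rw [h, mul_zero])
    have h1 : (a * b).divisors.card ≤ a.divisors.card * b.divisors.card := by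
      rw [Nat.divisors_mul]
      exact Finset.card_mul_le
    have h2 : (a * b).primeFactorsList.length = a.primeFactorsList.length + b.primeFactorsList.length := by
      rw [(Nat.perm_primeFactorsList_mul ha0 hb0).length_eq, List.length_append]
    rw [h2, pow_add]
    exact h1.trans (Nat.mul_le_mul (ha ha0) (hb hb0))

theorem length_mul {a b : ℕ} (ha : a ≠ 0) (hb : b ≠ 0) :
    (a * b).primeFactorsList.length = a.primeFactorsList.length + b.primeFactorsList.length := by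
  rw [(Nat.perm_primeFactorsList_mul ha hb).length_eq, List.length_append]

/-- **multiplicity of a loop** -/
theorem mult (S : Sys) (k : ℕ) (L B : ℝ) (hB : 1 ≤ B) (hO : S.Ovl ((2 * S.C) ^ k) B) (i : S.ι) (hi : i ∈ S.V)
    (H : Finset (S.ι × MZ)) (hH : Hk S k L i H) (s : MZ) (A : Finset ((S.ι × MZ) × (S.ι × MZ)))
    (hA : A ⊆ prs H) (hAs : ∀ t ∈ A, lp t = s) : (A.card : ℝ) ≤ B * 2 ^ (8 * k) * ct s := by
  classical
  rcases A.eq_empty_or_nonempty with hemp | ⟨t₀, ht₀⟩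
  · rw [hemp, Finset.card_empty]
    push_cast
    positivity
  have hmem : ∀ t ∈ A, t.1 ∈ H ∧ t.2 ∈ H ∧ t.1.1 = t.2.1 := by
    intro t ht
    have h1 := hA ht
    unfold prs at h1
    rw [Finset.mem_filter, Finset.mem_product] at h1
    exact ⟨h1.1.1, h1.1.2, h1.2⟩
  -- levels
  have hlev : ∀ t ∈ H, ∃ m : ℕ, 0 < m ∧ t.2.det = (m : ℤ) ^ 2 ∧ m.primeFactorsList.length ≤ 2 * k ∧
      Ret ((2 * S.C) ^ k) S.w (S.g i) (S.g t.1) m t.2 := by
    intro t ht
    obtain ⟨-, -, m, h1, -, h3⟩ := hH t ht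
    exact ⟨m, h1.2.1, h1.1, h3, h1⟩
  choose! lv hl1 hl2 hl3 hl4 using hlev
  have hdets : s.det = ((lv t₀.1 * lv t₀.2 : ℕ) : ℤ) ^ 2 := by
    rw [← hAs t₀ ht₀]
    unfold lp
    rw [Matrix.det_mul, Matrix.det_adjugate, hl2 _ (hmem t₀ ht₀).1, hl2 _ (hmem t₀ ht₀).2.1]
    push_cast
    simp
    ring
  set n : ℕ := lv t₀.1 * lv t₀.2 with hn
  have hn0 : 0 < n := Nat.mul_pos (hl1 _ (hmem t₀ ht₀).1) (hl1 _ (hmem t₀ ht₀).2.1)
  have hs0 : s ≠ 0 := by
    intro h
    rw [h, Matrix.det_zero] at hdets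
    have : (0 : ℤ) < ((n : ℕ) : ℤ) ^ 2 := by positivity
    omega
  have hnl : ∀ t ∈ A, lv t.1 * lv t.2 = n := by
    intro t ht
    have h1 : s.det = ((lv t.1 * lv t.2 : ℕ) : ℤ) ^ 2 := by
      rw [← hAs t ht]
      unfold lp
      rw [Matrix.det_mul, Matrix.det_adjugate, hl2 _ (hmem t ht).1, hl2 _ (hmem t ht).2.1]
      push_cast
      simp
      ring
    rw [hdets] at h1
    have h2 : (n : ℕ) ^ 2 = (lv t.1 * lv t.2) ^ 2 := by exact_mod_cast h1
    exact (Nat.pow_left_injective two_ne_zero h2).symm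
  -- the first components
  set U : Finset (S.ι × MZ) := A.image Prod.fst with hU
  have hAU : A.card ≤ U.card := by
    rw [hU, Finset.card_image_of_injOn]
    intro t ht t' ht' htt
    have e1 := hAs t (Finset.mem_coe.1 ht)
    have e2 := hAs t' (Finset.mem_coe.1 ht')
    unfold lp at e1 e2
    have e0 : t.1 = t'.1 := htt
    have e3 : t.2.2.adjugate * t.1.2 = t'.2.2.adjugate * t.1.2 := by
      rw [e1, e0, e2]
    have e4 : t.1.2.det • t.2.2.adjugate = t.1.2.det • t'.2.2.adjugate := by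
      have := congrArg (fun X => X * t.1.2.adjugate) e3
      simp only [Matrix.mul_assoc, Matrix.mul_adjugate, Matrix.mul_smul, Matrix.mul_one] at this
      exact this
    have hd : t.1.2.det ≠ 0 := by
      rw [hl2 _ (hmem t (Finset.mem_coe.1 ht)).1]
      have := hl1 _ (hmem t (Finset.mem_coe.1 ht)).1
      positivity
    have e5 : t.2.2.adjugate = t'.2.2.adjugate := smul_right_injective _ hd e4
    have e6 : t.2.2 = t'.2.2 := by
      have e7 := congrArg Matrix.adjugate e5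
      rw [Matrix.adjugate_adjugate' , Matrix.adjugate_adjugate'] at e7
      simpa using e7
    have e8 : t.2.1 = t'.2.1 := by
      rw [← (hmem t (Finset.mem_coe.1 ht)).2.2, ← (hmem t' (Finset.mem_coe.1 ht')).2.2, e0]
    exact Prod.ext e0 (Prod.ext e8 e6)
  have hUH : ∀ u ∈ U, u ∈ H ∧ lv u ∣ n ∧ ∃ g : MZ, s = g * u.2 := by
    intro u hu
    obtain ⟨t, ht, rfl⟩ := Finset.mem_image.1 hu
    refine ⟨(hmem t ht).1, ⟨lv t.2, (hnl t ht).symm⟩, t.2.2.adjugate, ?_⟩
    exact (hAs t ht).symm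
  -- fibres of the level
  have hfib : ∀ m ∈ U.image lv, ((U.filter (fun u => lv u = m)).card : ℝ) ≤ B * (2 ^ (4 * k) * ct s) := by
    intro m hm
    obtain ⟨u₀, hu₀, hum⟩ := Finset.mem_image.1 hm
    set W := U.filter (fun u => lv u = m) with hW
    have hWU : ∀ u ∈ W, u ∈ U ∧ lv u = m := fun u hu => Finset.mem_filter.1 hu
    have hm0 : 0 < m := by
      rw [← hum]
      exact hl1 _ (hUH u₀ hu₀).1
    have hml : m.primeFactorsList.length ≤ 2 * k := by
      rw [← hum]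
      exact hl3 _ (hUH u₀ hu₀).1
    let rep : S.ι × MZ → MZ := fun u => (Quotient.mk eqv u.2).out
    have hrep : ∀ u : S.ι × MZ, ∃ γ : MZ, γ.det = 1 ∧ u.2 = γ * rep u := fun u =>
      Quotient.exact (s := eqv) (Quotient.out_eq (Quotient.mk eqv u.2))
    set T := W.image rep with hT
    have hTc : T.card ≤ (m ^ 2).divisors.card * ct s := by
      refine hermite s hs0 (m ^ 2) (pow_pos hm0 2) T ?_ ?_
      · intro h hh
        obtain ⟨u, hu, rfl⟩ := Finset.mem_image.1 hh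
        obtain ⟨γ, g1, g2⟩ := hrep u
        obtain ⟨hu1, hu2⟩ := hWU u hu
        obtain ⟨hu3, -, g, hg⟩ := hUH u hu1
        refine ⟨?_, g * γ, ?_⟩
        · have e1 := hl2 u hu3
          rw [g2, Matrix.det_mul, g1, one_mul, hu2] at e1
          rw [e1]
          push_cast
          ring
        · rw [Matrix.mul_assoc, ← g2]
          exact hg
      · intro h hh h' hh' γ hγ hγ'
        obtain ⟨u, hu, rfl⟩ := Finset.mem_image.1 hh
        obtain ⟨u', hu', rfl⟩ := Finset.mem_image.1 hh'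
        have e1 : Quotient.mk eqv (rep u) = Quotient.mk eqv (rep u') :=
          Quotient.sound (s := eqv) ⟨γ, hγ, hγ'⟩
        have e2 : Quotient.mk eqv (rep u) = Quotient.mk eqv u.2 := Quotient.out_eq _
        have e3 : Quotient.mk eqv (rep u') = Quotient.mk eqv u'.2 := Quotient.out_eq _
        show (Quotient.mk eqv u.2).out = (Quotient.mk eqv u'.2).out
        rw [← e2, ← e3, e1]
    have hTd : (T.card : ℝ) ≤ 2 ^ (4 * k) * ct s := by
      have h1 : (m ^ 2).divisors.card ≤ 2 ^ (4 * k) := by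
        refine (card_divisors_le _ (pow_ne_zero _ hm0.ne')).trans ?_
        refine Nat.pow_le_pow_right (by norm_num) ?_
        rw [pow_two, length_mul hm0.ne' hm0.ne']
        omega
      have h2 : T.card ≤ 2 ^ (4 * k) * ct s := hTc.trans (Nat.mul_le_mul_right _ h1)
      exact_mod_cast h2
    have hWT : (W.card : ℝ) ≤ (T.card : ℝ) * B := by
      have h1 : W.card = ∑ N ∈ T, (W.filter (fun u => rep u = N)).card :=
        Finset.card_eq_sum_card_fiberwise (fun u hu => Finset.mem_coe.2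
          (Finset.mem_image_of_mem rep (Finset.mem_coe.1 hu)))
      rw [h1]
      push_cast
      have h2 : ∀ N ∈ T, ((W.filter (fun u => rep u = N)).card : ℝ) ≤ B := by
        intro N hN
        obtain ⟨u₁, hu₁, hN1⟩ := Finset.mem_image.1 hN
        choose γ hγ1 hγ2 using hrep
        obtain ⟨hu2, hu3⟩ := hWU u₁ hu₁
        have hNdet : N.det = (m : ℤ) ^ 2 := by
          have e1 := hl2 u₁ (hUH u₁ hu2).1
          rw [hγ2 u₁, Matrix.det_mul, hγ1, one_mul, hu3] at e1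
          rw [← hN1]
          exact e1
        have h3 : (W.filter (fun u => rep u = N)).card =
            ((W.filter (fun u => rep u = N)).image (fun u => (u.1, γ u))).card := by
          rw [Finset.card_image_of_injOn]
          intro u hu v hv huv
          obtain ⟨hu4, hu5⟩ := Finset.mem_filter.1 (Finset.mem_coe.1 hu)
          obtain ⟨hv4, hv5⟩ := Finset.mem_filter.1 (Finset.mem_coe.1 hv)
          have e1 := (Prod.mk.inj huv).1
          have e2 := (Prod.mk.inj huv).2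
          refine Prod.ext e1 ?_
          rw [hγ2 u, hγ2 v, e2, hu5, hv5]
        rw [h3]
        refine hO i hi N m hNdet hm0 _ ?_
        intro t ht
        obtain ⟨u, hu, rfl⟩ := Finset.mem_image.1 ht
        obtain ⟨hu4, hu5⟩ := Finset.mem_filter.1 hu
        obtain ⟨hu6, hu7⟩ := hWU u hu4
        have hu8 := (hUH u hu6).1
        refine ⟨(hH u hu8).1, hγ1 u, ?_⟩
        show Ret ((2 * S.C) ^ k) S.w (S.g i) (S.g u.1) m (γ u * N)
        rw [← hu5, ← hγ2 u, ← hu7]
        exact hl4 u hu8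
      calc ∑ N ∈ T, ((W.filter (fun u => rep u = N)).card : ℝ) ≤ ∑ _N ∈ T, B := Finset.sum_le_sum h2
        _ = (T.card : ℝ) * B := by rw [Finset.sum_const, nsmul_eq_mul]
    calc (W.card : ℝ) ≤ (T.card : ℝ) * B := hWT
      _ ≤ (2 ^ (4 * k) * ct s) * B := mul_le_mul_of_nonneg_right hTd (by linarith)
      _ = _ := by ring
  -- number of levels
  have hlevc : ((U.image lv).card : ℝ) ≤ 2 ^ (4 * k) := by
    have h1 : U.image lv ⊆ n.divisors := by
      intro m hm
      obtain ⟨u, hu, rfl⟩ := Finset.mem_image.1 hm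
      exact Nat.mem_divisors.2 ⟨(hUH u hu).2.1, hn0.ne'⟩
    have h2 : (U.image lv).card ≤ 2 ^ (4 * k) := by
      refine (Finset.card_le_card h1).trans ((card_divisors_le n hn0.ne').trans ?_)
      refine Nat.pow_le_pow_right (by norm_num) ?_
      rw [hn, length_mul (hl1 _ (hmem t₀ ht₀).1).ne' (hl1 _ (hmem t₀ ht₀).2.1).ne']
      have := hl3 _ (hmem t₀ ht₀).1
      have := hl3 _ (hmem t₀ ht₀).2.1
      omega
    exact_mod_cast h2
  have hUc : (U.card : ℝ) ≤ 2 ^ (4 * k) * (B * (2 ^ (4 * k) * ct s)) := by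
    have h1 : U.card = ∑ m ∈ U.image lv, (U.filter (fun u => lv u = m)).card :=
      Finset.card_eq_sum_card_fiberwise (fun u hu => Finset.mem_coe.2
        (Finset.mem_image_of_mem lv (Finset.mem_coe.1 hu)))
    rw [h1]
    push_cast
    calc ∑ m ∈ U.image lv, ((U.filter (fun u => lv u = m)).card : ℝ)
        ≤ ∑ _m ∈ U.image lv, (B * (2 ^ (4 * k) * ct s)) := Finset.sum_le_sum hfib
      _ = ((U.image lv).card : ℝ) * (B * (2 ^ (4 * k) * ct s)) := by rw [Finset.sum_const, nsmul_eq_mul]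
      _ ≤ _ := mul_le_mul_of_nonneg_right hlevc (by positivity)
  calc (A.card : ℝ) ≤ (U.card : ℝ) := by exact_mod_cast hAU
    _ ≤ 2 ^ (4 * k) * (B * (2 ^ (4 * k) * ct s)) := hUc
    _ = B * 2 ^ (8 * k) * ct s := by
        have : (2 : ℝ) ^ (8 * k) = 2 ^ (4 * k) * 2 ^ (4 * k) := by rw [← pow_add]; congr 1; ring
        rw [this]
        ring

end HSL
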