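import Pool.Agent.Lib.HS.L.Defs

/-!
PROJECT H*, PLAN L (MP_a54f13_nt), part HS/L: transport, loops, algebra, general position.
Architect helper81. Every `S_...` is a statement with a COMPLETE proof in its docstring; the task
for the module `x` is the theorem `tX : ... → S_X` in Pool/Agent/Lib/HS/L/X.lean.

Order: (algebra) Sub, Diag, Box, Alg; (transport) SSt, Pig, Exa, TR; (walks) WkR, WkN;
(counts) CLA, CLL, CLB, CLN, CLZ; (selection) Sel, Loop, End, GP.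
-/

set_option autoImplicit false

namespace HSL

open Matrix

/-- evaluation at a real matrix -/
noncomputable def evR (M : MR) (f : MvPolynomial (Fin 2 × Fin 2) ℝ) : ℝ :=
  MvPolynomial.eval (fun ij : Fin 2 × Fin 2 => M ij.1 ij.2) f

/-! ### Algebra -/

/-- Sub. Basic facts about right translation. PROOF. (1) `evR M (sub h f) = evR (M * h) f`:
`eval` after `aeval` is `eval` of the evaluated generators, and `sum_k M i k * h k j = (M*h) i j`.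
(2) `ev r f = evR (toR r) f` by definition of `toR`. (3) `sub a (sub b f) = sub (a*b) f`: both sides
have the same value at every real matrix by (1) (`M*a*b`), and real polynomials with the same values
are equal (`MvPolynomial.funext`; every point of `Fin 2 × Fin 2 → ℝ` comes from a matrix). (4)
`sub 1 f = f`, the same. (5) `f` homogeneous of degree `e` implies `sub h f` homogeneous of degree
`e`: the generators go to homogeneous linear forms (`MvPolynomial.IsHomogeneous.aeval` or induction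
on monomials). (6) for homogeneous `f` of degree `e`: `sub (c • 1) f = c^e • f` (values:
`f (c M) = c^e f M`). (7) `toR (a * b) = toR a * toR b`, `det (toR h) = det h` (cast). (8) if
`det h <> 0` then `sub h` is injective: `sub h⁻¹ (sub h f) = sub (h⁻¹ * h) f = f`. -/
def S_Sub : Prop :=
  (∀ (M h : MR) (f : MvPolynomial (Fin 2 × Fin 2) ℝ), evR M (sub h f) = evR (M * h) f) ∧
  (∀ (r : MZ) (f : MvPolynomial (Fin 2 × Fin 2) ℝ), ev r f = evR (toR r) f) ∧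
  (∀ (a b : MR) (f : MvPolynomial (Fin 2 × Fin 2) ℝ), sub a (sub b f) = sub (a * b) f) ∧
  (∀ f : MvPolynomial (Fin 2 × Fin 2) ℝ, sub 1 f = f) ∧
  (∀ (h : MR) (e : ℕ) (f : MvPolynomial (Fin 2 × Fin 2) ℝ), f.IsHomogeneous e →
    (sub h f).IsHomogeneous e) ∧
  (∀ (c : ℝ) (e : ℕ) (f : MvPolynomial (Fin 2 × Fin 2) ℝ), f.IsHomogeneous e →
    sub (c • (1 : MR)) f = c ^ e • f) ∧
  (∀ a b : MZ, toR (a * b) = toR a * toR b) ∧
  (∀ a : MZ, (toR a).det = ((a.det : ℤ) : ℝ)) ∧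
  (∀ h : MR, h.det ≠ 0 → Function.Injective (sub h))

/-- Diag. A space `I` of forms of degree `e` stable under `sub s`, `s` with two distinct real
eigenvalues of the same sign, is stable under `sub (a + b s)` for all real `a`, `b`.
PROOF. Eigenvalues `lam`, `mu` of `s`: `lam + mu = tr s`, `lam mu = det s > 0`, `lam <> mu`. There is
an invertible `g` with `s = g * diag(lam, mu) * g⁻¹` (columns = eigenvectors; if `s 0 1 <> 0` take
the columns `(s 0 1, lam - s 0 0)`, `(s 0 1, mu - s 0 0)`; if `s 0 1 = 0` and `s 1 0 <> 0` take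
`(lam - s 1 1, s 1 0)`, `(mu - s 1 1, s 1 0)`; if both vanish `s` is diagonal, `g = 1`, `lam = s 0 0`).
Then `a + b s = g * diag(x, y) * g⁻¹` with `x = a + b lam`, `y = a + b mu`. On a monomial `X^α` of
degree `e` the operator `sub (diag(x,y))` is multiplication by `x^i y^(e-i)`, `i = α(0,0) + α(1,0)`
(`X(i,0) -> x X(i,0)`, `X(i,1) -> y X(i,1)`). The numbers `nu_i = lam^i mu^(e-i)`, `i = 0..e`, are
pairwise distinct: `nu_i / nu_j = (lam/mu)^(i-j)`, `lam/mu > 0`, `lam/mu <> 1`. Let `p` be the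
Lagrange interpolation polynomial with `p(nu_i) = x^i y^(e-i)`, `i = 0..e`. Then
`p(sub (diag(lam,mu))) f = sub (diag(x,y)) f` for every form `f` of degree `e` (linear in `f`, true for
monomials). Conjugating (`sub (g D g⁻¹) = sub g ∘ sub D ∘ sub g⁻¹` by S_Sub (3), so
`p(sub (g D g⁻¹)) = sub g ∘ p(sub D) ∘ sub g⁻¹`): `p(sub s) f = sub (a + b s) f` for all forms of
degree `e`. `p(sub s)` maps `I` into `I`. -/
def S_Diag : Prop :=
  ∀ (e : ℕ) (I : Submodule ℝ (MvPolynomial (Fin 2 × Fin 2) ℝ)) (s : MR),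
    (∀ f ∈ I, f.IsHomogeneous e) → 0 < s.det → 0 < s.trace ^ 2 - 4 * s.det →
    (∀ f ∈ I, sub s f ∈ I) → ∀ a b : ℝ, ∀ f ∈ I, sub (a • (1 : MR) + b • s) f ∈ I

/-- Box. A polynomial vanishing on all products `(a1+b1 s1)(a2+b2 s2)(a3+b3 s1)` is zero if `s1` has
distinct real eigenvalues and `det [s1,s2] <> 0`. PROOF. Write `s1 = g diag(lam,mu) g⁻¹` as in
S_Diag (`lam <> mu`), so `{a + b s1} = {g diag(d1,d2) g⁻¹ : d1, d2 real}` (solve `a + b lam = d1`,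
`a + b mu = d2`). Let `s2 = g (a,b;c,d) g⁻¹`. `[s1,s2] = g (0,(lam-mu) b; (mu-lam) c, 0) g⁻¹`, so
`det [s1,s2] = (lam-mu)^2 b c <> 0`, hence `b c <> 0`. Let `f'(M) = f(g M g⁻¹)` (a polynomial in the
entries of `M`). CLAIM: `f'(M) = 0` for `M = (x,y;z,u)` whenever `y, z, u > 0` and `b c x > 0`. Put
`kap = b c x u/(y z) > 0` and let `t` be a real root of `(t + a)(t + d) = kap` (discriminant
`(a-d)^2 + 4 kap >= 0`); `t + a <> 0`, `t + d <> 0`. With `e2 = y/b`, `e1 = x/(t+a)`,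
`d2 = z/(c e1)`, `d1 = 1`: `diag(1,d2) (t + a, b; c, t + d) diag(e1,e2) = (x, y; z, d2 (t+d) e2)` and
`d2 (t+d) e2 = z (t+a)(t+d) y/(c x b) = z y kap/(b c x) = u`. So `M` is a product as in the
hypothesis. The four variables range independently over infinite sets, so `f' = 0`
(`MvPolynomial.funext_set` or the four-fold one variable argument) and `f = 0` (`f(M) = f'(g⁻¹ M g)`,
`MvPolynomial.funext`). -/
def S_Box : Prop :=
  ∀ (f : MvPolynomial (Fin 2 × Fin 2) ℝ) (s1 s2 : MR),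
    0 < s1.trace ^ 2 - 4 * s1.det → (s1 * s2 - s2 * s1).det ≠ 0 →
    (∀ a1 b1 a2 b2 a3 b3 : ℝ,
      evR ((a1 • (1 : MR) + b1 • s1) * (a2 • (1 : MR) + b2 • s2) * (a3 • (1 : MR) + b3 • s1)) f = 0) →
    f = 0

/-- Alg. PROOF. Let `f ∈ I`. By S_Diag `I` is stable under `sub (a1+b1 s1)`, `sub (a2 + b2 s2)`. So
`F = sub (a1+b1 s1) (sub (a2+b2 s2) (sub (a3+b3 s1) f)) ∈ I` and `evR (toR r0) F = 0`; by S_Sub (3),(1)
this is `evR (r0 (a1+b1 s1)(a2+b2 s2)(a3+b3 s1)) f = 0`. The polynomial `f''(M) = f(r0 M)` (left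
translation, an `aeval`) satisfies the hypothesis of S_Box, so `f'' = 0`, and `f(M) = f''(r0⁻¹ M) = 0`
for all `M`: `f = 0`. The casts: `toR` of integral `s1`, `s2`. -/
def S_Alg : Prop :=
  ∀ (e : ℕ) (I : Submodule ℝ (MvPolynomial (Fin 2 × Fin 2) ℝ)) (s1 s2 r0 : MZ),
    (∀ f ∈ I, f.IsHomogeneous e) → 0 < s1.det → 0 < s2.det → 0 < dsc s1 → 0 < dsc s2 →
    (brk s1 s2).det ≠ 0 → (∀ f ∈ I, sub (toR s1) f ∈ I) → (∀ f ∈ I, sub (toR s2) f ∈ I) →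
    r0.det ≠ 0 → (∀ f ∈ I, ev r0 f = 0) → I = ⊥

/-! ### Transport -/

/-- Fr. Frames. PROOF. `b * adjugate b = det b • 1 = 1`. (1) `fr a c (r * h) = fr b c r * fr a b h`:
`adj c * toR r * (b * adj b) * toR h * a`. (2) `det (fr a b h) = det h`. (3)
`fr b a (adjugate h) = adjugate (fr a b h)` (adjugate is anti-multiplicative, `adj (adj b) = b` for
2x2, `toR (adj h) = adj (toR h)`). (4) `fr a a 1 = 1`. (5) composition: `Ret C w a b m h`,
`Ret C' w b c m' r`, `0 <= w <= 1`, `1 <= C, C'` imply `Ret (2 C C') w a c (m' m) (r h)`: entries of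
the product `M' M`: `|M'00 M00 + M'01 M10| <= C C' m m' + C' w m' C w m <= 2 C C' m m'`,
`|M'00 M01 + M'01 M11| <= 2 C C' w m m'`. (6) reversal: `Ret C w a b m h` implies
`Ret C w b a m (adj h)` (entries of the adjugate). (7) `Ret` is monotone in the constant. -/
def S_Fr : Prop :=
  (∀ (a b c : MR) (r h : MZ), b.det = 1 → fr a c (r * h) = fr b c r * fr a b h) ∧
  (∀ (a b : MR) (h : MZ), a.det = 1 → b.det = 1 → (fr a b h).det = ((h.det : ℤ) : ℝ)) ∧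
  (∀ (a b : MR) (h : MZ), fr b a h.adjugate = (fr a b h).adjugate) ∧
  (∀ a : MR, a.det = 1 → fr a a 1 = 1) ∧
  (∀ (C C' w : ℝ) (a b c : MR) (m m' : ℕ) (r h : MZ), b.det = 1 → 0 ≤ w → w ≤ 1 → 1 ≤ C →
    1 ≤ C' → Ret C w a b m h → Ret C' w b c m' r → Ret (2 * C * C') w a c (m' * m) (r * h)) ∧
  (∀ (C w : ℝ) (a b : MR) (m : ℕ) (h : MZ), Ret C w a b m h → Ret C w b a m h.adjugate) ∧
  (∀ (C C' w : ℝ) (a b : MR) (m : ℕ) (h : MZ), 0 ≤ w → C ≤ C' → Ret C w a b m h →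
    Ret C' w a b m h)

/-- SSt. Square elements are transported. PROOF. `M = fr a b h`, `M' = fr b c r`,
`fr a c (r*h) = M' M` (S_Fr (1)). `det M = m^2` and `|M01 M10| <= C^2 m^2/K^4 <= m^2/2` (as
`K^4 >= 4 C^2 N^2 >= 2 C^2`), so `|M00 M11| >= m^2/2`, `|M00|, |M11| >= m/(2C)`. Then
`|(M'M)00| >= (K/N) m/(2C) - (N/K)(C m/K^2) >= K m/(4 C N) >= K/(4 C m N)` because
`N C/K^3 <= K/(4 C N)` and `m >= 1`; `|(M'M)00| <= K N C m + (N/K) C m/K^2 <= K (4 C m N)`;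
`|(M'M)01| <= K N C m/K^2 + (N/K) C m = 2 C m N/K`. The entries 11 and 10 are the same.
`det (r h) = (m_r m)^2`. -/
def S_SSt : Prop :=
  ∀ (K C N : ℝ) (a b c : MR) (m : ℕ) (r h : MZ), 1 ≤ K → 1 ≤ C → 1 ≤ N →
    4 * C ^ 2 * N ^ 2 ≤ K ^ 4 → a.det = 1 → b.det = 1 → c.det = 1 →
    Ret C (1 / K ^ 2) a b m h → r ∈ SS K N b c → r * h ∈ SS K (4 * C * m * N) a c

/-- Mon. `SS K N a b ⊆ SS K N' a b` for `1 <= N <= N'`, `0 < K`; if `S ⊆ S'` and `Gen e S` then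
`Gen e S'`; `Ret C w a b m h` with `w = 1/K^2`, `1 <= C`, `K^4 >= 2 C^2`, `K <= m <= B K`,
`1 <= B` gives `h ∈ SS K (2 * C * B) a b`. PROOF. `K/N' <= K/N`, `K N <= K N'`, `N/K <= N'/K`. The last
one: as in S_SSt `|M00| >= m/(2C) >= K/(2 C B)`, `|M00| <= C m <= C B K`, `|M01| <= C m/K^2 <= C B/K`. -/
def S_Mon : Prop :=
  (∀ (K N N' : ℝ) (a b : MR), 0 < K → 1 ≤ N → N ≤ N' → SS K N a b ⊆ SS K N' a b) ∧
  (∀ (e : ℕ) (A B : Set MZ), A ⊆ B → Gen e A → Gen e B) ∧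
  (∀ (K C B : ℝ) (a b : MR) (m : ℕ) (h : MZ), 1 ≤ K → 1 ≤ C → 1 ≤ B → 2 * C ^ 2 ≤ K ^ 4 →
    a.det = 1 → b.det = 1 → Ret C (1 / K ^ 2) a b m h → K ≤ (m : ℝ) → (m : ℝ) ≤ B * K →
    h ∈ SS K (2 * C * B) a b)

/-- bound for the dimension of the space of forms of degree `e` in four variables -/
def Dm (e : ℕ) : ℕ := (e + 1) ^ 4

/-- Fin. `Van e S` is finite dimensional of dimension at most `Dm e`, antitone in `S`; it is `⊥` iff
`Gen e S`; for `S ⊆ S'` with equal dimensions `Van e S' = Van e S`. PROOF. `Van e S` is a subspace of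
`MvPolynomial.homogeneousSubmodule _ ℝ e`, which is spanned by the monomials with exponents in
`{0..e}^4` (`(e+1)^4` of them). Antitone: clear. `Van e S = ⊥` iff no non-zero form vanishes on `S`.
Equal finite dimension and inclusion give equality (`Submodule.eq_of_le_of_finrank_eq`). -/
def S_Fin : Prop :=
  (∀ (e : ℕ) (A : Set MZ), FiniteDimensional ℝ (Van e A)) ∧
  (∀ (e : ℕ) (A : Set MZ), Module.finrank ℝ (Van e A) ≤ Dm e) ∧
  (∀ (e : ℕ) (A B : Set MZ), A ⊆ B → Van e B ≤ Van e A) ∧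
  (∀ (e : ℕ) (A : Set MZ), Gen e A ↔ Van e A = ⊥) ∧
  (∀ (e : ℕ) (A B : Set MZ), A ⊆ B → Module.finrank ℝ (Van e A) = Module.finrank ℝ (Van e B) →
    Van e A = Van e B)

/-- Exa. Exact transport. PROOF. `f ∈ Van e (SS K N' a c)`, `N' >= 4 C m N`: for `r ∈ SS K N b c`
`r*h ∈ SS K (4CmN) a c ⊆ SS K N' a c` (S_SSt, S_Mon), so `ev r (sub (toR h) f) = ev (r*h) f = 0`:
`sub (toR h)` maps `Van e (SS K N' a c)` into `Van e (SS K N b c)`; it is injective (`det h = m^2 <> 0`,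
S_Sub (8)) and linear. The target `Van e (SS K N b c)` has the same dimension as
`Van e (SS K N' b c)`, hence they are equal (S_Fin, `SS K N ⊆ SS K N'`), and the same dimension as
`Van e (SS K N' a c)`, so the injective linear map is onto. -/
def S_Exa : Prop :=
  ∀ (e : ℕ) (K C N N' : ℝ) (a b c : MR) (m : ℕ) (h : MZ), 1 ≤ K → 1 ≤ C → 1 ≤ N →
    4 * C ^ 2 * N ^ 2 ≤ K ^ 4 → 4 * C * m * N ≤ N' → a.det = 1 → b.det = 1 → c.det = 1 →
    Ret C (1 / K ^ 2) a b m h →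
    Module.finrank ℝ (Van e (SS K N' a c)) = Module.finrank ℝ (Van e (SS K N b c)) →
    Module.finrank ℝ (Van e (SS K N' b c)) = Module.finrank ℝ (Van e (SS K N b c)) →
    (∀ f ∈ Van e (SS K N' a c), sub (toR h) f ∈ Van e (SS K N' b c)) ∧
    (∀ F ∈ Van e (SS K N' b c), ∃ f ∈ Van e (SS K N' a c), sub (toR h) f = F)

/-- TR. Transport on a dense subset. PROOF. Put `D = Dm e`, `N j = N0 * (4 C M)^j`,
`d j x = finrank (Van e (SS K (N j) (g x) b))`: decreasing in `j` (S_Fin, S_Mon), `<= D`, and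
`>= 1` for `j <= D+1`, `x ∈ E` (as `Gen e (SS K (N (D+1)) ..)` fails and `SS` grows). For every `x ∈ E`
there is `j <= D` with `d j x = d (j+1) x` (otherwise `d 0 x >= d (D+1) x + D + 1 > D`). Pigeonhole on
the pair `(j, d j x)`, `j <= D`, `d <= D`: at most `(D+1)^2` classes, so one class `E'` has
`card E <= (D+1)^2 card E'`. Put `I x = Van e (SS K (N (j+1)) (g x) b)`. For `x, x' ∈ E'` and `h` a
return of level `m <= M` apply S_Exa with `N = N j`, `N' = N (j+1) = 4 C M N j >= 4 C m N j`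
(`4 C^2 (N j)^2 <= 4 C^2 (N (D+1))^2 <= K^4`). `I x <> ⊥`; `I x` vanishes on
`SS K N0 (g x) b ⊆ SS K (N (j+1)) (g x) b`. -/
def S_TR : Prop :=
  ∀ (e : ℕ) (S : Sys) (b : MR) (N0 M : ℝ) (E : Finset S.ι), 1 ≤ S.K → 1 ≤ S.C → 1 ≤ N0 → 1 ≤ M →
    S.Unim → b.det = 1 → E ⊆ S.V → E.Nonempty →
    4 * S.C ^ 2 * (N0 * (4 * S.C * M) ^ (Dm e + 1)) ^ 2 ≤ S.K ^ 4 →
    (∀ x ∈ E, ¬ Gen e (SS S.K (N0 * (4 * S.C * M) ^ (Dm e + 1)) (S.g x) b)) →
    ∃ (E' : Finset S.ι) (I : S.ι → Submodule ℝ (MvPolynomial (Fin 2 × Fin 2) ℝ)),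
      E' ⊆ E ∧ (E.card : ℝ) ≤ ((Dm e : ℝ) + 1) ^ 2 * (E'.card : ℝ) ∧
      (∀ x ∈ E', (∀ f ∈ I x, f.IsHomogeneous e) ∧ I x ≠ ⊥ ∧
        ∀ f ∈ I x, ∀ r ∈ SS S.K N0 (S.g x) b, ev r f = 0) ∧
      (∀ x ∈ E', ∀ x' ∈ E', ∀ (m : ℕ) (h : MZ), (m : ℝ) ≤ M →
        Ret S.C S.w (S.g x) (S.g x') m h →
        (∀ f ∈ I x, sub (toR h) f ∈ I x') ∧ (∀ F ∈ I x', ∃ f ∈ I x, sub (toR h) f = F))

/-! ### Walks -/

/-- a walk of `n` steps inside `E`, step number `j` (counted from 0) with two primes of `Q j` -/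
inductive Walk (S : Sys) (E : Finset S.ι) (Q : ℕ → Finset ℕ) : ℕ → S.ι → S.ι → MZ → Prop
  | nil (i : S.ι) (hi : i ∈ E) : Walk S E Q 0 i i 1
  | cons (n : ℕ) (i j l : S.ι) (p q : ℕ) (h h' : MZ) (hw : Walk S E Q n i j h) (hl : l ∈ E)
      (hs : S.Step (Q n) j l p q h') : Walk S E Q (n + 1) i l (h' * h)

/-- WkT. Loops act on the transported spaces. PROOF. (1) Induction on the walk: if all steps are
exact (maps `I x` onto `I x'`) then a walk from `x` to `z` is exact (S_Sub (3):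
`sub (h' h)`: `sub (toR (h'*h)) f = sub (toR h') (sub (toR h) f)`; NOTE THE ORDER: `sub a (sub b f) =
sub (a*b) f`, and `toR (h' * h) = toR h' * toR h`). So for `f ∈ I x`: `sub h f ∈ I j`,
`sub h' (sub h f) ∈ I l`. The start and the end are in `E`. (2) Let `h1`, `h2` be walks from `x` to
`z`, `s = adj h2 * h1`. For `f ∈ I x`: `F = sub h1 f ∈ I z = sub h2 (I x)`, so `F = sub h2 f2`,
`f2 ∈ I x`, and `sub s f = sub (adj h2) (sub h1 f) = sub (adj h2) (sub h2 f2) = sub (adj h2 * h2) f2 =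
(det h2)^e f2 ∈ I x` (S_Sub (6), `adj h2 * h2 = det h2 • 1`). -/
def S_WkT : Prop :=
  ∀ (e : ℕ) (S : Sys) (E : Finset S.ι) (Q : ℕ → Finset ℕ) (n : ℕ)
    (I : S.ι → Submodule ℝ (MvPolynomial (Fin 2 × Fin 2) ℝ)) (M : ℝ),
    (∀ j, ∀ p ∈ Q j, ∀ q ∈ Q j, ((p * q : ℕ) : ℝ) ≤ M) →
    (∀ x ∈ E, ∀ f ∈ I x, f.IsHomogeneous e) →
    (∀ x ∈ E, ∀ x' ∈ E, ∀ (m : ℕ) (h : MZ), (m : ℝ) ≤ M →
        Ret S.C S.w (S.g x) (S.g x') m h →
        (∀ f ∈ I x, sub (toR h) f ∈ I x') ∧ (∀ F ∈ I x', ∃ f ∈ I x, sub (toR h) f = F)) →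
    ∀ (x z : S.ι) (h1 h2 : MZ), Walk S E Q n x z h1 → Walk S E Q n x z h2 →
      ∀ f ∈ I x, sub (toR (h2.adjugate * h1)) f ∈ I x

/-- the (z, h) endpoints used in the counts: primitive returns from `i` of level `<= L` with at most
`2k` prime factors -/
def Hk (S : Sys) (k : ℕ) (L : ℝ) (i : S.ι) (H : Finset (S.ι × MZ)) : Prop :=
  ∀ t ∈ H, t.1 ∈ S.V ∧ Prim t.2 ∧ ∃ m : ℕ, Ret ((2 * S.C) ^ k) S.w (S.g i) (S.g t.1) m t.2 ∧
    (m : ℝ) ≤ L ∧ m.primeFactorsList.length ≤ 2 * k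

/-- WkR. Properties of walks. PROOF. Induction with S_Fr (5) (constants `C^n` with factors 2:
`Ret ((2C)^n)`, start: `Ret 1 w g g 1 1`, `1 <= (2C)^0`; step: `2 * (2C)^n * C = (2C)^(n+1)`), levels
multiply: `m = prod (p_j q_j)`, `P^(2n) <= m <= (4P^2)^n`, `2n` prime factors
(`Nat.primeFactorsList` of a product: length adds). `Prim`: product of primitive matrices with
coprime determinants is primitive: if a prime `r` divides all entries of `h' h`, then either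
`r` does not divide `det h'`, `h'` invertible mod `r`, so `r` divides `h`; or `r` does not divide
`det h` and `r` divides `h'`. (The determinants are squares of products of primes of disjoint pools;
`Prim h` is equivalent to: no prime divides all entries, `h <> 0`.) Direction: if the first step has
`Dir D p` at its first prime `p`, then `p` divides the level and `Dir D p h` holds for the whole
walk, because the later steps are invertible modulo `p` (their determinants are prime to `p`); this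
is stated for the walk `(rest) * (first step)`: here as a closure property of one more step. -/
def S_WkR : Prop :=
  (∀ (S : Sys) (E : Finset S.ι) (Q : ℕ → Finset ℕ) (P : ℝ) (n : ℕ) (x z : S.ι) (h : MZ),
    1 ≤ S.K → 1 ≤ S.C → 1 ≤ P → S.Unim → E ⊆ S.V →
    (∀ j, ∀ p ∈ Q j, p.Prime ∧ P ≤ (p : ℝ) ∧ (p : ℝ) ≤ 2 * P) →
    (∀ i j, i ≠ j → Disjoint (Q i) (Q j)) → Walk S E Q n x z h →
    x ∈ E ∧ z ∈ E ∧ Prim h ∧ ∃ m : ℕ, Ret ((2 * S.C) ^ n) S.w (S.g x) (S.g z) m h ∧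
      P ^ (2 * n) ≤ (m : ℝ) ∧ (m : ℝ) ≤ (4 * P ^ 2) ^ n ∧ m.primeFactorsList.length = 2 * n ∧
      (∀ r : ℕ, r.Prime → r ∣ m → ∃ j < n, r ∈ Q j)) ∧
  (∀ (D : ℝ) (p : ℕ) (h h' : MZ), p.Prime → ¬ (p : ℤ) ∣ h'.det → Sys.Dir D p h → Sys.Dir D p (h' * h))

/-- Cls. The class of a right divisor. PROOF. Let `M = det h1 = det h2 > 0`, `h1' h1 = h2' h2`,
`det h1' = det h2' = M'` prime to `M`: `u M + v M' = 1`. Modulo `M`: `v adj(h2') h2' = v M' = 1`, so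
`h2 = v adj(h2') h2' h2 = v adj(h2') h1' h1` mod `M`, hence
`h2 adj(h1) = v adj(h2') h1' h1 adj(h1) = v adj(h2') h1' M = 0` mod `M`. Put `γ = h2 adj(h1)/M`,
integral; `γ h1 = h2 adj(h1) h1/M = h2`, `det γ = M M/M^2 = 1`. -/
def S_Cls : Prop :=
  ∀ h1 h1' h2 h2' : MZ, h1' * h1 = h2' * h2 → 0 < h1.det → h1.det = h2.det → h1'.det = h2'.det →
    IsCoprime h1.det h1'.det → ∃ γ : MZ, γ.det = 1 ∧ h2 = γ * h1

/-- One. ONE STEP LEMMA. PROOF. Let `X` be the set of `x ∈ W` for which no such `T` exists,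
`W' = W \ X`. If `card W > 2 card W'` then `2 card X > card W`, so `card V <= K^s0 card X` and AI for
`X` gives `T0` (inside `X`) with `P^4 (card X)^2 <= K^σ card V card T0`. For `x ∈ X` let
`T_x = {(x', h) : (x, x', p, q, h) ∈ T0 for some p, q}`: it has the first property (`X ⊆ W`), so
`16 K^σ card V card T_x < P^4 card W` (`x ∈ X`). For given `(x, x', h)` the product `p q` is the
positive root of `det h`, so there are at most two pairs `(p,q)`: `card T0 <= 2 sum_x card T_x`.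
So `P^4 (card X)^2 <= 2 card X P^4 card W/16`, `card X <= card W/8`: contradiction. -/
def S_One : Prop :=
  ∀ (S : Sys) (k : ℕ) (P : ℝ) (pool Q : Finset ℕ) (s0 D σ : ℝ) (W : Finset S.ι),
    1 ≤ k → 1 ≤ S.K → 1 ≤ P → (∀ p ∈ pool, p.Prime) → S.AI P pool (4 * k) s0 D σ →
    Q ⊆ pool → pool.card ≤ 4 * k * Q.card → W ⊆ S.V → W.Nonempty →
    2 * (S.V.card : ℝ) ≤ S.K ^ s0 * (W.card : ℝ) →
    ∃ W' : Finset S.ι, W' ⊆ W ∧ (W.card : ℝ) ≤ 2 * (W'.card : ℝ) ∧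
      ∀ x ∈ W', ∃ T : Finset (S.ι × MZ),
        (∀ t ∈ T, t.1 ∈ W ∧ ∃ p q : ℕ, S.Step Q x t.1 p q t.2 ∧ Sys.Dir D p t.2) ∧
        P ^ 4 * (W.card : ℝ) ≤ 16 * S.K ^ σ * (S.V.card : ℝ) * (T.card : ℝ)

/-- WkN. Number of walks. `Q 0, .., Q (k-1)` disjoint pools. PROOF. (a) Put `E_k = E` and
`E_j = (E_(j+1))'` from S_One with `W = E_(j+1)`, `Q = Q j` (`j = k-1, .., 0`):
`card E_j >= 2^-(k-j) card E`, so the density condition of S_One holds at every stage, and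
`P^4 card E <= 2^k 16 K^σ card V card T` for the sets `T` of steps from `x ∈ E_j` into `E_(j+1)` by
`Q j`. `E_0 ⊆ E_1 ⊆ .. ⊆ E_k = E`. (b) For `x ∈ E_0` let `H_0 = {(x, 1)}` and let `H_(j+1)` be the
image of `{((z,h), (z',h')) : (z,h) ∈ H_j, (z',h') ∈ T_z}` under `(z', h' h)`; all elements are ends of
walks in `E` (`Walk.cons`), `z ∈ E_j`. (c) FIBRES: given `(z', h'')`, `h'' = h' h`: `det h = m^2`,
`det h' = m'^2` with `m` composed of primes of `Q 0, .., Q (j-1)` and `m'` of primes of `Q j`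
(disjoint), so `m` and `m'` are determined by `m m' =` root of `det h''` and coprime. By S_Cls all `h` of
the fibre are `γ h0` with one `h0`, and by `Ovl` (with S_WkR: `Ret ((2C)^j) <= Ret ((2C)^k)`, S_Fr (7))
there are at most `B` pairs `(z, γ)`; `h' = h'' h⁻¹` is determined. So
`card H_(j+1) >= (sum over H_j of card T_z)/B >= card H_j * P^4 card E/(2^(k+4) K^σ card V B)`.
(d) The product over `j < k` is the claim. The first step is directional at its first prime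
`p ∈ Q 0`; the later steps have determinants prime to `p`; S_WkR (second part) keeps
`Dir D p`; `p | det`. (Carry the statement `j >= 1 -> exists p ∈ Q 0, p | det h, Dir D p h` along the
induction.) -/
def S_WkN : Prop :=
  ∀ (S : Sys) (k : ℕ) (P : ℝ) (pool : Finset ℕ) (s0 D σ B : ℝ) (Q : ℕ → Finset ℕ)
    (E : Finset S.ι), 1 ≤ k → 1 ≤ S.K → 1 ≤ S.C → 1 ≤ P → 1 ≤ B → 0 ≤ σ → S.Unim →
    (∀ p ∈ pool, p.Prime ∧ P ≤ (p : ℝ) ∧ (p : ℝ) ≤ 2 * P) →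
    S.AI P pool (4 * k) s0 D σ → S.Ovl ((2 * S.C) ^ k) B →
    (∀ j, Q j ⊆ pool) → (∀ j < k, pool.card ≤ 4 * k * (Q j).card) →
    (∀ i j, i ≠ j → Disjoint (Q i) (Q j)) →
    E ⊆ S.V → E.Nonempty → 2 ^ (k + 1) * (S.V.card : ℝ) ≤ S.K ^ s0 * (E.card : ℝ) →
    ∃ E0 : Finset S.ι, E0 ⊆ E ∧ (E.card : ℝ) ≤ 2 ^ k * (E0.card : ℝ) ∧
      ∀ x ∈ E0, ∃ H : Finset (S.ι × MZ),
        (∀ t ∈ H, Walk S E Q k x t.1 t.2 ∧
          ∃ p ∈ Q 0, ((p : ℤ) ∣ t.2.det) ∧ Sys.Dir D p t.2) ∧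
        (P ^ 4 * (E.card : ℝ)) ^ k ≤
          (2 ^ (k + 4) * S.K ^ σ * (S.V.card : ℝ) * B) ^ k * (H.card : ℝ)

/-! ### Counts of pairs with the same end -/

/-- pairs of endpoints with the same end cell -/
noncomputable def prs {ι : Type} (H : Finset (ι × MZ)) : Finset ((ι × MZ) × (ι × MZ)) := by
  classical
  exact (H ×ˢ H).filter (fun t => t.1.1 = t.2.1)

/-- the loop of a pair -/
def lp {ι : Type} (t : (ι × MZ) × (ι × MZ)) : MZ := t.2.2.adjugate * t.1.2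

/-- CS. Cauchy-Schwarz. PROOF. `card (prs H) = sum_(z ∈ V) n_z^2`, `sum n_z = card H`. -/
def S_CS : Prop :=
  ∀ (ι : Type) (V : Finset ι) (H : Finset (ι × MZ)), (∀ t ∈ H, t.1 ∈ V) →
    (H.card : ℝ) ^ 2 ≤ (V.card : ℝ) * ((prs H).card : ℝ)

/-- CL0. Scalar loops. PROOF. `adj(h2) h1 = c` scalar, `c <> 0`: `h1 = (c/det h2) h2`, both primitive:
`h1 = h2` or `h1 = - h2`. So at most two `h1` for given `(z, h2)`. -/
def S_CL0 : Prop :=
  ∀ (ι : Type) (H : Finset (ι × MZ)) (A : Finset ((ι × MZ) × (ι × MZ))),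
    (∀ t ∈ H, Prim t.2 ∧ 0 < t.2.det) → A ⊆ prs H → (∀ t ∈ A, tf (lp t) = 0) →
    (A.card : ℝ) ≤ 2 * (H.card : ℝ)

/-- CLZ. No nilpotent loops if the first step is directional. PROOF. `s = adj(h2) h1`,
`det s = (m1 m2)^2`, `dsc s = 0`: `tr s = ± 2 m1 m2 =: 2 a`, so `n := s - a` is integral, `n^2 = 0`,
`2 n = tf s <> 0`. Frame of `s` at the cell: `adj(M2) M1`, entries 01, 10 at most `2 C'^2 w m1 m2`,
so the frame `(t, β; γ, -t)` of `n` has `|β|, |γ| <= ρ := 2 C'^2 w m1 m2` and `t^2 = - β γ <= ρ^2`;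
`n = g * frame * g⁻¹` has entries at most `16 R^2 ρ <= X`. `n = k (- q0 q1, q0^2; - q1^2, q0 q1)` with
`q` primitive, `k <> 0` (a nilpotent integral matrix), so `|k| <= X < p` and `|q_a|^2 <= X <= D^2`.
Modulo `p`: `a = ± m1 m2 = 0`, so `s = n = k e_q <> 0` mod `p` (as `0 < |k| < p`, `e_q` primitive), whose
kernel mod `p` is the line of `q`. `det h1 = 0` mod `p`, so there is `u <> 0` mod `p` with
`h1 u = 0` mod `p`, then `s u = 0` mod `p`, `u = c q` mod `p`, `c <> 0` mod `p`, `h1 q = 0` mod `p`, against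
`Dir D p h1`. -/
def S_CLZ : Prop :=
  ∀ (C' K R D : ℝ) (a b : MR) (p m1 m2 : ℕ) (h1 h2 : MZ), 1 ≤ C' → 1 ≤ K → 1 ≤ R → 0 ≤ D →
    a.det = 1 → b.det = 1 → (∀ i j, |a i j| ≤ R) →
    Ret C' (1 / K ^ 2) a b m1 h1 → Ret C' (1 / K ^ 2) a b m2 h2 → p.Prime → (p : ℤ) ∣ h1.det →
    32 * R ^ 2 * C' ^ 2 * (m1 : ℝ) * (m2 : ℝ) < (p : ℝ) * K ^ 2 →
    32 * R ^ 2 * C' ^ 2 * (m1 : ℝ) * (m2 : ℝ) ≤ D ^ 2 * K ^ 2 →
    Sys.Dir D p h1 → tf (h2.adjugate * h1) ≠ 0 → dsc (h2.adjugate * h1) ≠ 0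

/-- CLN. Few loops with negative discriminant. PROOF. `s = adj(h2) h1`, frame `(t0, β; γ, t1)`,
`|β|, |γ| <= ρ = 2 C'^2 w m1 m2 <= C1 K^(2θ)`; `dsc s = (t0 - t1)^2 + 4 β γ < 0`, so
`|t0 - t1| <= 2 ρ` and `tf s` has all entries at most `C2 K^(2θ)`: at most `C3 K^(6θ)` values of
`tf s`; for each one `(tr s)^2 - 4 (m1 m2)^2 = dsc s <> 0` has at most `K^θ` solutions `(tr s, m1 m2)`
(divisor bound). So at most `C3 K^(7θ)` values `s`; for each `s` the number of pairs is at most `B`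
times the number of classes `SL2(Z) h1` of right divisors of determinant `m1^2` of `s`, at most
`(m1 m2)^2 * ...`: crude bound `content(s) K^θ <= K^(4θ)` (content divides `tf s <> 0`). Total
`<= B K^(12 θ + small) <= B K^2`. -/
def S_CLN : Prop :=
  ∀ (k : ℕ) (C R θ : ℝ), 1 ≤ k → 1 ≤ C → 1 ≤ R → 0 < θ → θ ≤ 1 / 100 → ∃ K0 : ℝ, ∀ (S : Sys) (B : ℝ),
    S.C = C → S.R = R → K0 ≤ S.K → 1 ≤ B → S.Unim → S.Ovl ((2 * C) ^ k) B →
    ∀ i ∈ S.V, ∀ H : Finset (S.ι × MZ), Hk S k (4 ^ k * S.K ^ (1 + θ)) i H →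
    ∀ A : Finset ((S.ι × MZ) × (S.ι × MZ)), A ⊆ prs H → (∀ t ∈ A, dsc (lp t) < 0) →
      (A.card : ℝ) ≤ B * S.K ^ (2 : ℝ)

/-- CLL. Loops on one line. PROOF. COUNT LEMMA of notes 4698 (CL) / 4705: `s = c s0`, `s0` primitive,
`s0 = a0 + v0`, `det s0 = n0^2`, `n0 = m1 m2/c`; for given `s0` the number of pairs is at most
`B K^ε (L^2/n0)^(3/2)` (`c = c1 c2^2`, `rad(c1) | n0`: `O_k(1)` values of `c1`, at most
`(L^2/(n0 c1))^(1/2)` values of `c2`, multiplicity `c K^ε` times `B` by `Ovl`); for given `v0` (on the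
line: `v0 = j v1`, `v1` primitive) the number of `(a0, n0)` is `<= K^ε`; `n0 ~ T`: `|j| |v1| <= C T`,
`|j| dist(v1) <= C w T`, GoodT: `|v1| >= K^(1-1/200)` or `dist >= K^(-1-1/200)`, so the number of `j` is
`<= C T/K^(1-1/200)` and `T >= c K^(1-1/200)`. Sum over dyadic `T`:
`B K^ε (L^2/T)^(3/2) T/K^(1-1/200) <= B K^ε L^3 K^(-3/2+1/100) = B K^(3/2+3θ+1/100+ε)
<= B K^(2+3θ)`. -/
def S_CLL : Prop :=
  ∀ (k : ℕ) (C R θ : ℝ), 1 ≤ k → 1 ≤ C → 1 ≤ R → 0 < θ → θ ≤ 1 / 100 → ∃ K0 : ℝ, ∀ (S : Sys) (B : ℝ),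
    S.C = C → S.R = R → K0 ≤ S.K → 1 ≤ B → S.Unim → S.Ovl ((2 * C) ^ k) B →
    ∀ i ∈ S.V, S.GoodT i → ∀ H : Finset (S.ι × MZ), Hk S k (4 ^ k * S.K ^ (1 + θ)) i H →
    ∀ v : MZ, v ≠ 0 → v.trace = 0 → v.det ≠ 0 →
    ∀ A : Finset ((S.ι × MZ) × (S.ι × MZ)), A ⊆ prs H →
      (∀ t ∈ A, brk (lp t) v = 0 ∧ tf (lp t) ≠ 0) →
      (A.card : ℝ) ≤ B * S.K ^ (2 + 7 / 2 * θ)

/-- CLB. Loops fixing one rational direction `q`. PROOF (note 4698 (CL), 4705): as CLL, number of `v0`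
in the Borel plane of `q` with `n0 ~ T`: `<= C (1 + w T^2/|q|^2 + T/K^(1-1/200))` (commutators of two
elements of the plane are integral multiples of the nilpotent `e_q`, `|e_q| ~ |q|^2`). If
`|q|^2 >= K^θ`: `B K^ε (w L^4/|q|^2 + line) <= B K^(2+3θ+ε)`. If `|q|^2 < K^θ`: by GoodZ
`|α β| >= K^(-1+1/100)` and the frame of `v0` satisfies `2 t α β = γ α^2 - β' β^2`, so
`|t| <= C |q|^2 w T K^(1-1/100)`, and with `(a0 - n0)(a0 + n0) = ..`, `T <= C |t|`-part: the number of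
`v0` is `<= C (1 + K^(-99/100+θ) w^... )`: total `<= B K^(3/2+5θ+..)`. -/
def S_CLB : Prop :=
  ∀ (k : ℕ) (C R θ : ℝ), 1 ≤ k → 1 ≤ C → 1 ≤ R → 0 < θ → θ ≤ 1 / 100 → ∃ K0 : ℝ, ∀ (S : Sys) (B : ℝ),
    S.C = C → S.R = R → K0 ≤ S.K → 1 ≤ B → S.Unim → S.Ovl ((2 * C) ^ k) B →
    ∀ i ∈ S.V, S.GoodT i → S.GoodZ (1 / 100) i →
    ∀ H : Finset (S.ι × MZ), Hk S k (4 ^ k * S.K ^ (1 + θ)) i H →
    ∀ q : Fin 2 → ℤ, q ≠ 0 →
    ∀ A : Finset ((S.ι × MZ) × (S.ι × MZ)), A ⊆ prs H →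
      (∀ t ∈ A, dsc (lp t) ≠ 0 ∧ ∃ lam : ℤ, (lp t) *ᵥ q = lam • q) →
      (A.card : ℝ) ≤ B * S.K ^ (2 + 7 / 2 * θ)

/-- CLA. All pairs at level `K`. PROOF (note 4698 (CL), `L = 4^k K`): non-nilpotent, non-scalar pairs
`<= B K^ε (w^2 L^6 + w L^4 + K^(3/2+1/50)) <= B K^(2+2ε)`; nilpotent `tf s <> 0`: `|tf s| <= C`,
content `<= C`, `tr s = ± 2 m1 m2 <= C K^2`: `<= B K^(2+ε)`; scalar: S_CL0. -/
def S_CLA : Prop :=
  ∀ (k : ℕ) (C R ε : ℝ), 1 ≤ k → 1 ≤ C → 1 ≤ R → 0 < ε → ∃ K0 : ℝ, ∀ (S : Sys) (B : ℝ),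
    S.C = C → S.R = R → K0 ≤ S.K → 1 ≤ B → S.Unim → S.Ovl ((2 * C) ^ k) B →
    ∀ i ∈ S.V, S.GoodT i → ∀ H : Finset (S.ι × MZ), Hk S k (4 ^ k * S.K) i H →
      ((prs H).card : ℝ) ≤ B * S.K ^ (2 + ε) + 2 * (H.card : ℝ)

/-! ### Selection of two loops, ends, general position -/

/-- Sel. Let `s1` be an integral matrix with `dsc s1 > 0`. There are directions `q1, q2 <> 0` such that
every integral `s` with `det (brk s1 s) = 0` satisfies `brk s (tf s1) = 0` or fixes the line of `q1` or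
of `q2`. PROOF. `c = brk s1 s`; `tr c = 0`, `det c = 0`, so `c^2 = 0`. If `c = 0` then
`brk s (tf s1) = 2 brk s s1 = 0`. If `c <> 0`, let `q <> 0` be an integral vector with `c q = 0`
(kernel of an integral singular matrix); `ker c = im c = Q q`. For every `X`:
`tr (c X) = 0` iff `X q ∈ Q q` (write `c = q ⊗ φ`, `φ(q) = 0`, `tr(cX) = φ(X q)`, `ker φ = Q q`).
`tr (c s1) = tr (s1 s s1 - s s1 s1) = 0`, `tr (c s) = 0`, so `s1 q ∈ Q q`, `s q ∈ Q q`. `s1` has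
distinct eigenvalues, so at most two eigenlines; if it has rational eigenlines let `q1`, `q2` be
integral vectors on them (if none exist, any vectors, e.g. `(1,0)`): `q` is proportional to `q1` or
`q2`. Finally `s q1 ∈ Q q1` with `q1` chosen primitive gives `s q1 = lam q1`, `lam` an integer. -/
def S_Sel : Prop :=
  ∀ s1 : MZ, 0 < dsc s1 → ∃ q1 q2 : Fin 2 → ℤ, q1 ≠ 0 ∧ q2 ≠ 0 ∧
    ∀ s : MZ, (brk s1 s).det = 0 →
      brk s (tf s1) = 0 ∨ (∃ lam : ℤ, s *ᵥ q1 = lam • q1) ∨ (∃ lam : ℤ, s *ᵥ q2 = lam • q2)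

/-- the loss exponent -/
noncomputable def sg (k : ℕ) (θ : ℝ) : ℝ := θ / (200 * (k : ℝ) ^ 2)

/-- the hypotheses on the system of cells -/
structure Hyp (S : Sys) (k : ℕ) (θ : ℝ) : Prop where
  hK : 1 ≤ S.K
  unim : S.Unim
  lo : S.K ^ (2 - sg k θ) ≤ (S.V.card : ℝ)
  hi : (S.V.card : ℝ) ≤ S.K ^ (2 + sg k θ)
  gt : ∀ i ∈ S.V, S.GoodT i
  gz : ∀ i ∈ S.V, S.GoodZ (1 / 100) i
  ovl : S.Ovl ((2 * S.C) ^ k) (S.K ^ sg k θ)
  p1 : ∃ pool : Finset ℕ, (∀ p ∈ pool, p.Prime ∧ S.K ^ (1 / (2 * (k : ℝ))) ≤ (p : ℝ) ∧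
      (p : ℝ) ≤ 2 * S.K ^ (1 / (2 * (k : ℝ)))) ∧ k ≤ pool.card ∧
      S.AI (S.K ^ (1 / (2 * (k : ℝ)))) pool (4 * k) θ (S.K ^ (2 * θ)) (sg k θ)
  p2 : ∃ pool : Finset ℕ, (∀ p ∈ pool, p.Prime ∧ S.K ^ ((1 + θ) / (2 * (k : ℝ))) ≤ (p : ℝ) ∧
      (p : ℝ) ≤ 2 * S.K ^ ((1 + θ) / (2 * (k : ℝ)))) ∧ k ≤ pool.card ∧
      S.AI (S.K ^ ((1 + θ) / (2 * (k : ℝ)))) pool (4 * k) θ (S.K ^ (2 * θ)) (sg k θ)

/-- Spl. A pool of at least `k` primes splits into `k` disjoint parts of size at least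
`card pool / (2k)`. PROOF. Enumerate, take consecutive blocks of `card pool / k` (floor) elements,
`floor(n/k) >= n/(2k)` for `n >= k >= 1`; `Q j = ∅` for `j >= k`. -/
def S_Spl : Prop :=
  ∀ (pool : Finset ℕ) (k : ℕ), 1 ≤ k → k ≤ pool.card →
    ∃ Q : ℕ → Finset ℕ, (∀ j, Q j ⊆ pool) ∧ (∀ j < k, pool.card ≤ 4 * k * (Q j).card) ∧
      (∀ i j, i ≠ j → Disjoint (Q i) (Q j))

/-- Loop. Two loops in general position inside every dense set. PROOF. Pools `Q` from S_Spl for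
`p2`, `P = K^((1+θ)/(2k))`, `P^(4k) = K^(2+2θ)`, levels `m ∈ [K^(1+θ), 4^k K^(1+θ)]`. S_WkN with
`B = K^σ`, `s0 = θ` (`2^(k+1) card V <= K^θ card E` because `(10k+10) σ <= θ/10` and `K` is large):
there is `x ∈ E` with a set `H` of walk ends, `card H >= P^(4k) (card E/(2^(k+4) K^(2σ) card V))^k >=
K^(2+2θ - (2σ + (10k+10)σ) k - σ) >= K^(2+2θ-23 k^2 σ)` (`K` large). S_CS:
`card (prs H) >= (card H)^2/card V >= card H * K^(2θ - 24 k^2 σ)` and `>= K^(2+4θ-47k^2 σ)`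
`>= K^(2 + (4 - 47/200) θ)`. Remove from `prs H`: the pairs with `tf (lp t) = 0` (`<= 2 card H`, S_CL0;
less than a quarter because `2θ - 24 k^2 σ >= θ` and `K` large), those with `dsc < 0` (S_CLN,
`<= K^(2+σ)`); `tf <> 0`, `dsc = 0` is impossible by S_CLZ (`C' = (2C)^k`, `m1 m2 <= 16^k K^(2+2θ)`, so
`32 R^2 C'^2 m1 m2 / K^2 <= c K^(2θ)`, less than `p >= P = K^((1+θ)/(2k))` as `2θ < 1/(2k)`, and
`<= D^2 = K^(4θ)`). So there is `t1` with `s1 = lp t1`, `dsc s1 > 0`. Let `q1, q2` be the directions of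
S_Sel and `v = tf s1` (`v <> 0`, trace 0, `det v = - dsc s1 <> 0`). The pairs `t` with
`dsc (lp t) > 0` and `det (brk s1 (lp t)) = 0` number at most `3 K^σ K^(2+7θ/2)` (S_CLL for `v`,
S_CLB for `q1`, `q2`), less than a quarter of `card (prs H)` because
`(4 - 47/200) θ > (7/2) θ + σ`. So a pair `t2` with `dsc (lp t2) > 0`,
`det (brk s1 s2) <> 0` remains. `det s_i = (m m')^2 > 0`. -/
def S_Loop : Prop :=
  ∀ (k : ℕ) (C R θ : ℝ), 1 ≤ k → 1 ≤ C → 1 ≤ R → 0 < θ → θ ≤ 1 / (100 * (k : ℝ)) → ∃ K0 : ℝ,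
    ∀ S : Sys, S.C = C → S.R = R → K0 ≤ S.K → Hyp S k θ →
    ∀ E : Finset S.ι, E ⊆ S.V →
      (S.V.card : ℝ) ≤ S.K ^ ((10 * (k : ℝ) + 10) * sg k θ) * (E.card : ℝ) →
      ∃ (Q : ℕ → Finset ℕ) (x z1 z2 : S.ι) (h1 h1' h2 h2' : MZ),
        (∀ j, ∀ p ∈ Q j, (p : ℝ) ≤ 2 * S.K ^ ((1 + θ) / (2 * (k : ℝ)))) ∧
        Walk S E Q k x z1 h1 ∧ Walk S E Q k x z1 h1' ∧ Walk S E Q k x z2 h2 ∧
        Walk S E Q k x z2 h2' ∧ 0 < (h1'.adjugate * h1).det ∧ 0 < (h2'.adjugate * h2).det ∧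
        0 < dsc (h1'.adjugate * h1) ∧ 0 < dsc (h2'.adjugate * h2) ∧
        (brk (h1'.adjugate * h1) (h2'.adjugate * h2)).det ≠ 0

/-- End. Many pairs with a square element. PROOF. Pools from S_Spl for `p1`, `P = K^(1/(2k))`,
`P^(4k) = K^2`, levels in `[K, 4^k K]`. S_WkN with `E = V`, `B = K^σ`: for at least `2^-k card V` points
`x` there is `H`, `card H >= K^2/(2^(k+4) K^(2σ))^k >= K^(2-2kσ-σ/8)` (`K` large). S_CLA with
`ε = σ`: `card (prs H) <= K^(2+2σ) + 2 card H`. The number `n` of end cells satisfies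
`(card H)^2 <= n card (prs H)` (S_CS with `V` = the set of ends), so
`n >= min ((card H)^2/(2 K^(2+2σ)), card H/4) >= K^(2-4kσ-3σ) >= K^(2-7kσ)`. Each end gives `h ∈ SS K (K^θ) (g x)
(g z)` by S_Mon (3) with `C' = (2C)^k`, `B = 4^k`, `2 C' B <= K^θ`. Number of pairs
`>= 2^-k card V K^(2-7kσ) >= K^(4-9kσ)`. -/
def S_End : Prop :=
  ∀ (k : ℕ) (C R θ : ℝ), 1 ≤ k → 1 ≤ C → 1 ≤ R → 0 < θ → θ ≤ 1 / (100 * (k : ℝ)) → ∃ K0 : ℝ,
    ∀ S : Sys, S.C = C → S.R = R → K0 ≤ S.K → Hyp S k θ →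
    ∃ G : Finset (S.ι × S.ι), (∀ t ∈ G, t.1 ∈ S.V ∧ t.2 ∈ S.V ∧
      (SS S.K (S.K ^ θ) (S.g t.1) (S.g t.2)).Nonempty) ∧
      S.K ^ (4 - 9 * (k : ℝ) * sg k θ) ≤ (G.card : ℝ)

/-- GP. GENERAL POSITION. PROOF. `D = Dm e`, `M = 4 K^((1+θ)/k)` (bound for the levels of the steps of
S_Loop), `N0 = K^θ`, `N = N0 (4 C M)^(D+1) <= K^(3(D+1)/k)` for `K` large (`θ <= 1/(100k)`,
`(1+θ)/k <= 2/k`), `4 C^2 N^2 <= K^4`. Let `G` be from S_End and `G1` the set of `t ∈ G` with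
`Gen e (SS K N (g t.1) (g t.2))`. If `2 card G1 >= card G` we are done (S_Mon: `Gen` for the larger set
`SS K (K^(3(D+1)/k))`). Otherwise more than half of `G` is degenerate; there is `y ∈ V` with
`card E >= card G/(2 card V) >= K^(2-9kσ-σ)/2`, `E = {x : (x,y) ∈ G degenerate}`. S_TR with `b = g y`
gives `E' ⊆ E`, `card E <= (D+1)^2 card E'`, and spaces `I x`;
`card V <= K^(2+σ) <= K^((10k+10)σ) card E'` for `K` large. S_Loop for `E'`: `x` and four walks inside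
`E'`; S_WkT (with `M`): `I x` is stable under `sub s1`, `sub s2`. `x ∈ E'` and `(x,y) ∈ G`: there is
`r0 ∈ SS K N0 (g x) (g y)`, `det r0 <> 0`, `I x` vanishes at `r0`. S_Alg: `I x = ⊥`, contradiction. -/
def S_GP : Prop :=
  ∀ (e k : ℕ) (C R θ : ℝ), 100 * (Dm e + 1) ≤ k → 1 ≤ C → 1 ≤ R → 0 < θ →
    θ ≤ 1 / (100 * (k : ℝ)) → ∃ K0 : ℝ,
    ∀ S : Sys, S.C = C → S.R = R → K0 ≤ S.K → Hyp S k θ →
    ∃ G : Finset (S.ι × S.ι), (∀ t ∈ G, t.1 ∈ S.V ∧ t.2 ∈ S.V ∧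
      Gen e (SS S.K (S.K ^ (3 * ((Dm e : ℝ) + 1) / (k : ℝ))) (S.g t.1) (S.g t.2))) ∧
      S.K ^ (4 - 10 * (k : ℝ) * sg k θ) ≤ (G.card : ℝ)

end HSL
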