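import Pool.Agent.Lib.HS.L.SpecCL

/-!
# HS/L/CLL: loops on one line
-/

set_option autoImplicit false

namespace HSL

open Matrix

namespace CLLM

/-- a matrix of trace zero -/
lemma tr0 {u : MZ} (h : u.trace = 0) : u 1 1 = -(u 0 0) := by
  rw [Matrix.trace_fin_two] at h
  linarith

/-- the three relations -/
lemma rel {u v : MZ} (hu : u.trace = 0) (hv : v.trace = 0) (h : brk u v = 0) :
    u 0 1 * v 1 0 = v 0 1 * u 1 0 ∧ u 0 0 * v 0 1 = v 0 0 * u 0 1 ∧ u 1 0 * v 0 0 = v 1 0 * u 0 0 := by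
  have e00 : brk u v 0 0 = 0 := by rw [h]; rfl
  have e01 : brk u v 0 1 = 0 := by rw [h]; rfl
  have e10 : brk u v 1 0 = 0 := by rw [h]; rfl
  have hu1 := tr0 hu
  have hv1 := tr0 hv
  simp only [brk, Matrix.sub_apply, Matrix.mul_apply, Fin.sum_univ_two] at e00 e01 e10
  rw [hu1, hv1] at e01 e10
  refine ⟨?_, ?_, ?_⟩
  · linarith
  · linarith
  · linarith

lemma det0 {u : MZ} (h : u.trace = 0) : u.det = -((u 0 0) ^ 2 + u 0 1 * u 1 0) := by
  rw [Matrix.det_fin_two, tr0 h]; ring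

/-- a non-zero matrix commuting with a non-singular one is non-singular (trace zero) -/
lemma det_ne {u v : MZ} (hu : u.trace = 0) (hv : v.trace = 0) (h : brk u v = 0) (hd : v.det ≠ 0)
    (hu0 : u ≠ 0) : u.det ≠ 0 := by
  intro hdu
  apply hu0
  obtain ⟨r1, r2, r3⟩ := rel hu hv h
  rw [det0 hv] at hd
  rw [det0 hu] at hdu
  have hd' : (v 0 0) ^ 2 + v 0 1 * v 1 0 ≠ 0 := fun h => hd (by rw [h]; ring)
  have hz : (u 0 0) ^ 2 + u 0 1 * u 1 0 = 0 := by linarith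
  have hx : (u 0 0) ^ 2 * ((v 0 0) ^ 2 + v 0 1 * v 1 0) = 0 := by
    have e : (u 0 0) ^ 2 * ((v 0 0) ^ 2 + v 0 1 * v 1 0) =
        (v 0 0) ^ 2 * ((u 0 0) ^ 2 + u 0 1 * u 1 0) := by
      linear_combination (v 1 0 * u 0 0) * r2 - (v 0 0 * u 0 1) * r3
    rw [e, hz, mul_zero]
  have hy : (u 0 1) ^ 2 * ((v 0 0) ^ 2 + v 0 1 * v 1 0) = 0 := by
    have e : (u 0 1) ^ 2 * ((v 0 0) ^ 2 + v 0 1 * v 1 0) =
        (v 0 1) ^ 2 * ((u 0 0) ^ 2 + u 0 1 * u 1 0) := by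
      linear_combination (v 0 1 * u 0 1) * r1 - (u 0 0 * v 0 1 + v 0 0 * u 0 1) * r2
    rw [e, hz, mul_zero]
  have hw : (u 1 0) ^ 2 * ((v 0 0) ^ 2 + v 0 1 * v 1 0) = 0 := by
    have e : (u 1 0) ^ 2 * ((v 0 0) ^ 2 + v 0 1 * v 1 0) =
        (v 1 0) ^ 2 * ((u 0 0) ^ 2 + u 0 1 * u 1 0) := by
      linear_combination (-(v 1 0 * u 1 0)) * r1 + (u 1 0 * v 0 0 + v 1 0 * u 0 0) * r3
    rw [e, hz, mul_zero]
  have h1 : u 0 0 = 0 := by
    rcases mul_eq_zero.1 hx with h | h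
    · exact pow_eq_zero_iff (two_ne_zero) |>.1 h
    · exact absurd h hd'
  have h2 : u 0 1 = 0 := by
    rcases mul_eq_zero.1 hy with h | h
    · exact pow_eq_zero_iff (two_ne_zero) |>.1 h
    · exact absurd h hd'
  have h3 : u 1 0 = 0 := by
    rcases mul_eq_zero.1 hw with h | h
    · exact pow_eq_zero_iff (two_ne_zero) |>.1 h
    · exact absurd h hd'
  ext a b
  fin_cases a <;> fin_cases b
  · exact h1
  · exact h2
  · exact h3
  · change u 1 1 = 0
    rw [tr0 hu, h1, neg_zero]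

/-- commuting with a common non-zero matrix is transitive (trace zero) -/
lemma brk_trans {u u' v : MZ} (hu : u.trace = 0) (hu' : u'.trace = 0) (hv : v.trace = 0)
    (h : brk u v = 0) (h' : brk u' v = 0) (hv0 : v ≠ 0) : brk u u' = 0 := by
  obtain ⟨r1, r2, r3⟩ := rel hu hv h
  obtain ⟨s1, s2, s3⟩ := rel hu' hv h'
  have hne : v 0 0 ≠ 0 ∨ v 0 1 ≠ 0 ∨ v 1 0 ≠ 0 := by
    by_contra hcon
    push Not at hcon
    obtain ⟨c1, c2, c3⟩ := hcon
    apply hv0
    ext a b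
    fin_cases a <;> fin_cases b
    · exact c1
    · exact c2
    · exact c3
    · change v 1 1 = 0
      rw [tr0 hv, c1, neg_zero]
  have key : u 0 1 * u' 1 0 = u' 0 1 * u 1 0 ∧ u 0 0 * u' 0 1 = u' 0 0 * u 0 1 ∧
      u 1 0 * u' 0 0 = u' 1 0 * u 0 0 := by
    rcases hne with hn | hn | hn
    · refine ⟨?_, ?_, ?_⟩
      · have e : v 0 0 * v 0 0 * (u 0 1 * u' 1 0) = v 0 0 * v 0 0 * (u' 0 1 * u 1 0) := by
          have a1 : v 0 0 * u 0 1 = u 0 0 * v 0 1 := r2.symm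
          have a2 : u 1 0 * v 0 0 = v 1 0 * u 0 0 := r3
          have a3 : v 0 0 * u' 0 1 = u' 0 0 * v 0 1 := s2.symm
          have a4 : u' 1 0 * v 0 0 = v 1 0 * u' 0 0 := s3
          linear_combination (v 0 0 * u' 1 0) * a1 + (u 0 0 * v 0 1) * a4 -
            (v 0 0 * u 1 0) * a3 - (u' 0 0 * v 0 1) * a2
        exact mul_left_cancel₀ (mul_ne_zero hn hn) e
      · have e : v 0 0 * (u 0 0 * u' 0 1) = v 0 0 * (u' 0 0 * u 0 1) := by
          linear_combination (-(u 0 0)) * s2 + (u' 0 0) * r2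
        exact mul_left_cancel₀ hn e
      · have e : v 0 0 * (u 1 0 * u' 0 0) = v 0 0 * (u' 1 0 * u 0 0) := by
          linear_combination (u' 0 0) * r3 - (u 0 0) * s3
        exact mul_left_cancel₀ hn e
    · refine ⟨?_, ?_, ?_⟩
      · have e : v 0 1 * (u 0 1 * u' 1 0) = v 0 1 * (u' 0 1 * u 1 0) := by
          linear_combination (-(u 0 1)) * s1 + (u' 0 1) * r1
        exact mul_left_cancel₀ hn e
      · have e : v 0 1 * (u 0 0 * u' 0 1) = v 0 1 * (u' 0 0 * u 0 1) := by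
          linear_combination (u' 0 1) * r2 - (u 0 1) * s2
        exact mul_left_cancel₀ hn e
      · have e : v 0 1 * v 0 1 * (u 1 0 * u' 0 0) = v 0 1 * v 0 1 * (u' 1 0 * u 0 0) := by
          have a1 : v 0 1 * u 1 0 = u 0 1 * v 1 0 := r1.symm
          have a2 : u' 0 0 * v 0 1 = v 0 0 * u' 0 1 := s2
          have a3 : v 0 1 * u' 1 0 = u' 0 1 * v 1 0 := s1.symm
          have a4 : u 0 0 * v 0 1 = v 0 0 * u 0 1 := r2
          linear_combination (v 0 1 * u' 0 0) * a1 + (u 0 1 * v 1 0) * a2 -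
            (v 0 1 * u 0 0) * a3 - (u' 0 1 * v 1 0) * a4
        exact mul_left_cancel₀ (mul_ne_zero hn hn) e
    · refine ⟨?_, ?_, ?_⟩
      · have e : v 1 0 * (u 0 1 * u' 1 0) = v 1 0 * (u' 0 1 * u 1 0) := by
          linear_combination (u' 1 0) * r1 - (u 1 0) * s1
        exact mul_left_cancel₀ hn e
      · have e : v 1 0 * v 1 0 * (u 0 0 * u' 0 1) = v 1 0 * v 1 0 * (u' 0 0 * u 0 1) := by
          have a1 : v 1 0 * u 0 0 = u 1 0 * v 0 0 := r3.symm
          have a2 : u' 0 1 * v 1 0 = v 0 1 * u' 1 0 := s1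
          have a3 : v 1 0 * u' 0 0 = u' 1 0 * v 0 0 := s3.symm
          have a4 : u 0 1 * v 1 0 = v 0 1 * u 1 0 := r1
          linear_combination (v 1 0 * u' 0 1) * a1 + (u 1 0 * v 0 0) * a2 -
            (v 1 0 * u 0 1) * a3 - (u' 1 0 * v 0 0) * a4
        exact mul_left_cancel₀ (mul_ne_zero hn hn) e
      · have e : v 1 0 * (u 1 0 * u' 0 0) = v 1 0 * (u' 1 0 * u 0 0) := by
          linear_combination (-(u 1 0)) * s3 + (u' 1 0) * r3
        exact mul_left_cancel₀ hn e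
  obtain ⟨k1, k2, k3⟩ := key
  have hu1 := tr0 hu
  have hu1' := tr0 hu'
  ext a b
  fin_cases a <;> fin_cases b
  · simp only [brk, Matrix.sub_apply, Matrix.mul_apply, Fin.sum_univ_two, Matrix.zero_apply,
      Fin.zero_eta, Fin.mk_one, Fin.isValue]
    linarith
  · simp only [brk, Matrix.sub_apply, Matrix.mul_apply, Fin.sum_univ_two, Matrix.zero_apply,
      Fin.zero_eta, Fin.mk_one, Fin.isValue]
    rw [hu1, hu1']
    linarith
  · simp only [brk, Matrix.sub_apply, Matrix.mul_apply, Fin.sum_univ_two, Matrix.zero_apply,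
      Fin.zero_eta, Fin.mk_one, Fin.isValue]
    rw [hu1, hu1']
    linarith
  · simp only [brk, Matrix.sub_apply, Matrix.mul_apply, Fin.sum_univ_two, Matrix.zero_apply,
      Fin.zero_eta, Fin.mk_one, Fin.isValue]
    rw [hu1, hu1']
    linarith

lemma tf_00 (s : MZ) : tf s 0 0 = s 0 0 - s 1 1 := by
  simp only [tf, Matrix.sub_apply, Matrix.smul_apply, Matrix.one_apply_eq, Matrix.trace_fin_two,
    smul_eq_mul]
  ring

lemma tf_11 (s : MZ) : tf s 1 1 = s 1 1 - s 0 0 := by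
  simp only [tf, Matrix.sub_apply, Matrix.smul_apply, Matrix.one_apply_eq, Matrix.trace_fin_two,
    smul_eq_mul]
  ring

lemma tf_01 (s : MZ) : tf s 0 1 = 2 * s 0 1 := by
  have h : (1 : MZ) 0 1 = 0 := Matrix.one_apply_ne (by decide)
  simp only [tf, Matrix.sub_apply, Matrix.smul_apply, h, smul_eq_mul]
  ring

lemma tf_10 (s : MZ) : tf s 1 0 = 2 * s 1 0 := by
  have h : (1 : MZ) 1 0 = 0 := Matrix.one_apply_ne (by decide)
  simp only [tf, Matrix.sub_apply, Matrix.smul_apply, h, smul_eq_mul]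
  ring

lemma tf_trace (s : MZ) : (tf s).trace = 0 := by
  rw [Matrix.trace_fin_two, tf_00, tf_11]
  ring

lemma brk_tf (s v : MZ) : brk (tf s) v = (2 : ℤ) • brk s v := by
  unfold brk tf
  rw [sub_mul, mul_sub, smul_mul_assoc, mul_smul_comm, smul_mul_assoc, mul_smul_comm, one_mul,
    mul_one, smul_sub]
  abel

lemma dsc_tf (s : MZ) : dsc s = -(tf s).det := by
  unfold dsc
  rw [Matrix.det_fin_two (tf s), tf_00, tf_11, tf_01, tf_10, Matrix.trace_fin_two,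
    Matrix.det_fin_two]
  ring

end CLLM

open CLLM

theorem tCLL (h1 : S_Cor) (h2 : S_Tub) : S_CLL := by
  intro k C R θ hk hC hR hθ hθ1
  obtain ⟨K1, hK1⟩ := h1 k C R (1 / 4) hk hC hR (by norm_num)
  obtain ⟨C1, hC1, hT⟩ := h2 R hR
  set C' : ℝ := (2 * C) ^ k with hC'
  have hC'1 : 1 ≤ C' := one_le_pow₀ (by linarith)
  set c : ℝ := (4 ^ k) ^ 3 * (8 * C1 * C' ^ 3) with hc
  have hc0 : 0 ≤ c := by positivity
  refine ⟨max (max 1 K1) (max (4 ^ k) (c ^ 5)), ?_⟩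
  intro S B hSC hSR hK hB hU hO i hi hG H hH v hv0 hvt hvd A hA hAv
  have k1 : 1 ≤ S.K := (le_max_left _ _).trans ((le_max_left _ _).trans hK)
  have k2 : K1 ≤ S.K := (le_max_right _ _).trans ((le_max_left _ _).trans hK)
  have k3 : (4 : ℝ) ^ k ≤ S.K := (le_max_left _ _).trans ((le_max_right _ _).trans hK)
  have k4 : c ^ 5 ≤ S.K := (le_max_right _ _).trans ((le_max_right _ _).trans hK)
  have hK0 : 0 < S.K := by linarith
  set a : ℝ := 1 - 1 / 200 with ha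
  set M : ℝ := 8 * C1 * C' ^ 3 * S.K ^ (-(3 / 2 * a)) with hM
  have hM0 : 0 ≤ M := by positivity
  set L : ℝ := 4 ^ k * S.K ^ (1 + θ) with hL
  have hKθ : S.K ^ (1 + θ) ≤ S.K ^ (2 : ℝ) :=
    Real.rpow_le_rpow_of_exponent_le k1 (by linarith)
  have hL1 : 1 ≤ L := by
    have e1 : (1 : ℝ) ≤ 4 ^ k := one_le_pow₀ (by norm_num)
    have e2 : 1 ≤ S.K ^ (1 + θ) := Real.one_le_rpow k1 (by linarith)
    rw [hL]
    exact one_le_mul_of_one_le_of_one_le e1 e2
  have hL3 : L ≤ S.K ^ 3 := by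
    calc L ≤ S.K * S.K ^ (2 : ℝ) := mul_le_mul k3 hKθ (by positivity) hK0.le
      _ = S.K ^ 3 := by
        have : S.K ^ (2 : ℝ) = S.K ^ 2 := by norm_cast
        rw [this]; ring
  have hdsc : ∀ t ∈ A, dsc (lp t) ≠ 0 := by
    intro t ht
    obtain ⟨e1, e2⟩ := hAv t ht
    rw [dsc_tf]
    have e3 : brk (tf (lp t)) v = 0 := by rw [brk_tf, e1, smul_zero]
    exact neg_ne_zero.2 (det_ne (tf_trace _) hvt e3 hvd e2)
  have key := hK1 S B L M hSC hSR k2 hB hU hO hL1 hL3 hM0 i hi H hH A hA hdsc ?_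
  · refine key.trans ?_
    have e1 : L ^ 3 = (4 ^ k) ^ 3 * S.K ^ (3 + 3 * θ) := by
      rw [hL, mul_pow, ← Real.rpow_natCast (S.K ^ (1 + θ)) 3, ← Real.rpow_mul hK0.le]
      congr 2; push_cast; ring
    have e2 : B * S.K ^ (1 / 4 : ℝ) * L ^ 3 * M =
        B * (c * (S.K ^ (1 / 4 : ℝ) * S.K ^ (3 + 3 * θ) * S.K ^ (-(3 / 2 * a)))) := by
      rw [e1, hM, hc]; ring
    have e3 : S.K ^ (1 / 4 : ℝ) * S.K ^ (3 + 3 * θ) * S.K ^ (-(3 / 2 * a)) =
        S.K ^ (1 / 4 + (3 + 3 * θ) + -(3 / 2 * a)) := by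
      rw [← Real.rpow_add hK0, ← Real.rpow_add hK0]
    have e4 : c ≤ S.K ^ (1 / 5 : ℝ) := by
      calc c = (c ^ 5) ^ (1 / 5 : ℝ) := by
            rw [← Real.rpow_natCast c 5, ← Real.rpow_mul hc0]; norm_num
        _ ≤ S.K ^ (1 / 5 : ℝ) := Real.rpow_le_rpow (by positivity) k4 (by norm_num)
    rw [e2, e3]
    refine mul_le_mul_of_nonneg_left ?_ (by linarith)
    calc c * S.K ^ (1 / 4 + (3 + 3 * θ) + -(3 / 2 * a))
        ≤ S.K ^ (1 / 5 : ℝ) * S.K ^ (1 / 4 + (3 + 3 * θ) + -(3 / 2 * a)) :=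
          mul_le_mul_of_nonneg_right e4 (by positivity)
      _ = S.K ^ (1 / 5 + (1 / 4 + (3 + 3 * θ) + -(3 / 2 * a))) := (Real.rpow_add hK0 _ _).symm
      _ ≤ S.K ^ (2 + 7 / 2 * θ) := by
          apply Real.rpow_le_rpow_of_exponent_le k1
          rw [ha]
          linarith
  · intro T W hT1 hTL hW
    have hW0 : ∀ u ∈ W, brk u v = 0 := by
      intro u hu
      obtain ⟨-, -, -, -, -, t, ht, cc, s0, hcc, hl, rfl⟩ := hW u hu
      have e1 := (hAv t ht).1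
      rw [hl] at e1
      have e2 : brk (cc • s0) v = cc • brk s0 v := by
        unfold brk
        rw [Matrix.smul_mul, Matrix.mul_smul, smul_sub]
      rw [e2] at e1
      have e3 : brk s0 v = 0 := (smul_eq_zero.1 e1).resolve_left hcc
      rw [brk_tf, e3, smul_zero]
    have hcol : ∀ u ∈ W, ∀ u' ∈ W, brk u u' = 0 := fun u hu u' hu' =>
      brk_trans (hW u hu).2.1 (hW u' hu').2.1 hvt (hW0 u hu) (hW0 u' hu') hv0
    obtain ⟨t1, -, t3⟩ := hT S hSR k1 hU i hi hG (4 * C' ^ 2 * T) (by positivity) W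
      (fun u hu => ⟨fun h => (hW u hu).1 (by rw [h]; simp), (hW u hu).2.1, (hW u hu).2.2.1,
        (hW u hu).2.2.2.1, (hW u hu).2.2.2.2.1⟩)
    rcases Finset.eq_empty_or_nonempty W with he | hne
    · rw [he, Finset.card_empty]
      push_cast
      positivity
    · have t1' : S.K ^ a ≤ 4 * C' ^ 2 * T := t1 hne
      have t3' := t3 hcol
      have hKa : 0 < S.K ^ a := Real.rpow_pos_of_pos hK0 _
      have hT0 : 0 < T := by linarith
      -- T^(1/2) >= K^(a/2) / (2 C')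
      have e1 : S.K ^ (a / 2) ≤ 2 * C' * T ^ (1 / 2 : ℝ) := by
        have e2 : (S.K ^ a) ^ (1 / 2 : ℝ) ≤ (4 * C' ^ 2 * T) ^ (1 / 2 : ℝ) :=
          Real.rpow_le_rpow hKa.le t1' (by norm_num)
        have e3 : (S.K ^ a) ^ (1 / 2 : ℝ) = S.K ^ (a / 2) := by
          rw [← Real.rpow_mul hK0.le]; congr 1; ring
        have e4 : (4 * C' ^ 2 * T) ^ (1 / 2 : ℝ) = 2 * C' * T ^ (1 / 2 : ℝ) := by
          rw [Real.mul_rpow (by positivity) hT0.le]
          congr 1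
          rw [show (4 : ℝ) * C' ^ 2 = (2 * C') ^ 2 by ring, ← Real.rpow_natCast (2 * C') 2,
            ← Real.rpow_mul (by positivity)]
          norm_num
        rw [← e3, ← e4]
        exact e2
      have e5 : T ^ (3 / 2 : ℝ) = T * T ^ (1 / 2 : ℝ) := by
        rw [show (3 / 2 : ℝ) = 1 + 1 / 2 by norm_num, Real.rpow_add hT0, Real.rpow_one]
      have e6 : S.K ^ (-(3 / 2 * a)) * (S.K ^ (a / 2) * S.K ^ a) = 1 := by
        rw [← Real.rpow_add hK0, ← Real.rpow_add hK0]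
        have : -(3 / 2 * a) + (a / 2 + a) = 0 := by ring
        rw [this, Real.rpow_zero]
      have hKm : 0 < S.K ^ (-(3 / 2 * a)) := Real.rpow_pos_of_pos hK0 _
      refine t3'.trans ?_
      rw [hM, e5]
      have e7 : 4 * C' ^ 2 * T / S.K ^ a =
          4 * C' ^ 2 * T * (S.K ^ (-(3 / 2 * a)) * S.K ^ (a / 2)) := by
        rw [div_eq_iff hKa.ne']
        calc 4 * C' ^ 2 * T = 4 * C' ^ 2 * T * (S.K ^ (-(3 / 2 * a)) * (S.K ^ (a / 2) * S.K ^ a)) := by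
              rw [e6, mul_one]
          _ = _ := by ring
      rw [e7]
      have e8 : C1 * (4 * C' ^ 2 * T * (S.K ^ (-(3 / 2 * a)) * S.K ^ (a / 2))) ≤
          C1 * (4 * C' ^ 2 * T * (S.K ^ (-(3 / 2 * a)) * (2 * C' * T ^ (1 / 2 : ℝ)))) := by
        refine mul_le_mul_of_nonneg_left (mul_le_mul_of_nonneg_left
          (mul_le_mul_of_nonneg_left e1 hKm.le) (by positivity)) (by linarith)
      refine e8.trans (le_of_eq ?_)
      ring

end HSL
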