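import Pool.Agent.Lib.HS.L.Tub
import Pool.Agent.Lib.HS.L.CLL

/-!
# HS/L/CLB: loops fixing one rational direction (`tCLB : S_Cor → S_Tub → S_CLB`)

helper44, PROJECT H*, plan of helper26.
-/

set_option autoImplicit false

namespace HSL

open Matrix Pool.Agent.A54.HSL

namespace CLBM

/-- two vectors of the plane orthogonal to `n`, `<a, n> = 1` -/
theorem cr_plane {n a u v : Fin 3 → ℤ} (ha : a 0 * n 0 + a 1 * n 1 + a 2 * n 2 = 1)
    (hu : n 0 * u 0 + n 1 * u 1 + n 2 * u 2 = 0) (hv : n 0 * v 0 + n 1 * v 1 + n 2 * v 2 = 0) :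
    cr u v = d3 u v a • n := by
  funext i
  fin_cases i
  · simp only [cr, d3, Fin.zero_eta, Matrix.cons_val_zero, Pi.smul_apply, smul_eq_mul]
    linear_combination (-(u 1 * v 2 - u 2 * v 1)) * ha + (-(a 1 * u 2) + a 2 * u 1) * hv +
      (a 1 * v 2 - a 2 * v 1) * hu
  · simp only [cr, d3, Fin.mk_one, Matrix.cons_val_one, Matrix.cons_val, Pi.smul_apply, smul_eq_mul]
    linear_combination (-(u 2 * v 0 - u 0 * v 2)) * ha + (a 0 * u 2 - a 2 * u 0) * hv +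
      (-(a 0 * v 2) + a 2 * v 0) * hu
  · simp only [cr, d3, Fin.reduceFinMk, Matrix.cons_val, Pi.smul_apply, smul_eq_mul]
    linear_combination (-(u 0 * v 1 - u 1 * v 0)) * ha + (-(a 0 * u 1) + a 1 * u 0) * hv +
      (a 0 * v 1 - a 1 * v 0) * hu

/-- points of a plane with primitive normal vector -/
theorem card_plane (S : Finset (Fin 3 → ℤ)) (n a : Fin 3 → ℤ)
    (ha : a 0 * n 0 + a 1 * n 1 + a 2 * n 2 = 1)
    (hS : ∀ u ∈ S, n 0 * u 0 + n 1 * u 1 + n 2 * u 2 = 0) :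
    (∀ u ∈ S, ∀ v ∈ S, cr u v = 0) ∨
      ∃ u ∈ S, ∃ v ∈ S, (S.card : ℤ) * n1 n ≤ 27 * n1 (cr u v) := by
  classical
  by_cases h : ∃ u ∈ S, ∃ v ∈ S, d3 u v a ≠ 0
  · right
    obtain ⟨u, hu, v, hv, hD⟩ := h
    obtain ⟨⟨u₁, u₂⟩, hmem, hmax⟩ := Finset.exists_max_image (S ×ˢ S)
      (fun t => |d3 t.1 t.2 a|) ⟨(u, v), Finset.mem_product.mpr ⟨hu, hv⟩⟩
    rw [Finset.mem_product] at hmem
    obtain ⟨m1, m2⟩ := hmem
    simp only at m1 m2
    have hle : ∀ x ∈ S, ∀ y ∈ S, |d3 x y a| ≤ |d3 u₁ u₂ a| := by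
      intro x hx y hy
      exact hmax (x, y) (Finset.mem_product.mpr ⟨hx, hy⟩)
    have hne : d3 u₁ u₂ a ≠ 0 := by
      have h4 := hle u hu v hv
      have h5 := abs_pos.mpr hD
      exact abs_pos.mp (h5.trans_le h4)
    have h3 : ∀ v ∈ S, |d3 u₁ u₂ v| ≤ |d3 u₁ u₂ a| := by
      intro x hx
      have e0 := cr_plane ha (hS u₁ m1) (hS u₂ m2)
      have e1 := congrFun e0 0
      have e2 := congrFun e0 1
      have e3 := congrFun e0 2
      simp only [cr, Matrix.cons_val_zero, Matrix.cons_val_one, Matrix.cons_val, Pi.smul_apply,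
        smul_eq_mul] at e1 e2 e3
      have e4 : d3 u₁ u₂ x = 0 := by
        have e5 : d3 u₁ u₂ x = x 0 * (u₁ 1 * u₂ 2 - u₁ 2 * u₂ 1) +
            x 1 * (u₁ 2 * u₂ 0 - u₁ 0 * u₂ 2) + x 2 * (u₁ 0 * u₂ 1 - u₁ 1 * u₂ 0) := by
          simp only [d3]; ring
        rw [e5, e1, e2, e3]
        linear_combination (d3 u₁ u₂ a) * hS x hx
      rw [e4, abs_zero]
      exact abs_nonneg _
    have key := card27 S u₁ u₂ a hne (fun x hx => hle x hx u₂ m2) (fun x hx => hle u₁ m1 x hx) h3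
    refine ⟨u₁, m1, u₂, m2, ?_⟩
    rw [cr_plane ha (hS u₁ m1) (hS u₂ m2), n1_smul]
    have := mul_le_mul_of_nonneg_right key (n1_nonneg n)
    linarith
  · left
    push Not at h
    intro u hu v hv
    rw [cr_plane ha (hS u hu) (hS v hv), h u hu v hv, zero_smul]

/-- cross products in frame coordinates -/
theorem cr_bound (a : Fin 3 → Fin 3 → ℝ) {C T ρ : ℝ} (hC : ∀ i j, |a i j| ≤ C)
    (hdet : d3 (a 0) (a 1) (a 2) = 1) (hρ : 0 ≤ ρ) (hρT : ρ ≤ T) (u v : Fin 3 → ℤ)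
    (gu0 : |∑ j, a 0 j * u j| ≤ T) (gu1 : |∑ j, a 1 j * u j| ≤ ρ) (gu2 : |∑ j, a 2 j * u j| ≤ ρ)
    (gv0 : |∑ j, a 0 j * v j| ≤ T) (gv1 : |∑ j, a 1 j * v j| ≤ ρ) (gv2 : |∑ j, a 2 j * v j| ≤ ρ) :
    ((n1 (cr u v) : ℤ) : ℝ) ≤ 18 * (C * (T * ρ)) := by
  have hT : 0 ≤ T := hρ.trans hρT
  have hC0 : 0 ≤ C := (abs_nonneg _).trans (hC 0 0)
  set F : (Fin 3 → ℤ) → Fin 3 → ℝ := fun v i => ∑ j, a i j * v j with hF
  have eF : ∀ v i, F v i = a i 0 * v 0 + a i 1 * v 1 + a i 2 * v 2 := by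
    intro v i; simp [hF, Fin.sum_univ_three]
  have hd : a 0 0 * (a 1 1 * a 2 2 - a 1 2 * a 2 1) - a 0 1 * (a 1 0 * a 2 2 - a 1 2 * a 2 0)
      + a 0 2 * (a 1 0 * a 2 1 - a 1 1 * a 2 0) = 1 := hdet
  have hu0 : |F u 0| ≤ T := gu0
  have hu1 : |F u 1| ≤ ρ := gu1
  have hu2 : |F u 2| ≤ ρ := gu2
  have hv0 : |F v 0| ≤ T := gv0
  have hv1 : |F v 1| ≤ ρ := gv1
  have hv2 : |F v 2| ≤ ρ := gv2
  have hTρ : ρ * ρ ≤ T * ρ := mul_le_mul_of_nonneg_right hρT hρ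
  set X : Fin 3 → ℝ := cr (F u) (F v) with hX
  have X0 : |X 0| ≤ 2 * (T * ρ) := by
    have : X 0 = F u 1 * F v 2 - F u 2 * F v 1 := by simp [hX, cr]
    rw [this]
    refine (abs_sub _ _).trans ?_
    rw [abs_mul, abs_mul]
    have p1 := mul_le_mul hu1 hv2 (abs_nonneg _) hρ
    have p2 := mul_le_mul hu2 hv1 (abs_nonneg _) hρ
    linarith
  have X1 : |X 1| ≤ 2 * (T * ρ) := by
    have : X 1 = F u 2 * F v 0 - F u 0 * F v 2 := by simp [hX, cr]
    rw [this]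
    refine (abs_sub _ _).trans ?_
    rw [abs_mul, abs_mul]
    have p1 := mul_le_mul hu2 hv0 (abs_nonneg _) hρ
    have p2 := mul_le_mul hu0 hv2 (abs_nonneg _) hT
    linarith
  have X2 : |X 2| ≤ 2 * (T * ρ) := by
    have : X 2 = F u 0 * F v 1 - F u 1 * F v 0 := by simp [hX, cr]
    rw [this]
    refine (abs_sub _ _).trans ?_
    rw [abs_mul, abs_mul]
    have p1 := mul_le_mul hu0 hv1 (abs_nonneg _) hT
    have p2 := mul_le_mul hu1 hv0 (abs_nonneg _) hρ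
    linarith
  have comp : ∀ i, ((cr u v i : ℤ) : ℝ) = a 0 i * X 0 + a 1 i * X 1 + a 2 i * X 2 := by
    intro i
    have x0 : X 0 = F u 1 * F v 2 - F u 2 * F v 1 := by simp [hX, cr]
    have x1 : X 1 = F u 2 * F v 0 - F u 0 * F v 2 := by simp [hX, cr]
    have x2 : X 2 = F u 0 * F v 1 - F u 1 * F v 0 := by simp [hX, cr]
    rw [x0, x1, x2]
    simp only [eF]
    fin_cases i
    · simp only [cr, Fin.zero_eta, Matrix.cons_val_zero]
      push_cast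
      linear_combination (-((u 1 : ℝ) * v 2 - u 2 * v 1)) * hd
    · simp only [cr, Fin.mk_one, Matrix.cons_val_one, Matrix.cons_val]
      push_cast
      linear_combination (-((u 2 : ℝ) * v 0 - u 0 * v 2)) * hd
    · simp only [cr, Fin.reduceFinMk, Matrix.cons_val]
      push_cast
      linear_combination (-((u 0 : ℝ) * v 1 - u 1 * v 0)) * hd
  have bound : ∀ i, |((cr u v i : ℤ) : ℝ)| ≤ 6 * (C * (T * ρ)) := by
    intro i
    rw [comp i]
    refine (abs_add_le _ _).trans ?_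
    have q1 := abs_add_le (a 0 i * X 0) (a 1 i * X 1)
    rw [abs_mul, abs_mul] at q1
    rw [abs_mul (a 2 i)]
    have r0 : |a 0 i| * |X 0| ≤ C * (2 * (T * ρ)) := mul_le_mul (hC 0 i) X0 (abs_nonneg _) hC0
    have r1 : |a 1 i| * |X 1| ≤ C * (2 * (T * ρ)) := mul_le_mul (hC 1 i) X1 (abs_nonneg _) hC0
    have r2 : |a 2 i| * |X 2| ≤ C * (2 * (T * ρ)) := mul_le_mul (hC 2 i) X2 (abs_nonneg _) hC0
    linarith
  have b0 := bound 0
  have b1 := bound 1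
  have b2 := bound 2
  unfold n1
  push_cast
  linarith

/-- commutator from the cross product -/
theorem brk_of_cr {v v' : MZ} (t1 : v.trace = 0) (t2 : v'.trace = 0) (h : cr (vec v) (vec v') = 0) :
    brk v v' = 0 := by
  have h0 := congrFun h 0
  have h1 := congrFun h 1
  have h2 := congrFun h 2
  simp only [cr, vec, Matrix.cons_val_zero, Matrix.cons_val_one, Matrix.cons_val, Pi.zero_apply]
    at h0 h1 h2
  have e1 := CLLM.tr0 t1
  have e2 := CLLM.tr0 t2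
  ext i j
  fin_cases i <;> fin_cases j <;>
    simp only [brk, Matrix.sub_apply, Matrix.mul_apply, Fin.sum_univ_two, Matrix.zero_apply,
      Fin.zero_eta, Fin.mk_one, Fin.isValue, e1, e2] <;> linarith

/-- the eigenvector of the primitive part and of its traceless part -/
theorem eig_tf {s0 : MZ} {q : Fin 2 → ℤ} {c lam : ℤ} (hc : c ≠ 0) (h : (c • s0) *ᵥ q = lam • q) :
    (2 * s0 0 1 * q 1 + (s0 0 0 - s0 1 1) * q 0) * q 1 =
      (2 * s0 1 0 * q 0 - (s0 0 0 - s0 1 1) * q 1) * q 0 := by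
  have h0 := congrFun h 0
  have h1 := congrFun h 1
  simp only [Matrix.mulVec, dotProduct, Fin.sum_univ_two, Matrix.smul_apply, Pi.smul_apply,
    smul_eq_mul] at h0 h1
  have : c * ((2 * s0 0 1 * q 1 + (s0 0 0 - s0 1 1) * q 0) * q 1) =
      c * ((2 * s0 1 0 * q 0 - (s0 0 0 - s0 1 1) * q 1) * q 0) := by
    linear_combination (2 * q 1) * h0 - (2 * q 0) * h1
  exact mul_left_cancel₀ hc this

/-- the eigenvector equation in frame coordinates -/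
theorem fr_eig {g : MR} {v : MZ} (hv : v.trace = 0) {q : Fin 2 → ℤ}
    (h : -(2 * q 0 * q 1) * v 0 0 + -(q 1) ^ 2 * v 0 1 + (q 0) ^ 2 * v 1 0 = 0) :
    2 * fr g g v 0 0 * ((g.adjugate *ᵥ (fun a => (q a : ℝ))) 0 *
      (g.adjugate *ᵥ (fun a => (q a : ℝ))) 1) =
      fr g g v 1 0 * (g.adjugate *ᵥ (fun a => (q a : ℝ))) 0 ^ 2 -
        fr g g v 0 1 * (g.adjugate *ᵥ (fun a => (q a : ℝ))) 1 ^ 2 := by
  have h11 : (v 1 1 : ℝ) = -(v 0 0 : ℝ) := by
    rw [CLLM.tr0 hv]; push_cast; ring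
  have a00 : g.adjugate 0 0 = g 1 1 := by simp [Matrix.adjugate_fin_two]
  have a01 : g.adjugate 0 1 = -g 0 1 := by simp [Matrix.adjugate_fin_two]
  have a10 : g.adjugate 1 0 = -g 1 0 := by simp [Matrix.adjugate_fin_two]
  have a11 : g.adjugate 1 1 = g 0 0 := by simp [Matrix.adjugate_fin_two]
  have hR : -(2 * (q 0 : ℝ) * q 1) * v 0 0 + -(q 1 : ℝ) ^ 2 * v 0 1 + (q 0 : ℝ) ^ 2 * v 1 0 = 0 := by
    exact_mod_cast h
  simp only [fr, Matrix.mul_apply, Matrix.mulVec, dotProduct, Fin.sum_univ_two, toR,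
    Matrix.map_apply, a00, a01, a10, a11, h11]
  linear_combination (-(g 0 0 * g 1 1 - g 0 1 * g 1 0) ^ 2) * hR

/-- size of the frame coordinates of `q` -/
theorem fr_q {g : MR} {R : ℝ} (hg : ∀ a b, |g a b| ≤ R) (q : Fin 2 → ℤ) :
    (g.adjugate *ᵥ (fun a => (q a : ℝ))) 0 ^ 2 + (g.adjugate *ᵥ (fun a => (q a : ℝ))) 1 ^ 2 ≤
      4 * R ^ 2 * ((q 0 : ℝ) ^ 2 + (q 1 : ℝ) ^ 2) := by
  have a00 : g.adjugate 0 0 = g 1 1 := by simp [Matrix.adjugate_fin_two]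
  have a01 : g.adjugate 0 1 = -g 0 1 := by simp [Matrix.adjugate_fin_two]
  have a10 : g.adjugate 1 0 = -g 1 0 := by simp [Matrix.adjugate_fin_two]
  have a11 : g.adjugate 1 1 = g 0 0 := by simp [Matrix.adjugate_fin_two]
  have hsq : ∀ a b, g a b ^ 2 ≤ R ^ 2 := by
    intro a b
    exact sq_le_sq' (by linarith [abs_le.1 (hg a b)]) (abs_le.1 (hg a b)).2
  simp only [Matrix.mulVec, dotProduct, Fin.sum_univ_two, a00, a01, a10, a11]
  have e1 : (g 1 1 * (q 0 : ℝ) + -g 0 1 * q 1) ^ 2 ≤ 2 * (R ^ 2 * ((q 0 : ℝ) ^ 2 + (q 1 : ℝ) ^ 2)) := by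
    have p1 := mul_le_mul_of_nonneg_right (hsq 1 1) (sq_nonneg (q 0 : ℝ))
    have p2 := mul_le_mul_of_nonneg_right (hsq 0 1) (sq_nonneg (q 1 : ℝ))
    nlinarith [sq_nonneg (g 1 1 * (q 0 : ℝ) + g 0 1 * q 1)]
  have e2 : (-g 1 0 * (q 0 : ℝ) + g 0 0 * q 1) ^ 2 ≤ 2 * (R ^ 2 * ((q 0 : ℝ) ^ 2 + (q 1 : ℝ) ^ 2)) := by
    have p1 := mul_le_mul_of_nonneg_right (hsq 1 0) (sq_nonneg (q 0 : ℝ))
    have p2 := mul_le_mul_of_nonneg_right (hsq 0 0) (sq_nonneg (q 1 : ℝ))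
    nlinarith [sq_nonneg (g 1 0 * (q 0 : ℝ) + g 0 0 * q 1)]
  linarith

/-- a primitive multiple -/
theorem q_prim (q : Fin 2 → ℤ) (hq : q ≠ 0) : ∃ (d : ℤ) (q' : Fin 2 → ℤ), d ≠ 0 ∧ q' ≠ 0 ∧
    q = d • q' ∧ IsCoprime (q' 0) (q' 1) := by
  have hg : 0 < Int.gcd (q 0) (q 1) := by
    rcases Nat.eq_zero_or_pos (Int.gcd (q 0) (q 1)) with h | h
    · exfalso
      rw [Int.gcd_eq_zero_iff] at h
      apply hq
      funext i
      fin_cases i
      · exact h.1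
      · exact h.2
    · exact h
  obtain ⟨m, n, h1, h2, h3⟩ := Int.exists_gcd_one hg
  have hg0 : ((Int.gcd (q 0) (q 1) : ℕ) : ℤ) ≠ 0 := by exact_mod_cast hg.ne'
  refine ⟨Int.gcd (q 0) (q 1), ![m, n], hg0, ?_, ?_, ?_⟩
  · intro h
    have e0 : m = 0 := congrFun h 0
    have e1 : n = 0 := congrFun h 1
    rw [e0, e1] at h1
    simp at h1
  · funext i
    fin_cases i
    · simpa [mul_comm] using h2
    · simpa [mul_comm] using h3
  · exact Int.isCoprime_iff_gcd_eq_one.2 h1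

end CLBM

open CLLM CLBM

/-- the count of the traceless parts in the plane of a primitive `q` -/
theorem card_borel (S : Sys) {R : ℝ} (hR : 1 ≤ R) (hSR : S.R = R) (hU : S.Unim) {i : S.ι}
    (hi : i ∈ S.V) {q : Fin 2 → ℤ} (hq : IsCoprime (q 0) (q 1)) {τ ρ : ℝ} (hρ : 0 ≤ ρ) (hρτ : ρ ≤ τ)
    (W : Finset MZ) (hW : ∀ v ∈ W, v.trace = 0 ∧
      -(2 * q 0 * q 1) * v 0 0 + -(q 1) ^ 2 * v 0 1 + (q 0) ^ 2 * v 1 0 = 0 ∧
      |fr (S.g i) (S.g i) v 0 0| ≤ τ ∧ |fr (S.g i) (S.g i) v 0 1| ≤ ρ ∧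
      |fr (S.g i) (S.g i) v 1 0| ≤ ρ) :
    (∀ v ∈ W, ∀ v' ∈ W, brk v v' = 0) ∨
      (W.card : ℝ) * ((q 0 : ℝ) ^ 2 + (q 1 : ℝ) ^ 2) ≤ 972 * R ^ 2 * (τ * ρ) := by
  classical
  obtain ⟨hdet, hent⟩ := hU i hi
  rw [hSR] at hent
  obtain ⟨x, y, hxy⟩ := (hq.pow : IsCoprime ((q 0) ^ 2) ((q 1) ^ 2))
  set n : Fin 3 → ℤ := ![-(2 * q 0 * q 1), -(q 1) ^ 2, (q 0) ^ 2] with hn
  set a : Fin 3 → ℤ := ![0, -y, x] with ha
  have hinj : Set.InjOn vec (W : Set MZ) := by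
    intro v hv v' hv' he
    rw [← mat_vec v (hW v hv).1, ← mat_vec v' (hW v' hv').1, he]
  have hcard : (W.image vec).card = W.card := Finset.card_image_of_injOn hinj
  have han : a 0 * n 0 + a 1 * n 1 + a 2 * n 2 = 1 := by
    simp only [ha, hn, Matrix.cons_val_zero, Matrix.cons_val_one, Matrix.cons_val]
    linear_combination hxy
  have hpl : ∀ u ∈ W.image vec, n 0 * u 0 + n 1 * u 1 + n 2 * u 2 = 0 := by
    intro u hu
    obtain ⟨v, hv, rfl⟩ := Finset.mem_image.1 hu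
    have := (hW v hv).2.1
    simp only [hn, vec, Matrix.cons_val_zero, Matrix.cons_val_one, Matrix.cons_val]
    exact this
  rcases card_plane (W.image vec) n a han hpl with h | ⟨u, hu, u', hu', h⟩
  · left
    intro v hv v' hv'
    exact brk_of_cr (hW v hv).1 (hW v' hv').1
      (h _ (Finset.mem_image_of_mem _ hv) _ (Finset.mem_image_of_mem _ hv'))
  · right
    rw [hcard] at h
    obtain ⟨v, hv, rfl⟩ := Finset.mem_image.1 hu
    obtain ⟨v', hv', rfl⟩ := Finset.mem_image.1 hu'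
    obtain ⟨a2, -, a3, a4, a5⟩ := hW v hv
    obtain ⟨b2, -, b3, b4, b5⟩ := hW v' hv'
    obtain ⟨c0, c1, c2⟩ := fr_vec (S.g i) v a2
    obtain ⟨d0, d1, d2⟩ := fr_vec (S.g i) v' b2
    have hb := cr_bound (co (S.g i)) (C := 2 * R ^ 2) (T := τ) (ρ := ρ) (co_le (S.g i) hR hent)
      (co_det (S.g i) hdet) hρ hρτ (vec v) (vec v') (by rw [← c0]; exact a3)
      (by rw [← c1]; exact a4) (by rw [← c2]; exact a5) (by rw [← d0]; exact b3)
      (by rw [← d1]; exact b4) (by rw [← d2]; exact b5)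
    have hn1 : (q 0 : ℝ) ^ 2 + (q 1 : ℝ) ^ 2 ≤ ((n1 n : ℤ) : ℝ) := by
      have : (q 0) ^ 2 + (q 1) ^ 2 ≤ n1 n := by
        simp only [n1, hn, Matrix.cons_val_zero, Matrix.cons_val_one, Matrix.cons_val]
        rw [abs_neg (q 1 ^ 2), abs_of_nonneg (sq_nonneg (q 1)), abs_of_nonneg (sq_nonneg (q 0))]
        linarith [abs_nonneg (-(2 * q 0 * q 1))]
      exact_mod_cast this
    have h' : (W.card : ℝ) * ((n1 n : ℤ) : ℝ) ≤ 27 * ((n1 (cr (vec v) (vec v')) : ℤ) : ℝ) := by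
      exact_mod_cast h
    calc (W.card : ℝ) * ((q 0 : ℝ) ^ 2 + (q 1 : ℝ) ^ 2) ≤ (W.card : ℝ) * ((n1 n : ℤ) : ℝ) :=
          mul_le_mul_of_nonneg_left hn1 (Nat.cast_nonneg _)
      _ ≤ 27 * ((n1 (cr (vec v) (vec v')) : ℤ) : ℝ) := h'
      _ ≤ 27 * (18 * (2 * R ^ 2 * (τ * ρ))) := mul_le_mul_of_nonneg_left hb (by norm_num)
      _ = 972 * R ^ 2 * (τ * ρ) := by ring

/-- the collinear part, in the form `M T^(3/2)` -/
theorem line_part {K a C1 C' T N : ℝ} (hK0 : 0 < K) (hC1 : 1 ≤ C1) (hC' : 1 ≤ C')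
    (t1 : K ^ a ≤ 4 * C' ^ 2 * T) (t3 : N ≤ C1 * (4 * C' ^ 2 * T / K ^ a)) :
    N ≤ 8 * C1 * C' ^ 3 * K ^ (-(3 / 2 * a)) * T ^ (3 / 2 : ℝ) := by
  have hKa : 0 < K ^ a := Real.rpow_pos_of_pos hK0 _
  have hT0 : 0 < T := by
    by_contra hc
    push Not at hc
    have : 4 * C' ^ 2 * T ≤ 0 := mul_nonpos_of_nonneg_of_nonpos (by positivity) hc
    linarith
  have e1 : K ^ (a / 2) ≤ 2 * C' * T ^ (1 / 2 : ℝ) := by
    have e2 : (K ^ a) ^ (1 / 2 : ℝ) ≤ (4 * C' ^ 2 * T) ^ (1 / 2 : ℝ) :=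
      Real.rpow_le_rpow hKa.le t1 (by norm_num)
    have e3 : (K ^ a) ^ (1 / 2 : ℝ) = K ^ (a / 2) := by
      rw [← Real.rpow_mul hK0.le]; congr 1; ring
    have e4 : (4 * C' ^ 2 * T) ^ (1 / 2 : ℝ) = 2 * C' * T ^ (1 / 2 : ℝ) := by
      rw [Real.mul_rpow (by positivity) hT0.le]
      congr 1
      rw [show (4 : ℝ) * C' ^ 2 = (2 * C') ^ 2 by ring, ← Real.rpow_natCast (2 * C') 2,
        ← Real.rpow_mul (by positivity)]
      norm_num
    rw [← e3, ← e4]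
    exact e2
  have e5 : T ^ (3 / 2 : ℝ) = T * T ^ (1 / 2 : ℝ) := by
    rw [show (3 / 2 : ℝ) = 1 + 1 / 2 by norm_num, Real.rpow_add hT0, Real.rpow_one]
  have e6 : K ^ (-(3 / 2 * a)) * (K ^ (a / 2) * K ^ a) = 1 := by
    rw [← Real.rpow_add hK0, ← Real.rpow_add hK0]
    have : -(3 / 2 * a) + (a / 2 + a) = 0 := by ring
    rw [this, Real.rpow_zero]
  have hKm : 0 < K ^ (-(3 / 2 * a)) := Real.rpow_pos_of_pos hK0 _
  refine t3.trans ?_
  rw [e5]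
  have e7 : 4 * C' ^ 2 * T / K ^ a = 4 * C' ^ 2 * T * (K ^ (-(3 / 2 * a)) * K ^ (a / 2)) := by
    rw [div_eq_iff hKa.ne']
    calc 4 * C' ^ 2 * T = 4 * C' ^ 2 * T * (K ^ (-(3 / 2 * a)) * (K ^ (a / 2) * K ^ a)) := by
          rw [e6, mul_one]
      _ = _ := by ring
  rw [e7]
  have e8 : C1 * (4 * C' ^ 2 * T * (K ^ (-(3 / 2 * a)) * K ^ (a / 2))) ≤
      C1 * (4 * C' ^ 2 * T * (K ^ (-(3 / 2 * a)) * (2 * C' * T ^ (1 / 2 : ℝ)))) := by
    refine mul_le_mul_of_nonneg_left (mul_le_mul_of_nonneg_left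
      (mul_le_mul_of_nonneg_left e1 hKm.le) (by positivity)) (by linarith)
  refine e8.trans (le_of_eq ?_)
  ring

theorem tCLB (h1 : S_Cor) (h2 : S_Tub) : S_CLB := by
  intro k C R θ hk hC hR hθ hθ1
  obtain ⟨K1, hK1⟩ := h1 k C R (θ / 8) hk hC hR (by positivity)
  obtain ⟨C1, hC1, hT⟩ := h2 R hR
  set C' : ℝ := (2 * C) ^ k with hC'
  have hC'1 : 1 ≤ C' := one_le_pow₀ (by linarith)
  have hR2 : 1 ≤ R ^ 2 := one_le_pow₀ hR
  set c1 : ℝ := 8 * C1 * C' ^ 3 with hc1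
  have hc10 : 0 ≤ c1 := by positivity
  set c4 : ℝ := 31104 * R ^ 4 * C' ^ 4 with hc4
  have hc40 : 0 ≤ c4 := by positivity
  set c : ℝ := (4 ^ k) ^ 3 * c1 + 2 * ((4 ^ k) ^ 4 * c4) with hc
  have hc0 : 0 ≤ c := by positivity
  refine ⟨max (max 1 K1) (max (4 ^ k) (c ^ (8 / θ))), ?_⟩
  intro S B hSC hSR hK hB hU hO i hi hG hZ H hH q hq A hA hAv
  have k1 : 1 ≤ S.K := (le_max_left _ _).trans ((le_max_left _ _).trans hK)
  have k2 : K1 ≤ S.K := (le_max_right _ _).trans ((le_max_left _ _).trans hK)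
  have k3 : (4 : ℝ) ^ k ≤ S.K := (le_max_left _ _).trans ((le_max_right _ _).trans hK)
  have k4 : c ^ (8 / θ) ≤ S.K := (le_max_right _ _).trans ((le_max_right _ _).trans hK)
  have hK0 : 0 < S.K := by linarith
  set a : ℝ := 1 - 1 / 200 with ha
  set L : ℝ := 4 ^ k * S.K ^ (1 + θ) with hL
  have hKθ : S.K ^ (1 + θ) ≤ S.K ^ (2 : ℝ) :=
    Real.rpow_le_rpow_of_exponent_le k1 (by linarith)
  have hL1 : 1 ≤ L := by
    have e1 : (1 : ℝ) ≤ 4 ^ k := one_le_pow₀ (by norm_num)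
    have e2 : 1 ≤ S.K ^ (1 + θ) := Real.one_le_rpow k1 (by linarith)
    rw [hL]
    exact one_le_mul_of_one_le_of_one_le e1 e2
  have hL3 : L ≤ S.K ^ 3 := by
    calc L ≤ S.K * S.K ^ (2 : ℝ) := mul_le_mul k3 hKθ (by positivity) hK0.le
      _ = S.K ^ 3 := by
        have : S.K ^ (2 : ℝ) = S.K ^ 2 := by norm_cast
        rw [this]; ring
  set e : ℝ := -1 - 1 / 100 + 3 / 4 * θ with he
  set M : ℝ := c1 * S.K ^ (-(3 / 2 * a)) + c4 * (L * S.K ^ (-(2 + 3 / 4 * θ))) +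
    c4 * (L * S.K ^ (e - 2)) with hM
  have hm1 : 0 ≤ c1 * S.K ^ (-(3 / 2 * a)) := by positivity
  have hm2 : 0 ≤ c4 * (L * S.K ^ (-(2 + 3 / 4 * θ))) := by positivity
  have hm3 : 0 ≤ c4 * (L * S.K ^ (e - 2)) := by positivity
  have hM0 : 0 ≤ M := by positivity
  obtain ⟨d, q', hd, hq', hqq, hcop⟩ := q_prim q hq
  have key := hK1 S B L M hSC hSR k2 hB hU hO hL1 hL3 hM0 i hi H hH A hA (fun t ht => (hAv t ht).1) ?_
  · refine key.trans ?_
    have e1 : L ^ 3 = (4 ^ k) ^ 3 * S.K ^ (3 + 3 * θ) := by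
      rw [hL, mul_pow, ← Real.rpow_natCast (S.K ^ (1 + θ)) 3, ← Real.rpow_mul hK0.le]
      congr 2; push_cast; ring
    have e1' : L ^ 4 = (4 ^ k) ^ 4 * S.K ^ (4 + 4 * θ) := by
      rw [hL, mul_pow, ← Real.rpow_natCast (S.K ^ (1 + θ)) 4, ← Real.rpow_mul hK0.le]
      congr 2; push_cast; ring
    have e2 : B * S.K ^ (θ / 8) * L ^ 3 * M =
        B * ((4 ^ k) ^ 3 * c1 * (S.K ^ (θ / 8) * S.K ^ (3 + 3 * θ) * S.K ^ (-(3 / 2 * a))) +
          (4 ^ k) ^ 4 * c4 * (S.K ^ (θ / 8) * S.K ^ (4 + 4 * θ) * S.K ^ (-(2 + 3 / 4 * θ))) +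
          (4 ^ k) ^ 4 * c4 * (S.K ^ (θ / 8) * S.K ^ (4 + 4 * θ) * S.K ^ (e - 2))) := by
      have : B * S.K ^ (θ / 8) * L ^ 3 * M =
        B * (c1 * (S.K ^ (θ / 8) * L ^ 3 * S.K ^ (-(3 / 2 * a))) +
          c4 * (S.K ^ (θ / 8) * L ^ 4 * S.K ^ (-(2 + 3 / 4 * θ))) +
          c4 * (S.K ^ (θ / 8) * L ^ 4 * S.K ^ (e - 2))) := by
        rw [hM]; ring
      rw [this, e1, e1']; ring
    have hexp : ∀ x y : ℝ, θ / 8 + x + y ≤ 2 + 27 / 8 * θ →
        S.K ^ (θ / 8) * S.K ^ x * S.K ^ y ≤ S.K ^ (2 + 27 / 8 * θ) := by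
      intro x y hxy
      rw [← Real.rpow_add hK0, ← Real.rpow_add hK0]
      exact Real.rpow_le_rpow_of_exponent_le k1 hxy
    have e4 : c ≤ S.K ^ (θ / 8) := by
      calc c = (c ^ (8 / θ)) ^ (θ / 8) := by
            rw [← Real.rpow_mul hc0]
            have : 8 / θ * (θ / 8) = 1 := by field_simp
            rw [this, Real.rpow_one]
        _ ≤ S.K ^ (θ / 8) := Real.rpow_le_rpow (by positivity) k4 (by positivity)
    rw [e2]
    refine mul_le_mul_of_nonneg_left ?_ (by linarith)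
    have p1 := mul_le_mul_of_nonneg_left (hexp (3 + 3 * θ) (-(3 / 2 * a)) (by rw [ha]; linarith))
      (by positivity : 0 ≤ (4 ^ k) ^ 3 * c1)
    have p2 := mul_le_mul_of_nonneg_left (hexp (4 + 4 * θ) (-(2 + 3 / 4 * θ)) (by linarith))
      (by positivity : 0 ≤ (4 ^ k) ^ 4 * c4)
    have p3 := mul_le_mul_of_nonneg_left (hexp (4 + 4 * θ) (e - 2) (by rw [he]; linarith))
      (by positivity : 0 ≤ (4 ^ k) ^ 4 * c4)
    calc _ ≤ (4 ^ k) ^ 3 * c1 * S.K ^ (2 + 27 / 8 * θ) + (4 ^ k) ^ 4 * c4 * S.K ^ (2 + 27 / 8 * θ) +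
          (4 ^ k) ^ 4 * c4 * S.K ^ (2 + 27 / 8 * θ) := add_le_add (add_le_add p1 p2) p3
      _ = c * S.K ^ (2 + 27 / 8 * θ) := by rw [hc]; ring
      _ ≤ S.K ^ (θ / 8) * S.K ^ (2 + 27 / 8 * θ) := mul_le_mul_of_nonneg_right e4 (by positivity)
      _ = S.K ^ (2 + 7 / 2 * θ) := by
          rw [← Real.rpow_add hK0]; congr 1; ring
  · intro T W hT1 hTL hW
    have hT0 : 0 < T := by linarith
    have hTh : 0 ≤ T ^ (3 / 2 : ℝ) := by positivity
    -- T^2 <= L T^(3/2)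
    have hT2 : T ^ 2 ≤ L * T ^ (3 / 2 : ℝ) := by
      have e1 : T ^ (1 / 2 : ℝ) ≤ L := by
        calc T ^ (1 / 2 : ℝ) ≤ (L ^ 2) ^ (1 / 2 : ℝ) := Real.rpow_le_rpow hT0.le hTL (by norm_num)
          _ = L := by
            rw [← Real.rpow_natCast L 2, ← Real.rpow_mul (by linarith)]
            norm_num
      have e2 : T ^ 2 = T ^ (1 / 2 : ℝ) * T ^ (3 / 2 : ℝ) := by
        rw [← Real.rpow_add hT0, ← Real.rpow_natCast T 2]
        norm_num
      rw [e2]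
      exact mul_le_mul_of_nonneg_right e1 hTh
    have hplane : ∀ u ∈ W, -(2 * q' 0 * q' 1) * u 0 0 + -(q' 1) ^ 2 * u 0 1 + (q' 0) ^ 2 * u 1 0 = 0 := by
      intro u hu
      obtain ⟨-, -, -, -, -, t, ht, cc, s0, hcc, hl, rfl⟩ := hW u hu
      obtain ⟨-, lam, hlam⟩ := hAv t ht
      rw [hl] at hlam
      have e1 := eig_tf hcc hlam
      have q0 : q 0 = d * q' 0 := congrFun hqq 0
      have q1 : q 1 = d * q' 1 := congrFun hqq 1
      rw [q0, q1] at e1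
      rw [tf_00, tf_01, tf_10]
      have e2 : d ^ 2 * (-(2 * q' 0 * q' 1) * (s0 0 0 - s0 1 1) + -(q' 1) ^ 2 * (2 * s0 0 1) +
          (q' 0) ^ 2 * (2 * s0 1 0)) = 0 := by
        linear_combination (-1) * e1
      exact (mul_eq_zero.1 e2).resolve_left (pow_ne_zero 2 hd)
    obtain ⟨t1, -, t3⟩ := hT S hSR k1 hU i hi hG (4 * C' ^ 2 * T) (by positivity) W
      (fun u hu => ⟨fun h => (hW u hu).1 (by rw [h]; simp), (hW u hu).2.1, (hW u hu).2.2.1,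
        (hW u hu).2.2.2.1, (hW u hu).2.2.2.2.1⟩)
    rcases Finset.eq_empty_or_nonempty W with hem | hne
    · rw [hem, Finset.card_empty]
      push_cast
      positivity
    have t1' : S.K ^ a ≤ 4 * C' ^ 2 * T := t1 hne
    have hline : (∀ v ∈ W, ∀ v' ∈ W, brk v v' = 0) → (W.card : ℝ) ≤ M * T ^ (3 / 2 : ℝ) := by
      intro hcol
      have := line_part hK0 hC1 hC'1 t1' (t3 hcol)
      refine this.trans ?_
      refine mul_le_mul_of_nonneg_right ?_ hTh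
      rw [hM]
      linarith
    have hρ0 : 0 ≤ 4 * C' ^ 2 * T / S.K ^ 2 := by positivity
    have hKi : 4 * C' ^ 2 * T / S.K ^ 2 = 4 * C' ^ 2 * T * S.K ^ (-2 : ℝ) := by
      rw [Real.rpow_neg hK0.le, div_eq_mul_inv]
      norm_cast
    by_cases hbig : S.K ^ (3 / 4 * θ) ≤ (q' 0 : ℝ) ^ 2 + (q' 1 : ℝ) ^ 2
    · -- large `q`
      have hρτ : 4 * C' ^ 2 * T / S.K ^ 2 ≤ 4 * C' ^ 2 * T :=
        div_le_self (by positivity) (one_le_pow₀ k1)
      rcases card_borel S hR hSR hU hi hcop hρ0 hρτ W (fun u hu => ⟨(hW u hu).2.1, hplane u hu,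
        (hW u hu).2.2.1, (hW u hu).2.2.2.1, (hW u hu).2.2.2.2.1⟩) with h | h
      · exact hline h
      · have hKq : 0 < S.K ^ (3 / 4 * θ) := Real.rpow_pos_of_pos hK0 _
        have g1 : (W.card : ℝ) * S.K ^ (3 / 4 * θ) ≤
            972 * R ^ 2 * (4 * C' ^ 2 * T * (4 * C' ^ 2 * T / S.K ^ 2)) :=
          (mul_le_mul_of_nonneg_left hbig (Nat.cast_nonneg _)).trans h
        have g2 : (W.card : ℝ) ≤ 15552 * R ^ 2 * C' ^ 4 * T ^ 2 * S.K ^ (-(2 + 3 / 4 * θ)) := by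
          have g3 : S.K ^ (3 / 4 * θ) * S.K ^ (-(3 / 4 * θ)) = 1 := by
            rw [← Real.rpow_add hK0, add_neg_cancel, Real.rpow_zero]
          have g4 : S.K ^ (-(2 + 3 / 4 * θ)) = S.K ^ (-2 : ℝ) * S.K ^ (-(3 / 4 * θ)) := by
            rw [← Real.rpow_add hK0]; congr 1; ring
          calc (W.card : ℝ) = (W.card : ℝ) * S.K ^ (3 / 4 * θ) * S.K ^ (-(3 / 4 * θ)) := by
                rw [mul_assoc, g3, mul_one]
            _ ≤ 972 * R ^ 2 * (4 * C' ^ 2 * T * (4 * C' ^ 2 * T / S.K ^ 2)) * S.K ^ (-(3 / 4 * θ)) :=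
                mul_le_mul_of_nonneg_right g1 (by positivity)
            _ = 15552 * R ^ 2 * C' ^ 4 * T ^ 2 * S.K ^ (-(2 + 3 / 4 * θ)) := by
                rw [hKi, g4]; ring
        have g5 : 15552 * R ^ 2 * C' ^ 4 ≤ c4 := by
          have : R ^ 2 ≤ R ^ 4 := pow_le_pow_right₀ hR (by norm_num)
          have h4 : 0 ≤ C' ^ 4 := by positivity
          have := mul_le_mul_of_nonneg_right this h4
          rw [hc4]
          nlinarith [mul_nonneg (by positivity : 0 ≤ R ^ 4) h4]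
        calc (W.card : ℝ) ≤ 15552 * R ^ 2 * C' ^ 4 * T ^ 2 * S.K ^ (-(2 + 3 / 4 * θ)) := g2
          _ ≤ c4 * (L * T ^ (3 / 2 : ℝ)) * S.K ^ (-(2 + 3 / 4 * θ)) := by
              refine mul_le_mul_of_nonneg_right ?_ (by positivity)
              exact mul_le_mul g5 hT2 (by positivity) hc40
          _ = c4 * (L * S.K ^ (-(2 + 3 / 4 * θ))) * T ^ (3 / 2 : ℝ) := by ring
          _ ≤ M * T ^ (3 / 2 : ℝ) := by
              refine mul_le_mul_of_nonneg_right ?_ hTh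
              rw [hM]; linarith
    · -- small `q`
      push Not at hbig
      obtain ⟨hdet, hent⟩ := hU i hi
      rw [hSR] at hent
      set τ : ℝ := 2 * R ^ 2 * (4 * C' ^ 2 * T) * S.K ^ e with hτ
      have hQ1 : (q' 0 : ℝ) ^ 2 + (q' 1 : ℝ) ^ 2 ≤ S.K ^ (1 / 100 : ℝ) := by
        refine hbig.le.trans (Real.rpow_le_rpow_of_exponent_le k1 (by linarith))
      have hz := hZ q' hq' hQ1
      have hfq := fr_q hent q'
      have hρτ : 4 * C' ^ 2 * T / S.K ^ 2 ≤ τ := by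
        rw [hKi, hτ]
        have g1 : S.K ^ (-2 : ℝ) ≤ S.K ^ e :=
          Real.rpow_le_rpow_of_exponent_le k1 (by rw [he]; linarith)
        have g2 : 4 * C' ^ 2 * T * S.K ^ (-2 : ℝ) ≤ 4 * C' ^ 2 * T * S.K ^ e :=
          mul_le_mul_of_nonneg_left g1 (by positivity)
        have g3 : 0 ≤ 4 * C' ^ 2 * T * S.K ^ e := by positivity
        have g4 := mul_le_mul_of_nonneg_right (by linarith : (1 : ℝ) ≤ 2 * R ^ 2) g3
        calc 4 * C' ^ 2 * T * S.K ^ (-2 : ℝ) ≤ 4 * C' ^ 2 * T * S.K ^ e := g2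
          _ = 1 * (4 * C' ^ 2 * T * S.K ^ e) := by ring
          _ ≤ 2 * R ^ 2 * (4 * C' ^ 2 * T * S.K ^ e) := g4
          _ = 2 * R ^ 2 * (4 * C' ^ 2 * T) * S.K ^ e := by ring
      have hF : ∀ u ∈ W, |fr (S.g i) (S.g i) u 0 0| ≤ τ := by
        intro u hu
        have g1 := fr_eig (g := S.g i) (hW u hu).2.1 (hplane u hu)
        set α := ((S.g i).adjugate *ᵥ (fun a => (q' a : ℝ))) 0 with hα
        set β := ((S.g i).adjugate *ᵥ (fun a => (q' a : ℝ))) 1 with hβ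
        have b1 := (hW u hu).2.2.2.1
        have b2 := (hW u hu).2.2.2.2.1
        have g2 : 2 * |fr (S.g i) (S.g i) u 0 0| * |α * β| ≤
            4 * C' ^ 2 * T / S.K ^ 2 * (α ^ 2 + β ^ 2) := by
          have g3 : |2 * fr (S.g i) (S.g i) u 0 0 * (α * β)| =
              2 * |fr (S.g i) (S.g i) u 0 0| * |α * β| := by
            rw [abs_mul, abs_mul, abs_two]
          rw [← g3, g1]
          refine (abs_sub _ _).trans ?_
          rw [abs_mul, abs_mul, abs_of_nonneg (sq_nonneg α), abs_of_nonneg (sq_nonneg β), mul_add]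
          exact add_le_add (mul_le_mul_of_nonneg_right b2 (sq_nonneg _))
            (mul_le_mul_of_nonneg_right b1 (sq_nonneg _))
        have g4 : 2 * |fr (S.g i) (S.g i) u 0 0| * S.K ^ (-1 + 1 / 100 : ℝ) ≤
            4 * C' ^ 2 * T / S.K ^ 2 * (4 * R ^ 2 * S.K ^ (3 / 4 * θ)) := by
          refine (mul_le_mul_of_nonneg_left hz (by positivity)).trans (g2.trans ?_)
          refine mul_le_mul_of_nonneg_left ?_ hρ0
          exact hfq.trans (mul_le_mul_of_nonneg_left hbig.le (by positivity))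
        have g5 : S.K ^ (-1 + 1 / 100 : ℝ) * S.K ^ (1 - 1 / 100 : ℝ) = 1 := by
          rw [← Real.rpow_add hK0]
          have : (-1 + 1 / 100 + (1 - 1 / 100) : ℝ) = 0 := by norm_num
          rw [this, Real.rpow_zero]
        have g6 : S.K ^ (-2 : ℝ) * S.K ^ (3 / 4 * θ) * S.K ^ (1 - 1 / 100 : ℝ) = S.K ^ e := by
          rw [← Real.rpow_add hK0, ← Real.rpow_add hK0]
          congr 1; rw [he]; ring
        calc |fr (S.g i) (S.g i) u 0 0| = |fr (S.g i) (S.g i) u 0 0| *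
              (S.K ^ (-1 + 1 / 100 : ℝ) * S.K ^ (1 - 1 / 100 : ℝ)) := by rw [g5, mul_one]
          _ = 2 * |fr (S.g i) (S.g i) u 0 0| * S.K ^ (-1 + 1 / 100 : ℝ) *
                (S.K ^ (1 - 1 / 100 : ℝ) / 2) := by ring
          _ ≤ 4 * C' ^ 2 * T / S.K ^ 2 * (4 * R ^ 2 * S.K ^ (3 / 4 * θ)) *
                (S.K ^ (1 - 1 / 100 : ℝ) / 2) := mul_le_mul_of_nonneg_right g4 (by positivity)
          _ = 2 * R ^ 2 * (4 * C' ^ 2 * T) *
                (S.K ^ (-2 : ℝ) * S.K ^ (3 / 4 * θ) * S.K ^ (1 - 1 / 100 : ℝ)) := by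
              rw [hKi]; ring
          _ = τ := by rw [g6, hτ]
      rcases card_borel S hR hSR hU hi hcop hρ0 hρτ W (fun u hu => ⟨(hW u hu).2.1, hplane u hu,
        hF u hu, (hW u hu).2.2.2.1, (hW u hu).2.2.2.2.1⟩) with h | h
      · exact hline h
      · have hq1 : (1 : ℝ) ≤ (q' 0 : ℝ) ^ 2 + (q' 1 : ℝ) ^ 2 := by
          have : (0 : ℤ) < (q' 0) ^ 2 + (q' 1) ^ 2 := by
            rcases eq_or_ne (q' 0) 0 with h0 | h0
            · rcases eq_or_ne (q' 1) 0 with h1 | h1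
              · exact absurd (by funext j; fin_cases j; exacts [h0, h1]) hq'
              · have := pow_pos (abs_pos.2 h1) 2
                rw [sq_abs] at this
                nlinarith [sq_nonneg (q' 0)]
            · have := pow_pos (abs_pos.2 h0) 2
              rw [sq_abs] at this
              nlinarith [sq_nonneg (q' 1)]
          have h2 : (1 : ℤ) ≤ (q' 0) ^ 2 + (q' 1) ^ 2 := this
          exact_mod_cast h2
        have g1 : (W.card : ℝ) ≤ 972 * R ^ 2 * (τ * (4 * C' ^ 2 * T / S.K ^ 2)) := by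
          refine le_trans ?_ h
          have := mul_le_mul_of_nonneg_left hq1 (Nat.cast_nonneg (α := ℝ) W.card)
          linarith
        have g2 : 972 * R ^ 2 * (τ * (4 * C' ^ 2 * T / S.K ^ 2)) = c4 * T ^ 2 * S.K ^ (e - 2) := by
          have : S.K ^ (e - 2) = S.K ^ e * S.K ^ (-2 : ℝ) := by
            rw [← Real.rpow_add hK0]; congr 1
          rw [hKi, hτ, this, hc4]; ring
        calc (W.card : ℝ) ≤ c4 * T ^ 2 * S.K ^ (e - 2) := by rw [← g2]; exact g1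
          _ ≤ c4 * (L * T ^ (3 / 2 : ℝ)) * S.K ^ (e - 2) := by
              refine mul_le_mul_of_nonneg_right ?_ (by positivity)
              exact mul_le_mul_of_nonneg_left hT2 hc40
          _ = c4 * (L * S.K ^ (e - 2)) * T ^ (3 / 2 : ℝ) := by ring
          _ ≤ M * T ^ (3 / 2 : ℝ) := by
              refine mul_le_mul_of_nonneg_right ?_ hTh
              rw [hM]; linarith

end HSL
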