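import Pool.Agent.Lib.HS.L.Spec

/-!
PROJECT H*, PLAN L, part HS/L: the four counts S_CLN, S_CLL, S_CLB, S_CLA (sub-architect helper26).
Every `S_...` is a statement with a COMPLETE proof in its docstring.

Notation: `C' = (2C)^k`, `w = 1/K^2`, `a = g i`, pairs `t = ((z,h1),(z,h2))` of `prs H` with levels
`m1`, `m2 <= L`, loop `s = adj(h2) h1`, `det s = (m1 m2)^2`; `s = c s0`, `s0` primitive,
`det s0 = n0^2`, `|c| n0 = m1 m2`; traceless part `tf s0 = 2 s0 - tr s0`.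
-/

set_option autoImplicit false

namespace HSL

open Matrix

/-- `r = (s0, n0)`: `s0` is the primitive part of a loop of `A`, `det s0 = n0^2` -/
def PP {ι : Type} (A : Finset ((ι × MZ) × (ι × MZ))) (L : ℝ) (r : MZ × ℕ) : Prop :=
  Prim r.1 ∧ 0 < r.2 ∧ r.1.det = (r.2 : ℤ) ^ 2 ∧ (r.2 : ℝ) ≤ L ^ 2 ∧
    ∃ t ∈ A, ∃ c : ℤ, c ≠ 0 ∧ lp t = c • r.1

/-- M2 (helper44). Multiplicity. PROOF. (M1) For `s <> 0` with all integers dividing `s` at most `g`: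
pairwise not SL2(Z)-equivalent right divisors `h` of `s` with `det h = M > 0` number at most
`tau(M) g`: Hermite representative `(al, be; 0, de)`, `al de = M`, `0 <= be < de`; `s adj(h) = 0` mod `M`
gives `al | s_i1`, `be t_i = s_i2` mod `de` (`t_i = s_i1/al`); the solutions `be` are congruent mod
`de/e`, `e = gcd(t1,t2,de)` divides the content of `s`: `<= e <= g`. (M2) the pairs with `lp t = s`:
`h1` is a right divisor of `s` of determinant `m1^2`, `m1 | sqrt(det s)`: `<= K^ε'` values of `m1`;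
class of `h1`: `<= K^ε' g`; for a class `γ h1` the number of `(z, γ h1)` is `<= B` (Ovl, Ret);
`h2` is determined by `s` and `h1`. -/
def S_M2 : Prop :=
  ∀ (k : ℕ) (C ε : ℝ), 1 ≤ k → 1 ≤ C → 0 < ε → ∃ K0 : ℝ, ∀ (S : Sys) (B L : ℝ),
    S.C = C → K0 ≤ S.K → 1 ≤ B → S.Unim → S.Ovl ((2 * C) ^ k) B → 1 ≤ L → L ≤ S.K ^ 3 →
    ∀ i ∈ S.V, ∀ H : Finset (S.ι × MZ), Hk S k L i H →
    ∀ A : Finset ((S.ι × MZ) × (S.ι × MZ)), A ⊆ prs H → ∀ (s : MZ) (g : ℕ),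
      (∀ c : ℤ, (∀ a b, c ∣ s a b) → |c| ≤ (g : ℤ)) → (∀ t ∈ A, lp t = s) →
      (A.card : ℝ) ≤ B * S.K ^ ε * g

/-- CL (helper44). COUNT LEMMA. PROOF. (M3) `lp t = c s0`, `|c| n0 = m1 m2`; for a prime `p | c` not
dividing `n0`: `h1 = (c/det h2) h2 s0`, `h1` primitive and `h2 s0` primitive at `p`, so
`v_p(c) = 2 v_p(m2)`. So `|c| = ca cb^2`, `ca | n0^(4k)`, `cb^2 <= L^2/(n0 ca)`. By S_M2 (`g = |c|`) the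
number of pairs with loop `c s0` is `<= B K^ε' |c|`; sum over `cb <= (L^2/(n0 ca))^(1/2)`:
`ca (L^2/(n0 ca))^(3/2) <= (L^2/n0)^(3/2)`; number of `ca` (divisors of `n0^(4k)`) `<= K^ε'`; two signs
of `c`. `S0` = the set of the primitive parts. -/
def S_CL : Prop :=
  ∀ (k : ℕ) (C ε : ℝ), 1 ≤ k → 1 ≤ C → 0 < ε → ∃ K0 : ℝ, ∀ (S : Sys) (B L : ℝ),
    S.C = C → K0 ≤ S.K → 1 ≤ B → S.Unim → S.Ovl ((2 * C) ^ k) B → 1 ≤ L → L ≤ S.K ^ 3 →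
    ∀ i ∈ S.V, ∀ H : Finset (S.ι × MZ), Hk S k L i H →
    ∀ A : Finset ((S.ι × MZ) × (S.ι × MZ)), A ⊆ prs H →
      ∃ S0 : Finset (MZ × ℕ), (∀ r ∈ S0, PP A L r) ∧
        (A.card : ℝ) ≤ B * S.K ^ ε * ∑ r ∈ S0, (L ^ 2 / (r.2 : ℝ)) ^ (3 / 2 : ℝ)

/-- CLD (helper26). Dyadic form. PROOF. Split `S0` of S_CL by `j = log2 n0 <= log2 L^2 <= 6 log2 K`;
on the part `2^j <= n0 < 2^(j+1)` use the hypothesis with `T = min(2^(j+1), L^2)`: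
`(L^2/2^j)^(3/2) M (2^(j+1))^(3/2) = 2^(3/2) L^3 M`. Number of `j`: `<= K^ε'`. -/
def S_CLD : Prop :=
  ∀ (k : ℕ) (C ε : ℝ), 1 ≤ k → 1 ≤ C → 0 < ε → ∃ K0 : ℝ, ∀ (S : Sys) (B L M : ℝ),
    S.C = C → K0 ≤ S.K → 1 ≤ B → S.Unim → S.Ovl ((2 * C) ^ k) B → 1 ≤ L → L ≤ S.K ^ 3 → 0 ≤ M →
    ∀ i ∈ S.V, ∀ H : Finset (S.ι × MZ), Hk S k L i H →
    ∀ A : Finset ((S.ι × MZ) × (S.ι × MZ)), A ⊆ prs H →
      (∀ (T : ℝ) (S0 : Finset (MZ × ℕ)), 1 ≤ T → T ≤ L ^ 2 →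
        (∀ r ∈ S0, PP A L r ∧ (r.2 : ℝ) ≤ T) → (S0.card : ℝ) ≤ M * T ^ (3 / 2 : ℝ)) →
      (A.card : ℝ) ≤ B * S.K ^ ε * L ^ 3 * M

/-- Frm (helper26). Frame of the primitive part. PROOF. S_Fr (6), (5): `Ret C' w b a m2 (adj h2)`,
`Ret (2 C' C') w a a (m2 m1) (adj h2 * h1)`; `fr a a (c s0) = c fr a a s0`, `|c| n0 = m1 m2`. -/
def S_Frm : Prop :=
  ∀ (C' w : ℝ) (a b : MR) (m1 m2 n0 : ℕ) (h1 h2 s0 : MZ) (c : ℤ), a.det = 1 → b.det = 1 → 0 ≤ w →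
    w ≤ 1 → 1 ≤ C' → Ret C' w a b m1 h1 → Ret C' w a b m2 h2 → c ≠ 0 → 0 < n0 →
    s0.det = (n0 : ℤ) ^ 2 → h2.adjugate * h1 = c • s0 → Near (2 * C' ^ 2) w n0 (fr a a s0)

/-- Fbr (helper26). Given traceless part. PROOF. `(tr s0)^2 - (2 n0)^2 = - det (tf s0) <> 0`:
`pell_card` with `d = 1`; `s0` is determined by `tf s0` and `tr s0`. -/
def S_Fbr : Prop :=
  ∀ ε : ℝ, 0 < ε → ∃ C : ℝ, 1 ≤ C ∧ ∀ Z : ℝ, 1 ≤ Z → ∀ v : MZ, v.det ≠ 0 → |((v.det : ℤ) : ℝ)| ≤ Z →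
    ∀ S0 : Finset (MZ × ℕ), (∀ r ∈ S0, tf r.1 = v ∧ r.1.det = (r.2 : ℤ) ^ 2 ∧
      |((r.1.trace : ℤ) : ℝ)| ≤ Z ∧ 2 * (r.2 : ℝ) ≤ Z) → (S0.card : ℝ) ≤ C * Z ^ ε

/-- Tub (helper26). Lattice points of the tube for a good cell. PROOF. `lat_tube` (HS/L/Lat.lean) for the
coordinates `v 0 0, v 0 1, v 1 0`; the alternatives `card <= 1` and `card <= 2 j + 1` with a non-zero
vector in the `1/j` of the tube: GoodT says `T / j > K^(1-1/200)`. Every non-zero vector of the tube forces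
`T > K^(1-1/200)` for the same reason. (2) collinear sets: `card1` of Lat.lean. -/
def S_Tub : Prop :=
  ∀ R : ℝ, 1 ≤ R → ∃ C1 : ℝ, 1 ≤ C1 ∧ ∀ (S : Sys), S.R = R → 1 ≤ S.K → S.Unim → ∀ i ∈ S.V,
    S.GoodT i → ∀ T : ℝ, 0 ≤ T → ∀ W : Finset MZ,
    (∀ v ∈ W, v ≠ 0 ∧ v.trace = 0 ∧ |fr (S.g i) (S.g i) v 0 0| ≤ T ∧
      |fr (S.g i) (S.g i) v 0 1| ≤ T / S.K ^ 2 ∧ |fr (S.g i) (S.g i) v 1 0| ≤ T / S.K ^ 2) →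
    (W.Nonempty → S.K ^ (1 - 1 / 200 : ℝ) ≤ T) ∧
    (W.card : ℝ) ≤ C1 * (T ^ 3 / S.K ^ 4 + T ^ 2 / S.K ^ 2 + T / S.K ^ (1 - 1 / 200 : ℝ)) ∧
    ((∀ v ∈ W, ∀ v' ∈ W, brk v v' = 0) → (W.card : ℝ) ≤ C1 * (T / S.K ^ (1 - 1 / 200 : ℝ)))

/-- CNil (helper99). Nilpotent loops at level `K`. PROOF. `s = lp t`, `dsc s = 0`, `tf s <> 0`. Frame of `s`:
`|entries 01, 10| <= 2 C'^2 w m1 m2 <= C1` (`m1 m2 <= 16^k K^2`), `tf s` has frame `(x, 2β; 2γ, -x)` with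
`x^2 + 4 β γ = dsc s = 0`, so `|x| <= 2 C1`, so the entries of `tf s` are `<= 16 R^2 C1`: at most `C2` values
of `tf s`; an integer dividing all entries of `s` divides `tf s <> 0`, so it is `<= 16 R^2 C1`;
`tr s = ± 2 m1 m2`, `m1 m2 <= 16^k K^2`: at most `C3 K^2` values of `s`. S_M2 for each `s`. -/
def S_CNil : Prop :=
  ∀ (k : ℕ) (C R ε : ℝ), 1 ≤ k → 1 ≤ C → 1 ≤ R → 0 < ε → ∃ K0 : ℝ, ∀ (S : Sys) (B : ℝ),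
    S.C = C → S.R = R → K0 ≤ S.K → 1 ≤ B → S.Unim → S.Ovl ((2 * C) ^ k) B →
    ∀ i ∈ S.V, ∀ H : Finset (S.ι × MZ), Hk S k (4 ^ k * S.K) i H →
    ∀ A : Finset ((S.ι × MZ) × (S.ι × MZ)), A ⊆ prs H →
      (∀ t ∈ A, dsc (lp t) = 0 ∧ tf (lp t) ≠ 0) → (A.card : ℝ) ≤ B * S.K ^ (2 + ε)

/-- CLAm (helper26). The main part of CLA. PROOF. S_CLD with `L = 4^k K`. For `T <= L^2` and `S0` as there:
by S_Frm `|tf s0|` lies in the tube `T1 = 4 C'^2 T`; `W = image of S0 under tf`; `det (tf s0) <> 0`.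
S_Tub: `card W <= C1 (T1^3/K^4 + T1^2/K^2 + T1/K^(1-1/200))`, `T1 >= K^(1-1/200)` if `W` is not empty.
S_Fbr: `card S0 <= K^ε' card W`. So `M = C'' K^ε' (L^3/K^4 + L/K^2 + K^(-(3/2)(1-1/200)))` and
`L^3 M <= C'' K^ε' (K^2 + K^2 + K^(3/2+3/400))`. -/
def S_CLAm : Prop :=
  ∀ (k : ℕ) (C R ε : ℝ), 1 ≤ k → 1 ≤ C → 1 ≤ R → 0 < ε → ∃ K0 : ℝ, ∀ (S : Sys) (B : ℝ),
    S.C = C → S.R = R → K0 ≤ S.K → 1 ≤ B → S.Unim → S.Ovl ((2 * C) ^ k) B →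
    ∀ i ∈ S.V, S.GoodT i → ∀ H : Finset (S.ι × MZ), Hk S k (4 ^ k * S.K) i H →
    ∀ A : Finset ((S.ι × MZ) × (S.ι × MZ)), A ⊆ prs H →
      (∀ t ∈ A, dsc (lp t) ≠ 0) → (A.card : ℝ) ≤ B * S.K ^ (2 + ε)

/-- Cor (helper26). The corollary of CLD, Frm, Fbr: if for every `T <= L^2` every finite set `W` of traceless
parts `tf s0` of primitive parts `s0`, `n0 <= T`, of loops of `A` has at most `M T^(3/2)` elements, and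
`dsc (lp t) <> 0` on `A`, then `card A <= B K^ε L^3 M`. PROOF. S_Fbr with `Z = K^20`: `card S0 <= K^ε'` times
`card (image of S0 under tf)`, bounds by S_Frm: `|tr s0| <= 4 C'^2 n0`, entries of `tf s0` at most
`16 R^2 C'^2 n0`. -/
def S_Cor : Prop :=
  ∀ (k : ℕ) (C R ε : ℝ), 1 ≤ k → 1 ≤ C → 1 ≤ R → 0 < ε → ∃ K0 : ℝ, ∀ (S : Sys) (B L M : ℝ),
    S.C = C → S.R = R → K0 ≤ S.K → 1 ≤ B → S.Unim → S.Ovl ((2 * C) ^ k) B → 1 ≤ L →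
    L ≤ S.K ^ 3 → 0 ≤ M → ∀ i ∈ S.V, ∀ H : Finset (S.ι × MZ), Hk S k L i H →
    ∀ A : Finset ((S.ι × MZ) × (S.ι × MZ)), A ⊆ prs H → (∀ t ∈ A, dsc (lp t) ≠ 0) →
      (∀ (T : ℝ) (W : Finset MZ), 1 ≤ T → T ≤ L ^ 2 →
        (∀ v ∈ W, v.det ≠ 0 ∧ v.trace = 0 ∧
          |fr (S.g i) (S.g i) v 0 0| ≤ 4 * ((2 * C) ^ k) ^ 2 * T ∧
          |fr (S.g i) (S.g i) v 0 1| ≤ 4 * ((2 * C) ^ k) ^ 2 * T / S.K ^ 2 ∧
          |fr (S.g i) (S.g i) v 1 0| ≤ 4 * ((2 * C) ^ k) ^ 2 * T / S.K ^ 2 ∧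
          ∃ t ∈ A, ∃ (c : ℤ) (s0 : MZ), c ≠ 0 ∧ lp t = c • s0 ∧ tf s0 = v) →
        (W.card : ℝ) ≤ M * T ^ (3 / 2 : ℝ)) →
      (A.card : ℝ) ≤ B * S.K ^ ε * L ^ 3 * M

end HSL
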