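import Pool.Agent.Lib.HS.L.Spec

/-!
# PROJECT H*, PLAN L: the algebra lemma
-/

set_option autoImplicit false

namespace HSL

open Matrix

namespace Alg_aux

/-- left translation of polynomials -/
noncomputable def lt (h : MR) :
    MvPolynomial (Fin 2 × Fin 2) ℝ →ₐ[ℝ] MvPolynomial (Fin 2 × Fin 2) ℝ :=
  MvPolynomial.aeval (fun ij : Fin 2 × Fin 2 =>
    ∑ k : Fin 2, MvPolynomial.C (h ij.1 k) * MvPolynomial.X (k, ij.2))

theorem evR_lt (M h : MR) (f : MvPolynomial (Fin 2 × Fin 2) ℝ) :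
    evR M (lt h f) = evR (h * M) f := by
  unfold evR lt
  rw [MvPolynomial.aeval_def, MvPolynomial.eval_eval₂]
  have h1 : (MvPolynomial.eval (fun ij : Fin 2 × Fin 2 => M ij.1 ij.2)).comp
      (algebraMap ℝ (MvPolynomial (Fin 2 × Fin 2) ℝ)) = RingHom.id ℝ := by
    ext x
    simp
  rw [h1, MvPolynomial.eval₂_id]
  congr 2
  funext ij
  simp [Matrix.mul_apply]

theorem toR_trace (s : MZ) : (toR s).trace = ((s.trace : ℤ) : ℝ) := by
  simp [toR, Matrix.trace, Fin.sum_univ_two]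

theorem toR_sub (a b : MZ) : toR (a - b) = toR a - toR b := by
  ext i j
  simp [toR]

theorem funR (f : MvPolynomial (Fin 2 × Fin 2) ℝ) (h : ∀ M : MR, evR M f = 0) : f = 0 := by
  apply MvPolynomial.funext
  intro x
  rw [map_zero]
  exact h (Matrix.of (fun i j => x (i, j)))

end Alg_aux

open Alg_aux

theorem tAlg : S_Sub → S_Diag → S_Box → S_Alg := by
  rintro ⟨h1, h2, -, -, -, -, h7, h8, -⟩ hD hB
  intro e I s1 s2 r0 hI d1 d2 c1 c2 hbr st1 st2 hr0 hv
  have pd1 : 0 < (toR s1).det := by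
    rw [h8]
    exact_mod_cast d1
  have pd2 : 0 < (toR s2).det := by
    rw [h8]
    exact_mod_cast d2
  have pc1 : 0 < (toR s1).trace ^ 2 - 4 * (toR s1).det := by
    rw [h8, toR_trace]
    unfold dsc at c1
    exact_mod_cast c1
  have pc2 : 0 < (toR s2).trace ^ 2 - 4 * (toR s2).det := by
    rw [h8, toR_trace]
    unfold dsc at c2
    exact_mod_cast c2
  have pbr : (toR s1 * toR s2 - toR s2 * toR s1).det ≠ 0 := by
    rw [← h7, ← h7, ← toR_sub, h8]
    exact_mod_cast hbr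
  have pr0 : (toR r0).det ≠ 0 := by
    rw [h8]
    exact_mod_cast hr0
  rw [Submodule.eq_bot_iff]
  intro f hf
  have key : lt (toR r0) f = 0 := by
    apply hB (lt (toR r0) f) (toR s1) (toR s2) pc1 pbr
    intro a1 b1 a2 b2 a3 b3
    rw [evR_lt]
    have m3 := hD e I (toR s1) hI pd1 pc1 st1 a3 b3 f hf
    have m2 := hD e I (toR s2) hI pd2 pc2 st2 a2 b2 _ m3
    have m1 := hD e I (toR s1) hI pd1 pc1 st1 a1 b1 _ m2
    have m0 := hv _ m1
    rw [h2, h1, h1, h1] at m0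
    rw [← Matrix.mul_assoc, ← Matrix.mul_assoc]
    exact m0
  apply funR
  intro M
  have e1 : toR r0 * ((toR r0)⁻¹ * M) = M := by
    rw [← Matrix.mul_assoc, Matrix.mul_nonsing_inv _ (isUnit_iff_ne_zero.mpr pr0), Matrix.one_mul]
  have e2 := evR_lt ((toR r0)⁻¹ * M) (toR r0) f
  rw [key, e1] at e2
  rw [← e2]
  exact map_zero _

end HSL
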