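import Pool.Agent.Lib.HS.L.Spec

/-!
PROJECT H*, PLAN L (MP_a54f13_nt), part HS/L, module Box: a polynomial vanishing on all products
`(a1 + b1 s1)(a2 + b2 s2)(a3 + b3 s1)` is zero.
-/

set_option autoImplicit false

namespace HSL

open Matrix

namespace Box_aux

/-- diagonalisation of a real matrix with positive discriminant -/
theorem diag_exists (s : MR) (h : 0 < s.trace ^ 2 - 4 * s.det) :
    ∃ (g g' : MR) (lam mu : ℝ), g * g' = 1 ∧ g' * g = 1 ∧ lam ≠ mu ∧
      s = g * !![lam, 0; 0, mu] * g' := by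
  have htr : s.trace = s 0 0 + s 1 1 := Matrix.trace_fin_two s
  have hdet : s.det = s 0 0 * s 1 1 - s 0 1 * s 1 0 := Matrix.det_fin_two s
  obtain ⟨δ, hδ0, hδ2⟩ : ∃ δ : ℝ, 0 < δ ∧ δ ^ 2 = (s 0 0 - s 1 1) ^ 2 + 4 * (s 0 1 * s 1 0) := by
    refine ⟨Real.sqrt (s.trace ^ 2 - 4 * s.det), Real.sqrt_pos.2 h, ?_⟩
    rw [Real.sq_sqrt h.le, htr, hdet]
    ring
  have key : ∀ (g : MR) (lam mu : ℝ), g.det ≠ 0 → lam ≠ mu → s * g = g * !![lam, 0; 0, mu] →
      ∃ (g g' : MR) (lam mu : ℝ), g * g' = 1 ∧ g' * g = 1 ∧ lam ≠ mu ∧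
        s = g * !![lam, 0; 0, mu] * g' := by
    intro g lam mu hg hlm hs
    have hu : IsUnit g.det := isUnit_iff_ne_zero.2 hg
    refine ⟨g, g⁻¹, lam, mu, Matrix.mul_nonsing_inv g hu, Matrix.nonsing_inv_mul g hu, hlm, ?_⟩
    rw [← hs, Matrix.mul_assoc, Matrix.mul_nonsing_inv g hu, mul_one]
  have hne : (s 0 0 + s 1 1 + δ) / 2 ≠ (s 0 0 + s 1 1 - δ) / 2 := by
    intro h'
    linarith
  by_cases h01 : s 0 1 = 0
  · by_cases h10 : s 1 0 = 0
    · refine key 1 (s 0 0) (s 1 1) (by simp) ?_ ?_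
      · intro h'
        rw [h01, h10, h'] at hδ2
        have : 0 < δ ^ 2 := by positivity
        nlinarith
      · rw [mul_one, one_mul]
        ext i j
        fin_cases i <;> fin_cases j <;> simp [h01, h10]
    · refine key !![(s 0 0 + s 1 1 + δ) / 2 - s 1 1, (s 0 0 + s 1 1 - δ) / 2 - s 1 1;
        s 1 0, s 1 0] _ _ ?_ hne ?_
      · rw [Matrix.det_fin_two_of]
        have e : ((s 0 0 + s 1 1 + δ) / 2 - s 1 1) * s 1 0 -
            ((s 0 0 + s 1 1 - δ) / 2 - s 1 1) * s 1 0 = δ * s 1 0 := by ring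
        rw [e]
        exact mul_ne_zero hδ0.ne' h10
      · ext i j
        fin_cases i <;> fin_cases j <;> simp [Matrix.mul_apply, Fin.sum_univ_two] <;> nlinarith
  · refine key !![s 0 1, s 0 1; (s 0 0 + s 1 1 + δ) / 2 - s 0 0,
      (s 0 0 + s 1 1 - δ) / 2 - s 0 0] _ _ ?_ hne ?_
    · rw [Matrix.det_fin_two_of]
      have e : s 0 1 * ((s 0 0 + s 1 1 - δ) / 2 - s 0 0) -
          s 0 1 * ((s 0 0 + s 1 1 + δ) / 2 - s 0 0) = -(s 0 1 * δ) := by ring
      rw [e]
      exact neg_ne_zero.2 (mul_ne_zero h01 hδ0.ne')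
    · ext i j
      fin_cases i <;> fin_cases j <;> simp [Matrix.mul_apply, Fin.sum_univ_two] <;> nlinarith

/-- two sided translation of a polynomial -/
noncomputable def cj (g g' : MR) (f : MvPolynomial (Fin 2 × Fin 2) ℝ) :
    MvPolynomial (Fin 2 × Fin 2) ℝ :=
  MvPolynomial.aeval (fun ij : Fin 2 × Fin 2 =>
    ∑ l : Fin 2, (∑ k : Fin 2, MvPolynomial.C (g ij.1 k) * MvPolynomial.X (k, l)) *
      MvPolynomial.C (g' l ij.2)) f

/-- evaluation after substitution -/
theorem eval_aeval {σ τ : Type} (x : τ → ℝ) (q : σ → MvPolynomial τ ℝ) (f : MvPolynomial σ ℝ) :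
    MvPolynomial.eval x (MvPolynomial.aeval q f) =
      MvPolynomial.eval (fun i => MvPolynomial.eval x (q i)) f := by
  have h : (MvPolynomial.eval x).comp (MvPolynomial.aeval q : MvPolynomial σ ℝ →ₐ[ℝ] MvPolynomial τ ℝ).toRingHom =
      MvPolynomial.eval (fun i => MvPolynomial.eval x (q i)) := by
    apply MvPolynomial.ringHom_ext
    · intro r
      simp
    · intro i
      simp
  exact congrArg (fun φ : MvPolynomial σ ℝ →+* ℝ => φ f) h

theorem ev_cj (g g' M : MR) (f : MvPolynomial (Fin 2 × Fin 2) ℝ) :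
    evR M (cj g g' f) = evR (g * M * g') f := by
  unfold evR cj
  rw [eval_aeval]
  refine congrArg (fun v : Fin 2 × Fin 2 → ℝ => MvPolynomial.eval v f) ?_
  funext ij
  simp [Matrix.mul_apply]

/-- the values of the two diagonal parameters -/
theorem diag_comb {s g g' : MR} {lam mu : ℝ} (h1 : g * g' = 1) (hlm : lam ≠ mu)
    (hs : s = g * !![lam, 0; 0, mu] * g') (d1 d2 : ℝ) :
    ∃ a b : ℝ, a • (1 : MR) + b • s = g * !![d1, 0; 0, d2] * g' := by
  have hd : lam - mu ≠ 0 := sub_ne_zero.2 hlm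
  refine ⟨d1 - (d1 - d2) / (lam - mu) * lam, (d1 - d2) / (lam - mu), ?_⟩
  have e : (!![d1, 0; 0, d2] : MR) = (d1 - (d1 - d2) / (lam - mu) * lam) • (1 : MR) +
      ((d1 - d2) / (lam - mu)) • !![lam, 0; 0, mu] := by
    ext i j
    fin_cases i <;> fin_cases j
    · simp
    · simp
    · simp
    · simp
      field_simp
      ring
  rw [e, Matrix.mul_add, Matrix.add_mul, Matrix.mul_smul, Matrix.mul_smul, Matrix.smul_mul,
    Matrix.smul_mul, mul_one, h1, ← hs]

/-- a root of `(t + a)(t + d) = kap` for `kap > 0` -/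
theorem root_exists (a d kap : ℝ) (h : 0 < kap) : ∃ t : ℝ, (t + a) * (t + d) = kap := by
  obtain ⟨r, hr⟩ : ∃ r : ℝ, r ^ 2 = (a - d) ^ 2 + 4 * kap :=
    ⟨Real.sqrt ((a - d) ^ 2 + 4 * kap), Real.sq_sqrt (by positivity)⟩
  refine ⟨(-(a + d) + r) / 2, ?_⟩
  nlinarith

/-- the factorisation -/
theorem factor {N : MR} (hbc : N 0 1 * N 1 0 ≠ 0) {x y z u : ℝ} (hx : 0 < N 0 1 * N 1 0 * x)
    (hy : 0 < y) (hz : 0 < z) (hu : 0 < u) :
    ∃ d2 t e1 e2 : ℝ, (!![1, 0; 0, d2] : MR) * (t • (1 : MR) + N) * !![e1, 0; 0, e2] = !![x, y; z, u] := by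
  obtain ⟨a, b, c, d, rfl⟩ : ∃ a b c d : ℝ, N = !![a, b; c, d] := ⟨_, _, _, _, Matrix.eta_fin_two N⟩
  have hbc' : b * c ≠ 0 := by simpa using hbc
  have hx' : 0 < b * c * x := by simpa using hx
  have hb : b ≠ 0 := left_ne_zero_of_mul hbc'
  have hc : c ≠ 0 := right_ne_zero_of_mul hbc'
  have hx0 : x ≠ 0 := by
    rintro rfl
    simp at hx'
  have hkap : 0 < b * c * x * u / (y * z) := by positivity
  obtain ⟨t, ht⟩ := root_exists a d _ hkap
  have hta : t + a ≠ 0 := by
    intro h0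
    rw [h0, zero_mul] at ht
    exact hkap.ne ht
  refine ⟨z * (t + a) / (c * x), t, x / (t + a), y / b, ?_⟩
  have hd : (t + a) * (t + d) * (y * z) = b * c * x * u := by
    rw [ht]
    field_simp
  have e0 : t • (1 : MR) + !![a, b; c, d] = !![t + a, b; c, t + d] := by
    ext i j
    fin_cases i <;> fin_cases j <;> simp
  rw [e0]
  have g00 : (t + a) * (x / (t + a)) = x := by field_simp
  have g01 : b * (y / b) = y := by field_simp
  have g10 : z * (t + a) / (c * x) * c * (x / (t + a)) = z := by field_simp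
  have g11 : z * (t + a) / (c * x) * (t + d) * (y / b) = u := by
    rw [div_mul_eq_mul_div, div_mul_div_comm, div_eq_iff (by positivity)]
    linarith
  ext i j
  fin_cases i <;> fin_cases j
  · simpa [Matrix.mul_apply, Fin.sum_univ_two] using g00
  · simpa [Matrix.mul_apply, Fin.sum_univ_two] using g01
  · simpa [Matrix.mul_apply, Fin.sum_univ_two] using g10
  · simpa [Matrix.mul_apply, Fin.sum_univ_two] using g11

end Box_aux

/-- **Box**. A polynomial vanishing on all products `(a1+b1 s1)(a2+b2 s2)(a3+b3 s1)` is zero. -/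
theorem tBox : S_Box := by
  intro f s1 s2 hdisc hbr hf
  obtain ⟨g, g', lam, mu, h1, h2, hlm, hs⟩ := Box_aux.diag_exists s1 hdisc
  obtain ⟨N, hN⟩ : ∃ N : MR, N = g' * s2 * g := ⟨_, rfl⟩
  have hs2 : s2 = g * N * g' := by
    rw [hN]
    calc s2 = 1 * s2 * 1 := by rw [one_mul, mul_one]
      _ = (g * g') * s2 * (g * g') := by rw [h1]
      _ = _ := by simp only [Matrix.mul_assoc]
  have hbc : N 0 1 * N 1 0 ≠ 0 := by
    intro h0
    apply hbr
    have e : s1 * s2 - s2 * s1 = g * (!![lam, 0; 0, mu] * N - N * !![lam, 0; 0, mu]) * g' := by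
      rw [Matrix.mul_sub, Matrix.sub_mul]
      have e1 : s1 * s2 = g * (!![lam, 0; 0, mu] * N) * g' := by
        rw [hs, hs2]
        calc g * !![lam, 0; 0, mu] * g' * (g * N * g') = g * !![lam, 0; 0, mu] * (g' * g) * N * g' := by
              simp only [Matrix.mul_assoc]
          _ = _ := by rw [h2, mul_one]; simp only [Matrix.mul_assoc]
      have e2 : s2 * s1 = g * (N * !![lam, 0; 0, mu]) * g' := by
        rw [hs, hs2]
        calc g * N * g' * (g * !![lam, 0; 0, mu] * g') = g * N * (g' * g) * !![lam, 0; 0, mu] * g' := by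
              simp only [Matrix.mul_assoc]
          _ = _ := by rw [h2, mul_one]; simp only [Matrix.mul_assoc]
      rw [e1, e2]
    rw [e, Matrix.det_mul, Matrix.det_mul]
    have e3 : ((!![lam, 0; 0, mu] : MR) * N - N * !![lam, 0; 0, mu]).det = (lam - mu) ^ 2 * (N 0 1 * N 1 0) := by
      obtain ⟨a, b, c, d, hN'⟩ : ∃ a b c d : ℝ, N = !![a, b; c, d] := ⟨_, _, _, _, Matrix.eta_fin_two N⟩
      rw [hN', Matrix.det_fin_two]
      simp
      ring
    rw [e3, h0]
    ring
  -- the conjugated polynomial vanishes on an open set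
  have hF : Box_aux.cj g g' f = 0 := by
    refine MvPolynomial.funext_set
      (fun ij : Fin 2 × Fin 2 => if ij = (0, 0) then {x : ℝ | 0 < N 0 1 * N 1 0 * x} else Set.Ioi 0) ?_ ?_
    · intro ij
      split_ifs
      · rcases lt_or_gt_of_ne hbc with h | h
        · refine (Set.Iio_infinite (0 : ℝ)).mono ?_
          intro x hx
          exact mul_pos_of_neg_of_neg h hx
        · refine (Set.Ioi_infinite (0 : ℝ)).mono ?_
          intro x hx
          exact mul_pos h hx
      · exact Set.Ioi_infinite 0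
    · intro v hv
      have v00 : 0 < N 0 1 * N 1 0 * v (0, 0) := by
        have := hv (0, 0) (Set.mem_univ _)
        simpa using this
      have v01 : 0 < v (0, 1) := by
        have := hv (0, 1) (Set.mem_univ _)
        simpa using this
      have v10 : 0 < v (1, 0) := by
        have := hv (1, 0) (Set.mem_univ _)
        simpa using this
      have v11 : 0 < v (1, 1) := by
        have := hv (1, 1) (Set.mem_univ _)
        simpa using this
      obtain ⟨d2, t, e1, e2, hM⟩ := Box_aux.factor hbc v00 v01 v10 v11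
      have hv' : v = fun ij : Fin 2 × Fin 2 => (!![v (0, 0), v (0, 1); v (1, 0), v (1, 1)] : MR) ij.1 ij.2 := by
        funext ij
        rcases ij with ⟨i, j⟩
        fin_cases i <;> fin_cases j <;> rfl
      rw [map_zero]
      have h3 : MvPolynomial.eval v (Box_aux.cj g g' f) =
          evR (!![v (0, 0), v (0, 1); v (1, 0), v (1, 1)] : MR) (Box_aux.cj g g' f) := by
        unfold evR
        rw [← hv']
      rw [h3, Box_aux.ev_cj, ← hM]
      obtain ⟨a1, b1, k1⟩ := Box_aux.diag_comb h1 hlm hs 1 d2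
      obtain ⟨a3, b3, k3⟩ := Box_aux.diag_comb h1 hlm hs e1 e2
      have k2 : t • (1 : MR) + (1 : ℝ) • s2 = g * (t • (1 : MR) + N) * g' := by
        rw [Matrix.mul_add, Matrix.add_mul, Matrix.mul_smul, Matrix.smul_mul, mul_one, h1, one_smul, ← hs2]
      have h4 := hf a1 b1 t 1 a3 b3
      rw [k1, k2, k3] at h4
      refine Eq.trans (congrArg (fun M : MR => evR M f) ?_) h4
      symm
      calc g * !![1, 0; 0, d2] * g' * (g * (t • (1 : MR) + N) * g') * (g * !![e1, 0; 0, e2] * g')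
          = g * !![1, 0; 0, d2] * (g' * g) * (t • (1 : MR) + N) * (g' * g) * !![e1, 0; 0, e2] * g' := by
            simp only [Matrix.mul_assoc]
        _ = _ := by rw [h2, mul_one, mul_one]; simp only [Matrix.mul_assoc]
  -- back to `f`
  refine MvPolynomial.funext fun v => ?_
  rw [map_zero]
  obtain ⟨M, hM⟩ : ∃ M : MR, v = fun ij : Fin 2 × Fin 2 => M ij.1 ij.2 := ⟨fun i j => v (i, j), rfl⟩
  have h5 : evR (g' * M * g) (Box_aux.cj g g' f) = 0 := by
    rw [hF]
    unfold evR
    rw [map_zero]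
  rw [Box_aux.ev_cj] at h5
  have h6 : g * (g' * M * g) * g' = M := by
    calc g * (g' * M * g) * g' = (g * g') * M * (g * g') := by simp only [Matrix.mul_assoc]
      _ = M := by rw [h1, one_mul, mul_one]
  rw [h6] at h5
  rw [hM]
  exact h5

end HSL
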