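import Pool.Agent.Lib.HS.L.Spec

/-!
PROJECT H*, PLAN L, part HS/L, module CLZ: no nilpotent loops if the first step is directional.
-/

set_option autoImplicit false

namespace HSL

open Matrix

namespace CLZ_aux

lemma par {q0 q1 x y u v : ℤ} (h : x * q0 + y * q1 = 1) (hp : u * q1 = v * q0) :
    u = (x * u + y * v) * q0 ∧ v = (x * u + y * v) * q1 := by
  constructor
  · linear_combination (-u) * h + y * hp
  · linear_combination (-v) * h - x * hp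

/-- nilpotent integral matrices -/
lemma nil {t β γ : ℤ} (h : t ^ 2 + β * γ = 0) (h0 : ¬ (t = 0 ∧ β = 0 ∧ γ = 0)) :
    ∃ k q0 q1 x y : ℤ, k ≠ 0 ∧ x * q0 + y * q1 = 1 ∧ t = -(k * q0 * q1) ∧ β = k * q0 ^ 2 ∧
      γ = -(k * q1 ^ 2) := by
  by_cases hb : β = 0
  · subst hb
    have ht : t = 0 := by
      have : t ^ 2 = 0 := by linarith
      exact pow_eq_zero_iff (two_ne_zero) |>.1 this
    subst ht
    refine ⟨-γ, 0, 1, 0, 1, ?_, by ring, by ring, by ring, by ring⟩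
    intro hγ
    exact h0 ⟨rfl, rfl, by linarith⟩
  · have hg : 0 < Int.gcd β t := Int.gcd_pos_of_ne_zero_left _ hb
    obtain ⟨b', t', h1, h2, h3⟩ := Int.exists_gcd_one hg
    obtain ⟨x, y, hxy⟩ := Int.isCoprime_iff_gcd_eq_one.2 h1
    have hg0 : ((Int.gcd β t : ℕ) : ℤ) ≠ 0 := by exact_mod_cast hg.ne'
    generalize ((Int.gcd β t : ℕ) : ℤ) = g at h2 h3 hg0
    have e1 : t * (-t') = γ * b' := by
      apply mul_right_cancel₀ hg0
      linear_combination (-1) * h + t * h3 + γ * h2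
    have hxy' : x * b' + (-y) * (-t') = 1 := by linear_combination hxy
    obtain ⟨e2, e3⟩ := par hxy' e1
    obtain ⟨c, hc⟩ : ∃ c, c = x * t + (-y) * γ := ⟨_, rfl⟩
    rw [← hc] at e2 e3
    have e4 : c * b' = g * t' := by linear_combination h3 - e2
    have e5 : (x * g + y * c) * b' = g := by linear_combination y * e4 + g * hxy
    have e6 : (x * g + y * c) * t' = c := by linear_combination (-x) * e4 + c * hxy
    refine ⟨x * g + y * c, b', -t', x, -y, ?_, hxy', ?_, ?_, ?_⟩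
    · intro hk
      rw [hk, zero_mul] at e5
      exact hg0 e5.symm
    · linear_combination e2 - b' * e6
    · linear_combination h2 - b' * e5
    · linear_combination e3 + t' * e6

lemma tri {R ρ u v F G E : ℝ} (hR : 0 ≤ R) (hu : |u| ≤ R) (hv : |v| ≤ R) (hF : |F| ≤ ρ)
    (hG : |G| ≤ ρ) (hE : |E| ≤ 2 * ρ) : |u ^ 2 * F - v ^ 2 * G - u * v * E| ≤ 4 * R ^ 2 * ρ := by
  have h1 : |u ^ 2 * F| ≤ R ^ 2 * ρ := by
    rw [abs_mul, abs_pow]
    exact mul_le_mul (pow_le_pow_left₀ (abs_nonneg _) hu 2) hF (abs_nonneg _) (by positivity)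
  have h2 : |v ^ 2 * G| ≤ R ^ 2 * ρ := by
    rw [abs_mul, abs_pow]
    exact mul_le_mul (pow_le_pow_left₀ (abs_nonneg _) hv 2) hG (abs_nonneg _) (by positivity)
  have h3 : |u * v * E| ≤ R * R * (2 * ρ) := by
    rw [abs_mul, abs_mul]
    exact mul_le_mul (mul_le_mul hu hv (abs_nonneg _) hR) hE (abs_nonneg _) (by positivity)
  have h4 := abs_sub (u ^ 2 * F - v ^ 2 * G) (u * v * E)
  have h5 := abs_sub (u ^ 2 * F) (v ^ 2 * G)
  calc |u ^ 2 * F - v ^ 2 * G - u * v * E| ≤ |u ^ 2 * F| + |v ^ 2 * G| + |u * v * E| := by linarith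
    _ ≤ 4 * R ^ 2 * ρ := by linarith [h1, h2, h3]

lemma prodb {x y A B : ℝ} (hx : |x| ≤ A) (hy : |y| ≤ B) : |x * y| ≤ A * B := by
  rw [abs_mul]
  exact mul_le_mul hx hy (abs_nonneg _) ((abs_nonneg _).trans hx)

/-- the off-diagonal entries of an element with discriminant zero and thin frame -/
lemma offd {R ρ : ℝ} {a : MR} {s : MZ} (hR : 0 ≤ R) (ha : a.det = 1) (haR : ∀ i j, |a i j| ≤ R)
    (hd : dsc s = 0) (h01 : |fr a a s 0 1| ≤ ρ) (h10 : |fr a a s 1 0| ≤ ρ) :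
    |((s 0 1 : ℤ) : ℝ)| ≤ 4 * R ^ 2 * ρ ∧ |((s 1 0 : ℤ) : ℝ)| ≤ 4 * R ^ 2 * ρ := by
  have hρ : 0 ≤ ρ := (abs_nonneg _).trans h01
  rw [Matrix.det_fin_two] at ha
  have hd' : ((s 0 0 : ℝ) + s 1 1) ^ 2 - 4 * ((s 0 0 : ℝ) * s 1 1 - s 0 1 * s 1 0) = 0 := by
    have h1 := hd
    unfold dsc at h1
    rw [Matrix.trace_fin_two, Matrix.det_fin_two] at h1
    exact_mod_cast h1
  have f00 : fr a a s 0 0 = a 1 1 * (s 0 0 * a 0 0 + s 0 1 * a 1 0) -
      a 0 1 * (s 1 0 * a 0 0 + s 1 1 * a 1 0) := by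
    simp only [fr, toR, Matrix.adjugate_fin_two, Matrix.mul_apply, Fin.sum_univ_two,
      Matrix.map_apply, Matrix.of_apply, Matrix.cons_val_zero, Matrix.cons_val_one,
      Matrix.cons_val', Matrix.cons_val_fin_one, Fin.isValue]
    ring
  have f01 : fr a a s 0 1 = a 1 1 * (s 0 0 * a 0 1 + s 0 1 * a 1 1) -
      a 0 1 * (s 1 0 * a 0 1 + s 1 1 * a 1 1) := by
    simp only [fr, toR, Matrix.adjugate_fin_two, Matrix.mul_apply, Fin.sum_univ_two,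
      Matrix.map_apply, Matrix.of_apply, Matrix.cons_val_zero, Matrix.cons_val_one,
      Matrix.cons_val', Matrix.cons_val_fin_one, Fin.isValue]
    ring
  have f10 : fr a a s 1 0 = -a 1 0 * (s 0 0 * a 0 0 + s 0 1 * a 1 0) +
      a 0 0 * (s 1 0 * a 0 0 + s 1 1 * a 1 0) := by
    simp only [fr, toR, Matrix.adjugate_fin_two, Matrix.mul_apply, Fin.sum_univ_two,
      Matrix.map_apply, Matrix.of_apply, Matrix.cons_val_zero, Matrix.cons_val_one,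
      Matrix.cons_val', Matrix.cons_val_fin_one, Fin.isValue]
    ring
  have f11 : fr a a s 1 1 = -a 1 0 * (s 0 0 * a 0 1 + s 0 1 * a 1 1) +
      a 0 0 * (s 1 0 * a 0 1 + s 1 1 * a 1 1) := by
    simp only [fr, toR, Matrix.adjugate_fin_two, Matrix.mul_apply, Fin.sum_univ_two,
      Matrix.map_apply, Matrix.of_apply, Matrix.cons_val_zero, Matrix.cons_val_one,
      Matrix.cons_val', Matrix.cons_val_fin_one, Fin.isValue]
    ring
  have hE : |fr a a s 0 0 - fr a a s 1 1| ≤ 2 * ρ := by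
    have h1 : (fr a a s 0 0 - fr a a s 1 1) ^ 2 = -(4 * (fr a a s 0 1 * fr a a s 1 0)) := by
      rw [f00, f01, f10, f11]
      linear_combination (a 0 0 * a 1 1 - a 0 1 * a 1 0) ^ 2 * hd'
    have h2 : |fr a a s 0 1 * fr a a s 1 0| ≤ ρ * ρ := prodb h01 h10
    have h3 := neg_le_abs (fr a a s 0 1 * fr a a s 1 0)
    apply abs_le_of_sq_le_sq _ (by linarith)
    rw [h1]
    nlinarith
  have e01 : ((s 0 1 : ℤ) : ℝ) = a 0 0 ^ 2 * fr a a s 0 1 - a 0 1 ^ 2 * fr a a s 1 0 -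
      a 0 0 * a 0 1 * (fr a a s 0 0 - fr a a s 1 1) := by
    rw [f00, f01, f10, f11]
    linear_combination (-(s 0 1 : ℝ) * (a 0 0 * a 1 1 - a 0 1 * a 1 0 + 1)) * ha
  have e10 : ((s 1 0 : ℤ) : ℝ) = a 1 1 ^ 2 * fr a a s 1 0 - a 1 0 ^ 2 * fr a a s 0 1 -
      a 1 1 * a 1 0 * (-(fr a a s 0 0 - fr a a s 1 1)) := by
    rw [f00, f01, f10, f11]
    linear_combination (-(s 1 0 : ℝ) * (a 0 0 * a 1 1 - a 0 1 * a 1 0 + 1)) * ha
  constructor
  · rw [e01]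
    exact tri hR (haR _ _) (haR _ _) h01 h10 hE
  · rw [e10]
    exact tri hR (haR _ _) (haR _ _) h10 h01 (by rwa [abs_neg])

lemma divp {p : ℕ} {k q0 q1 x y z : ℤ} (hp : p.Prime) (hk : k ≠ 0) (hkp : |k| < (p : ℤ))
    (hxy : x * q0 + y * q1 = 1) (h0 : (p : ℤ) ∣ k * q0 * z) (h1 : (p : ℤ) ∣ k * q1 * z) :
    (p : ℤ) ∣ z := by
  have h2 : (p : ℤ) ∣ k * z := by
    have h3 := dvd_add (h0.mul_left x) (h1.mul_left y)
    have h4 : x * (k * q0 * z) + y * (k * q1 * z) = k * z := by linear_combination k * z * hxy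
    rwa [h4] at h3
  rcases (Nat.prime_iff_prime_int.1 hp).dvd_or_dvd h2 with h | h
  · exact absurd (Int.le_of_dvd (abs_pos.2 hk) ((dvd_abs _ _).2 h)) (not_le.2 hkp)
  · exact h

lemma tf0 {s : MZ} {a0 : ℤ} (ha0 : s 0 0 + s 1 1 = 2 * a0) (e0 : s 0 0 - a0 = 0)
    (e1 : s 0 1 = 0) (e2 : s 1 0 = 0) : tf s = 0 := by
  unfold tf
  ext i j
  fin_cases i <;> fin_cases j
  · simp only [Matrix.trace_fin_two, Matrix.sub_apply, Matrix.smul_apply, Matrix.one_apply,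
      Fin.zero_eta, Fin.isValue, if_true, smul_eq_mul, Matrix.zero_apply]
    linear_combination 2 * e0 - ha0
  · show (2 : ℤ) • s 0 1 - s.trace • (1 : MZ) 0 1 = 0
    rw [Matrix.one_apply_ne (by decide), e1, smul_zero, smul_zero, sub_zero]
  · show (2 : ℤ) • s 1 0 - s.trace • (1 : MZ) 1 0 = 0
    rw [Matrix.one_apply_ne (by decide), e2, smul_zero, smul_zero, sub_zero]
  · simp only [Matrix.trace_fin_two, Matrix.sub_apply, Matrix.smul_apply, Matrix.one_apply,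
      Fin.mk_one, Fin.isValue, if_true, smul_eq_mul, Matrix.zero_apply]
    linear_combination ha0 - 2 * e0

theorem core : S_Fr → ∀ (C' K R D : ℝ) (a b : MR) (p m1 m2 : ℕ) (h1 h2 : MZ), 1 ≤ C' → 1 ≤ K →
    1 ≤ R → 0 ≤ D → a.det = 1 → b.det = 1 → (∀ i j, |a i j| ≤ R) →
    Ret C' (1 / K ^ 2) a b m1 h1 → Ret C' (1 / K ^ 2) a b m2 h2 → p.Prime → (p : ℤ) ∣ h1.det →
    32 * R ^ 2 * C' ^ 2 * (m1 : ℝ) * (m2 : ℝ) < (p : ℝ) * K ^ 2 →
    32 * R ^ 2 * C' ^ 2 * (m1 : ℝ) * (m2 : ℝ) ≤ D ^ 2 * K ^ 2 →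
    Sys.Dir D p h1 → tf (h2.adjugate * h1) ≠ 0 → dsc (h2.adjugate * h1) ≠ 0 := by
  intro hFr C' K R D a b p m1 m2 h1 h2 hC hK hR hD ha hb haR hr1 hr2 hp hpd hX1 hX2 hDir htf hds
  obtain ⟨hd1, hm1, hn1⟩ := hr1
  obtain ⟨hd2, hm2, hn2⟩ := hr2
  have hFs : fr a a (h2.adjugate * h1) = (fr a b h2).adjugate * fr a b h1 := by
    rw [hFr.1 a b a h2.adjugate h1 hb, hFr.2.2.1 a b h2]
  have hK0 : 0 < K ^ 2 := by positivity
  have hm1' : (0 : ℝ) < m1 := by exact_mod_cast hm1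
  have hm2' : (0 : ℝ) < m2 := by exact_mod_cast hm2
  obtain ⟨n00, n11, n01, n10⟩ := hn1
  obtain ⟨k00, k11, k01, k10⟩ := hn2
  obtain ⟨w, hw⟩ : ∃ w : ℝ, w = 1 / K ^ 2 := ⟨_, rfl⟩
  rw [← hw] at n01 n10 k01 k10
  have hw0 : 0 < w := by rw [hw]; positivity
  have hwK : w * K ^ 2 = 1 := by rw [hw]; field_simp
  have hs01 : |fr a a (h2.adjugate * h1) 0 1| ≤ 2 * C' ^ 2 * w * m1 * m2 := by
    have e : fr a a (h2.adjugate * h1) 0 1 =
        fr a b h2 1 1 * fr a b h1 0 1 - fr a b h2 0 1 * fr a b h1 1 1 := by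
      rw [hFs, Matrix.adjugate_fin_two]
      simp only [Matrix.mul_apply, Fin.sum_univ_two, Matrix.of_apply, Matrix.cons_val_zero,
        Matrix.cons_val_one, Matrix.cons_val', Matrix.cons_val_fin_one, Fin.isValue]
      ring
    rw [e]
    refine (abs_sub _ _).trans ?_
    have e1 := prodb k11 n01
    have e2 := prodb k01 n11
    calc _ ≤ C' * m2 * (C' * w * m1) + C' * w * m2 * (C' * m1) := add_le_add e1 e2
      _ = 2 * C' ^ 2 * w * m1 * m2 := by ring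
  have hs10 : |fr a a (h2.adjugate * h1) 1 0| ≤ 2 * C' ^ 2 * w * m1 * m2 := by
    have e : fr a a (h2.adjugate * h1) 1 0 =
        fr a b h2 0 0 * fr a b h1 1 0 - fr a b h2 1 0 * fr a b h1 0 0 := by
      rw [hFs, Matrix.adjugate_fin_two]
      simp only [Matrix.mul_apply, Fin.sum_univ_two, Matrix.of_apply, Matrix.cons_val_zero,
        Matrix.cons_val_one, Matrix.cons_val', Matrix.cons_val_fin_one, Fin.isValue]
      ring
    rw [e]
    refine (abs_sub _ _).trans ?_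
    have e1 := prodb k00 n10
    have e2 := prodb k10 n00
    calc _ ≤ C' * m2 * (C' * w * m1) + C' * w * m2 * (C' * m1) := add_le_add e1 e2
      _ = 2 * C' ^ 2 * w * m1 * m2 := by ring
  obtain ⟨hβ, hγ⟩ := offd (by linarith) ha haR hds hs01 hs10
  -- integral entries of `s`
  have s00 : (h2.adjugate * h1) 0 0 = h2 1 1 * h1 0 0 - h2 0 1 * h1 1 0 := by
    rw [Matrix.adjugate_fin_two]
    simp only [Matrix.mul_apply, Fin.sum_univ_two, Matrix.of_apply, Matrix.cons_val_zero,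
      Matrix.cons_val_one, Matrix.cons_val', Matrix.cons_val_fin_one, Fin.isValue]
    ring
  have s01 : (h2.adjugate * h1) 0 1 = h2 1 1 * h1 0 1 - h2 0 1 * h1 1 1 := by
    rw [Matrix.adjugate_fin_two]
    simp only [Matrix.mul_apply, Fin.sum_univ_two, Matrix.of_apply, Matrix.cons_val_zero,
      Matrix.cons_val_one, Matrix.cons_val', Matrix.cons_val_fin_one, Fin.isValue]
    ring
  have s10 : (h2.adjugate * h1) 1 0 = -h2 1 0 * h1 0 0 + h2 0 0 * h1 1 0 := by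
    rw [Matrix.adjugate_fin_two]
    simp only [Matrix.mul_apply, Fin.sum_univ_two, Matrix.of_apply, Matrix.cons_val_zero,
      Matrix.cons_val_one, Matrix.cons_val', Matrix.cons_val_fin_one, Fin.isValue]
  have s11 : (h2.adjugate * h1) 1 1 = -h2 1 0 * h1 0 1 + h2 0 0 * h1 1 1 := by
    rw [Matrix.adjugate_fin_two]
    simp only [Matrix.mul_apply, Fin.sum_univ_two, Matrix.of_apply, Matrix.cons_val_zero,
      Matrix.cons_val_one, Matrix.cons_val', Matrix.cons_val_fin_one, Fin.isValue]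
  have hdets : (h2.adjugate * h1).det = ((m1 : ℤ) * m2) ^ 2 := by
    rw [Matrix.det_mul, Matrix.det_adjugate, hd1, Fintype.card_fin, hd2]
    ring
  have hdsc := hds
  unfold dsc at hdsc
  rw [hdets, Matrix.trace_fin_two] at hdsc
  rw [Matrix.det_fin_two] at hdets
  unfold tf at htf
  generalize h2.adjugate * h1 = s at *
  obtain ⟨a0, ha0, hpa⟩ : ∃ a0 : ℤ, s 0 0 + s 1 1 = 2 * a0 ∧ (p : ℤ) ∣ a0 ∧
      a0 ^ 2 = ((m1 : ℤ) * m2) ^ 2 := by
    have hpm : (p : ℤ) ∣ (m1 : ℤ) := by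
      rw [hd1] at hpd
      exact (Nat.prime_iff_prime_int.1 hp).dvd_of_dvd_pow hpd
    have h3 : (s 0 0 + s 1 1 - 2 * ((m1 : ℤ) * m2)) * (s 0 0 + s 1 1 + 2 * ((m1 : ℤ) * m2)) = 0 := by
      linear_combination hdsc
    rcases mul_eq_zero.1 h3 with h | h
    · exact ⟨(m1 : ℤ) * m2, by linarith, hpm.mul_right _, rfl⟩
    · exact ⟨-((m1 : ℤ) * m2), by linarith, (dvd_neg.2 (hpm.mul_right _)), by ring⟩
  obtain ⟨hpa, ha2⟩ := hpa
  have hnil : (s 0 0 - a0) ^ 2 + s 0 1 * s 1 0 = 0 := by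
    linear_combination s 0 0 * ha0 - hdets + ha2
  have hn0 : ¬ (s 0 0 - a0 = 0 ∧ s 0 1 = 0 ∧ s 1 0 = 0) := by
    rintro ⟨e0, e1, e2⟩
    exact htf (tf0 ha0 e0 e1 e2)
  obtain ⟨k, q0, q1, x, y, hk, hxy, et, eb, ec⟩ := nil hnil hn0
  -- bounds
  obtain ⟨X, hX⟩ : ∃ X : ℝ, X = 8 * R ^ 2 * C' ^ 2 * (m1 : ℝ) * (m2 : ℝ) := ⟨_, rfl⟩
  have hXn : 0 < X := by rw [hX]; positivity
  have hX1' : 4 * X < (p : ℝ) * K ^ 2 := by rw [hX]; linarith
  have hX2' : 4 * X ≤ D ^ 2 * K ^ 2 := by rw [hX]; linarith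
  have hbd : ∀ q : ℤ, ∀ e : ℤ, |((e : ℤ) : ℝ)| = |(k : ℝ)| * (q : ℝ) ^ 2 →
      |((e : ℤ) : ℝ)| ≤ 4 * R ^ 2 * (2 * C' ^ 2 * w * ↑m1 * ↑m2) →
      |(k : ℝ)| * (q : ℝ) ^ 2 * K ^ 2 ≤ X := by
    intro q e he hle
    rw [← he]
    calc _ ≤ 4 * R ^ 2 * (2 * C' ^ 2 * w * ↑m1 * ↑m2) * K ^ 2 :=
          mul_le_mul_of_nonneg_right hle hK0.le
      _ = X := by rw [hX]; linear_combination (8 * R ^ 2 * C' ^ 2 * (m1 : ℝ) * (m2 : ℝ)) * hwK
  have b0 : |(k : ℝ)| * (q0 : ℝ) ^ 2 * K ^ 2 ≤ X := by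
    refine hbd q0 (s 0 1) ?_ hβ
    rw [eb, Int.cast_mul, Int.cast_pow, abs_mul, abs_of_nonneg (sq_nonneg (q0 : ℝ))]
  have b1 : |(k : ℝ)| * (q1 : ℝ) ^ 2 * K ^ 2 ≤ X := by
    refine hbd q1 (s 1 0) ?_ hγ
    rw [ec, Int.cast_neg, abs_neg, Int.cast_mul, Int.cast_pow, abs_mul,
      abs_of_nonneg (sq_nonneg (q1 : ℝ))]
  have hk1 : 1 ≤ |(k : ℝ)| := by exact_mod_cast Int.one_le_abs hk
  have hqD : ∀ q : ℤ, |(k : ℝ)| * (q : ℝ) ^ 2 * K ^ 2 ≤ X → |(q : ℝ)| ≤ D := by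
    intro q hq
    apply abs_le_of_sq_le_sq _ hD
    have h3 : (q : ℝ) ^ 2 * K ^ 2 ≤ D ^ 2 * K ^ 2 := by
      have h4 : (q : ℝ) ^ 2 * K ^ 2 ≤ |(k : ℝ)| * ((q : ℝ) ^ 2 * K ^ 2) :=
        le_mul_of_one_le_left (by positivity) hk1
      linarith
    exact le_of_mul_le_mul_right h3 hK0
  have hqk : ∀ q : ℤ, q ≠ 0 → |(k : ℝ)| * (q : ℝ) ^ 2 * K ^ 2 ≤ X → |k| < (p : ℤ) := by
    intro q hq0 hq
    have h3 : (1 : ℝ) ≤ (q : ℝ) ^ 2 := by
      have h4 : (1 : ℤ) ≤ q ^ 2 := by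
        have := sq_pos_of_pos (abs_pos.2 hq0)
        rw [sq_abs] at this
        linarith
      exact_mod_cast h4
    have h5 : |(k : ℝ)| * K ^ 2 < (p : ℝ) * K ^ 2 := by
      have h6 : |(k : ℝ)| * K ^ 2 ≤ (q : ℝ) ^ 2 * (|(k : ℝ)| * K ^ 2) :=
        le_mul_of_one_le_left (by positivity) h3
      linarith
    have h7 := lt_of_mul_lt_mul_right h5 hK0.le
    exact_mod_cast h7
  have hkp : |k| < (p : ℤ) := by
    by_cases h3 : q0 = 0
    · have h4 : q1 ≠ 0 := by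
        rintro rfl
        rw [h3] at hxy
        simp at hxy
      exact hqk q1 h4 b1
    · exact hqk q0 h3 b0
  obtain ⟨i, hi⟩ := hDir ![q0, q1] (by
      intro h3
      have h4 : q0 = 0 := congrFun h3 0
      have h5 : q1 = 0 := congrFun h3 1
      rw [h4, h5] at hxy
      simp at hxy) (by
      intro j
      fin_cases j
      · exact hqD q0 b0
      · exact hqD q1 b1)
  apply hi
  rw [Matrix.det_fin_two] at hpd
  have hz : ∀ i, (h1 *ᵥ ![q0, q1]) i = h1 i 0 * q0 + h1 i 1 * q1 := by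
    intro i
    simp [Matrix.mulVec, dotProduct, Fin.sum_univ_two]
  rw [hz]
  fin_cases i
  · refine divp hp hk hkp hxy ?_ ?_
    · have e : k * q0 * (h1 0 0 * q0 + h1 0 1 * q1) =
          (-h2 0 1) * (h1 0 0 * h1 1 1 - h1 0 1 * h1 1 0) + h1 0 1 * a0 := by
        linear_combination (-h1 0 0) * eb + h1 0 1 * et + h1 0 0 * s01 - h1 0 1 * s00
      exact e ▸ dvd_add (hpd.mul_left _) (hpa.mul_left _)
    · have e : k * q1 * (h1 0 0 * q0 + h1 0 1 * q1) =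
          h2 0 0 * (h1 0 0 * h1 1 1 - h1 0 1 * h1 1 0) + (-h1 0 0) * a0 := by
        linear_combination (h1 0 0) * et + h1 0 1 * ec - h1 0 0 * ha0 + h1 0 0 * s11 - h1 0 1 * s10
      exact e ▸ dvd_add (hpd.mul_left _) (hpa.mul_left _)
  · refine divp hp hk hkp hxy ?_ ?_
    · have e : k * q0 * (h1 1 0 * q0 + h1 1 1 * q1) =
          (-h2 1 1) * (h1 0 0 * h1 1 1 - h1 0 1 * h1 1 0) + h1 1 1 * a0 := by
        linear_combination (-h1 1 0) * eb + h1 1 1 * et + h1 1 0 * s01 - h1 1 1 * s00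
      exact e ▸ dvd_add (hpd.mul_left _) (hpa.mul_left _)
    · have e : k * q1 * (h1 1 0 * q0 + h1 1 1 * q1) =
          h2 1 0 * (h1 0 0 * h1 1 1 - h1 0 1 * h1 1 0) + (-h1 1 0) * a0 := by
        linear_combination (h1 1 0) * et + h1 1 1 * ec - h1 1 0 * ha0 + h1 1 0 * s11 - h1 1 1 * s10
      exact e ▸ dvd_add (hpd.mul_left _) (hpa.mul_left _)

end CLZ_aux

theorem tCLZ : S_Fr → S_CLZ := CLZ_aux.core

end HSL
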