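import Pool.Agent.Lib.HS.L.Spec

/-!
MP_a54f13_nt, HS/L, module CS: Cauchy-Schwarz for pairs with the same end.
-/

namespace HSL

namespace CS_aux

lemma card_prs {ι : Type} (V : Finset ι) (H : Finset (ι × MZ)) (hH : ∀ t ∈ H, t.1 ∈ V) :
    ((prs H).card : ℝ) = ∑ z ∈ V, ((Finset.card (by classical exact H.filter (fun t => t.1 = z)) : ℕ) : ℝ) ^ 2 := by
  classical
  have h1 : (prs H).card = ∑ z ∈ V, (H.filter (fun t => t.1 = z)).card ^ 2 := by
    unfold prs
    rw [Finset.card_eq_sum_card_fiberwise (f := fun t : (ι × MZ) × (ι × MZ) => t.1.1) (t := V)]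
    · refine Finset.sum_congr rfl fun z _ => ?_
      rw [pow_two, ← Finset.card_product]
      refine congrArg Finset.card ?_
      ext t
      simp only [Finset.mem_filter, Finset.mem_product]
      constructor
      · rintro ⟨⟨⟨a, b⟩, c⟩, d⟩
        exact ⟨⟨a, d⟩, b, by rw [← c]; exact d⟩
      · rintro ⟨⟨a, d⟩, b, c⟩
        exact ⟨⟨⟨a, b⟩, by rw [d, c]⟩, d⟩
    · intro t ht
      have h2 := Finset.mem_coe.mp ht
      rw [Finset.mem_filter, Finset.mem_product] at h2
      exact hH _ h2.1.1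
  rw [h1]
  push_cast
  refine Finset.sum_congr rfl fun z _ => ?_
  norm_num

end CS_aux

theorem tCS : S_CS := by
  classical
  intro ι V H hH
  rw [CS_aux.card_prs V H hH]
  have h1 : (H.card : ℝ) = ∑ z ∈ V, ((H.filter (fun t => t.1 = z)).card : ℝ) := by
    rw [← Nat.cast_sum, ← Finset.card_eq_sum_card_fiberwise (f := fun t : ι × MZ => t.1)]
    intro t ht
    exact hH t (Finset.mem_coe.mp ht)
  rw [h1]
  have h2 := Finset.sum_mul_sq_le_sq_mul_sq V (fun _ => (1 : ℝ))
    (fun z => ((H.filter (fun t => t.1 = z)).card : ℝ))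
  simp only [one_mul, one_pow, Finset.sum_const, nsmul_eq_mul, mul_one] at h2
  exact h2

end HSL
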