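import Pool.Agent.Lib.HS.L.Spec

set_option autoImplicit false

/-!
PROJECT H*, PLAN L (MP_a54f13_nt), part HS/L, module Cls: the class of a right divisor.
-/

namespace HSL

open Matrix

theorem tCls : S_Cls := by
  intro h1 h1' h2 h2' he h0 hd hd' hc
  obtain ⟨u, v, huv⟩ := hc
  have key : h2 = (u • (h2 * h1.adjugate) + v • (h2'.adjugate * h1')) * h1 := by
    rw [Matrix.add_mul, Matrix.smul_mul, Matrix.smul_mul, Matrix.mul_assoc, Matrix.mul_assoc,
      Matrix.adjugate_mul, he, ← Matrix.mul_assoc h2'.adjugate, Matrix.adjugate_mul,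
      Matrix.mul_smul, Matrix.mul_one, Matrix.smul_mul, Matrix.one_mul, smul_smul, smul_smul,
      ← add_smul, ← hd', huv, one_smul]
  refine ⟨u • (h2 * h1.adjugate) + v • (h2'.adjugate * h1'), ?_, key⟩
  have h3 := congrArg Matrix.det key
  rw [Matrix.det_mul, ← hd] at h3
  have h4 : ((u • (h2 * h1.adjugate) + v • (h2'.adjugate * h1')).det - 1) * h1.det = 0 := by
    rw [sub_mul, ← h3]
    ring
  rcases mul_eq_zero.mp h4 with h5 | h5
  · exact sub_eq_zero.mp h5
  · exact absurd h5 h0.ne'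

end HSL
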