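import Pool.Agent.Lib.HS.L.Spec

/-!
PROJECT H*, PLAN L (MP_a54f13_nt), part HS/L: `tDiag : S_Sub → S_Diag`.
-/

set_option autoImplicit false

namespace HSL

open Matrix

namespace Diag_aux

/-- diagonal matrix -/
def dg (x y : ℝ) : MR := !![x, 0; 0, y]

private lemma sub_X (h : MR) (ij : Fin 2 × Fin 2) :
    sub h (MvPolynomial.X ij) =
      ∑ k : Fin 2, MvPolynomial.X (ij.1, k) * MvPolynomial.C (h k ij.2) := by
  simp [sub]

private lemma sub_dg_X (x y : ℝ) (i j : Fin 2) :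
    sub (dg x y) (MvPolynomial.X (i, j)) =
      MvPolynomial.C (if j = 0 then x else y) * MvPolynomial.X (i, j) := by
  rw [sub_X]
  fin_cases j
  · simp [dg, mul_comm]
  · simp [dg, mul_comm]

private lemma sub_dg_monomial (x y : ℝ) (α : Fin 2 × Fin 2 →₀ ℕ) (c : ℝ) :
    sub (dg x y) (MvPolynomial.monomial α c) =
      (x ^ (α (0, 0) + α (1, 0)) * y ^ (α (0, 1) + α (1, 1))) •
        MvPolynomial.monomial α c := by
  rw [MvPolynomial.monomial_eq, Finsupp.prod_fintype _ _ (by intro i; simp)]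
  rw [map_mul, map_prod]
  have hC : sub (dg x y) (MvPolynomial.C c) = MvPolynomial.C c := by
    simp [sub, MvPolynomial.algebraMap_eq]
  rw [hC]
  simp only [map_pow, Fintype.prod_prod_type, Fin.prod_univ_two, sub_dg_X, mul_pow]
  simp only [if_true, one_ne_zero, if_false, Fin.isValue]
  rw [MvPolynomial.smul_eq_C_mul]
  simp only [map_mul, map_pow]
  ring

private lemma deg_eq (α : Fin 2 × Fin 2 →₀ ℕ) (e : ℕ) (h : α.degree = e) :
    (α (0, 0) + α (1, 0)) + (α (0, 1) + α (1, 1)) = e := by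
  rw [← h, Finsupp.degree_eq_sum]
  simp only [Fintype.sum_prod_type, Fin.sum_univ_two]
  ring

private lemma exists_diag (s : MR) (hdet : 0 < s.det) (hd : 0 < s.trace ^ 2 - 4 * s.det) :
    ∃ (g : MR) (lam mu : ℝ), g.det ≠ 0 ∧ s * g = g * dg lam mu ∧ lam ≠ mu ∧ 0 < lam * mu := by
  have hdet' : s.det = s 0 0 * s 1 1 - s 0 1 * s 1 0 := Matrix.det_fin_two s
  have htr' : s.trace = s 0 0 + s 1 1 := Matrix.trace_fin_two s
  obtain ⟨d, hdpos, hdsq⟩ : ∃ d : ℝ, 0 < d ∧ d ^ 2 = s.trace ^ 2 - 4 * s.det :=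
    ⟨Real.sqrt (s.trace ^ 2 - 4 * s.det), Real.sqrt_pos.mpr hd, Real.sq_sqrt hd.le⟩
  have hlm : (s.trace + d) / 2 * ((s.trace - d) / 2) = s.det := by
    have : (s.trace + d) / 2 * ((s.trace - d) / 2) = (s.trace ^ 2 - d ^ 2) / 4 := by ring
    rw [this, hdsq]
    ring
  rw [htr'] at hlm hdsq
  rw [hdet'] at hlm hdsq
  set lam : ℝ := (s 0 0 + s 1 1 + d) / 2 with hlam
  set mu : ℝ := (s 0 0 + s 1 1 - d) / 2 with hmu
  have hdif : lam - mu = d := by rw [hlam, hmu]; ring
  have hsum : lam + mu = s 0 0 + s 1 1 := by rw [hlam, hmu]; ring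
  have hne : lam ≠ mu := by
    intro h
    rw [h, sub_self] at hdif
    exact hdpos.ne hdif
  have hpos : 0 < lam * mu := by rw [hlm, ← hdet']; exact hdet
  have hcl : lam * lam = (s 0 0 + s 1 1) * lam - (s 0 0 * s 1 1 - s 0 1 * s 1 0) := by
    rw [← hsum, ← hlm]; ring
  have hcm : mu * mu = (s 0 0 + s 1 1) * mu - (s 0 0 * s 1 1 - s 0 1 * s 1 0) := by
    rw [← hsum, ← hlm]; ring
  by_cases h01 : s 0 1 = 0
  · by_cases h10 : s 1 0 = 0
    · refine ⟨1, s 0 0, s 1 1, by simp, ?_, ?_, ?_⟩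
      · rw [mul_one, one_mul]
        ext i j
        fin_cases i <;> fin_cases j <;> simp [dg, h01, h10]
      · intro h
        rw [h01, ← h] at hdsq
        have : d ^ 2 = 0 := by rw [hdsq]; ring
        have h2 : d = 0 := by simpa using this
        exact hdpos.ne' h2
      · rw [hdet', h01] at hdet
        linarith
    · refine ⟨!![lam - s 1 1, mu - s 1 1; s 1 0, s 1 0], lam, mu, ?_, ?_, hne, hpos⟩
      · rw [Matrix.det_fin_two_of]
        have : (lam - s 1 1) * s 1 0 - (mu - s 1 1) * s 1 0 = s 1 0 * (lam - mu) := by ring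
        rw [this]
        exact mul_ne_zero h10 (sub_ne_zero.mpr hne)
      · rw [h01] at hcl hcm
        ext i j
        fin_cases i <;> fin_cases j <;>
          simp [dg, Matrix.mul_apply, Fin.sum_univ_two, h01] <;> nlinarith [hcl, hcm]
  · refine ⟨!![s 0 1, s 0 1; lam - s 0 0, mu - s 0 0], lam, mu, ?_, ?_, hne, hpos⟩
    · rw [Matrix.det_fin_two_of]
      have : s 0 1 * (mu - s 0 0) - s 0 1 * (lam - s 0 0) = s 0 1 * (mu - lam) := by ring
      rw [this]
      exact mul_ne_zero h01 (sub_ne_zero.mpr hne.symm)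
    · ext i j
      fin_cases i <;> fin_cases j <;>
        simp [dg, Matrix.mul_apply, Fin.sum_univ_two] <;> nlinarith [hcl, hcm]

private lemma nu_aux (lam mu : ℝ) (hne : lam ≠ mu) (hpos : 0 < lam * mu) (e i j : ℕ)
    (hij : i < j) (hj : j ≤ e) : lam ^ i * mu ^ (e - i) ≠ lam ^ j * mu ^ (e - j) := by
  intro h
  have hl : lam ≠ 0 := by rintro rfl; simp at hpos
  have hm : mu ≠ 0 := by rintro rfl; simp at hpos
  obtain ⟨k, rfl⟩ := Nat.exists_eq_add_of_lt hij
  have h1 : e - i = (e - (i + k + 1)) + (k + 1) := by omega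
  rw [h1, pow_add, add_assoc, pow_add] at h
  have h2 : (lam ^ i * mu ^ (e - (i + (k + 1)))) * mu ^ (k + 1) =
      (lam ^ i * mu ^ (e - (i + (k + 1)))) * lam ^ (k + 1) := by
    linear_combination h
  have h3 : mu ^ (k + 1) = lam ^ (k + 1) :=
    mul_left_cancel₀ (mul_ne_zero (pow_ne_zero _ hl) (pow_ne_zero _ hm)) h2
  have h4 : (lam / mu) ^ (k + 1) = 1 := by
    rw [div_pow, ← h3, div_self (pow_ne_zero _ hm)]
  have h5 : 0 ≤ lam / mu := by
    have : lam / mu = lam * mu / mu ^ 2 := by field_simp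
    rw [this]
    positivity
  have h6 : lam / mu = 1 := (pow_eq_one_iff_of_nonneg h5 (by omega)).mp h4
  exact hne ((div_eq_one_iff_eq hm).mp h6)

private lemma nu_inj (lam mu : ℝ) (hne : lam ≠ mu) (hpos : 0 < lam * mu) (e : ℕ) :
    Set.InjOn (fun i : ℕ => lam ^ i * mu ^ (e - i)) (Finset.range (e + 1) : Finset ℕ) := by
  intro i hi j hj hij
  simp only [Finset.coe_range, Set.mem_Iio] at hi hj
  rcases lt_trichotomy i j with h | h | h
  · exact absurd hij (nu_aux lam mu hne hpos e i j h (by omega))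
  · exact h
  · exact absurd hij.symm (nu_aux lam mu hne hpos e j i h (by omega))

private lemma exists_poly (lam mu x y : ℝ) (hne : lam ≠ mu) (hpos : 0 < lam * mu) (e : ℕ) :
    ∃ p : Polynomial ℝ, ∀ i, i ≤ e → p.eval (lam ^ i * mu ^ (e - i)) = x ^ i * y ^ (e - i) := by
  refine ⟨Lagrange.interpolate (Finset.range (e + 1)) (fun i : ℕ => lam ^ i * mu ^ (e - i))
    (fun i : ℕ => x ^ i * y ^ (e - i)), fun i hi => ?_⟩
  exact Lagrange.eval_interpolate_at_node (fun i : ℕ => x ^ i * y ^ (e - i))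
    (nu_inj lam mu hne hpos e) (Finset.mem_range.mpr (by omega))

private lemma pow_eig (T : MvPolynomial (Fin 2 × Fin 2) ℝ →ₗ[ℝ] MvPolynomial (Fin 2 × Fin 2) ℝ)
    (v : MvPolynomial (Fin 2 × Fin 2) ℝ) (ν : ℝ) (h : T v = ν • v) (k : ℕ) :
    (T ^ k) v = ν ^ k • v := by
  induction k with
  | zero => simp
  | succ k ih =>
    rw [pow_succ', Module.End.mul_apply, ih, map_smul, h, smul_smul, pow_succ]

/-- value of the polynomial at the operator -/
noncomputable def pv (p : Polynomial ℝ)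
    (T : MvPolynomial (Fin 2 × Fin 2) ℝ →ₗ[ℝ] MvPolynomial (Fin 2 × Fin 2) ℝ) :
    MvPolynomial (Fin 2 × Fin 2) ℝ →ₗ[ℝ] MvPolynomial (Fin 2 × Fin 2) ℝ :=
  ∑ k ∈ Finset.range (p.natDegree + 1), p.coeff k • T ^ k

private lemma pv_eig (p : Polynomial ℝ)
    (T : MvPolynomial (Fin 2 × Fin 2) ℝ →ₗ[ℝ] MvPolynomial (Fin 2 × Fin 2) ℝ)
    (v : MvPolynomial (Fin 2 × Fin 2) ℝ) (ν : ℝ) (h : T v = ν • v) :
    pv p T v = p.eval ν • v := by
  rw [pv, LinearMap.sum_apply, Polynomial.eval_eq_sum_range, Finset.sum_smul]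
  refine Finset.sum_congr rfl fun k _ => ?_
  rw [LinearMap.smul_apply, pow_eig T v ν h k, smul_smul]

private lemma pv_mem (p : Polynomial ℝ)
    (T : MvPolynomial (Fin 2 × Fin 2) ℝ →ₗ[ℝ] MvPolynomial (Fin 2 × Fin 2) ℝ)
    (I : Submodule ℝ (MvPolynomial (Fin 2 × Fin 2) ℝ)) (h : ∀ f ∈ I, T f ∈ I)
    (f : MvPolynomial (Fin 2 × Fin 2) ℝ) (hf : f ∈ I) : pv p T f ∈ I := by
  have hk : ∀ k : ℕ, (T ^ k) f ∈ I := by
    intro k
    induction k with
    | zero => simpa using hf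
    | succ k ih =>
      rw [pow_succ', Module.End.mul_apply]
      exact h _ ih
  rw [pv, LinearMap.sum_apply]
  refine Submodule.sum_mem _ fun k _ => ?_
  rw [LinearMap.smul_apply]
  exact Submodule.smul_mem _ _ (hk k)

private lemma agree (hS : S_Sub) (e : ℕ) (s g : MR) (lam mu a b : ℝ) (p : Polynomial ℝ)
    (hg : g.det ≠ 0) (hsg : s * g = g * dg lam mu)
    (hp : ∀ i, i ≤ e → p.eval (lam ^ i * mu ^ (e - i)) =
      (a + b * lam) ^ i * (a + b * mu) ^ (e - i))
    (f : MvPolynomial (Fin 2 × Fin 2) ℝ) (hf : f.IsHomogeneous e) :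
    pv p (sub s).toLinearMap f = sub (a • (1 : MR) + b • s) f := by
  obtain ⟨-, -, h3, h4, h5, -, -, -, -⟩ := hS
  have hab : (a • (1 : MR) + b • s) * g = g * dg (a + b * lam) (a + b * mu) := by
    rw [add_mul, smul_mul_assoc, smul_mul_assoc, one_mul, hsg]
    ext i j
    fin_cases i <;> fin_cases j <;>
      simp [dg, Matrix.mul_apply, Fin.sum_univ_two] <;> ring
  have key : ∀ G : MvPolynomial (Fin 2 × Fin 2) ℝ, G.IsHomogeneous e →
      pv p (sub s).toLinearMap (sub g G) = sub (a • (1 : MR) + b • s) (sub g G) := by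
    intro G hG
    rw [MvPolynomial.as_sum G]
    simp only [map_sum]
    refine Finset.sum_congr rfl fun α hα => ?_
    have hdeg : α.degree = e := by
      have := hG (MvPolynomial.mem_support_iff.mp hα)
      rwa [Finsupp.degree_eq_weight_one]
    have hd2 := deg_eq α e hdeg
    have hie : α (0, 0) + α (1, 0) ≤ e := by omega
    have hje : α (0, 1) + α (1, 1) = e - (α (0, 0) + α (1, 0)) := by omega
    set m : MvPolynomial (Fin 2 × Fin 2) ℝ :=
      MvPolynomial.monomial α (MvPolynomial.coeff α G) with hm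
    have e1 : (sub s).toLinearMap (sub g m) =
        (lam ^ (α (0, 0) + α (1, 0)) * mu ^ (e - (α (0, 0) + α (1, 0)))) • sub g m := by
      rw [AlgHom.toLinearMap_apply, h3, hsg, ← h3, hm, sub_dg_monomial, hje, map_smul]
    rw [pv_eig p _ _ _ e1, hp _ hie, h3, hab, ← h3, hm, sub_dg_monomial, hje, map_smul]
  have h6 : f = sub g (sub g⁻¹ f) := by
    rw [h3, Matrix.mul_nonsing_inv g (isUnit_iff_ne_zero.mpr hg), h4]
  rw [h6]
  exact key _ (h5 _ _ _ hf)

end Diag_aux

theorem tDiag : S_Sub → S_Diag := by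
  intro hS e I s hI hdet hd hs a b f hf
  obtain ⟨g, lam, mu, hg, hsg, hne, hpos⟩ := Diag_aux.exists_diag s hdet hd
  obtain ⟨p, hp⟩ := Diag_aux.exists_poly lam mu (a + b * lam) (a + b * mu) hne hpos e
  rw [← Diag_aux.agree hS e s g lam mu a b p hg hsg hp f (hI f hf)]
  exact Diag_aux.pv_mem p (sub s).toLinearMap I (fun f hf => hs f hf) f hf

end HSL
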