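import Pool.Agent.Lib.HS.L.Spec

set_option autoImplicit false

/-!
PROJECT H*, PLAN L (MP_a54f13_nt), part HS/L, module End: many pairs with a square element.
-/

namespace HSL

open Matrix

namespace End_aux

theorem pow_rp {K : ℝ} (hK : 0 ≤ K) {k : ℕ} (hk : 1 ≤ k) :
    (K ^ (1 / (2 * (k : ℝ)))) ^ (2 * k) = K := by
  have hkR : (k : ℝ) ≠ 0 := by
    have : (1 : ℝ) ≤ k := by exact_mod_cast hk
    linarith
  rw [← Real.rpow_natCast, ← Real.rpow_mul hK]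
  push_cast
  rw [show 1 / (2 * (k : ℝ)) * (2 * (k : ℝ)) = 1 by field_simp, Real.rpow_one]

/-- the number of ends -/
theorem ends_le {K a c n s t : ℝ} (hK : 1 ≤ K) (ha : 1 ≤ a) (hs : 0 ≤ s) (ht : 0 ≤ t)
    (hn : 0 ≤ n) (h3 : 3 * a ^ 2 ≤ K ^ s) (hc : K ^ (2 : ℝ) ≤ a * K ^ t * c)
    (h : c ^ 2 ≤ n * (K ^ (2 + 2 * s) + 2 * c)) : K ^ (2 - 2 * t - 3 * s) ≤ n := by
  have hK0 : 0 < K := by linarith
  have hX : 0 < K ^ (2 + 2 * s) := Real.rpow_pos_of_pos hK0 _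
  have hKt : 0 < K ^ t := Real.rpow_pos_of_pos hK0 _
  have hK2 : 0 < K ^ (2 : ℝ) := Real.rpow_pos_of_pos hK0 _
  have hc0 : 0 < c := by
    by_contra hcon
    push Not at hcon
    have : a * K ^ t * c ≤ 0 := mul_nonpos_of_nonneg_of_nonpos (by positivity) hcon
    linarith
  have hc1 : K ^ (2 - t) ≤ a * c := by
    rw [Real.rpow_sub hK0, div_le_iff₀ hKt]
    calc K ^ (2 : ℝ) ≤ a * K ^ t * c := hc
      _ = a * c * K ^ t := by ring
  have ha2 : 1 ≤ a ^ 2 := one_le_pow₀ ha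
  rcases le_total c (K ^ (2 + 2 * s)) with hcase | hcase
  · have h1 : c ^ 2 ≤ n * (3 * K ^ (2 + 2 * s)) := by
      refine h.trans (mul_le_mul_of_nonneg_left ?_ hn)
      linarith
    have e1 : K ^ (2 - 2 * t - 3 * s) * K ^ (2 + 2 * s) = K ^ (4 - 2 * t - s) := by
      rw [← Real.rpow_add hK0]
      congr 1
      ring
    have e2 : K ^ (4 - 2 * t - s) * K ^ s = (K ^ (2 - t)) ^ 2 := by
      rw [← Real.rpow_add hK0, ← Real.rpow_natCast (K ^ (2 - t)) 2, ← Real.rpow_mul hK0.le]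
      congr 1
      push_cast
      ring
    have h2 : (3 * K ^ (4 - 2 * t - s)) * a ^ 2 ≤ c ^ 2 * a ^ 2 := by
      calc (3 * K ^ (4 - 2 * t - s)) * a ^ 2 = K ^ (4 - 2 * t - s) * (3 * a ^ 2) := by ring
        _ ≤ K ^ (4 - 2 * t - s) * K ^ s :=
            mul_le_mul_of_nonneg_left h3 (Real.rpow_nonneg hK0.le _)
        _ = (K ^ (2 - t)) ^ 2 := e2
        _ ≤ (a * c) ^ 2 := pow_le_pow_left₀ (Real.rpow_nonneg hK0.le _) hc1 2
        _ = c ^ 2 * a ^ 2 := by ring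
    have h4 : 3 * K ^ (4 - 2 * t - s) ≤ c ^ 2 := le_of_mul_le_mul_right h2 (by positivity)
    have h5 : K ^ (2 - 2 * t - 3 * s) * (3 * K ^ (2 + 2 * s)) ≤ n * (3 * K ^ (2 + 2 * s)) := by
      calc K ^ (2 - 2 * t - 3 * s) * (3 * K ^ (2 + 2 * s))
          = 3 * (K ^ (2 - 2 * t - 3 * s) * K ^ (2 + 2 * s)) := by ring
        _ = 3 * K ^ (4 - 2 * t - s) := by rw [e1]
        _ ≤ c ^ 2 := h4
        _ ≤ n * (3 * K ^ (2 + 2 * s)) := h1
    exact le_of_mul_le_mul_right h5 (by positivity)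
  · have h1 : c * c ≤ (3 * n) * c := by
      have h2 : n * (K ^ (2 + 2 * s) + 2 * c) ≤ n * (3 * c) :=
        mul_le_mul_of_nonneg_left (by linarith) hn
      calc c * c = c ^ 2 := by ring
        _ ≤ n * (K ^ (2 + 2 * s) + 2 * c) := h
        _ ≤ n * (3 * c) := h2
        _ = (3 * n) * c := by ring
    have h2 : c ≤ 3 * n := le_of_mul_le_mul_right h1 hc0
    have h4 : (3 : ℝ) ≤ K ^ s := by linarith
    have h5 : K ^ (2 - 2 * t - 3 * s) * 3 ≤ K ^ (2 + 2 * s) := by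
      calc K ^ (2 - 2 * t - 3 * s) * 3 ≤ K ^ (2 - 2 * t - 3 * s) * K ^ s :=
            mul_le_mul_of_nonneg_left h4 (Real.rpow_nonneg hK0.le _)
        _ = K ^ (2 - 2 * t - 3 * s + s) := by rw [← Real.rpow_add hK0]
        _ ≤ K ^ (2 + 2 * s) := Real.rpow_le_rpow_of_exponent_le hK (by linarith)
    linarith

theorem card_prod_filter {ι : Type} (V : Finset ι) (p : ι × ι → Prop)
    [DecidablePred p] : ((V ×ˢ V).filter p).card = ∑ x ∈ V, (V.filter (fun z => p (x, z))).card := by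
  rw [Finset.card_filter, Finset.sum_product]
  exact Finset.sum_congr rfl fun x _ => (Finset.card_filter _ _).symm

/-- the thresholds -/
theorem thr (k : ℕ) (C θ s a K1 : ℝ) (hθ : 0 < θ) (hs : 0 < s) :
    ∃ K0 : ℝ, ∀ K : ℝ, K0 ≤ K → K1 ≤ K ∧ (2 : ℝ) ^ (k + 1) ≤ K ^ θ ∧ 3 * a ^ 2 ≤ K ^ s ∧
      (2 : ℝ) ^ k ≤ K ^ s ∧ 2 * ((2 * C) ^ k) ^ 2 ≤ K ^ 4 ∧ 2 * (2 * C) ^ k * 4 ^ k ≤ K ^ θ := by
  have h1 := Filter.eventually_ge_atTop K1
  have h2 := (tendsto_rpow_atTop hθ).eventually_ge_atTop ((2 : ℝ) ^ (k + 1))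
  have h3 := (tendsto_rpow_atTop hs).eventually_ge_atTop (3 * a ^ 2)
  have h4 := (tendsto_rpow_atTop hs).eventually_ge_atTop ((2 : ℝ) ^ k)
  have h5 := (Filter.tendsto_pow_atTop (α := ℝ) (n := 4) (by norm_num)).eventually_ge_atTop
    (2 * ((2 * C) ^ k) ^ 2)
  have h6 := (tendsto_rpow_atTop hθ).eventually_ge_atTop (2 * (2 * C) ^ k * 4 ^ k)
  obtain ⟨K0, hK0⟩ := Filter.eventually_atTop.1 (h1.and (h2.and (h3.and (h4.and (h5.and h6)))))
  exact ⟨K0, fun K hK => hK0 K hK⟩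

end End_aux

open End_aux in
theorem tEnd : S_WkN → S_WkR → S_CS → S_CLA → S_Mon → S_Spl → S_End := by
  classical
  intro hWkN hWkR hCS hCLA hMon hSpl k C R θ hk hC hR hθ hθk
  have hkR : (1 : ℝ) ≤ k := by exact_mod_cast hk
  have hσ : 0 < sg k θ := by
    unfold sg
    positivity
  obtain ⟨K1, hK1⟩ := hCLA k C R (sg k θ) hk hC hR hσ
  obtain ⟨a, ha⟩ : ∃ a : ℝ, a = (2 ^ (k + 4)) ^ k := ⟨_, rfl⟩
  have ha1 : 1 ≤ a := by
    rw [ha]
    exact one_le_pow₀ (one_le_pow₀ (by norm_num))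
  obtain ⟨K0, hK0⟩ := thr k C θ (sg k θ) a K1 hθ hσ
  refine ⟨K0, ?_⟩
  intro S hSC hSR hSK hyp
  obtain ⟨t1, t2, t3, t4, t5, t6⟩ := hK0 S.K hSK
  have hK := hyp.hK
  have hKp : 0 < S.K := by linarith
  obtain ⟨pool, hp1, hp2, hp3⟩ := hyp.p1
  obtain ⟨Q, hQ1, hQ2, hQ3⟩ := hSpl pool k hk hp2
  obtain ⟨P, hP⟩ : ∃ P : ℝ, P = S.K ^ (1 / (2 * (k : ℝ))) := ⟨_, rfl⟩
  rw [← hP] at hp1 hp3
  have hP2k : P ^ (2 * k) = S.K := by rw [hP]; exact pow_rp hKp.le hk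
  have hP1 : 1 ≤ P := by
    rw [hP]
    exact Real.one_le_rpow hK (by positivity)
  have hVpos : 0 < (S.V.card : ℝ) := lt_of_lt_of_le (Real.rpow_pos_of_pos hKp _) hyp.lo
  have hVne : S.V.Nonempty := by
    rw [← Finset.card_pos]
    exact_mod_cast hVpos
  have hB1 : 1 ≤ S.K ^ sg k θ := Real.one_le_rpow hK hσ.le
  have hSC1 : 1 ≤ S.C := by rw [hSC]; exact hC
  obtain ⟨E0, hE0, hE0c, hE0H⟩ := hWkN S k P pool θ (S.K ^ (2 * θ)) (sg k θ) (S.K ^ sg k θ) Q S.V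
    hk hK hSC1 hP1 hB1 hσ.le hyp.unim hp1 hp3 hyp.ovl hQ1 hQ2 hQ3 (Finset.Subset.refl _) hVne
    (mul_le_mul_of_nonneg_right t2 hVpos.le)
  have hQp : ∀ j, ∀ p ∈ Q j, p.Prime ∧ P ≤ (p : ℝ) ∧ (p : ℝ) ≤ 2 * P :=
    fun j p hp => hp1 p (hQ1 j hp)
  have h4P : (4 * P ^ 2) ^ k = 4 ^ k * S.K := by
    rw [mul_pow, ← pow_mul, hP2k]
  -- ends
  have hends : ∀ x ∈ E0, S.K ^ (2 - 2 * (2 * k * sg k θ) - 3 * sg k θ) ≤
      ((S.V.filter (fun z => (SS S.K (S.K ^ θ) (S.g x) (S.g z)).Nonempty)).card : ℝ) := by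
    intro x hx
    have hxV := hE0 hx
    obtain ⟨H, hH, hHc⟩ := hE0H x hx
    have hW : ∀ t ∈ H, x ∈ S.V ∧ t.1 ∈ S.V ∧ Prim t.2 ∧ ∃ m : ℕ,
        Ret ((2 * S.C) ^ k) S.w (S.g x) (S.g t.1) m t.2 ∧
        S.K ≤ (m : ℝ) ∧ (m : ℝ) ≤ 4 ^ k * S.K ∧ m.primeFactorsList.length = 2 * k := by
      intro t ht
      obtain ⟨w1, w2, w3, m, w4, w5, w6, w7, _⟩ := hWkR.1 S S.V Q P k x t.1 t.2 hK hSC1 hP1 hyp.unim
        (Finset.Subset.refl _) hQp hQ3 (hH t ht).1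
      rw [hP2k] at w5
      rw [h4P] at w6
      exact ⟨w1, w2, w3, m, w4, w5, w6, w7⟩
    have hHk : Hk S k (4 ^ k * S.K) x H := by
      intro t ht
      obtain ⟨_, w2, w3, m, w4, _, w6, w7⟩ := hW t ht
      exact ⟨w2, w3, m, w4, w6, w7.le⟩
    have hcla := hK1 S (S.K ^ sg k θ) hSC hSR t1 hB1 hyp.unim (by rw [← hSC]; exact hyp.ovl) x hxV
      (hyp.gt x hxV) H hHk
    have hcs := hCS S.ι (H.image Prod.fst) H (fun t ht => Finset.mem_image_of_mem _ ht)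
    have hsub : H.image Prod.fst ⊆
        S.V.filter (fun z => (SS S.K (S.K ^ θ) (S.g x) (S.g z)).Nonempty) := by
      intro z hz
      rw [Finset.mem_image] at hz
      obtain ⟨t, ht, rfl⟩ := hz
      obtain ⟨_, w2, _, m, w4, w5, w6, _⟩ := hW t ht
      rw [Finset.mem_filter]
      refine ⟨w2, t.2, ?_⟩
      have hC' : 1 ≤ (2 * S.C) ^ k := one_le_pow₀ (by linarith)
      have h4k : (1 : ℝ) ≤ 4 ^ k := one_le_pow₀ (by norm_num)
      have hm := hMon.2.2 S.K ((2 * S.C) ^ k) (4 ^ k) (S.g x) (S.g t.1) m t.2 hK hC' h4k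
        (by rw [hSC]; exact t5) (hyp.unim x hxV).1 (hyp.unim t.1 w2).1 w4 w5 w6
      refine hMon.1 S.K (2 * (2 * S.C) ^ k * 4 ^ k) (S.K ^ θ) (S.g x) (S.g t.1) hKp ?_ ?_ hm
      · nlinarith
      · rw [hSC]
        exact t6
    have hcard : ((H.image Prod.fst).card : ℝ) ≤
        ((S.V.filter (fun z => (SS S.K (S.K ^ θ) (S.g x) (S.g z)).Nonempty)).card : ℝ) := by
      exact_mod_cast Finset.card_le_card hsub
    refine le_trans ?_ hcard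
    apply ends_le hK ha1 hσ.le (by positivity) (Nat.cast_nonneg _) t3 (c := (H.card : ℝ))
    · -- the number of walks
      have hVk : 0 < (S.V.card : ℝ) ^ k := pow_pos hVpos k
      have e1 : (P ^ 4 * (S.V.card : ℝ)) ^ k = S.K ^ (2 : ℝ) * (S.V.card : ℝ) ^ k := by
        rw [mul_pow, ← pow_mul]
        congr 1
        calc P ^ (4 * k) = (P ^ (2 * k)) ^ 2 := by rw [← pow_mul]; congr 1; ring
          _ = S.K ^ (2 : ℝ) := by rw [hP2k]; norm_cast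
      have e2 : (2 ^ (k + 4) * S.K ^ sg k θ * (S.V.card : ℝ) * S.K ^ sg k θ) ^ k * (H.card : ℝ) =
          (a * S.K ^ (2 * (k : ℝ) * sg k θ) * (H.card : ℝ)) * (S.V.card : ℝ) ^ k := by
        have e3 : S.K ^ (2 * (k : ℝ) * sg k θ) = (S.K ^ sg k θ) ^ k * (S.K ^ sg k θ) ^ k := by
          rw [← Real.rpow_natCast, ← Real.rpow_mul hKp.le, ← Real.rpow_add hKp]
          congr 1
          ring
        rw [e3, ha, mul_pow, mul_pow, mul_pow]
        ring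
      rw [e1, e2] at hHc
      exact le_of_mul_le_mul_right hHc hVk
    · refine hcs.trans (mul_le_mul_of_nonneg_left ?_ (Nat.cast_nonneg _))
      refine hcla.trans (le_of_eq ?_)
      rw [← Real.rpow_add hKp]
      congr 2
      ring
  refine ⟨(S.V ×ˢ S.V).filter (fun t => (SS S.K (S.K ^ θ) (S.g t.1) (S.g t.2)).Nonempty), ?_, ?_⟩
  · intro t ht
    rw [Finset.mem_filter, Finset.mem_product] at ht
    exact ⟨ht.1.1, ht.1.2, ht.2⟩
  · rw [card_prod_filter]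
    push_cast
    obtain ⟨L, hL⟩ : ∃ L : ℝ, L = S.K ^ (2 - 2 * (2 * k * sg k θ) - 3 * sg k θ) := ⟨_, rfl⟩
    rw [← hL] at hends
    have hL0 : 0 < L := by rw [hL]; exact Real.rpow_pos_of_pos hKp _
    have g1 : (E0.card : ℝ) * L ≤ ∑ x ∈ S.V,
        ((S.V.filter (fun z => (SS S.K (S.K ^ θ) (S.g x) (S.g z)).Nonempty)).card : ℝ) := by
      calc (E0.card : ℝ) * L = ∑ x ∈ E0, L := by rw [Finset.sum_const, nsmul_eq_mul]
        _ ≤ ∑ x ∈ E0,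
            ((S.V.filter (fun z => (SS S.K (S.K ^ θ) (S.g x) (S.g z)).Nonempty)).card : ℝ) :=
            Finset.sum_le_sum fun x hx => hends x hx
        _ ≤ _ := Finset.sum_le_sum_of_subset_of_nonneg hE0 fun _ _ _ => Nat.cast_nonneg _
    refine le_trans ?_ g1
    have g2 : S.K ^ (2 - sg k θ) ≤ S.K ^ sg k θ * (E0.card : ℝ) :=
      hyp.lo.trans (hE0c.trans (mul_le_mul_of_nonneg_right t4 (Nat.cast_nonneg _)))
    have g3 : S.K ^ (2 - 2 * sg k θ) ≤ (E0.card : ℝ) := by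
      have e1 : S.K ^ (2 - sg k θ) = S.K ^ sg k θ * S.K ^ (2 - 2 * sg k θ) := by
        rw [← Real.rpow_add hKp]
        congr 1
        ring
      rw [e1] at g2
      exact le_of_mul_le_mul_left g2 (Real.rpow_pos_of_pos hKp _)
    calc S.K ^ (4 - 9 * (k : ℝ) * sg k θ)
        ≤ S.K ^ ((2 - 2 * sg k θ) + (2 - 2 * (2 * k * sg k θ) - 3 * sg k θ)) := by
          apply Real.rpow_le_rpow_of_exponent_le hK
          nlinarith
      _ = S.K ^ (2 - 2 * sg k θ) * L := by rw [hL, Real.rpow_add hKp]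
      _ ≤ (E0.card : ℝ) * L := mul_le_mul_of_nonneg_right g3 hL0.le

end HSL
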