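import Pool.Agent.Lib.HS.L.Spec

/-!
PROJECT H*, PLAN L (MP_a54f13_nt), part HS/L, module Exa: exact transport.
-/

set_option autoImplicit false

namespace HSL

open Matrix

namespace Exa_aux

/-- the map induced by `sub h` between two submodules -/
noncomputable def lin (h : MR) (A B : Submodule ℝ (MvPolynomial (Fin 2 × Fin 2) ℝ))
    (H : ∀ f ∈ A, sub h f ∈ B) : A →ₗ[ℝ] B :=
  LinearMap.restrict (p := A) (q := B) (sub h).toLinearMap H

theorem lin_coe (h : MR) (A B : Submodule ℝ (MvPolynomial (Fin 2 × Fin 2) ℝ))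
    (H : ∀ f ∈ A, sub h f ∈ B) (x : A) :
    ((lin h A B H x : B) : MvPolynomial (Fin 2 × Fin 2) ℝ) = sub h x := rfl

theorem onto (h : MR) (A B : Submodule ℝ (MvPolynomial (Fin 2 × Fin 2) ℝ))
    (H : ∀ f ∈ A, sub h f ∈ B) (hinj : Function.Injective (sub h))
    (hA : FiniteDimensional ℝ A) (hB : FiniteDimensional ℝ B)
    (hd : Module.finrank ℝ A = Module.finrank ℝ B) :
    ∀ F ∈ B, ∃ f ∈ A, sub h f = F := by
  intro F hF
  have hi : Function.Injective (lin h A B H) := by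
    intro x y hxy
    apply Subtype.ext
    apply hinj
    have := congrArg (fun z : B => (z : MvPolynomial (Fin 2 × Fin 2) ℝ)) hxy
    simpa only [lin_coe] using this
  have hs : Function.Surjective (lin h A B H) :=
    (LinearMap.injective_iff_surjective_of_finrank_eq_finrank hd).1 hi
  obtain ⟨x, hx⟩ := hs ⟨F, hF⟩
  refine ⟨x, x.2, ?_⟩
  have := congrArg (fun z : B => (z : MvPolynomial (Fin 2 × Fin 2) ℝ)) hx
  simpa only [lin_coe] using this

end Exa_aux

open Exa_aux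

theorem tExa : S_Sub → S_SSt → S_Mon → S_Fin → S_Exa := by
  intro hSub hSSt hMon hFin e K C N N' a b c m h hK hC hN hK4 hN' ha hb hc hR hd1 hd2
  obtain ⟨hs1, hs2, -, -, hs5, -, hs7, hs8, hs9⟩ := hSub
  obtain ⟨hm1, -, -⟩ := hMon
  obtain ⟨hf1, -, -, -, hf5⟩ := hFin
  have hm0 : 0 < m := hR.2.1
  have hm : (1 : ℝ) ≤ (m : ℝ) := by exact_mod_cast hm0
  have hK0 : (0 : ℝ) < K := by linarith
  have hCm : (1 : ℝ) ≤ 4 * C * m := by nlinarith
  have hNN : N ≤ 4 * C * m * N := by nlinarith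
  have hNN' : N ≤ N' := le_trans hNN hN'
  have h1N : (1 : ℝ) ≤ 4 * C * m * N := le_trans hN hNN
  have hdet : (toR h).det ≠ 0 := by
    rw [hs8, hR.1]
    push_cast
    positivity
  -- equality of the two targets
  have heq : Van e (SS K N b c) = Van e (SS K N' b c) :=
    hf5 e _ _ (hm1 K N N' b c hK0 hN hNN') hd2.symm
  -- the transport
  have htr : ∀ f ∈ Van e (SS K N' a c), sub (toR h) f ∈ Van e (SS K N' b c) := by
    intro f hf
    rw [← heq]
    refine ⟨hs5 _ _ _ hf.1, ?_⟩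
    intro r hr
    have h1 : r * h ∈ SS K (4 * C * m * N) a c :=
      hSSt K C N a b c m r h hK hC hN hK4 ha hb hc hR hr
    have h2 : r * h ∈ SS K N' a c := hm1 K _ N' a c hK0 h1N hN' h1
    have h3 := hf.2 _ h2
    rw [hs2, hs1, ← hs7, ← hs2]
    exact h3
  refine ⟨htr, ?_⟩
  exact onto (toR h) _ _ htr (hs9 _ hdet) (hf1 _ _) (hf1 _ _) (hd1.trans hd2.symm)

end HSL
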