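import Pool.Agent.Lib.HS.L.Spec

/-!
# PROJECT H*, PLAN L (MP_a54f13_nt), HS/L, module Fin: the spaces of forms are finite dimensional
-/

set_option autoImplicit false

namespace HSL

open Matrix

namespace Fin_aux

/-- the monomials with exponents at most `e` -/
noncomputable def mon (e : ℕ) (d : Fin 2 × Fin 2 → Fin (e + 1)) :
    MvPolynomial (Fin 2 × Fin 2) ℝ :=
  MvPolynomial.monomial (Finsupp.equivFunOnFinite.symm (fun i => (d i : ℕ))) 1

theorem le_span (e : ℕ) (A : Set MZ) : Van e A ≤ Submodule.span ℝ (Set.range (mon e)) := by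
  intro f hf
  obtain ⟨h1, -⟩ := hf
  rw [← MvPolynomial.support_sum_monomial_coeff f]
  refine Submodule.sum_mem _ fun v hv => ?_
  have hv' : MvPolynomial.coeff v f ≠ 0 := MvPolynomial.mem_support_iff.1 hv
  have hw := h1 hv'
  have hle : ∀ i, v i < e + 1 := by
    intro i
    have h2 := Finsupp.le_weight (1 : Fin 2 × Fin 2 → ℕ) (s := i) one_ne_zero v
    omega
  have h3 : MvPolynomial.monomial v (MvPolynomial.coeff v f) =
      (MvPolynomial.coeff v f) • mon e (fun i => ⟨v i, hle i⟩) := by
    unfold mon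
    rw [MvPolynomial.smul_monomial, smul_eq_mul, mul_one]
    have h4 : v = Finsupp.equivFunOnFinite.symm (fun i => v i) := Finsupp.ext fun _ => rfl
    exact congrArg (fun u => MvPolynomial.monomial u (MvPolynomial.coeff v f)) h4
  rw [h3]
  exact Submodule.smul_mem _ _ (Submodule.subset_span ⟨_, rfl⟩)

instance fds (e : ℕ) : FiniteDimensional ℝ (Submodule.span ℝ (Set.range (mon e))) :=
  FiniteDimensional.span_of_finite ℝ (Set.finite_range _)

theorem fd (e : ℕ) (A : Set MZ) : FiniteDimensional ℝ (Van e A) :=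
  Submodule.finiteDimensional_of_le (le_span e A)

theorem le_Dm (e : ℕ) (A : Set MZ) : Module.finrank ℝ (Van e A) ≤ Dm e := by
  refine (Submodule.finrank_mono (le_span e A)).trans ?_
  refine (finrank_range_le_card (mon e)).trans (le_of_eq ?_)
  rw [Fintype.card_fun, Fintype.card_fin, Fintype.card_prod, Fintype.card_fin]
  rfl

theorem anti (e : ℕ) (A B : Set MZ) (h : A ⊆ B) : Van e B ≤ Van e A :=
  fun _ hf => ⟨hf.1, fun r hr => hf.2 r (h hr)⟩

end Fin_aux

open Fin_aux in
theorem tFin : S_Fin := by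
  refine ⟨fd, le_Dm, anti, ?_, ?_⟩
  · intro e A
    rw [Submodule.eq_bot_iff]
    exact ⟨fun h f hf => h f hf.1 hf.2, fun h f h1 h2 => h f ⟨h1, h2⟩⟩
  · intro e A B h hd
    have := fd e A
    exact (Submodule.eq_of_le_of_finrank_eq (anti e A B h) hd.symm).symm

end HSL
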