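import Pool.Agent.Lib.HS.L.Spec

set_option autoImplicit false

/-!
PROJECT H*, PLAN L (MP_a54f13_nt), part HS/L, module GP: general position.
-/

namespace HSL

open Matrix

namespace GP_aux

/-- the bound for the size -/
theorem size {C K θ : ℝ} {k D : ℕ} (hk : 100 * (D + 1) ≤ k) (hC : 1 ≤ C) (hθ : 0 < θ)
    (hθk : θ ≤ 1 / (100 * (k : ℝ))) (hK1 : 1 ≤ K) (h1 : (16 * C) ^ (k : ℝ) ≤ K)
    (h2 : 4 * C ^ 2 ≤ K) :
    K ^ θ * (4 * C * (4 * K ^ ((1 + θ) / (k : ℝ)))) ^ (D + 1) ≤ K ^ (3 * ((D : ℝ) + 1) / (k : ℝ)) ∧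
      4 * C ^ 2 * (K ^ θ * (4 * C * (4 * K ^ ((1 + θ) / (k : ℝ)))) ^ (D + 1)) ^ 2 ≤ K ^ 4 := by
  have hK0 : 0 < K := lt_of_lt_of_le one_pos hK1
  have hkR : (100 : ℝ) * ((D : ℝ) + 1) ≤ (k : ℝ) := by exact_mod_cast hk
  have hD0 : (0 : ℝ) ≤ (D : ℝ) := Nat.cast_nonneg _
  have hk0 : (0 : ℝ) < (k : ℝ) := by linarith
  have h3 : 16 * C ≤ K ^ (1 / (k : ℝ)) := by
    have h4 := Real.rpow_le_rpow (by positivity) h1 (by positivity : (0 : ℝ) ≤ 1 / (k : ℝ))
    rwa [← Real.rpow_mul (by positivity), mul_one_div_cancel hk0.ne', Real.rpow_one] at h4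
  have h5 : 4 * C * (4 * K ^ ((1 + θ) / (k : ℝ))) ≤ K ^ ((2 + θ) / (k : ℝ)) := by
    have h6 : K ^ ((2 + θ) / (k : ℝ)) = K ^ (1 / (k : ℝ)) * K ^ ((1 + θ) / (k : ℝ)) := by
      rw [← Real.rpow_add hK0]
      congr 1
      field_simp
      ring
    rw [h6]
    have h7 := mul_le_mul_of_nonneg_right h3
      (Real.rpow_nonneg hK0.le ((1 + θ) / (k : ℝ)))
    linarith
  have h8 : (4 * C * (4 * K ^ ((1 + θ) / (k : ℝ)))) ^ (D + 1) ≤
      K ^ ((2 + θ) / (k : ℝ) * ((D : ℝ) + 1)) := by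
    have h9 := pow_le_pow_left₀ (by positivity) h5 (D + 1)
    refine h9.trans (le_of_eq ?_)
    rw [Real.rpow_mul hK0.le]
    have h10 : ((D : ℝ) + 1) = ((D + 1 : ℕ) : ℝ) := by push_cast; ring
    rw [h10, Real.rpow_natCast]
  have h11 : K ^ θ * (4 * C * (4 * K ^ ((1 + θ) / (k : ℝ)))) ^ (D + 1) ≤
      K ^ (3 * ((D : ℝ) + 1) / (k : ℝ)) := by
    refine (mul_le_mul_of_nonneg_left h8 (Real.rpow_nonneg hK0.le θ)).trans ?_
    rw [← Real.rpow_add hK0]
    apply Real.rpow_le_rpow_of_exponent_le hK1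
    have h12 : θ * (100 * (k : ℝ)) ≤ 1 := by
      rwa [le_div_iff₀ (by positivity)] at hθk
    rw [div_mul_eq_mul_div, ← sub_nonneg]
    have h13 : 3 * ((D : ℝ) + 1) / (k : ℝ) - (θ + (2 + θ) * ((D : ℝ) + 1) / (k : ℝ)) =
        (((D : ℝ) + 1) * (1 - θ) - θ * (k : ℝ)) / (k : ℝ) := by
      field_simp
      ring
    rw [h13]
    apply div_nonneg _ hk0.le
    have h14 : θ ≤ 1 / 100 := by
      have : θ * 100 ≤ θ * (100 * (k : ℝ)) := by
        apply mul_le_mul_of_nonneg_left _ hθ.le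
        linarith
      linarith
    have h15 : ((D : ℝ) + 1) * (1 - θ) ≥ 1 * (1 - θ) :=
      mul_le_mul_of_nonneg_right (by linarith) (by linarith)
    linarith
  refine ⟨h11, ?_⟩
  have h16 : K ^ (3 * ((D : ℝ) + 1) / (k : ℝ)) ≤ K := by
    conv_rhs => rw [← Real.rpow_one K]
    apply Real.rpow_le_rpow_of_exponent_le hK1
    rw [div_le_one hk0]
    linarith
  have h17 : K ^ θ * (4 * C * (4 * K ^ ((1 + θ) / (k : ℝ)))) ^ (D + 1) ≤ K := h11.trans h16
  have h18 := pow_le_pow_left₀ (by positivity) h17 2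
  calc 4 * C ^ 2 * (K ^ θ * (4 * C * (4 * K ^ ((1 + θ) / (k : ℝ)))) ^ (D + 1)) ^ 2
      ≤ K * K ^ 2 := mul_le_mul h2 h18 (by positivity) hK0.le
    _ = K ^ 3 := by ring
    _ ≤ K ^ 4 := pow_le_pow_right₀ hK1 (by norm_num)

/-- a walk starts in `E` -/
theorem start {S : Sys} {E : Finset S.ι} {Q : ℕ → Finset ℕ} {n : ℕ} {x z : S.ι} {h : MZ}
    (hw : Walk S E Q n x z h) : x ∈ E := by
  induction hw with
  | nil i hi => exact hi
  | cons n i j l p q h h' hw hl hs ih => exact ih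

end GP_aux

theorem tGP : S_Sub → S_Mon → S_TR → S_WkT → S_Alg → S_Loop → S_End → S_GP := by
  classical
  intro _ hMon hTR hWkT hAlg hLoop hEnd e k C R θ hk hC hR hθ hθk
  have hk1 : 1 ≤ k := by omega
  obtain ⟨KL, hL⟩ := hLoop k C R θ hk1 hC hR hθ hθk
  obtain ⟨KE, hE⟩ := hEnd k C R θ hk1 hC hR hθ hθk
  have hkR : (0 : ℝ) < (k : ℝ) := by exact_mod_cast hk1
  have hkR1 : (1 : ℝ) ≤ (k : ℝ) := by exact_mod_cast hk1
  have hσ : 0 < sg k θ := by unfold sg; positivity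
  refine ⟨max (max KL KE) (max (max ((16 * C) ^ (k : ℝ)) (4 * C ^ 2))
    ((2 * ((Dm e : ℝ) + 1) ^ 2) ^ (1 / sg k θ))), ?_⟩
  intro S hSC hSR hK0 hyp
  have hKL : KL ≤ S.K := ((le_max_left _ _).trans (le_max_left _ _)).trans hK0
  have hKE : KE ≤ S.K := ((le_max_right _ _).trans (le_max_left _ _)).trans hK0
  have hKa : (16 * C) ^ (k : ℝ) ≤ S.K :=
    (((le_max_left _ _).trans (le_max_left _ _)).trans (le_max_right _ _)).trans hK0
  have hKb : 4 * C ^ 2 ≤ S.K :=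
    (((le_max_right _ _).trans (le_max_left _ _)).trans (le_max_right _ _)).trans hK0
  have hKc : (2 * ((Dm e : ℝ) + 1) ^ 2) ^ (1 / sg k θ) ≤ S.K :=
    ((le_max_right _ _).trans (le_max_right _ _)).trans hK0
  have hK1 : 1 ≤ S.K := hyp.hK
  have hKp : 0 < S.K := lt_of_lt_of_le one_pos hK1
  have hσK : 2 * ((Dm e : ℝ) + 1) ^ 2 ≤ S.K ^ sg k θ := by
    have h := Real.rpow_le_rpow (by positivity) hKc hσ.le
    rwa [← Real.rpow_mul (by positivity), one_div_mul_cancel hσ.ne', Real.rpow_one] at h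
  have hD0 : (0 : ℝ) ≤ (Dm e : ℝ) := Nat.cast_nonneg _
  have hσ2 : 2 ≤ S.K ^ sg k θ := by nlinarith
  obtain ⟨hs1, hs2⟩ := GP_aux.size hk hC hθ hθk hK1 hKa hKb
  obtain ⟨G, hG, hGc⟩ := hE S hSC hSR hKE hyp
  have hN01 : 1 ≤ S.K ^ θ := Real.one_le_rpow hK1 hθ.le
  have hM1 : 1 ≤ 4 * S.K ^ ((1 + θ) / (k : ℝ)) := by
    have := Real.one_le_rpow hK1 (by positivity : (0 : ℝ) ≤ (1 + θ) / (k : ℝ))
    linarith
  have hN1 : 1 ≤ S.K ^ θ * (4 * C * (4 * S.K ^ ((1 + θ) / (k : ℝ)))) ^ (Dm e + 1) := by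
    have h4 : 1 ≤ 4 * C * (4 * S.K ^ ((1 + θ) / (k : ℝ))) := by nlinarith
    have h5 := one_le_pow₀ h4 (n := Dm e + 1)
    nlinarith
  generalize hN : S.K ^ θ * (4 * C * (4 * S.K ^ ((1 + θ) / (k : ℝ)))) ^ (Dm e + 1) = N at *
  by_cases hc : (G.card : ℝ) ≤
    2 * ((G.filter (fun t => Gen e (SS S.K N (S.g t.1) (S.g t.2)))).card : ℝ)
  · refine ⟨G.filter (fun t => Gen e (SS S.K N (S.g t.1) (S.g t.2))), ?_, ?_⟩
    · intro t ht
      rw [Finset.mem_filter] at ht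
      exact ⟨(hG t ht.1).1, (hG t ht.1).2.1,
        hMon.2.1 e _ _ (hMon.1 S.K N _ _ _ hKp hN1 hs1) ht.2⟩
    · have h4 : S.K ^ (4 - 9 * (k : ℝ) * sg k θ) =
          S.K ^ (4 - 10 * (k : ℝ) * sg k θ) * S.K ^ ((k : ℝ) * sg k θ) := by
        rw [← Real.rpow_add hKp]
        congr 1
        ring
      have h5 : S.K ^ sg k θ ≤ S.K ^ ((k : ℝ) * sg k θ) := by
        apply Real.rpow_le_rpow_of_exponent_le hK1
        nlinarith
      have h6 : 0 ≤ S.K ^ (4 - 10 * (k : ℝ) * sg k θ) := Real.rpow_nonneg hKp.le _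
      nlinarith
  · exfalso
    rw [not_le] at hc
    have hGpos : (0 : ℝ) < G.card := lt_of_lt_of_le (Real.rpow_pos_of_pos hKp _) hGc
    have hGne : G.Nonempty := by
      rw [← Finset.card_pos]
      exact_mod_cast hGpos
    obtain ⟨t0, ht0⟩ := hGne
    have hVne : S.V.Nonempty := ⟨t0.1, (hG t0 ht0).1⟩
    have hVpos : (0 : ℝ) < S.V.card := by exact_mod_cast Finset.card_pos.mpr hVne
    set G2 := G.filter (fun t => ¬ Gen e (SS S.K N (S.g t.1) (S.g t.2))) with hG2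
    have hsplit := Finset.card_filter_add_card_filter_not (s := G)
      (fun t => Gen e (SS S.K N (S.g t.1) (S.g t.2)))
    have hG2c : (G.card : ℝ) < 2 * (G2.card : ℝ) := by
      have h7 : ((G.filter (fun t => Gen e (SS S.K N (S.g t.1) (S.g t.2)))).card : ℝ) +
          (G2.card : ℝ) = (G.card : ℝ) := by exact_mod_cast hsplit
      linarith
    obtain ⟨y, hy, hyc⟩ := Finset.exists_le_card_fiber_of_nsmul_le_card_of_maps_to (s := G2)
      (t := S.V) (f := fun t => t.2) (b := (G2.card : ℝ) / (S.V.card : ℝ))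
      (fun t ht => (hG t (Finset.mem_filter.mp ht).1).2.1) hVne (by
        rw [nsmul_eq_mul, mul_div_cancel₀ _ hVpos.ne'])
    set E := (G2.filter (fun t => t.2 = y)).image Prod.fst with hEdef
    have hEcard : E.card = (G2.filter (fun t => t.2 = y)).card := by
      apply Finset.card_image_of_injOn
      intro a ha b hb hab
      have ha2 := (Finset.mem_filter.mp (Finset.mem_coe.mp ha)).2
      have hb2 := (Finset.mem_filter.mp (Finset.mem_coe.mp hb)).2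
      exact Prod.ext hab (ha2.trans hb2.symm)
    have hEm : ∀ x ∈ E, (x, y) ∈ G ∧ ¬ Gen e (SS S.K N (S.g x) (S.g y)) := by
      intro x hx
      obtain ⟨t, ht, rfl⟩ := Finset.mem_image.mp hx
      obtain ⟨ht1, ht2⟩ := Finset.mem_filter.mp ht
      obtain ⟨ht3, ht4⟩ := Finset.mem_filter.mp ht1
      have h8 : t = (t.1, y) := Prod.ext rfl ht2
      constructor
      · rw [← h8]
        exact ht3
      · rw [ht2] at ht4
        exact ht4
    have hEV : E ⊆ S.V := fun x hx => (hG (x, y) (hEm x hx).1).1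
    have hEge : (G.card : ℝ) ≤ 2 * (S.V.card : ℝ) * (E.card : ℝ) := by
      rw [← hEcard, div_le_iff₀ hVpos] at hyc
      nlinarith
    have hEne : E.Nonempty := by
      rw [← Finset.card_pos]
      by_contra hcon
      have h9 : E.card = 0 := by omega
      rw [h9, Nat.cast_zero, mul_zero] at hEge
      linarith
    obtain ⟨E', I, hE'E, hE'c, hI, hT⟩ := hTR e S (S.g y) (S.K ^ θ)
      (4 * S.K ^ ((1 + θ) / (k : ℝ))) E hK1 (by rw [hSC]; exact hC) hN01 hM1 hyp.unim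
      (hyp.unim y hy).1 hEV hEne (by rw [hSC, hN]; exact hs2) (by
        intro x hx
        rw [hSC, hN]
        exact (hEm x hx).2)
    have hcard : (S.V.card : ℝ) ≤
        S.K ^ ((10 * (k : ℝ) + 10) * sg k θ) * (E'.card : ℝ) := by
      have hV := hyp.hi
      have e1 : S.K ^ (4 - 9 * (k : ℝ) * sg k θ) ≤
          S.K ^ (2 + 2 * sg k θ) * (E'.card : ℝ) := by
        calc S.K ^ (4 - 9 * (k : ℝ) * sg k θ) ≤ (G.card : ℝ) := hGc
          _ ≤ 2 * (S.V.card : ℝ) * (E.card : ℝ) := hEge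
          _ ≤ 2 * (S.V.card : ℝ) * (((Dm e : ℝ) + 1) ^ 2 * (E'.card : ℝ)) :=
              mul_le_mul_of_nonneg_left hE'c (by positivity)
          _ = (2 * ((Dm e : ℝ) + 1) ^ 2) * (S.V.card : ℝ) * (E'.card : ℝ) := by ring
          _ ≤ S.K ^ sg k θ * S.K ^ (2 + sg k θ) * (E'.card : ℝ) := by
              apply mul_le_mul_of_nonneg_right _ (Nat.cast_nonneg _)
              exact mul_le_mul hσK hV hVpos.le (Real.rpow_nonneg hKp.le _)
          _ = S.K ^ (2 + 2 * sg k θ) * (E'.card : ℝ) := by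
              rw [← Real.rpow_add hKp]
              congr 2
              ring
      calc (S.V.card : ℝ) ≤ S.K ^ (2 + sg k θ) := hV
        _ ≤ S.K ^ (((10 * (k : ℝ) + 10) * sg k θ - (2 + 2 * sg k θ)) +
              (4 - 9 * (k : ℝ) * sg k θ)) := by
            apply Real.rpow_le_rpow_of_exponent_le hK1
            nlinarith
        _ = S.K ^ ((10 * (k : ℝ) + 10) * sg k θ - (2 + 2 * sg k θ)) *
              S.K ^ (4 - 9 * (k : ℝ) * sg k θ) := Real.rpow_add hKp _ _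
        _ ≤ S.K ^ ((10 * (k : ℝ) + 10) * sg k θ - (2 + 2 * sg k θ)) *
              (S.K ^ (2 + 2 * sg k θ) * (E'.card : ℝ)) :=
            mul_le_mul_of_nonneg_left e1 (Real.rpow_nonneg hKp.le _)
        _ = S.K ^ ((10 * (k : ℝ) + 10) * sg k θ) * (E'.card : ℝ) := by
            rw [← mul_assoc, ← Real.rpow_add hKp]
            congr 2
            ring
    obtain ⟨Q, x, z1, z2, h1, h1', h2, h2', hQ, w1, w1', w2, w2', d1, d2, c1, c2, hb⟩ :=
      hL S hSC hSR hKL hyp E' (hE'E.trans hEV) hcard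
    have hst := hWkT e S E' Q k I (4 * S.K ^ ((1 + θ) / (k : ℝ))) (by
      intro j p hp q hq
      have hp' := hQ j p hp
      have hq' := hQ j q hq
      push_cast
      have hr : 0 ≤ S.K ^ ((1 + θ) / (2 * (k : ℝ))) := Real.rpow_nonneg hKp.le _
      have hr2 : S.K ^ ((1 + θ) / (k : ℝ)) =
          S.K ^ ((1 + θ) / (2 * (k : ℝ))) * S.K ^ ((1 + θ) / (2 * (k : ℝ))) := by
        rw [← Real.rpow_add hKp]
        congr 1
        field_simp
        ring
      rw [hr2]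
      calc (p : ℝ) * (q : ℝ) ≤ (2 * S.K ^ ((1 + θ) / (2 * (k : ℝ)))) *
            (2 * S.K ^ ((1 + θ) / (2 * (k : ℝ)))) :=
            mul_le_mul hp' hq' (Nat.cast_nonneg _) (by positivity)
        _ = 4 * (S.K ^ ((1 + θ) / (2 * (k : ℝ))) * S.K ^ ((1 + θ) / (2 * (k : ℝ)))) := by
            ring) (fun x hx => (hI x hx).1) hT
    have hx : x ∈ E' := GP_aux.start w1
    obtain ⟨hI1, hI2, hI3⟩ := hI x hx
    obtain ⟨r0, hr0⟩ := (hG (x, y) (hEm x (hE'E hx)).1).2.2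
    have hr0d : r0.det ≠ 0 := by
      obtain ⟨m, hm, hmd⟩ := hr0.1
      rw [hmd]
      have : (0 : ℤ) < (m : ℤ) := by exact_mod_cast hm
      positivity
    exact hI2 (hAlg e (I x) (h1'.adjugate * h1) (h2'.adjugate * h2) r0 hI1 d1 d2 c1 c2 hb
      (hst x z1 h1 h1' w1 w1') (hst x z2 h2 h2' w2 w2') hr0d (fun f hf => hI3 f hf r0 hr0))

end HSL
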