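import Pool.Agent.Lib.HS.L.Spec

/-!
PROJECT H*, PLAN L (MP_a54f13_nt), part HS/L: two loops in general position (module Loop).
-/

set_option autoImplicit false

namespace HSL

open Matrix

namespace Loop_aux

/-- the numerical data: `u = K^(θ/200)` -/
private lemma num (k : ℕ) (K θ u : ℝ) (hk : 1 ≤ k) (hK : 1 ≤ K) (hθ : 0 < θ)
    (hu : u = K ^ (θ / 200)) :
    (∀ j : ℕ, K ^ ((j : ℝ) * (θ / 200)) = u ^ j) ∧ 1 ≤ u ∧ K ^ sg k θ ≤ u ∧ 1 ≤ K ^ sg k θ ∧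
    0 < sg k θ ∧
    K ^ ((10 * (k : ℝ) + 10) * sg k θ) ≤ u ^ 20 ∧
    (K ^ ((10 * (k : ℝ) + 10) * sg k θ)) ^ k ≤ u ^ 20 ∧
    (K ^ sg k θ * K ^ sg k θ) ^ k ≤ u ^ 2 ∧
    K ^ (2 + sg k θ) ≤ K ^ 2 * u ∧
    K ^ θ = u ^ 200 ∧ K ^ (2 * θ) = u ^ 400 ∧ K ^ (1 + θ) = K * u ^ 200 ∧
    (K ^ ((1 + θ) / (2 * (k : ℝ)))) ^ (2 * k) = K * u ^ 200 ∧
    K ^ (2 + 7 / 2 * θ) = K ^ 2 * u ^ 700 := by
  have hK0 : 0 < K := by linarith
  have hk1 : (1 : ℝ) ≤ k := by exact_mod_cast hk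
  have hk0 : (0 : ℝ) < k := by linarith
  have hkk : (k : ℝ) ≤ (k : ℝ) ^ 2 := by nlinarith
  have hk2 : (1 : ℝ) ≤ (k : ℝ) ^ 2 := by nlinarith
  have hj : ∀ j : ℕ, K ^ ((j : ℝ) * (θ / 200)) = u ^ j := by
    intro j
    rw [mul_comm, Real.rpow_mul hK0.le, Real.rpow_natCast, hu]
  have hu1 : 1 ≤ u := by
    rw [hu]
    exact Real.one_le_rpow hK (by positivity)
  have hsg0 : 0 < sg k θ := by
    unfold sg
    positivity
  have hsgk : (k : ℝ) ^ 2 * sg k θ = θ / 200 := by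
    unfold sg
    field_simp
  have hsg1 : sg k θ ≤ θ / 200 := by
    rw [← hsgk]
    nlinarith
  have hsgk1 : (k : ℝ) * sg k θ ≤ θ / 200 := by
    rw [← hsgk]
    nlinarith
  have hmono : ∀ a b : ℝ, a ≤ b → K ^ a ≤ K ^ b := fun a b h =>
    Real.rpow_le_rpow_of_exponent_le hK h
  have hsu : K ^ sg k θ ≤ u := by
    rw [hu]
    exact hmono _ _ hsg1
  have h20 : K ^ ((10 * (k : ℝ) + 10) * sg k θ) ≤ u ^ 20 := by
    rw [← hj 20]
    refine hmono _ _ ?_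
    push_cast
    nlinarith
  have h20k : (K ^ ((10 * (k : ℝ) + 10) * sg k θ)) ^ k ≤ u ^ 20 := by
    rw [← hj 20, ← Real.rpow_natCast, ← Real.rpow_mul hK0.le]
    refine hmono _ _ ?_
    push_cast
    have : (10 * (k : ℝ) + 10) * sg k θ * k = 10 * ((k : ℝ) ^ 2 * sg k θ) + 10 * (k * sg k θ) := by ring
    rw [this, hsgk]
    linarith
  have h2k : (K ^ sg k θ * K ^ sg k θ) ^ k ≤ u ^ 2 := by
    rw [← hj 2, ← Real.rpow_add hK0, ← Real.rpow_natCast, ← Real.rpow_mul hK0.le]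
    refine hmono _ _ ?_
    push_cast
    nlinarith
  have hhi : K ^ (2 + sg k θ) ≤ K ^ 2 * u := by
    rw [Real.rpow_add hK0, Real.rpow_two]
    exact mul_le_mul_of_nonneg_left hsu (by positivity)
  have hθ1 : K ^ θ = u ^ 200 := by
    rw [← hj 200]
    congr 1
    push_cast
    ring
  have hθ2 : K ^ (2 * θ) = u ^ 400 := by
    rw [← hj 400]
    congr 1
    push_cast
    ring
  have hθ3 : K ^ (1 + θ) = K * u ^ 200 := by
    rw [Real.rpow_add hK0, Real.rpow_one, hθ1]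
  have hP : (K ^ ((1 + θ) / (2 * (k : ℝ)))) ^ (2 * k) = K * u ^ 200 := by
    rw [← hθ3, ← Real.rpow_natCast, ← Real.rpow_mul hK0.le]
    congr 1
    push_cast
    field_simp
  have hL : K ^ (2 + 7 / 2 * θ) = K ^ 2 * u ^ 700 := by
    rw [Real.rpow_add hK0, Real.rpow_two, ← hj 700]
    congr 2
    push_cast
    ring
  exact ⟨hj, hu1, hsu, Real.one_le_rpow hK hsg0.le, hsg0, h20, h20k, h2k, hhi, hθ1, hθ2, hθ3, hP, hL⟩

private lemma tf_trace (s : MZ) : (tf s).trace = 0 := by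
  unfold tf
  rw [Matrix.trace_sub, Matrix.trace_smul, Matrix.trace_smul, Matrix.trace_one]
  simp
  ring

private lemma tf_det (s : MZ) : (tf s).det = - dsc s := by
  unfold tf dsc
  simp only [Matrix.det_fin_two, Matrix.trace_fin_two, Matrix.sub_apply, Matrix.smul_apply, Matrix.one_apply, smul_eq_mul]
  simp
  ring

private lemma lp_det {ι : Type} (t : (ι × MZ) × (ι × MZ)) :
    (lp t).det = t.2.2.det * t.1.2.det := by
  unfold lp
  rw [Matrix.det_mul, Matrix.det_adjugate]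
  simp

private lemma mem_prs {ι : Type} (H : Finset (ι × MZ)) (t : (ι × MZ) × (ι × MZ)) :
    t ∈ prs H ↔ t.1 ∈ H ∧ t.2 ∈ H ∧ t.1.1 = t.2.1 := by
  unfold prs
  simp only [Finset.mem_filter, Finset.mem_product, and_assoc]

/-- the final numerical contradiction -/
private lemma fin_num (n p K u a0 a1 a2 a3 a4 : ℝ) (hK : 1 ≤ K) (hu : 16 ≤ u) (hn : 0 ≤ n)
    (h1 : K ^ 2 * u ^ 377 ≤ n) (h2 : n ^ 2 ≤ K ^ 2 * u * p) (h0 : a0 ≤ 2 * n)
    (hA1 : a1 ≤ u * K ^ 2) (hA2 : a2 ≤ u * (K ^ 2 * u ^ 700)) (hA3 : a3 ≤ u * (K ^ 2 * u ^ 700))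
    (hA4 : a4 ≤ u * (K ^ 2 * u ^ 700)) : a0 + a1 + a2 + a3 + a4 < p := by
  have hu0 : 0 < u := by linarith
  have hu1 : 1 ≤ u := by linarith
  have hK2 : 0 < K ^ 2 := by positivity
  have hn0 : 0 < n := lt_of_lt_of_le (by positivity) h1
  -- n u^376 ≤ p
  have h3 : n * u ^ 376 ≤ p := by
    have h4 : K ^ 2 * u * (n * u ^ 376) ≤ K ^ 2 * u * p := by
      calc K ^ 2 * u * (n * u ^ 376) = n * (K ^ 2 * u ^ 377) := by ring
        _ ≤ n * n := mul_le_mul_of_nonneg_left h1 hn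
        _ = n ^ 2 := by ring
        _ ≤ _ := h2
    exact le_of_mul_le_mul_left h4 (by positivity)
  have hp0 : 0 < p := lt_of_lt_of_le (by positivity) h3
  have h5 : K ^ 2 * u ^ 753 ≤ p := by
    calc K ^ 2 * u ^ 753 = (K ^ 2 * u ^ 377) * u ^ 376 := by ring
      _ ≤ n * u ^ 376 := mul_le_mul_of_nonneg_right h1 (by positivity)
      _ ≤ p := h3
  have h6 : n * 16 ≤ p := by
    refine le_trans (mul_le_mul_of_nonneg_left ?_ hn) h3
    calc (16 : ℝ) ≤ u := hu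
      _ = u ^ 1 := (pow_one u).symm
      _ ≤ u ^ 376 := pow_le_pow_right₀ hu1 (by norm_num)
  have h7 : K ^ 2 * u ^ 701 * 16 ≤ p := by
    refine le_trans ?_ h5
    calc K ^ 2 * u ^ 701 * 16 ≤ K ^ 2 * u ^ 701 * u := mul_le_mul_of_nonneg_left hu (by positivity)
      _ = K ^ 2 * u ^ 702 := by ring
      _ ≤ K ^ 2 * u ^ 753 := mul_le_mul_of_nonneg_left (pow_le_pow_right₀ hu1 (by norm_num)) hK2.le
  have h8 : u * K ^ 2 ≤ K ^ 2 * u ^ 701 := by
    calc u * K ^ 2 = K ^ 2 * u ^ 1 := by ring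
      _ ≤ K ^ 2 * u ^ 701 := mul_le_mul_of_nonneg_left (pow_le_pow_right₀ hu1 (by norm_num)) hK2.le
  have h9 : u * (K ^ 2 * u ^ 700) = K ^ 2 * u ^ 701 := by ring
  rw [h9] at hA2 hA3 hA4
  linarith

end Loop_aux

open Loop_aux

theorem tLoop : S_WkN → S_WkR → S_CS → S_CL0 → S_CLZ → S_CLN → S_CLL → S_CLB → S_Sel → S_Spl →
    S_Loop := by
  intro hWkN hWkR hCS hCL0 hCLZ hCLN hCLL hCLB hSel hSpl k C R θ hk hC hR hθ hθk
  classical
  have hk1 : (1 : ℝ) ≤ k := by exact_mod_cast hk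
  have hθ1 : θ ≤ 1 / 100 := by
    refine hθk.trans ?_
    exact one_div_le_one_div_of_le (by norm_num) (by linarith)
  have hkθ : (k : ℝ) * θ ≤ 1 / 100 := by
    have h1 : 0 < 100 * (k : ℝ) := by linarith
    rw [le_div_iff₀ h1] at hθk
    nlinarith
  obtain ⟨K1, hK1⟩ := hCLN k C R θ hk hC hR hθ hθ1
  obtain ⟨K2, hK2⟩ := hCLL k C R θ hk hC hR hθ hθ1
  obtain ⟨K3, hK3⟩ := hCLB k C R θ hk hC hR hθ hθ1
  obtain ⟨c0, hc0⟩ : ∃ c0 : ℝ, c0 = 32 * R ^ 2 * ((2 * C) ^ k) ^ 2 * 16 ^ k := ⟨_, rfl⟩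
  have hc0p : 0 ≤ c0 := by
    rw [hc0]
    positivity
  obtain ⟨M, hM⟩ : ∃ M : ℝ, M = 16 + 2 ^ ((k + 4) * k) + c0 := ⟨_, rfl⟩
  have hMp : (2 : ℝ) ^ ((k + 4) * k) > 0 := by positivity
  have hM16 : 16 ≤ M := by linarith
  have hMc : c0 < M := by linarith
  have hM2 : (2 : ℝ) ^ ((k + 4) * k) ≤ M := by linarith
  refine ⟨max (max K1 K2) (max K3 (M ^ (200 / θ))), ?_⟩
  intro S hSC hSR hSK hHyp E hEV hE
  have hKK1 : K1 ≤ S.K := le_trans (le_trans (le_max_left _ _) (le_max_left _ _)) hSK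
  have hKK2 : K2 ≤ S.K := le_trans (le_trans (le_max_right _ _) (le_max_left _ _)) hSK
  have hKK3 : K3 ≤ S.K := le_trans (le_trans (le_max_left _ _) (le_max_right _ _)) hSK
  have hKM : M ^ (200 / θ) ≤ S.K := le_trans (le_trans (le_max_right _ _) (le_max_right _ _)) hSK
  have hK : 1 ≤ S.K := hHyp.hK
  have hK0 : 0 < S.K := by linarith
  obtain ⟨u, hu⟩ : ∃ u : ℝ, u = S.K ^ (θ / 200) := ⟨_, rfl⟩
  have huM : M ≤ u := by
    rw [hu]
    have h1 : (M ^ (200 / θ)) ^ (θ / 200) = M := by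
      rw [← Real.rpow_mul (by linarith)]
      have : 200 / θ * (θ / 200) = 1 := by field_simp
      rw [this, Real.rpow_one]
    calc M = (M ^ (200 / θ)) ^ (θ / 200) := h1.symm
      _ ≤ S.K ^ (θ / 200) := Real.rpow_le_rpow (Real.rpow_nonneg (by linarith) _) hKM (by positivity)
  obtain ⟨hj, hu1, hsu, hsg1, hsg0, h20, h20k, h2k, hhi, hKθ, hK2θ, hK1θ, hP2k, hL⟩ :=
    num k S.K θ u hk hK hθ hu
  have hu16 : 16 ≤ u := by linarith
  have hu0 : 0 < u := by linarith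
  have hC1 : 1 ≤ S.C := by rw [hSC]; exact hC
  -- the pool
  obtain ⟨pool, hpool, hpk, hAI⟩ := hHyp.p2
  obtain ⟨P, hP⟩ : ∃ P : ℝ, P = S.K ^ ((1 + θ) / (2 * (k : ℝ))) := ⟨_, rfl⟩
  rw [← hP] at hpool hAI hP2k
  have hP1 : 1 ≤ P := by
    rw [hP]
    exact Real.one_le_rpow hK (by positivity)
  obtain ⟨Q, hQ1, hQ2, hQ3⟩ := hSpl pool k hk hpk
  have hVpos : 0 < (S.V.card : ℝ) := lt_of_lt_of_le (Real.rpow_pos_of_pos hK0 _) hHyp.lo
  have hEpos : 0 < (E.card : ℝ) := by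
    by_contra h
    push Not at h
    have h1 : S.K ^ ((10 * (k : ℝ) + 10) * sg k θ) * (E.card : ℝ) ≤ 0 :=
      mul_nonpos_of_nonneg_of_nonpos (Real.rpow_nonneg hK0.le _) h
    linarith
  have hEne : E.Nonempty := by
    rw [← Finset.card_pos]
    exact_mod_cast hEpos
  have h2M : (2 : ℝ) ^ (k + 1) ≤ M := by
    refine le_trans ?_ hM2
    refine pow_le_pow_right₀ (by norm_num) ?_
    nlinarith
  have hdens : 2 ^ (k + 1) * (S.V.card : ℝ) ≤ S.K ^ θ * (E.card : ℝ) := by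
    rw [hKθ]
    calc 2 ^ (k + 1) * (S.V.card : ℝ) ≤ u * (u ^ 20 * (E.card : ℝ)) := by
          refine mul_le_mul (h2M.trans huM) (hE.trans ?_) hVpos.le hu0.le
          exact mul_le_mul_of_nonneg_right h20 hEpos.le
      _ = u ^ 21 * (E.card : ℝ) := by ring
      _ ≤ u ^ 200 * (E.card : ℝ) :=
          mul_le_mul_of_nonneg_right (pow_le_pow_right₀ hu1 (by norm_num)) hEpos.le
  obtain ⟨E0, hE0E, hE0c, hE0⟩ := hWkN S k P pool θ (S.K ^ (2 * θ)) (sg k θ) (S.K ^ sg k θ) Q E hk hK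
    hC1 hP1 hsg1 hsg0.le hHyp.unim hpool hAI hHyp.ovl hQ1 hQ2 hQ3 hEV hEne hdens
  have hE0ne : E0.Nonempty := by
    rw [Finset.nonempty_iff_ne_empty]
    rintro rfl
    rw [Finset.card_empty] at hE0c
    simp at hE0c
    rw [hE0c] at hEne
    exact (Finset.not_nonempty_empty hEne).elim
  obtain ⟨x, hx⟩ := hE0ne
  have hxV : x ∈ S.V := hEV (hE0E hx)
  obtain ⟨H, hH1, hH2⟩ := hE0 x hx
  -- the number of walks
  have hHn : S.K ^ 2 * u ^ 377 ≤ (H.card : ℝ) := by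
    have h1 : (P ^ 4 * (E.card : ℝ)) ^ k = S.K ^ 2 * u ^ 400 * (E.card : ℝ) ^ k := by
      rw [mul_pow, ← pow_mul, show 4 * k = 2 * k * 2 by ring, pow_mul, hP2k]
      ring
    have h2 : (2 ^ (k + 4) * S.K ^ sg k θ * (S.V.card : ℝ) * S.K ^ sg k θ) ^ k ≤
        u ^ 23 * (E.card : ℝ) ^ k := by
      calc (2 ^ (k + 4) * S.K ^ sg k θ * (S.V.card : ℝ) * S.K ^ sg k θ) ^ k ≤
          (2 ^ (k + 4) * S.K ^ sg k θ * (S.K ^ ((10 * (k : ℝ) + 10) * sg k θ) * (E.card : ℝ)) *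
            S.K ^ sg k θ) ^ k := by
            refine pow_le_pow_left₀ (by positivity) ?_ k
            refine mul_le_mul_of_nonneg_right ?_ (by positivity)
            exact mul_le_mul_of_nonneg_left hE (by positivity)
        _ = 2 ^ ((k + 4) * k) * (S.K ^ sg k θ * S.K ^ sg k θ) ^ k *
            (S.K ^ ((10 * (k : ℝ) + 10) * sg k θ)) ^ k * (E.card : ℝ) ^ k := by
            rw [pow_mul, ← mul_pow, ← mul_pow, ← mul_pow]
            congr 1
            ring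
        _ ≤ u * u ^ 2 * u ^ 20 * (E.card : ℝ) ^ k := by
            refine mul_le_mul_of_nonneg_right ?_ (by positivity)
            refine mul_le_mul ?_ h20k (by positivity) (by positivity)
            exact mul_le_mul (hM2.trans huM) h2k (by positivity) (by positivity)
        _ = u ^ 23 * (E.card : ℝ) ^ k := by ring
    rw [h1] at hH2
    have h3 : S.K ^ 2 * u ^ 400 * (E.card : ℝ) ^ k ≤ u ^ 23 * (E.card : ℝ) ^ k * (H.card : ℝ) :=
      hH2.trans (mul_le_mul_of_nonneg_right h2 (by positivity))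
    have hEk : 0 < (E.card : ℝ) ^ k := by positivity
    have h4 : (u ^ 23 * (E.card : ℝ) ^ k) * (S.K ^ 2 * u ^ 377) ≤
        (u ^ 23 * (E.card : ℝ) ^ k) * (H.card : ℝ) := by
      refine le_trans (le_of_eq ?_) h3
      ring
    exact le_of_mul_le_mul_left h4 (by positivity)
  -- properties of the walks
  have hQp : ∀ j, ∀ p ∈ Q j, p.Prime ∧ P ≤ (p : ℝ) ∧ (p : ℝ) ≤ 2 * P := fun j p hp =>
    hpool p (hQ1 j hp)
  have hW : ∀ t ∈ H, t.1 ∈ S.V ∧ Prim t.2 ∧ ∃ m : ℕ, Ret ((2 * S.C) ^ k) S.w (S.g x) (S.g t.1) m t.2 ∧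
      (m : ℝ) ≤ 4 ^ k * S.K ^ (1 + θ) ∧ m.primeFactorsList.length ≤ 2 * k := by
    intro t ht
    obtain ⟨_, hz, hprim, m, hRet, _, hm2, hml, _⟩ := hWkR.1 S E Q P k x t.1 t.2 hK hC1 hP1 hHyp.unim
      hEV hQp hQ3 (hH1 t ht).1
    refine ⟨hEV hz, hprim, m, hRet, ?_, hml.le⟩
    refine hm2.trans (le_of_eq ?_)
    rw [mul_pow, ← pow_mul, hP2k, hK1θ]
  have hHk : Hk S k (4 ^ k * S.K ^ (1 + θ)) x H := hW
  -- pairs
  have hCSx := hCS S.ι S.V H (fun t ht => (hW t ht).1)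
  have hpp : ((H.card : ℝ)) ^ 2 ≤ S.K ^ 2 * u * ((prs H).card : ℝ) :=
    hCSx.trans (mul_le_mul_of_nonneg_right (hHyp.hi.trans hhi) (by positivity))
  -- the removed sets
  have hA0 : (((prs H).filter (fun t => tf (lp t) = 0)).card : ℝ) ≤ 2 * (H.card : ℝ) := by
    refine hCL0 S.ι H _ ?_ (Finset.filter_subset _ _) ?_
    · intro t ht
      obtain ⟨_, h2, m, h3, _⟩ := hW t ht
      refine ⟨h2, ?_⟩
      rw [h3.1]
      have : (0 : ℤ) < m := by exact_mod_cast h3.2.1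
      positivity
    · intro t ht
      exact (Finset.mem_filter.1 ht).2
  have hB : 1 ≤ S.K ^ sg k θ := hsg1
  have hOvl : S.Ovl ((2 * C) ^ k) (S.K ^ sg k θ) := by
    rw [← hSC]
    exact hHyp.ovl
  have hA1 : (((prs H).filter (fun t => dsc (lp t) < 0)).card : ℝ) ≤ u * S.K ^ 2 := by
    refine (hK1 S (S.K ^ sg k θ) hSC hSR hKK1 hB hHyp.unim hOvl x hxV H hHk _
      (Finset.filter_subset _ _) ?_).trans ?_
    · intro t ht
      exact (Finset.mem_filter.1 ht).2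
    · rw [Real.rpow_two]
      exact mul_le_mul_of_nonneg_right hsu (by positivity)
  have hA2 : ∀ v : MZ, v ≠ 0 → v.trace = 0 → v.det ≠ 0 →
      (((prs H).filter (fun t => brk (lp t) v = 0 ∧ tf (lp t) ≠ 0)).card : ℝ) ≤
        u * (S.K ^ 2 * u ^ 700) := by
    intro v hv1 hv2 hv3
    refine (hK2 S (S.K ^ sg k θ) hSC hSR hKK2 hB hHyp.unim hOvl x hxV (hHyp.gt x hxV) H hHk v hv1 hv2
      hv3 _ (Finset.filter_subset _ _) ?_).trans ?_
    · intro t ht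
      exact (Finset.mem_filter.1 ht).2
    · rw [hL]
      exact mul_le_mul_of_nonneg_right hsu (by positivity)
  have hA3 : ∀ q : Fin 2 → ℤ, q ≠ 0 →
      (((prs H).filter (fun t => dsc (lp t) ≠ 0 ∧ ∃ lam : ℤ, (lp t) *ᵥ q = lam • q)).card : ℝ) ≤
        u * (S.K ^ 2 * u ^ 700) := by
    intro q hq
    refine (hK3 S (S.K ^ sg k θ) hSC hSR hKK3 hB hHyp.unim hOvl x hxV (hHyp.gt x hxV) (hHyp.gz x hxV)
      H hHk q hq _ (Finset.filter_subset _ _) ?_).trans ?_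
    · intro t ht
      exact (Finset.mem_filter.1 ht).2
    · rw [hL]
      exact mul_le_mul_of_nonneg_right hsu (by positivity)
  -- no nilpotent loops
  have hZ : ∀ t ∈ prs H, tf (lp t) ≠ 0 → dsc (lp t) ≠ 0 := by
    intro t ht htf
    obtain ⟨ht1, ht2, hteq⟩ := (mem_prs H t).1 ht
    obtain ⟨_, _, m1, hR1, hm1, _⟩ := hW _ ht1
    obtain ⟨hV2, _, m2, hR2, hm2, _⟩ := hW _ ht2
    obtain ⟨_, p, hpQ, hpd, hDir⟩ := hH1 _ ht1
    obtain ⟨hpp1, hpP, _⟩ := hQp 0 p hpQ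
    rw [hteq] at hR1
    have hw : S.w = 1 / S.K ^ 2 := rfl
    rw [hw, hSC] at hR1 hR2
    have hm1' : (m1 : ℝ) ≤ 4 ^ k * (S.K * u ^ 200) := by rw [← hK1θ]; exact hm1
    have hm2' : (m2 : ℝ) ≤ 4 ^ k * (S.K * u ^ 200) := by rw [← hK1θ]; exact hm2
    have hmm : 32 * R ^ 2 * ((2 * C) ^ k) ^ 2 * (m1 : ℝ) * (m2 : ℝ) ≤ c0 * (S.K ^ 2 * u ^ 400) := by
      calc 32 * R ^ 2 * ((2 * C) ^ k) ^ 2 * (m1 : ℝ) * (m2 : ℝ)
          = 32 * R ^ 2 * ((2 * C) ^ k) ^ 2 * ((m1 : ℝ) * (m2 : ℝ)) := by ring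
        _ ≤ 32 * R ^ 2 * ((2 * C) ^ k) ^ 2 * ((4 ^ k * (S.K * u ^ 200)) * (4 ^ k * (S.K * u ^ 200))) := by
            refine mul_le_mul_of_nonneg_left ?_ (by positivity)
            exact mul_le_mul hm1' hm2' (by positivity) (by positivity)
        _ = 32 * R ^ 2 * ((2 * C) ^ k) ^ 2 * (4 ^ k * 4 ^ k) * (S.K ^ 2 * u ^ 400) := by ring
        _ = c0 * (S.K ^ 2 * u ^ 400) := by
            rw [hc0, ← mul_pow]
            norm_num
    have huP : u ^ 401 ≤ P := by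
      rw [← hj 401, hP]
      refine Real.rpow_le_rpow_of_exponent_le hK ?_
      have hk0 : (0 : ℝ) < 2 * k := by linarith
      rw [le_div_iff₀ hk0]
      have h9 : ((401 : ℕ) : ℝ) * (θ / 200) * (2 * k) = 401 / 100 * ((k : ℝ) * θ) := by
        push_cast
        ring
      rw [h9]
      linarith
    have hc1 : c0 * (S.K ^ 2 * u ^ 400) < (p : ℝ) * S.K ^ 2 := by
      calc c0 * (S.K ^ 2 * u ^ 400) < u * (S.K ^ 2 * u ^ 400) :=
            mul_lt_mul_of_pos_right (by linarith) (by positivity)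
        _ = u ^ 401 * S.K ^ 2 := by ring
        _ ≤ (p : ℝ) * S.K ^ 2 := mul_le_mul_of_nonneg_right (huP.trans hpP) (by positivity)
    have hc2 : c0 * (S.K ^ 2 * u ^ 400) ≤ (S.K ^ (2 * θ)) ^ 2 * S.K ^ 2 := by
      rw [hK2θ]
      calc c0 * (S.K ^ 2 * u ^ 400) ≤ u * (S.K ^ 2 * u ^ 400) :=
            mul_le_mul_of_nonneg_right (by linarith) (by positivity)
        _ = u ^ 401 * S.K ^ 2 := by ring
        _ ≤ u ^ 800 * S.K ^ 2 :=
            mul_le_mul_of_nonneg_right (pow_le_pow_right₀ hu1 (by norm_num)) (by positivity)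
        _ = (u ^ 400) ^ 2 * S.K ^ 2 := by ring
    have hxU := hHyp.unim x hxV
    have hzU := hHyp.unim t.2.1 hV2
    exact hCLZ ((2 * C) ^ k) S.K R (S.K ^ (2 * θ)) (S.g x) (S.g t.2.1) p m1 m2 t.1.2 t.2.2
      (one_le_pow₀ (by linarith)) hK hR (Real.rpow_nonneg (by linarith) _) hxU.1 hzU.1 (fun i j => by rw [← hSR]; exact hxU.2 i j)
      hR1 hR2 hpp1 hpd (lt_of_le_of_lt hmm hc1) (hmm.trans hc2) hDir htf
  have hnn : (0 : ℝ) ≤ (H.card : ℝ) := by positivity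
  -- the first loop
  have ht1 : ∃ t1 ∈ prs H, 0 < dsc (lp t1) := by
    by_contra hno
    push Not at hno
    have hsub : prs H ⊆ (prs H).filter (fun t => tf (lp t) = 0) ∪
        (prs H).filter (fun t => dsc (lp t) < 0) := by
      intro t ht
      rw [Finset.mem_union, Finset.mem_filter, Finset.mem_filter]
      by_cases h1 : tf (lp t) = 0
      · exact Or.inl ⟨ht, h1⟩
      · exact Or.inr ⟨ht, lt_of_le_of_ne (hno t ht) (hZ t ht h1)⟩
    have h2 : ((prs H).card : ℝ) ≤ (((prs H).filter (fun t => tf (lp t) = 0)).card : ℝ) +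
        (((prs H).filter (fun t => dsc (lp t) < 0)).card : ℝ) := by
      exact_mod_cast (Finset.card_le_card hsub).trans (Finset.card_union_le _ _)
    have h3 := fin_num (H.card : ℝ) ((prs H).card : ℝ) S.K u _ _ 0 0 0 hK hu16 hnn hHn hpp hA0 hA1
      (by positivity) (by positivity) (by positivity)
    linarith
  obtain ⟨t1, ht1, hd1⟩ := ht1
  obtain ⟨q1, q2, hq1, hq2, hsel⟩ := hSel (lp t1) hd1
  have hvd : (tf (lp t1)).det ≠ 0 := by
    rw [tf_det]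
    omega
  have hv0 : tf (lp t1) ≠ 0 := by
    intro h
    rw [h] at hvd
    simp at hvd
  -- the second loop
  have ht2 : ∃ t2 ∈ prs H, 0 < dsc (lp t2) ∧ (brk (lp t1) (lp t2)).det ≠ 0 := by
    by_contra hno
    push Not at hno
    obtain ⟨A0, hA0d⟩ : ∃ A : Finset ((S.ι × MZ) × (S.ι × MZ)),
      A = (prs H).filter (fun t => tf (lp t) = 0) := ⟨_, rfl⟩
    obtain ⟨A1, hA1d⟩ : ∃ A : Finset ((S.ι × MZ) × (S.ι × MZ)),
      A = (prs H).filter (fun t => dsc (lp t) < 0) := ⟨_, rfl⟩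
    obtain ⟨A2, hA2d⟩ : ∃ A : Finset ((S.ι × MZ) × (S.ι × MZ)),
      A = (prs H).filter (fun t => brk (lp t) (tf (lp t1)) = 0 ∧ tf (lp t) ≠ 0) := ⟨_, rfl⟩
    obtain ⟨A3, hA3d⟩ : ∃ A : Finset ((S.ι × MZ) × (S.ι × MZ)),
      A = (prs H).filter (fun t => dsc (lp t) ≠ 0 ∧ ∃ lam : ℤ, (lp t) *ᵥ q1 = lam • q1) := ⟨_, rfl⟩
    obtain ⟨A4, hA4d⟩ : ∃ A : Finset ((S.ι × MZ) × (S.ι × MZ)),
      A = (prs H).filter (fun t => dsc (lp t) ≠ 0 ∧ ∃ lam : ℤ, (lp t) *ᵥ q2 = lam • q2) := ⟨_, rfl⟩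
    have hA2x := hA2 (tf (lp t1)) hv0 (tf_trace _) hvd
    have hA3x := hA3 q1 hq1
    have hA4x := hA3 q2 hq2
    rw [← hA0d] at hA0
    rw [← hA1d] at hA1
    rw [← hA2d] at hA2x
    rw [← hA3d] at hA3x
    rw [← hA4d] at hA4x
    have hsub : prs H ⊆ A0 ∪ A1 ∪ A2 ∪ A3 ∪ A4 := by
      intro t ht
      simp only [Finset.mem_union]
      by_cases h1 : tf (lp t) = 0
      · refine Or.inl (Or.inl (Or.inl (Or.inl ?_)))
        rw [hA0d, Finset.mem_filter]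
        exact ⟨ht, h1⟩
      · have h2 := hZ t ht h1
        by_cases h3 : dsc (lp t) < 0
        · refine Or.inl (Or.inl (Or.inl (Or.inr ?_)))
          rw [hA1d, Finset.mem_filter]
          exact ⟨ht, h3⟩
        · have h4 : 0 < dsc (lp t) := by omega
          rcases hsel (lp t) (hno t ht h4) with h5 | h5 | h5
          · refine Or.inl (Or.inl (Or.inr ?_))
            rw [hA2d, Finset.mem_filter]
            exact ⟨ht, h5, h1⟩
          · refine Or.inl (Or.inr ?_)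
            rw [hA3d, Finset.mem_filter]
            exact ⟨ht, h2, h5⟩
          · refine Or.inr ?_
            rw [hA4d, Finset.mem_filter]
            exact ⟨ht, h2, h5⟩
    have h6 : (prs H).card ≤ A0.card + A1.card + A2.card + A3.card + A4.card := by
      refine (Finset.card_le_card hsub).trans ?_
      refine (Finset.card_union_le _ _).trans (Nat.add_le_add_right ?_ _)
      refine (Finset.card_union_le _ _).trans (Nat.add_le_add_right ?_ _)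
      refine (Finset.card_union_le _ _).trans (Nat.add_le_add_right ?_ _)
      exact Finset.card_union_le _ _
    have h7 : ((prs H).card : ℝ) ≤ (A0.card : ℝ) + A1.card + A2.card + A3.card + A4.card := by
      exact_mod_cast h6
    have h3 := fin_num (H.card : ℝ) ((prs H).card : ℝ) S.K u _ _ _ _ _ hK hu16 hnn hHn hpp hA0 hA1
      hA2x hA3x hA4x
    linarith
  obtain ⟨t2, ht2, hd2, hbr⟩ := ht2
  obtain ⟨ha1, ha2, ha3⟩ := (mem_prs H t1).1 ht1
  obtain ⟨hb1, hb2, hb3⟩ := (mem_prs H t2).1 ht2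
  have hdet : ∀ t ∈ H, 0 < t.2.det := by
    intro t ht
    obtain ⟨_, _, m, h3, _⟩ := hW t ht
    rw [h3.1]
    have : (0 : ℤ) < m := by exact_mod_cast h3.2.1
    positivity
  refine ⟨Q, x, t1.2.1, t2.2.1, t1.1.2, t1.2.2, t2.1.2, t2.2.2, ?_, ?_, (hH1 _ ha2).1, ?_,
    (hH1 _ hb2).1, ?_, ?_, hd1, hd2, hbr⟩
  · intro j p hp
    rw [← hP]
    exact (hQp j p hp).2.2
  · rw [← ha3]
    exact (hH1 _ ha1).1
  · rw [← hb3]
    exact (hH1 _ hb1).1
  · have h1 := lp_det t1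
    unfold lp at h1
    rw [h1]
    exact mul_pos (hdet _ ha2) (hdet _ ha1)
  · have h1 := lp_det t2
    unfold lp at h1
    rw [h1]
    exact mul_pos (hdet _ hb2) (hdet _ hb1)

end HSL
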