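import Pool.Agent.Lib.HS.L.Spec

/-!
# PROJECT H*, PLAN L, HS/L, module `One`: one step lemma (helper1)
-/

set_option autoImplicit false

namespace HSL

open Matrix

namespace One_aux

/-- two pairs of primes with the same product -/
theorem pair_eq {p q p0 q0 : ℕ} (hp : p.Prime) (hp0 : p0.Prime) (hq0 : q0.Prime)
    (h : p * q = p0 * q0) : (p = p0 ∧ q = q0) ∨ (p = q0 ∧ q = p0) := by
  have h1 : p ∣ p0 * q0 := ⟨q, h.symm⟩
  rcases (Nat.Prime.dvd_mul hp).mp h1 with h2 | h2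
  · left
    have h3 : p = p0 := (Nat.prime_dvd_prime_iff_eq hp hp0).mp h2
    subst h3
    exact ⟨rfl, Nat.eq_of_mul_eq_mul_left hp.pos h⟩
  · right
    have h3 : p = q0 := (Nat.prime_dvd_prime_iff_eq hp hq0).mp h2
    subst h3
    refine ⟨rfl, ?_⟩
    rw [mul_comm p0 p] at h
    exact Nat.eq_of_mul_eq_mul_left hp.pos h

/-- the product of the primes of a step is determined by the matrix -/
theorem prod_eq {S : Sys} {Q : Finset ℕ} {i j i' j' : S.ι} {p q p' q' : ℕ} {h : MZ}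
    (h1 : S.Step Q i j p q h) (h2 : S.Step Q i' j' p' q' h) : p * q = p' * q' := by
  have e1 : h.det = ((p * q : ℕ) : ℤ) ^ 2 := h1.2.2.2.1
  have e2 : h.det = ((p' * q' : ℕ) : ℤ) ^ 2 := h2.2.2.2.1
  have e3 : ((p * q : ℕ) : ℤ) ^ 2 = ((p' * q' : ℕ) : ℤ) ^ 2 := e1.symm.trans e2
  have e4 : (p * q) ^ 2 = (p' * q') ^ 2 := by exact_mod_cast e3
  exact Nat.pow_left_injective (n := 2) (by norm_num) e4

/-- counting with fibres of size at most two -/
theorem card_le_two_mul {α β : Type} [DecidableEq β] (A : Finset α) (f : α → β)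
    (hf : ∀ b ∈ A.image f, (A.filter fun a => f a = b).card ≤ 2) :
    A.card ≤ 2 * (A.image f).card := by
  have h := Finset.card_le_mul_card_image_of_maps_to (s := A) (t := A.image f) (f := f)
    (fun a ha => Finset.mem_image_of_mem f ha) 2 hf
  simpa using h

end One_aux

open One_aux in
/-- **One** -/
theorem tOne : S_One := by
  classical
  intro S k P pool Q s0 D σ W hk hK hP hpr hAI hQ hQc hWV hWn hW
  have hKs : 0 < S.K ^ s0 := Real.rpow_pos_of_pos (by linarith) _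
  have hKσ : 0 < S.K ^ σ := Real.rpow_pos_of_pos (by linarith) _
  have hP4 : 0 < P ^ 4 := by positivity
  set Gd : S.ι → Prop := fun x => ∃ T : Finset (S.ι × MZ),
      (∀ t ∈ T, t.1 ∈ W ∧ ∃ p q : ℕ, S.Step Q x t.1 p q t.2 ∧ Sys.Dir D p t.2) ∧
      P ^ 4 * (W.card : ℝ) ≤ 16 * S.K ^ σ * (S.V.card : ℝ) * (T.card : ℝ) with hGd
  refine ⟨W.filter Gd, Finset.filter_subset _ _, ?_, fun x hx => (Finset.mem_filter.mp hx).2⟩
  by_contra hcon
  push Not at hcon
  set X := W.filter (fun x => ¬ Gd x) with hX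
  have hsum : (W.filter Gd).card + X.card = W.card := Finset.card_filter_add_card_filter_not _
  have hsumR : ((W.filter Gd).card : ℝ) + (X.card : ℝ) = (W.card : ℝ) := by exact_mod_cast hsum
  have hXc : (W.card : ℝ) < 2 * (X.card : ℝ) := by linarith
  have hWpos : (0 : ℝ) < W.card := by exact_mod_cast hWn.card_pos
  have hXpos : (0 : ℝ) < X.card := by linarith
  have hXW : X ⊆ W := Finset.filter_subset _ _
  have hdens : (S.V.card : ℝ) ≤ S.K ^ s0 * (X.card : ℝ) := by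
    have h1 : S.K ^ s0 * (W.card : ℝ) ≤ S.K ^ s0 * (2 * (X.card : ℝ)) :=
      mul_le_mul_of_nonneg_left hXc.le hKs.le
    nlinarith
  obtain ⟨T0, hT0, hT0c⟩ := hAI Q hQ hQc X (hXW.trans hWV) hdens
  -- fibres over the starting point
  have hfib : ∀ x ∈ X, (16 * S.K ^ σ * (S.V.card : ℝ)) * ((T0.filter fun t => t.1 = x).card : ℝ) ≤
      2 * (P ^ 4 * (W.card : ℝ)) := by
    intro x hx
    have hxG : ¬ Gd x := (Finset.mem_filter.mp hx).2
    set A := T0.filter (fun t => t.1 = x) with hA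
    set f : S.ι × S.ι × ℕ × ℕ × MZ → S.ι × MZ := fun t => (t.2.1, t.2.2.2.2) with hf
    have hlt : 16 * S.K ^ σ * (S.V.card : ℝ) * ((A.image f).card : ℝ) < P ^ 4 * (W.card : ℝ) := by
      by_contra hle
      push Not at hle
      apply hxG
      refine ⟨A.image f, ?_, hle⟩
      intro t ht
      obtain ⟨u, hu, rfl⟩ := Finset.mem_image.mp ht
      obtain ⟨hu0, hux⟩ := Finset.mem_filter.mp hu
      obtain ⟨-, h2, h3, h4⟩ := hT0 u hu0
      rw [hux] at h3
      exact ⟨hXW h2, u.2.2.1, u.2.2.2.1, h3, h4⟩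
    have hc : A.card ≤ 2 * (A.image f).card := by
      apply card_le_two_mul
      intro b hb
      obtain ⟨u0, hu0, rfl⟩ := Finset.mem_image.mp hb
      obtain ⟨hu00, hu0x⟩ := Finset.mem_filter.mp hu0
      obtain ⟨-, -, h30, -⟩ := hT0 u0 hu00
      have hp0 : u0.2.2.1.Prime := hpr _ (hQ h30.1)
      have hq0 : u0.2.2.2.1.Prime := hpr _ (hQ h30.2.1)
      have hsub : (A.filter fun a => f a = f u0) ⊆
          {u0, (u0.1, u0.2.1, u0.2.2.2.1, u0.2.2.1, u0.2.2.2.2)} := by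
        intro a ha
        obtain ⟨haA, haf⟩ := Finset.mem_filter.mp ha
        obtain ⟨ha0, hax⟩ := Finset.mem_filter.mp haA
        obtain ⟨-, -, h3, -⟩ := hT0 a ha0
        obtain ⟨a1, a2, a3, a4, a5⟩ := a
        obtain ⟨b1, b2, b3, b4, b5⟩ := u0
        simp only [hf, Prod.mk.injEq] at haf
        obtain ⟨e1, e2⟩ := haf
        simp only at hax hu0x h3 h30 hp0 hq0
        subst e1
        subst e2
        subst hax
        subst hu0x
        have hpq := prod_eq h3 h30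
        have hp : a3.Prime := hpr _ (hQ h3.1)
        rcases pair_eq hp hp0 hq0 hpq with ⟨r1, r2⟩ | ⟨r1, r2⟩
        · simp [r1, r2]
        · simp [r1, r2]
      exact (Finset.card_le_card hsub).trans Finset.card_le_two
    have hcR : (A.card : ℝ) ≤ 2 * ((A.image f).card : ℝ) := by exact_mod_cast hc
    have h0 : 0 ≤ 16 * S.K ^ σ * (S.V.card : ℝ) := by positivity
    calc (16 * S.K ^ σ * (S.V.card : ℝ)) * (A.card : ℝ)
        ≤ (16 * S.K ^ σ * (S.V.card : ℝ)) * (2 * ((A.image f).card : ℝ)) :=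
          mul_le_mul_of_nonneg_left hcR h0
      _ = 2 * (16 * S.K ^ σ * (S.V.card : ℝ) * ((A.image f).card : ℝ)) := by ring
      _ ≤ 2 * (P ^ 4 * (W.card : ℝ)) := by linarith
  have hT0sum : (T0.card : ℝ) = ∑ x ∈ X, ((T0.filter fun t => t.1 = x).card : ℝ) := by
    have h1 : T0.card = ∑ x ∈ X, (T0.filter fun t => t.1 = x).card :=
      Finset.card_eq_sum_card_fiberwise fun t ht => (hT0 t ht).1
    rw [h1]
    push_cast
    rfl
  have htot : (16 * S.K ^ σ * (S.V.card : ℝ)) * (T0.card : ℝ) ≤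
      (X.card : ℝ) * (2 * (P ^ 4 * (W.card : ℝ))) := by
    rw [hT0sum, Finset.mul_sum]
    calc ∑ x ∈ X, (16 * S.K ^ σ * (S.V.card : ℝ)) * ((T0.filter fun t => t.1 = x).card : ℝ)
        ≤ ∑ _x ∈ X, 2 * (P ^ 4 * (W.card : ℝ)) := Finset.sum_le_sum hfib
      _ = (X.card : ℝ) * (2 * (P ^ 4 * (W.card : ℝ))) := by rw [Finset.sum_const, nsmul_eq_mul]
  have h5 : 16 * (P ^ 4 * (X.card : ℝ) ^ 2) ≤ (X.card : ℝ) * (2 * (P ^ 4 * (W.card : ℝ))) := by
    nlinarith
  have h6 : 16 * (X.card : ℝ) ≤ 2 * (W.card : ℝ) := by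
    have h7 : (P ^ 4 * (X.card : ℝ)) * (16 * (X.card : ℝ)) ≤
        (P ^ 4 * (X.card : ℝ)) * (2 * (W.card : ℝ)) := by nlinarith
    exact le_of_mul_le_mul_left h7 (by positivity)
  linarith

end HSL
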