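import Pool.Agent.Lib.HS.L.Spec

/-!
PROJECT H*, PLAN L, part HS/L, module `SSt` (helper96): square elements are transported.
-/

set_option autoImplicit false

namespace HSL

open Matrix

namespace SSt_aux

/-- The data of one row of the product. -/
structure Hy (K C N m p q x y : ℝ) : Prop where
  hK : 1 ≤ K
  hC : 1 ≤ C
  hN : 1 ≤ N
  hm : 1 ≤ m
  h4 : 4 * C ^ 2 * N ^ 2 ≤ K ^ 4
  p1 : K / N ≤ |p|
  p2 : |p| ≤ K * N
  q1 : |q| ≤ N / K
  x1 : m / (2 * C) ≤ |x|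
  x2 : |x| ≤ C * m
  y1 : |y| ≤ C * (1 / K ^ 2) * m

lemma qy {K C N m p q x y : ℝ} (H : Hy K C N m p q x y) :
    |q * y| ≤ N * C * m / K ^ 3 := by
  have hK : 0 < K := lt_of_lt_of_le one_pos H.hK
  have h1 : |q * y| ≤ (N / K) * (C * (1 / K ^ 2) * m) := by
    rw [abs_mul]
    exact mul_le_mul H.q1 H.y1 (abs_nonneg _) ((abs_nonneg q).trans H.q1)
  refine h1.trans (le_of_eq ?_)
  field_simp

lemma lo {K C N m p q x y : ℝ} (H : Hy K C N m p q x y) :
    K / (4 * C * m * N) ≤ |p * x + q * y| := by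
  have hK : 0 < K := lt_of_lt_of_le one_pos H.hK
  have hC : 0 < C := lt_of_lt_of_le one_pos H.hC
  have hN : 0 < N := lt_of_lt_of_le one_pos H.hN
  have hm : 0 < m := lt_of_lt_of_le one_pos H.hm
  have h1 : (K / N) * (m / (2 * C)) ≤ |p * x| := by
    rw [abs_mul]
    exact mul_le_mul H.p1 H.x1 (by positivity) (abs_nonneg _)
  have h2 := qy H
  have h3 : |p * x| ≤ |p * x + q * y| + |q * y| := by
    have h := abs_sub (p * x + q * y) (q * y)
    rwa [add_sub_cancel_right] at h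
  have h5 : N * C * m / K ^ 3 ≤ K * m / (4 * C * N) := by
    rw [div_le_div_iff₀ (by positivity) (by positivity)]
    have h := mul_le_mul_of_nonneg_left H.h4 hm.le
    nlinarith [h]
  have h6 : (K / N) * (m / (2 * C)) = K * m / (4 * C * N) + K * m / (4 * C * N) := by
    field_simp
    ring
  have h7 : K / (4 * C * m * N) ≤ K * m / (4 * C * N) := by
    rw [div_le_div_iff₀ (by positivity) (by positivity)]
    have h8 : 1 ≤ m * m := one_le_mul_of_one_le_of_one_le H.hm H.hm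
    have h9 : 0 ≤ K * (4 * C * N) := by positivity
    nlinarith [mul_le_mul_of_nonneg_left h8 h9]
  linarith

lemma up {K C N m p q x y : ℝ} (H : Hy K C N m p q x y) :
    |p * x + q * y| ≤ K * (4 * C * m * N) := by
  have hK : 0 < K := lt_of_lt_of_le one_pos H.hK
  have hC : 0 < C := lt_of_lt_of_le one_pos H.hC
  have hN : 0 < N := lt_of_lt_of_le one_pos H.hN
  have hm : 0 < m := lt_of_lt_of_le one_pos H.hm
  have h1 : |p * x| ≤ (K * N) * (C * m) := by
    rw [abs_mul]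
    exact mul_le_mul H.p2 H.x2 (abs_nonneg _) (by positivity)
  have h2 := qy H
  have h3 : N * C * m / K ^ 3 ≤ K * (N * C * m) := by
    have h4 : N * C * m / K ^ 3 ≤ N * C * m :=
      div_le_self (by positivity) (one_le_pow₀ H.hK)
    exact h4.trans (le_mul_of_one_le_left (by positivity) H.hK)
  have h5 := abs_add_le (p * x) (q * y)
  have h6 : 0 ≤ K * (N * C * m) := by positivity
  calc |p * x + q * y| ≤ (K * N) * (C * m) + K * (N * C * m) := by linarith
    _ ≤ K * (4 * C * m * N) := by nlinarith [h6]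

lemma off {K C N m p q x y : ℝ} (H : Hy K C N m p q x y) :
    |p * y + q * x| ≤ 4 * C * m * N / K := by
  have hK : 0 < K := lt_of_lt_of_le one_pos H.hK
  have hC : 0 < C := lt_of_lt_of_le one_pos H.hC
  have hN : 0 < N := lt_of_lt_of_le one_pos H.hN
  have hm : 0 < m := lt_of_lt_of_le one_pos H.hm
  have h1 : |p * y| ≤ (K * N) * (C * (1 / K ^ 2) * m) := by
    rw [abs_mul]
    exact mul_le_mul H.p2 H.y1 (abs_nonneg _) (by positivity)
  have h2 : |q * x| ≤ (N / K) * (C * m) := by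
    rw [abs_mul]
    exact mul_le_mul H.q1 H.x2 (abs_nonneg _) (by positivity)
  have h3 : (K * N) * (C * (1 / K ^ 2) * m) = C * m * N / K := by
    field_simp
  have h4 : (N / K) * (C * m) = C * m * N / K := by
    field_simp
  have h5 : 4 * C * m * N / K = 4 * (C * m * N / K) := by
    ring
  have h6 : 0 ≤ C * m * N / K := by positivity
  have h7 := abs_add_le (p * y) (q * x)
  rw [h5]
  rw [h3] at h1
  rw [h4] at h2
  linarith

/-- Lower bound for the diagonal entries of a near diagonal matrix. -/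
lemma dg {K C N m x x' y y' : ℝ} (hK : 1 ≤ K) (hC : 1 ≤ C) (hN : 1 ≤ N) (hm : 1 ≤ m)
    (h4 : 4 * C ^ 2 * N ^ 2 ≤ K ^ 4) (hx' : |x'| ≤ C * m) (hy : |y| ≤ C * (1 / K ^ 2) * m)
    (hy' : |y'| ≤ C * (1 / K ^ 2) * m) (hd : x * x' - y * y' = m ^ 2) : m / (2 * C) ≤ |x| := by
  have hK0 : 0 < K := lt_of_lt_of_le one_pos hK
  have hC0 : 0 < C := lt_of_lt_of_le one_pos hC
  have hm0 : 0 < m := lt_of_lt_of_le one_pos hm
  have h1 : |y * y'| ≤ m ^ 2 / 4 := by
    have h : |y * y'| ≤ (C * (1 / K ^ 2) * m) * (C * (1 / K ^ 2) * m) := by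
      rw [abs_mul]
      exact mul_le_mul hy hy' (abs_nonneg _) (by positivity)
    refine h.trans ?_
    have e : (C * (1 / K ^ 2) * m) * (C * (1 / K ^ 2) * m) = C ^ 2 * m ^ 2 / K ^ 4 := by
      field_simp
    rw [e, div_le_div_iff₀ (by positivity) (by norm_num)]
    have h5 : 4 * C ^ 2 ≤ K ^ 4 := by
      have h6 : 1 ≤ N ^ 2 := one_le_pow₀ hN
      have h7 : 4 * C ^ 2 * 1 ≤ 4 * C ^ 2 * N ^ 2 :=
        mul_le_mul_of_nonneg_left h6 (by positivity)
      linarith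
    have h8 := mul_le_mul_of_nonneg_left h5 (sq_nonneg m)
    nlinarith [h8]
  have h2 : m ^ 2 / 2 ≤ |x * x'| := by
    have h3 : m ^ 2 - m ^ 2 / 4 ≤ x * x' := by
      have h5 := (abs_le.1 h1).1
      linarith
    have h5 := le_abs_self (x * x')
    have h6 : 0 ≤ m ^ 2 := sq_nonneg m
    linarith
  rw [abs_mul] at h2
  have h3 : |x| * |x'| ≤ |x| * (C * m) := mul_le_mul_of_nonneg_left hx' (abs_nonneg _)
  have h5 : m ^ 2 / 2 ≤ |x| * (C * m) := h2.trans h3
  rw [div_le_iff₀ (by positivity)]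
  have h6 : m * m ≤ (|x| * (2 * C)) * m := by nlinarith [h5]
  exact le_of_mul_le_mul_right h6 hm0

end SSt_aux

open SSt_aux in
theorem tSSt : S_Fr → S_SSt := by
  intro hFr K C N a b c m r h hK hC hN h4 ha hb hc hRet hr
  obtain ⟨f1, f2, -, -, -, -, -⟩ := hFr
  obtain ⟨hdet, hm, n00, n11, n01, n10⟩ := hRet
  obtain ⟨⟨mr, hmr, hdr⟩, r00, r00', r11, r11', r01, r10⟩ := hr
  have hm1 : (1 : ℝ) ≤ (m : ℝ) := by exact_mod_cast hm
  have hM : (fr a b h) 0 0 * (fr a b h) 1 1 - (fr a b h) 0 1 * (fr a b h) 1 0 = (m : ℝ) ^ 2 := by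
    have e := f2 a b h ha hb
    rw [Matrix.det_fin_two, hdet] at e
    rw [e]
    push_cast
    ring
  have hM' : (fr a b h) 1 1 * (fr a b h) 0 0 - (fr a b h) 0 1 * (fr a b h) 1 0 = (m : ℝ) ^ 2 := by
    rw [← hM]
    ring
  have x0 : (m : ℝ) / (2 * C) ≤ |(fr a b h) 0 0| := dg hK hC hN hm1 h4 n11 n01 n10 hM
  have x1 : (m : ℝ) / (2 * C) ≤ |(fr a b h) 1 1| := dg hK hC hN hm1 h4 n00 n01 n10 hM'
  have e : ∀ i j, (fr a c (r * h)) i j =
      (fr b c r) i 0 * (fr a b h) 0 j + (fr b c r) i 1 * (fr a b h) 1 j := by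
    intro i j
    rw [f1 a b c r h hb, Matrix.mul_apply, Fin.sum_univ_two]
  have H00 : Hy K C N m ((fr b c r) 0 0) ((fr b c r) 0 1) ((fr a b h) 0 0) ((fr a b h) 1 0) :=
    ⟨hK, hC, hN, hm1, h4, r00, r00', r01, x0, n00, n10⟩
  have H01 : Hy K C N m ((fr b c r) 0 0) ((fr b c r) 0 1) ((fr a b h) 1 1) ((fr a b h) 0 1) :=
    ⟨hK, hC, hN, hm1, h4, r00, r00', r01, x1, n11, n01⟩
  have H11 : Hy K C N m ((fr b c r) 1 1) ((fr b c r) 1 0) ((fr a b h) 1 1) ((fr a b h) 0 1) :=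
    ⟨hK, hC, hN, hm1, h4, r11, r11', r10, x1, n11, n01⟩
  have H10 : Hy K C N m ((fr b c r) 1 1) ((fr b c r) 1 0) ((fr a b h) 0 0) ((fr a b h) 1 0) :=
    ⟨hK, hC, hN, hm1, h4, r11, r11', r10, x0, n00, n10⟩
  refine ⟨⟨mr * m, Nat.mul_pos hmr hm, ?_⟩, ?_, ?_, ?_, ?_, ?_, ?_⟩
  · rw [Matrix.det_mul, hdr, hdet]
    push_cast
    ring
  · rw [e 0 0]
    exact lo H00
  · rw [e 0 0]
    exact up H00
  · rw [e 1 1, add_comm]
    exact lo H11
  · rw [e 1 1, add_comm]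
    exact up H11
  · rw [e 0 1]
    exact off H01
  · rw [e 1 0, add_comm]
    exact off H10

end HSL
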