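import Pool.Agent.Lib.HS.L.Spec

/-!
PROJECT H*, PLAN L, part HS/L: selection of the two directions (S_Sel).
-/

set_option autoImplicit false

namespace HSL

open Matrix

namespace Sel_aux

/-- the form whose zeros are the lines fixed by `s` -/
def qd (s : MZ) (u v : ℤ) : ℤ := s 1 0 * u ^ 2 - (s 0 0 - s 1 1) * u * v - s 0 1 * v ^ 2

theorem par {u v x y : ℤ} (h : IsCoprime u v) (e : u * y = v * x) :
    ∃ l : ℤ, x = l * u ∧ y = l * v := by
  obtain ⟨a, b, hab⟩ := h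
  refine ⟨a * x + b * y, ?_, ?_⟩
  · linear_combination (-x) * hab - b * e
  · linear_combination (-y) * hab + a * e

theorem fixed {s : MZ} {q : Fin 2 → ℤ} (h : IsCoprime (q 0) (q 1)) (hf : qd s (q 0) (q 1) = 0) :
    ∃ lam : ℤ, s *ᵥ q = lam • q := by
  unfold qd at hf
  obtain ⟨l, h0, h1⟩ := par (x := s 0 0 * q 0 + s 0 1 * q 1) (y := s 1 0 * q 0 + s 1 1 * q 1) h
    (by linear_combination hf)
  refine ⟨l, ?_⟩
  funext i
  fin_cases i
  · simp only [Matrix.mulVec, dotProduct, Fin.sum_univ_two, Pi.smul_apply, smul_eq_mul]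
    exact h0
  · simp only [Matrix.mulVec, dotProduct, Fin.sum_univ_two, Pi.smul_apply, smul_eq_mul]
    exact h1

theorem prim_of {u v : ℤ} (h : ¬(u = 0 ∧ v = 0)) :
    ∃ g u' v' : ℤ, g ≠ 0 ∧ IsCoprime u' v' ∧ u = g * u' ∧ v = g * v' := by
  have hg : 0 < Int.gcd u v := by
    rcases Nat.eq_zero_or_pos (Int.gcd u v) with h0 | h0
    · exact absurd (Int.gcd_eq_zero_iff.mp h0) h
    · exact h0
  obtain ⟨u', v', h1, h2, h3⟩ := Int.exists_gcd_one hg
  refine ⟨(Int.gcd u v : ℤ), u', v', ?_, Int.isCoprime_iff_gcd_eq_one.mpr h1, ?_, ?_⟩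
  · exact_mod_cast hg.ne'
  · rw [mul_comm]; exact h2
  · rw [mul_comm]; exact h3

theorem qd_hom (s : MZ) (g u v : ℤ) : qd s (g * u) (g * v) = g ^ 2 * qd s u v := by
  unfold qd; ring

theorem down {s : MZ} {g u v : ℤ} (hg : g ≠ 0) (h : qd s (g * u) (g * v) = 0) : qd s u v = 0 := by
  rw [qd_hom] at h
  exact (mul_eq_zero.mp h).resolve_left (pow_ne_zero 2 hg)

/-- the entries of the commutator -/
theorem ent (s1 s : MZ) :
    brk s1 s 0 0 = s1 0 1 * s 1 0 - s1 1 0 * s 0 1 ∧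
    brk s1 s 0 1 = (s1 0 0 - s1 1 1) * s 0 1 - s1 0 1 * (s 0 0 - s 1 1) ∧
    brk s1 s 1 0 = s1 1 0 * (s 0 0 - s 1 1) - (s1 0 0 - s1 1 1) * s 1 0 ∧
    brk s1 s 1 1 = -(s1 0 1 * s 1 0 - s1 1 0 * s 0 1) := by
  refine ⟨?_, ?_, ?_, ?_⟩ <;>
    (simp only [brk, Matrix.sub_apply, Matrix.mul_apply, Fin.sum_univ_two]; ring)

/-- the common fixed line -/
theorem common {s1 s : MZ} (hd : (brk s1 s).det = 0) (hn : brk s1 s ≠ 0) :
    ∃ q : Fin 2 → ℤ, IsCoprime (q 0) (q 1) ∧ qd s1 (q 0) (q 1) = 0 ∧ qd s (q 0) (q 1) = 0 := by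
  obtain ⟨e1, e2, e3, e4⟩ := ent s1 s
  rw [Matrix.det_fin_two] at hd
  have key : ∃ u v : ℤ, ¬(u = 0 ∧ v = 0) ∧ qd s1 u v = 0 ∧ qd s u v = 0 := by
    set p := brk s1 s 0 0 with hp
    set r := brk s1 s 0 1 with hr
    set w := brk s1 s 1 0 with hw
    have e4' : brk s1 s 1 1 = -p := by rw [e4, e1]
    rw [e4'] at hd
    have k1 : s1 1 0 * r + (s1 0 0 - s1 1 1) * p + s1 0 1 * w = 0 := by
      rw [e1, e2, e3]; ring
    have k2 : s 1 0 * r + (s 0 0 - s 1 1) * p + s 0 1 * w = 0 := by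
      rw [e1, e2, e3]; ring
    by_cases h : r = 0 ∧ p = 0
    · have hw0 : w ≠ 0 := by
        intro h0
        apply hn
        ext i j
        fin_cases i <;> fin_cases j
        · exact hp.symm.trans h.2
        · exact hr.symm.trans h.1
        · exact hw.symm.trans h0
        · show brk s1 s 1 1 = 0
          rw [e4', h.2, neg_zero]
      refine ⟨0, 1, by simp, ?_, ?_⟩
      · rw [h.1, h.2] at k1
        have : s1 0 1 = 0 := by
          have h5 : s1 0 1 * w = 0 := by linear_combination k1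
          exact (mul_eq_zero.mp h5).resolve_right hw0
        unfold qd
        rw [this]; ring
      · rw [h.1, h.2] at k2
        have : s 0 1 = 0 := by
          have h5 : s 0 1 * w = 0 := by linear_combination k2
          exact (mul_eq_zero.mp h5).resolve_right hw0
        unfold qd
        rw [this]; ring
    · refine ⟨r, -p, ?_, ?_, ?_⟩
      · rintro ⟨h1, h2⟩
        exact h ⟨h1, neg_eq_zero.mp h2⟩
      · unfold qd
        linear_combination r * k1 + s1 0 1 * hd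
      · unfold qd
        linear_combination r * k2 + s 0 1 * hd
  obtain ⟨u, v, h0, h1, h2⟩ := key
  obtain ⟨g, u', v', hg, hc, rfl, rfl⟩ := prim_of h0
  exact ⟨![u', v'], hc, down hg h1, down hg h2⟩

/-- a form with nonzero discriminant has at most two zeros -/
theorem two {s1 : MZ} (h : 0 < dsc s1) {u v u1 v1 u2 v2 : ℤ} (hq : qd s1 u v = 0)
    (h1 : qd s1 u1 v1 = 0) (h2 : qd s1 u2 v2 = 0) (h12 : u1 * v2 - u2 * v1 ≠ 0) :
    u * v1 = v * u1 ∨ u * v2 = v * u2 := by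
  have hd : dsc s1 = (s1 0 0 - s1 1 1) ^ 2 + 4 * s1 0 1 * s1 1 0 := by
    unfold dsc
    rw [Matrix.det_fin_two, Matrix.trace_fin_two]
    ring
  unfold qd at hq h1 h2
  set B : ℤ := 2 * s1 1 0 * u1 * u2 - (s1 0 0 - s1 1 1) * (u1 * v2 + u2 * v1) -
    2 * s1 0 1 * v1 * v2 with hB
  have hB2 : B ^ 2 = dsc s1 * (u1 * v2 - u2 * v1) ^ 2 := by
    rw [hB, hd]
    linear_combination 4 * (s1 1 0 * u2 ^ 2 - (s1 0 0 - s1 1 1) * u2 * v2 - s1 0 1 * v2 ^ 2) * h1
  have hB0 : B ≠ 0 := by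
    intro h0
    rw [h0] at hB2
    have h3 : dsc s1 * (u1 * v2 - u2 * v1) ^ 2 = 0 := by rw [← hB2]; ring
    rcases mul_eq_zero.mp h3 with h4 | h4
    · exact h.ne' h4
    · exact h12 (pow_eq_zero_iff (by norm_num) |>.mp h4)
  have h5 : (u * v1 - v * u1) * (u * v2 - v * u2) * B = 0 := by
    rw [hB]
    linear_combination (u * v2 - v * u2) ^ 2 * h1 + (u * v1 - v * u1) ^ 2 * h2 -
      (u1 * v2 - u2 * v1) ^ 2 * hq
  rcases mul_eq_zero.mp h5 with h6 | h6
  · rcases mul_eq_zero.mp h6 with h7 | h7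
    · left; linarith
    · right; linarith
  · exact absurd h6 hB0

/-- transfer to a proportional vector -/
theorem trans {s : MZ} {u v u1 v1 : ℤ} (hc : IsCoprime u v) (hs : qd s u v = 0)
    (e : u * v1 = v * u1) : qd s u1 v1 = 0 := by
  obtain ⟨l, rfl, rfl⟩ := par hc e
  rw [qd_hom, hs, mul_zero]

theorem comm0 {s1 s : MZ} (h : brk s1 s = 0) : brk s (tf s1) = 0 := by
  have h1 : brk s (tf s1) = -((2 : ℤ) • brk s1 s) := by
    unfold brk tf
    rw [mul_sub, sub_mul, mul_smul_comm, smul_mul_assoc, mul_smul_comm, smul_mul_assoc, mul_one,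
      one_mul, smul_sub]
    abel
  rw [h1, h, smul_zero, neg_zero]

theorem ne0 {q : Fin 2 → ℤ} (h : IsCoprime (q 0) (q 1)) : q ≠ 0 := by
  rintro rfl
  obtain ⟨a, b, hab⟩ := h
  simp at hab

end Sel_aux

open Sel_aux in
theorem tSel : S_Sel := by
  intro s1 hs1
  by_cases hA : ∃ q1 : Fin 2 → ℤ, IsCoprime (q1 0) (q1 1) ∧ qd s1 (q1 0) (q1 1) = 0
  · obtain ⟨q1, hc1, hq1⟩ := hA
    by_cases hB : ∃ q2 : Fin 2 → ℤ, (IsCoprime (q2 0) (q2 1) ∧ qd s1 (q2 0) (q2 1) = 0) ∧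
        q1 0 * q2 1 - q2 0 * q1 1 ≠ 0
    · obtain ⟨q2, ⟨hc2, hq2⟩, h12⟩ := hB
      refine ⟨q1, q2, ne0 hc1, ne0 hc2, fun s hd => ?_⟩
      by_cases hn : brk s1 s = 0
      · exact Or.inl (comm0 hn)
      · obtain ⟨q, hc, hq, hqs⟩ := common hd hn
        rcases two hs1 hq hq1 hq2 h12 with h | h
        · exact Or.inr (Or.inl (fixed hc1 (trans hc hqs h)))
        · exact Or.inr (Or.inr (fixed hc2 (trans hc hqs h)))
    · refine ⟨q1, q1, ne0 hc1, ne0 hc1, fun s hd => ?_⟩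
      by_cases hn : brk s1 s = 0
      · exact Or.inl (comm0 hn)
      · obtain ⟨q, hc, hq, hqs⟩ := common hd hn
        have h0 : q1 0 * q 1 - q 0 * q1 1 = 0 := by
          by_contra h
          exact hB ⟨q, ⟨hc, hq⟩, h⟩
        exact Or.inr (Or.inl (fixed hc1 (trans hc hqs (by linarith))))
  · have h10 : (![1, 0] : Fin 2 → ℤ) ≠ 0 := by
      intro h
      have := congrFun h 0
      simp at this
    refine ⟨![1, 0], ![1, 0], h10, h10, fun s hd => ?_⟩
    by_cases hn : brk s1 s = 0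
    · exact Or.inl (comm0 hn)
    · obtain ⟨q, hc, hq, _⟩ := common hd hn
      exact absurd ⟨q, hc, hq⟩ hA

end HSL
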