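import Pool.Agent.Lib.HS.L.Spec

/-!
PROJECT H*, PLAN L (MP_a54f13_nt), HS/L/Sub: basic facts about right translation.

Author: helper78 (statement and plan: helper81).
-/

set_option autoImplicit false

namespace HSL

open Matrix

namespace Sub_aux

theorem evR_sub (M h : MR) (f : MvPolynomial (Fin 2 × Fin 2) ℝ) :
    evR M (sub h f) = evR (M * h) f := by
  have key : (MvPolynomial.aeval (fun ij : Fin 2 × Fin 2 => M ij.1 ij.2)).comp (sub h) =
      MvPolynomial.aeval (fun ij : Fin 2 × Fin 2 => (M * h) ij.1 ij.2) := by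
    apply MvPolynomial.algHom_ext
    intro ij
    simp [sub, Matrix.mul_apply]
  exact DFunLike.congr_fun key f

theorem evR_ext {f g : MvPolynomial (Fin 2 × Fin 2) ℝ} (h : ∀ M : MR, evR M f = evR M g) :
    f = g := by
  apply MvPolynomial.funext
  intro x
  exact h (Matrix.of fun i j => x (i, j))

theorem evR_smul (c : ℝ) (M : MR) (e : ℕ) (f : MvPolynomial (Fin 2 × Fin 2) ℝ)
    (hf : f.IsHomogeneous e) : evR (c • M) f = c ^ e * evR M f := by
  unfold evR
  rw [MvPolynomial.eval_eq', MvPolynomial.eval_eq', Finset.mul_sum]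
  refine Finset.sum_congr rfl fun d hd => ?_
  have h1 : ∑ i, d i = e := by
    by_contra h2
    apply MvPolynomial.mem_support_iff.mp hd
    apply hf.coeff_eq_zero
    rwa [Finsupp.degree_eq_sum]
  have h3 : ∏ i : Fin 2 × Fin 2, (c • M) i.1 i.2 ^ d i =
      c ^ e * ∏ i : Fin 2 × Fin 2, M i.1 i.2 ^ d i := by
    rw [← h1, ← Finset.prod_pow_eq_pow_sum, ← Finset.prod_mul_distrib]
    refine Finset.prod_congr rfl fun i _ => ?_
    rw [Matrix.smul_apply, smul_eq_mul, mul_pow]
  rw [h3]
  ring

theorem sub_sub' (a b : MR) (f : MvPolynomial (Fin 2 × Fin 2) ℝ) :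
    sub a (sub b f) = sub (a * b) f := by
  apply evR_ext
  intro M
  rw [evR_sub, evR_sub, evR_sub, Matrix.mul_assoc]

theorem sub_one' (f : MvPolynomial (Fin 2 × Fin 2) ℝ) : sub 1 f = f := by
  apply evR_ext
  intro M
  rw [evR_sub, Matrix.mul_one]

end Sub_aux

open Sub_aux in
theorem tSub : S_Sub := by
  refine ⟨evR_sub, fun r f => rfl, sub_sub', sub_one', ?_, ?_, ?_, ?_, ?_⟩
  · intro h e f hf
    have h1 : (sub h f).IsHomogeneous (1 * e) := by
      apply hf.aeval
      intro ij
      apply MvPolynomial.IsHomogeneous.sum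
      intro k _
      exact (MvPolynomial.isHomogeneous_X ℝ _).mul (MvPolynomial.isHomogeneous_C _ _)
    rwa [one_mul] at h1
  · intro c e f hf
    apply evR_ext
    intro M
    rw [evR_sub, Matrix.mul_smul, Matrix.mul_one, evR_smul c M e f hf]
    unfold evR
    rw [MvPolynomial.smul_eval]
  · intro a b
    unfold toR
    ext i j
    simp [Matrix.mul_apply]
  · intro a
    rw [Matrix.det_fin_two, Matrix.det_fin_two]
    simp [toR]
  · intro h hh
    apply Function.LeftInverse.injective (g := sub h⁻¹)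
    intro f
    rw [sub_sub', Matrix.nonsing_inv_mul h (isUnit_iff_ne_zero.mpr hh), sub_one']

end HSL
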