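import Pool.Agent.Lib.HS.L.Spec

/-!
PROJECT H*, part HS/L, module TR (helper65): transport on a dense subset.
-/

set_option autoImplicit false

namespace HSL

open Matrix

namespace TR_aux

/-- a sequence of naturals which drops at every step `j <= D` satisfies `d j + j <= d 0` -/
theorem drop (d : ℕ → ℕ) (D : ℕ) (h : ∀ j, j ≤ D → d (j + 1) < d j) :
    ∀ j, j ≤ D + 1 → d j + j ≤ d 0 := by
  intro j
  induction j with
  | zero => intro _; simp
  | succ j ih =>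
    intro hj
    have h1 := ih (by omega)
    have h2 := h j (by omega)
    omega

theorem stat (d : ℕ → ℕ) (D : ℕ) (hanti : ∀ j, d (j + 1) ≤ d j) (h0 : d 0 ≤ D) :
    ∃ j, j ≤ D ∧ d (j + 1) = d j := by
  by_contra hcon
  push Not at hcon
  have h1 : ∀ j, j ≤ D → d (j + 1) < d j := fun j hj =>
    lt_of_le_of_ne (hanti j) (hcon j hj)
  have h2 := drop d D h1 (D + 1) le_rfl
  omega

/-- pigeonhole with a pair of indices -/
theorem pig {ι : Type} (E : Finset ι) (D : ℕ) (f : ι → ℕ × ℕ)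
    (hf : ∀ x ∈ E, (f x).1 ≤ D ∧ (f x).2 ≤ D) :
    ∃ y : ℕ × ℕ, (E.card : ℝ) ≤ ((D : ℝ) + 1) ^ 2 * ((E.filter (fun x => f x = y)).card : ℝ) := by
  have ht : (Finset.range (D + 1) ×ˢ Finset.range (D + 1)).Nonempty :=
    ⟨(0, 0), by simp⟩
  have hpos : (0 : ℝ) < ((D : ℝ) + 1) ^ 2 := by positivity
  obtain ⟨y, _, hy⟩ := Finset.exists_le_card_fiber_of_nsmul_le_card_of_maps_to
    (s := E) (t := Finset.range (D + 1) ×ˢ Finset.range (D + 1)) (f := f)
    (b := (E.card : ℝ) / ((D : ℝ) + 1) ^ 2)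
    (fun x hx => by
      have := hf x hx
      simp only [Finset.mem_product, Finset.mem_range]
      omega) ht (by
      rw [Finset.card_product, Finset.card_range, nsmul_eq_mul]
      push_cast
      apply le_of_eq
      field_simp)
  refine ⟨y, ?_⟩
  rw [div_le_iff₀ hpos] at hy
  linarith [mul_comm (((E.filter (fun x => f x = y)).card : ℝ)) (((D : ℝ) + 1) ^ 2)]

end TR_aux

theorem tTR : S_Mon → S_Fin → S_Exa → S_TR := by
  intro hMon hFin hExa e S b N0 M E hK hC hN0 hM hUn hb hEV hEne hbig hgen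
  obtain ⟨hm1, _, _⟩ := hMon
  obtain ⟨hf1, hf2, hf3, hf4, _⟩ := hFin
  set D := Dm e with hD
  set q : ℝ := 4 * S.C * M with hq
  have hq1 : 1 ≤ q := by rw [hq]; nlinarith
  have hK0 : 0 < S.K := by linarith
  -- the sequence of sizes
  have hNj1 : ∀ j : ℕ, 1 ≤ N0 * q ^ j := fun j => by
    have h1 : 1 ≤ q ^ j := one_le_pow₀ hq1
    nlinarith
  have hNmono : ∀ i j : ℕ, i ≤ j → N0 * q ^ i ≤ N0 * q ^ j := fun i j hij =>
    mul_le_mul_of_nonneg_left (pow_le_pow_right₀ hq1 hij) (by linarith)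
  have hSS : ∀ (x : S.ι) (i j : ℕ), i ≤ j →
      SS S.K (N0 * q ^ i) (S.g x) b ⊆ SS S.K (N0 * q ^ j) (S.g x) b := fun x i j hij =>
    hm1 S.K _ _ (S.g x) b hK0 (hNj1 i) (hNmono i j hij)
  have hVan : ∀ (x : S.ι) (i j : ℕ), i ≤ j →
      Van e (SS S.K (N0 * q ^ j) (S.g x) b) ≤ Van e (SS S.K (N0 * q ^ i) (S.g x) b) :=
    fun x i j hij => hf3 e _ _ (hSS x i j hij)
  -- dimensions
  have hst : ∀ x : S.ι, ∃ j, j ≤ D ∧
      Module.finrank ℝ (Van e (SS S.K (N0 * q ^ (j + 1)) (S.g x) b)) =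
        Module.finrank ℝ (Van e (SS S.K (N0 * q ^ j) (S.g x) b)) := fun x =>
    TR_aux.stat (fun j => Module.finrank ℝ (Van e (SS S.K (N0 * q ^ j) (S.g x) b))) D
      (fun j => by
        haveI := hf1 e (SS S.K (N0 * q ^ j) (S.g x) b)
        exact Submodule.finrank_mono (hVan x j (j + 1) (Nat.le_succ j)))
      (hf2 e _)
  choose jj hjj1 hjj2 using hst
  obtain ⟨⟨j0, d0⟩, hy⟩ := TR_aux.pig E D
    (fun x => (jj x, Module.finrank ℝ (Van e (SS S.K (N0 * q ^ (jj x)) (S.g x) b))))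
    (fun x _ => ⟨hjj1 x, hf2 e _⟩)
  set E' := E.filter (fun x => (jj x,
    Module.finrank ℝ (Van e (SS S.K (N0 * q ^ (jj x)) (S.g x) b))) = (j0, d0)) with hE'
  have hmem : ∀ x ∈ E', x ∈ E ∧ j0 ≤ D ∧
      Module.finrank ℝ (Van e (SS S.K (N0 * q ^ j0) (S.g x) b)) = d0 ∧
      Module.finrank ℝ (Van e (SS S.K (N0 * q ^ (j0 + 1)) (S.g x) b)) = d0 := by
    intro x hx
    rw [hE', Finset.mem_filter, Prod.mk.injEq] at hx
    obtain ⟨hx1, hx2, hx3⟩ := hx
    have h1 := hjj1 x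
    have h2 := hjj2 x
    rw [hx2] at h1 h2 hx3
    exact ⟨hx1, h1, hx3, h2.trans hx3⟩
  refine ⟨E', fun x => Van e (SS S.K (N0 * q ^ (j0 + 1)) (S.g x) b), Finset.filter_subset _ _,
    hy, ?_, ?_⟩
  · intro x hx
    obtain ⟨hxE, hj0, _, _⟩ := hmem x hx
    refine ⟨fun f hf => hf.1, ?_, fun f hf r hr => ?_⟩
    · intro hbot
      apply hgen x hxE
      rw [hf4]
      have h1 := hVan x (j0 + 1) (D + 1) (by omega)
      exact le_bot_iff.mp (h1.trans (le_of_eq hbot))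
    · have h1 := hSS x 0 (j0 + 1) (Nat.zero_le _)
      rw [pow_zero, mul_one] at h1
      exact hf.2 r (h1 hr)
  · intro x hx x' hx' m h hm hret
    obtain ⟨hxE, hj0, hx3, hx4⟩ := hmem x hx
    obtain ⟨hxE', _, hx3', hx4'⟩ := hmem x' hx'
    have hbig' : 4 * S.C ^ 2 * (N0 * q ^ j0) ^ 2 ≤ S.K ^ 4 := by
      refine le_trans ?_ hbig
      have h1 := hNmono j0 (D + 1) (by omega)
      have h0 := hNj1 j0
      exact mul_le_mul_of_nonneg_left (pow_le_pow_left₀ (by linarith) h1 2) (by positivity)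
    have hlev : 4 * S.C * (m : ℝ) * (N0 * q ^ j0) ≤ N0 * q ^ (j0 + 1) := by
      have h0 := hNj1 j0
      have h1 : 4 * S.C * (m : ℝ) ≤ q := by
        rw [hq]
        exact mul_le_mul_of_nonneg_left hm (by linarith)
      calc 4 * S.C * (m : ℝ) * (N0 * q ^ j0) ≤ q * (N0 * q ^ j0) :=
            mul_le_mul_of_nonneg_right h1 (by linarith)
        _ = N0 * q ^ (j0 + 1) := by ring
    exact hExa e S.K S.C (N0 * q ^ j0) (N0 * q ^ (j0 + 1)) (S.g x) (S.g x') b m h hK hC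
      (hNj1 j0) hbig' hlev (hUn x (hEV hxE)).1 (hUn x' (hEV hxE')).1 hb hret
      (hx4.trans hx3'.symm) (hx4'.trans hx3'.symm)

end HSL
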