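import Pool.Agent.Lib.HS.L.Spec

/-!
PROJECT H*, PLAN L (MP_a54f13_nt), part HS/L, module WkN: the number of walks.
-/

set_option autoImplicit false

namespace HSL

open Matrix

namespace WkN_aux

theorem walk0 {S : Sys} {E : Finset S.ι} {Q : ℕ → Finset ℕ} {i j : S.ι} {h : MZ}
    (hw : Walk S E Q 0 i j h) : h = 1 := by
  cases hw
  rfl

/-- the levels of the two factors are determined by the product -/
theorem lev {m m0 a a0 : ℕ} (hm : 0 < m) (h : m * a = m0 * a0) (h1 : Nat.Coprime m a0)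
    (h2 : Nat.Coprime m0 a) : m = m0 ∧ a = a0 := by
  have h3 : m ∣ m0 := h1.dvd_of_dvd_mul_right (Dvd.intro _ h)
  have h4 : m0 ∣ m := h2.dvd_of_dvd_mul_right (Dvd.intro _ h.symm)
  have h5 := Nat.dvd_antisymm h3 h4
  refine ⟨h5, ?_⟩
  subst h5
  exact Nat.eq_of_mul_eq_mul_left hm h

/-- a level of a walk of `n` steps is coprime to the level of the step number `n` -/
theorem cop {Q : ℕ → Finset ℕ} {n m p q : ℕ} (hQd : ∀ i j, i ≠ j → Disjoint (Q i) (Q j))
    (hm : ∀ r : ℕ, r.Prime → r ∣ m → ∃ j < n, r ∈ Q j) (hp : p.Prime) (hq : q.Prime)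
    (hpQ : p ∈ Q n) (hqQ : q ∈ Q n) : Nat.Coprime m (p * q) := by
  have h1 : ∀ r : ℕ, r.Prime → r ∈ Q n → Nat.Coprime m r := by
    intro r hr hrQ
    refine ((Nat.Prime.coprime_iff_not_dvd hr).2 fun hd => ?_).symm
    obtain ⟨j, hj, hrj⟩ := hm r hr hd
    exact Finset.disjoint_left.1 (hQd j n (by omega)) hrj hrQ
  exact Nat.Coprime.mul_right (h1 p hp hpQ) (h1 q hq hqQ)

theorem cancel {a b h : MZ} (hd : h.det ≠ 0) (e : a * h = b * h) : a = b := by
  have h1 : h.det • a = h.det • b := by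
    have h2 := congrArg (fun M => M * h.adjugate) e
    simp only [Matrix.mul_assoc, Matrix.mul_adjugate, Matrix.mul_smul, Matrix.mul_one] at h2
    exact h2
  ext i j
  have h3 := congrFun (congrFun h1 i) j
  simp only [Matrix.smul_apply, smul_eq_mul] at h3
  exact mul_left_cancel₀ hd h3

/-- the fibres -/
theorem fib (hCls : S_Cls) (S : Sys) (n : ℕ) (C' B : ℝ) (Q : ℕ → Finset ℕ)
    (hQd : ∀ i j, i ≠ j → Disjoint (Q i) (Q j)) (x z' : S.ι) (h'' : MZ)
    (hx : x ∈ S.V) (hO : S.Ovl C' B) (hB : 0 ≤ B)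
    (F : Finset (Σ _ : S.ι × MZ, S.ι × MZ))
    (hF : ∀ v ∈ F, v.2.1 = z' ∧ v.2.2 * v.1.2 = h'' ∧ v.1.1 ∈ S.V ∧
      (∃ m : ℕ, Ret C' S.w (S.g x) (S.g v.1.1) m v.1.2 ∧
        ∀ r : ℕ, r.Prime → r ∣ m → ∃ j < n, r ∈ Q j) ∧
      ∃ p q : ℕ, p.Prime ∧ q.Prime ∧ p ∈ Q n ∧ q ∈ Q n ∧ v.2.2.det = ((p * q : ℕ) : ℤ) ^ 2) :
    (F.card : ℝ) ≤ B := by
  classical
  rcases F.eq_empty_or_nonempty with h0 | ⟨v0, hv0⟩
  · rw [h0, Finset.card_empty, Nat.cast_zero]
    exact hB
  · obtain ⟨hz0, he0, hV0, ⟨m0, hR0, hm0⟩, p0, q0, hp0, hq0, hpQ0, hqQ0, hd0⟩ := hF v0 hv0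
    have hm0p : 0 < m0 := hR0.2.1
    have hγ : ∀ v ∈ F, ∃ γ : MZ, γ.det = 1 ∧ v.1.2 = γ * v0.1.2 ∧
        Ret C' S.w (S.g x) (S.g v.1.1) m0 (γ * v0.1.2) := by
      intro v hv
      obtain ⟨hz, he, hV, ⟨m, hR, hm⟩, p, q, hp, hq, hpQ, hqQ, hd⟩ := hF v hv
      have hmp : 0 < m := hR.2.1
      have hdet : (m * (p * q)) ^ 2 = (m0 * (p0 * q0)) ^ 2 := by
        have h1 : ((m : ℤ) * ((p * q : ℕ) : ℤ)) ^ 2 = ((m0 : ℤ) * ((p0 * q0 : ℕ) : ℤ)) ^ 2 := by
          have h2 : (v.2.2 * v.1.2).det = (v0.2.2 * v0.1.2).det := by rw [he, he0]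
          rw [Matrix.det_mul, Matrix.det_mul, hd, hd0, hR.1, hR0.1] at h2
          linear_combination h2
        exact_mod_cast h1
      have hmul : m * (p * q) = m0 * (p0 * q0) := Nat.pow_left_injective (n := 2) (by norm_num) hdet
      obtain ⟨hmm, haa⟩ := lev hmp hmul (cop hQd hm hp0 hq0 hpQ0 hqQ0) (cop hQd hm0 hp hq hpQ hqQ)
      subst hmm
      have hc : IsCoprime v0.1.2.det v0.2.2.det := by
        rw [hR0.1, hd0]
        have h3 : IsCoprime (m : ℤ) ((p0 * q0 : ℕ) : ℤ) :=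
          Nat.isCoprime_iff_coprime.2 (cop hQd hm0 hp0 hq0 hpQ0 hqQ0)
        exact h3.pow
      obtain ⟨γ, hγ1, hγ2⟩ := hCls v0.1.2 v0.2.2 v.1.2 v.2.2 (by rw [he, he0])
        (by rw [hR0.1]; positivity) (by rw [hR0.1, hR.1]) (by rw [hd0, hd, haa]) hc
      exact ⟨γ, hγ1, hγ2, by rw [← hγ2]; exact hR⟩
    choose! Γ hΓ using hγ
    have hcard : (F.image (fun v => (v.1.1, Γ v))).card = F.card := by
      apply Finset.card_image_of_injOn
      intro v hv v' hv' hvv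
      have hv1 := Finset.mem_coe.1 hv
      have hv1' := Finset.mem_coe.1 hv'
      have hvv' : ((v.1.1, Γ v) : S.ι × MZ) = (v'.1.1, Γ v') := hvv
      have e1 : v.1.1 = v'.1.1 := (Prod.ext_iff.1 hvv').1
      have e2 : Γ v = Γ v' := (Prod.ext_iff.1 hvv').2
      have e3 : v.1.2 = v'.1.2 := by
        rw [(hΓ v hv1).2.1, (hΓ v' hv1').2.1, e2]
      obtain ⟨hz, he, -, ⟨m, hR, -⟩, -⟩ := hF v hv1
      obtain ⟨hz', he', -, -, -⟩ := hF v' hv1'
      have e4 : v.2.1 = v'.2.1 := hz.trans hz'.symm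
      have e5 : v.2.2 = v'.2.2 := by
        refine cancel (h := v.1.2) ?_ ?_
        · rw [hR.1]
          have := hR.2.1
          positivity
        · rw [he, e3, he']
      obtain ⟨⟨a, b⟩, ⟨c, d⟩⟩ := v
      obtain ⟨⟨a', b'⟩, ⟨c', d'⟩⟩ := v'
      simp only at e1 e3 e4 e5
      subst e1 e3 e4 e5
      rfl
    rw [← hcard]
    refine hO x hx v0.1.2 m0 hR0.1 hm0p _ ?_
    intro t ht
    obtain ⟨v, hv, rfl⟩ := Finset.mem_image.1 ht
    exact ⟨(hF v hv).2.2.1, (hΓ v hv).1, (hΓ v hv).2.2⟩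

end WkN_aux

open WkN_aux in
theorem tWkN : S_Fr → S_WkR → S_Cls → S_One → S_WkN := by
  intro hFr hWk hCls hOne S k P pool s0 D σ B Q E hk hK hC hP hB hσ hU hpool hAI hO hQ hQc hQd
    hEV hEn hE
  classical
  have hV0 : (0 : ℝ) ≤ (S.V.card : ℝ) := Nat.cast_nonneg _
  have hKσ : 0 < S.K ^ σ := Real.rpow_pos_of_pos (by linarith) σ
  have hKs : 0 < S.K ^ s0 := Real.rpow_pos_of_pos (by linarith) s0
  have hw0 : 0 ≤ S.w := by
    unfold Sys.w
    positivity
  have hQp : ∀ j, ∀ p ∈ Q j, p.Prime ∧ P ≤ (p : ℝ) ∧ (p : ℝ) ≤ 2 * P :=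
    fun j p hp => hpool p (hQ j hp)
  have hEc : (0 : ℝ) < (E.card : ℝ) := by exact_mod_cast Finset.card_pos.2 hEn
  have key : ∀ n ≤ k, ∀ W : Finset S.ι, W ⊆ E → (E.card : ℝ) ≤ 2 ^ (k - n) * (W.card : ℝ) →
      ∃ W0 : Finset S.ι, W0 ⊆ W ∧ (W.card : ℝ) ≤ 2 ^ n * (W0.card : ℝ) ∧
        ∀ x ∈ W0, ∃ H : Finset (S.ι × MZ),
          (∀ t ∈ H, t.1 ∈ W ∧ Walk S E Q n x t.1 t.2 ∧
            (1 ≤ n → ∃ p ∈ Q 0, ((p : ℤ) ∣ t.2.det) ∧ Sys.Dir D p t.2)) ∧
          (P ^ 4 * (E.card : ℝ)) ^ n ≤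
            (2 ^ (k + 4) * S.K ^ σ * (S.V.card : ℝ) * B) ^ n * (H.card : ℝ) := by
    intro n
    induction n with
    | zero =>
      intro _ W hWE hW
      refine ⟨W, subset_rfl, by simp, fun x hx => ⟨{(x, 1)}, ?_, by simp⟩⟩
      intro t ht
      rw [Finset.mem_singleton] at ht
      subst ht
      exact ⟨hx, Walk.nil x (hWE hx), fun h => absurd h (by norm_num)⟩
    | succ n ih =>
      intro hn W hWE hW
      have hWc : (0 : ℝ) < (W.card : ℝ) := by
        by_contra h1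
        have h2 : (W.card : ℝ) = 0 := le_antisymm (not_lt.1 h1) (Nat.cast_nonneg _)
        rw [h2, mul_zero] at hW
        linarith
      have hWne : W.Nonempty := Finset.card_pos.1 (by exact_mod_cast hWc)
      have hpow : (2 : ℝ) ^ (k + 1) = 2 ^ (k - (n + 1)) * 2 ^ (n + 2) := by
        rw [← pow_add]
        have : k - (n + 1) + (n + 2) = k + 1 := by omega
        rw [this]
      have hdens : 2 * (S.V.card : ℝ) ≤ S.K ^ s0 * (W.card : ℝ) := by
        have h1 : 2 ^ (k - (n + 1)) * (2 * (S.V.card : ℝ)) ≤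
            2 ^ (k - (n + 1)) * (S.K ^ s0 * (W.card : ℝ)) := by
          calc (2 : ℝ) ^ (k - (n + 1)) * (2 * (S.V.card : ℝ))
              ≤ 2 ^ (k - (n + 1)) * (2 ^ (n + 2) * (S.V.card : ℝ)) := by
                refine mul_le_mul_of_nonneg_left (mul_le_mul_of_nonneg_right ?_ hV0) (by positivity)
                exact le_self_pow₀ (by norm_num) (by omega)
            _ = 2 ^ (k + 1) * (S.V.card : ℝ) := by rw [hpow]; ring
            _ ≤ S.K ^ s0 * (E.card : ℝ) := hE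
            _ ≤ S.K ^ s0 * (2 ^ (k - (n + 1)) * (W.card : ℝ)) :=
                mul_le_mul_of_nonneg_left hW hKs.le
            _ = 2 ^ (k - (n + 1)) * (S.K ^ s0 * (W.card : ℝ)) := by ring
        exact le_of_mul_le_mul_left h1 (by positivity)
      obtain ⟨W', hW'W, hW'c, hT⟩ := hOne S k P pool (Q n) s0 D σ W hk hK hP
        (fun p hp => (hpool p hp).1) hAI (hQ n) (hQc n (by omega)) (hWE.trans hEV) hWne hdens
      choose! T hT1 hT2 using hT
      have hW'E : (E.card : ℝ) ≤ 2 ^ (k - n) * (W'.card : ℝ) := by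
        have h1 : (2 : ℝ) ^ (k - n) = 2 ^ (k - (n + 1)) * 2 := by
          rw [← pow_succ]
          have : k - (n + 1) + 1 = k - n := by omega
          rw [this]
        calc (E.card : ℝ) ≤ 2 ^ (k - (n + 1)) * (W.card : ℝ) := hW
          _ ≤ 2 ^ (k - (n + 1)) * (2 * (W'.card : ℝ)) :=
              mul_le_mul_of_nonneg_left hW'c (by positivity)
          _ = 2 ^ (k - n) * (W'.card : ℝ) := by rw [h1]; ring
      obtain ⟨W0, hW0, hW0c, hH⟩ := ih (by omega) W' (hW'W.trans hWE) hW'E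
      refine ⟨W0, hW0.trans hW'W, ?_, fun x hx => ?_⟩
      · calc (W.card : ℝ) ≤ 2 * (W'.card : ℝ) := hW'c
          _ ≤ 2 * (2 ^ n * (W0.card : ℝ)) := by linarith
          _ = 2 ^ (n + 1) * (W0.card : ℝ) := by ring
      · obtain ⟨H, hH1, hH2⟩ := hH x hx
        have hxV : x ∈ S.V := hEV (hWE (hW'W (hW0 hx)))
        set A : Finset (Σ _ : S.ι × MZ, S.ι × MZ) := H.sigma (fun t => T t.1) with hA
        have hAm : ∀ v ∈ A, v.1 ∈ H ∧ v.2 ∈ T v.1.1 := fun v hv => Finset.mem_sigma.1 hv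
        refine ⟨A.image (fun v => (v.2.1, v.2.2 * v.1.2)), ?_, ?_⟩
        · intro t ht
          obtain ⟨v, hv, rfl⟩ := Finset.mem_image.1 ht
          obtain ⟨hv1, hv2⟩ := hAm v hv
          obtain ⟨hz, hw, hD⟩ := hH1 v.1 hv1
          obtain ⟨hl, p, q, hs, hdir⟩ := hT1 v.1.1 hz v.2 hv2
          refine ⟨hl, Walk.cons n x v.1.1 v.2.1 p q v.1.2 v.2.2 hw (hWE hl) hs, fun _ => ?_⟩
          have hdet2 : v.2.2.det = ((p * q : ℕ) : ℤ) ^ 2 := hs.2.2.2.1
          rcases Nat.eq_zero_or_pos n with hn0 | hn0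
          · subst hn0
            have h1 : v.1.2 = 1 := walk0 hw
            refine ⟨p, hs.1, ?_, ?_⟩
            · show (p : ℤ) ∣ (v.2.2 * v.1.2).det
              rw [h1, Matrix.mul_one, hdet2]
              refine dvd_pow ?_ (by norm_num)
              push_cast
              exact Dvd.intro _ rfl
            · show Sys.Dir D p (v.2.2 * v.1.2)
              rw [h1, Matrix.mul_one]
              exact hdir
          · obtain ⟨r, hr, hrd, hrD⟩ := hD hn0
            have hrp := (hQp 0 r hr).1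
            refine ⟨r, hr, ?_, ?_⟩
            · show (r : ℤ) ∣ (v.2.2 * v.1.2).det
              rw [Matrix.det_mul]
              exact dvd_mul_of_dvd_right hrd _
            · refine hWk.2 D r v.1.2 v.2.2 hrp ?_ hrD
              rw [hdet2]
              intro h2
              have h3 : r ∣ (p * q) ^ 2 := by exact_mod_cast h2
              have h4 : r ∣ p * q := hrp.dvd_of_dvd_pow h3
              have hd0 : ∀ a ∈ Q n, r ≠ a := by
                intro a ha hra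
                rw [hra] at hr
                exact Finset.disjoint_left.1 (hQd 0 n (by omega)) hr ha
              rcases (Nat.Prime.dvd_mul hrp).1 h4 with h5 | h5
              · exact hd0 p hs.1 ((Nat.prime_dvd_prime_iff_eq hrp (hQp n p hs.1).1).1 h5)
              · exact hd0 q hs.2.1 ((Nat.prime_dvd_prime_iff_eq hrp (hQp n q hs.2.1).1).1 h5)
        · set H' := A.image (fun v => (v.2.1, v.2.2 * v.1.2)) with hH'
          have hfib : A.card ≤ ⌊B⌋₊ * H'.card := by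
            refine Finset.card_le_mul_card_image A ⌊B⌋₊ fun a ha => Nat.le_floor ?_
            refine fib hCls S n ((2 * S.C) ^ k) B Q hQd x a.1 a.2 hxV hO (by linarith) _ ?_
            intro v hv
            obtain ⟨hv1, hv2⟩ := Finset.mem_filter.1 hv
            obtain ⟨hvH, hvT⟩ := hAm v hv1
            obtain ⟨hz, hw, -⟩ := hH1 v.1 hvH
            obtain ⟨hl, p, q, hs, -⟩ := hT1 v.1.1 hz v.2 hvT
            obtain ⟨-, -, -, m, hR, -, -, -, hm⟩ :=
              hWk.1 S E Q P n x v.1.1 v.1.2 hK hC hP hU hEV hQp hQd hw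
            refine ⟨(Prod.ext_iff.1 hv2).1, (Prod.ext_iff.1 hv2).2, hEV (hWE (hW'W hz)),
              ⟨m, ?_, hm⟩, p, q, (hQp n p hs.1).1, (hQp n q hs.2.1).1, hs.1, hs.2.1, hs.2.2.2.1⟩
            refine hFr.2.2.2.2.2.2 _ _ S.w _ _ m _ hw0 ?_ hR
            exact pow_le_pow_right₀ (by linarith) (by omega)
          have hfib' : (A.card : ℝ) ≤ B * (H'.card : ℝ) := by
            calc (A.card : ℝ) ≤ ((⌊B⌋₊ * H'.card : ℕ) : ℝ) := by exact_mod_cast hfib
              _ = (⌊B⌋₊ : ℝ) * (H'.card : ℝ) := by push_cast; ring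
              _ ≤ B * (H'.card : ℝ) :=
                  mul_le_mul_of_nonneg_right (Nat.floor_le (by linarith)) (Nat.cast_nonneg _)
          have hsum : (H.card : ℝ) * (P ^ 4 * (W.card : ℝ)) ≤
              16 * S.K ^ σ * (S.V.card : ℝ) * (A.card : ℝ) := by
            rw [hA, Finset.card_sigma]
            push_cast
            rw [Finset.mul_sum]
            calc (H.card : ℝ) * (P ^ 4 * (W.card : ℝ)) = ∑ t ∈ H, P ^ 4 * (W.card : ℝ) := by
                  rw [Finset.sum_const, nsmul_eq_mul]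
              _ ≤ _ := Finset.sum_le_sum fun t ht => hT2 t.1 (hH1 t ht).1
          have hEW : P ^ 4 * (E.card : ℝ) ≤ 2 ^ k * (P ^ 4 * (W.card : ℝ)) := by
            calc P ^ 4 * (E.card : ℝ) ≤ P ^ 4 * (2 ^ (k - (n + 1)) * (W.card : ℝ)) :=
                  mul_le_mul_of_nonneg_left hW (by positivity)
              _ ≤ P ^ 4 * (2 ^ k * (W.card : ℝ)) := by
                  refine mul_le_mul_of_nonneg_left (mul_le_mul_of_nonneg_right ?_ hWc.le)
                    (by positivity)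
                  exact pow_le_pow_right₀ (by norm_num) (by omega)
              _ = 2 ^ k * (P ^ 4 * (W.card : ℝ)) := by ring
          have hX0 : 0 ≤ 2 ^ (k + 4) * S.K ^ σ * (S.V.card : ℝ) * B := by positivity
          calc (P ^ 4 * (E.card : ℝ)) ^ (n + 1)
              = (P ^ 4 * (E.card : ℝ)) ^ n * (P ^ 4 * (E.card : ℝ)) := pow_succ _ _
            _ ≤ ((2 ^ (k + 4) * S.K ^ σ * (S.V.card : ℝ) * B) ^ n * (H.card : ℝ)) *
                (2 ^ k * (P ^ 4 * (W.card : ℝ))) := by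
                refine mul_le_mul hH2 hEW (by positivity) ?_
                exact mul_nonneg (pow_nonneg hX0 n) (Nat.cast_nonneg _)
            _ = (2 ^ (k + 4) * S.K ^ σ * (S.V.card : ℝ) * B) ^ n * 2 ^ k *
                ((H.card : ℝ) * (P ^ 4 * (W.card : ℝ))) := by ring
            _ ≤ (2 ^ (k + 4) * S.K ^ σ * (S.V.card : ℝ) * B) ^ n * 2 ^ k *
                (16 * S.K ^ σ * (S.V.card : ℝ) * (B * (H'.card : ℝ))) := by
                refine mul_le_mul_of_nonneg_left (hsum.trans ?_)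
                  (mul_nonneg (pow_nonneg hX0 n) (by positivity))
                exact mul_le_mul_of_nonneg_left hfib' (by positivity)
            _ = (2 ^ (k + 4) * S.K ^ σ * (S.V.card : ℝ) * B) ^ (n + 1) * (H'.card : ℝ) := by
                rw [pow_succ]
                ring
  obtain ⟨E0, hE0, hE0c, hH⟩ := key k le_rfl E subset_rfl (by simp)
  refine ⟨E0, hE0, hE0c, fun x hx => ?_⟩
  obtain ⟨H, hH1, hH2⟩ := hH x hx
  exact ⟨H, fun t ht => ⟨(hH1 t ht).2.1, (hH1 t ht).2.2 hk⟩, hH2⟩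

end HSL
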