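import Pool.Agent.Lib.HS.L.Spec

/-!
PROJECT H*, PLAN L (MP_a54f13_nt), part HS/L, module WkR: properties of walks.
-/

set_option autoImplicit false

namespace HSL

open Matrix

namespace WkR_aux

lemma mulVec_det (h' : MZ) (v : Fin 2 → ℤ) (a : Fin 2) :
    (h'.adjugate *ᵥ (h' *ᵥ v)) a = h'.det * v a := by
  rw [Matrix.mulVec_mulVec, Matrix.adjugate_mul, Matrix.smul_mulVec, Matrix.one_mulVec]
  simp

lemma dvd_of_all {π : ℤ} (hπ : Prime π) (h h' : MZ) (hd : ¬ π ∣ h'.det)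
    (H : ∀ i j, π ∣ (h' * h) i j) (i j : Fin 2) : π ∣ h i j := by
  have h1 : (h'.adjugate * (h' * h)) i j = h'.det * h i j := by
    rw [← Matrix.mul_assoc, Matrix.adjugate_mul, Matrix.smul_mul, Matrix.one_mul]
    simp
  have h2 : π ∣ (h'.adjugate * (h' * h)) i j := by
    rw [Matrix.mul_apply]
    exact Finset.dvd_sum (fun k _ => Dvd.dvd.mul_left (H k j) _)
  rw [h1] at h2
  exact (hπ.dvd_or_dvd h2).resolve_left hd

lemma dvd_of_all' {π : ℤ} (hπ : Prime π) (h h' : MZ) (hd : ¬ π ∣ h.det)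
    (H : ∀ i j, π ∣ (h' * h) i j) (i j : Fin 2) : π ∣ h' i j := by
  have h1 : ((h' * h) * h.adjugate) i j = h.det * h' i j := by
    rw [Matrix.mul_assoc, Matrix.mul_adjugate, Matrix.mul_smul, Matrix.mul_one]
    simp
  have h2 : π ∣ ((h' * h) * h.adjugate) i j := by
    rw [Matrix.mul_apply]
    exact Finset.dvd_sum (fun k _ => Dvd.dvd.mul_right (H i k) _)
  rw [h1] at h2
  exact (hπ.dvd_or_dvd h2).resolve_left hd

lemma prim_mul (h h' : MZ) (hp : Prim h) (hp' : Prim h')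
    (H : ∀ π : ℤ, Prime π → π ∣ h.det → ¬ π ∣ h'.det) : Prim (h' * h) := by
  intro r hr
  by_contra hu
  have h1 : r.natAbs ≠ 1 := fun h0 => hu (Int.isUnit_iff_natAbs_eq.2 h0)
  obtain ⟨π, hπ, hd⟩ := Int.exists_prime_and_dvd h1
  have hall : ∀ i j, π ∣ (h' * h) i j := fun i j => hd.trans (hr i j)
  by_cases hc : π ∣ h.det
  · exact hπ.not_isUnit (hp π (dvd_of_all hπ h h' (H π hπ hc) hall))
  · exact hπ.not_isUnit (hp' π (dvd_of_all' hπ h h' hc hall))

lemma dir_mul (D : ℝ) (p : ℕ) (h h' : MZ) (hp : p.Prime) (hd : ¬ (p : ℤ) ∣ h'.det)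
    (H : Sys.Dir D p h) : Sys.Dir D p (h' * h) := by
  intro u hu hD
  obtain ⟨a, ha⟩ := H u hu hD
  by_contra hcon
  push Not at hcon
  apply ha
  have h1 := mulVec_det h' (h *ᵥ u) a
  have h2 : (p : ℤ) ∣ (h'.adjugate *ᵥ (h' *ᵥ (h *ᵥ u))) a := by
    have h3 : ∀ b, (p : ℤ) ∣ (h' *ᵥ (h *ᵥ u)) b := by
      intro b
      rw [Matrix.mulVec_mulVec]
      exact hcon b
    unfold Matrix.mulVec dotProduct at h3 ⊢
    exact Finset.dvd_sum (fun k _ => Dvd.dvd.mul_left (h3 k) _)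
  rw [h1] at h2
  exact ((Nat.prime_iff_prime_int.1 hp).dvd_or_dvd h2).resolve_left hd

lemma len_mul (p q m : ℕ) (hp : p.Prime) (hq : q.Prime) (hm : m ≠ 0) :
    (p * q * m).primeFactorsList.length = m.primeFactorsList.length + 2 := by
  have h1 := (Nat.perm_primeFactorsList_mul (mul_ne_zero hp.ne_zero hq.ne_zero) hm).length_eq
  have h2 := (Nat.perm_primeFactorsList_mul hp.ne_zero hq.ne_zero).length_eq
  rw [h1, List.length_append, h2, List.length_append, Nat.primeFactorsList_prime hp,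
    Nat.primeFactorsList_prime hq]
  simp only [List.length_cons, List.length_nil]
  omega

end WkR_aux

open WkR_aux in
theorem tWkR : S_Fr → S_WkR := by
  intro hFr
  obtain ⟨_, _, _, hF4, hF5, _, _⟩ := hFr
  refine ⟨?_, fun D p h h' hp hd H => dir_mul D p h h' hp hd H⟩
  intro S E Q P n x z h hK hC hP hU hE hQ hdis hW
  have hw0 : 0 ≤ S.w := by
    unfold Sys.w
    positivity
  have hw1 : S.w ≤ 1 := by
    unfold Sys.w
    rw [div_le_one (by positivity)]
    nlinarith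
  induction hW with
  | nil i hi =>
    refine ⟨hi, hi, ?_, 1, ?_, ?_, ?_, ?_, ?_⟩
    · intro r hr
      have := hr 0 0
      simpa [isUnit_iff_dvd_one] using this
    · refine ⟨by simp, by norm_num, ?_⟩
      have h1 := hF4 (S.g i) (hU i (hE hi)).1
      rw [h1]
      refine ⟨by simp, by simp, ?_, ?_⟩
      · simp [hw0]
      · simp [hw0]
    · simp
    · simp
    · simp
    · intro r hr hr1
      exact absurd (Nat.dvd_one.1 hr1) hr.one_lt.ne'
  | cons n i j l p q h h' hw hl hs ih =>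
    obtain ⟨hi, hj, hprim, m, hret, hlo, hup, hlen, hfac⟩ := ih
    obtain ⟨hpQ, hqQ, hprim', hret'⟩ := hs
    obtain ⟨hpp, hp1, hp2⟩ := hQ n p hpQ
    obtain ⟨hqp, hq1, hq2⟩ := hQ n q hqQ
    have hm0 : 0 < m := hret.2.1
    refine ⟨hi, hl, ?_, p * q * m, ?_, ?_, ?_, ?_, ?_⟩
    · apply prim_mul h h' hprim hprim'
      intro π hπ hd hd'
      rw [hret.1] at hd
      rw [hret'.1] at hd'
      have h1 : π ∣ (m : ℤ) := hπ.dvd_of_dvd_pow hd
      have h2 : π ∣ (p : ℤ) * (q : ℤ) := by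
        have := hπ.dvd_of_dvd_pow hd'
        simpa using this
      have h3 : π.natAbs.Prime := Int.prime_iff_natAbs_prime.1 hπ
      have h4 : π.natAbs ∣ m := Int.natCast_dvd_natCast.1 (Int.natAbs_dvd.2 h1)
      obtain ⟨k, hk, hkQ⟩ := hfac _ h3 h4
      have h5 : π.natAbs ∈ Q n := by
        rcases hπ.dvd_or_dvd h2 with h6 | h6
        · have h7 : π.natAbs ∣ p := Int.natCast_dvd_natCast.1 (Int.natAbs_dvd.2 h6)
          rw [(Nat.prime_dvd_prime_iff_eq h3 hpp).1 h7]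
          exact hpQ
        · have h7 : π.natAbs ∣ q := Int.natCast_dvd_natCast.1 (Int.natAbs_dvd.2 h6)
          rw [(Nat.prime_dvd_prime_iff_eq h3 hqp).1 h7]
          exact hqQ
      exact Finset.disjoint_left.1 (hdis k n hk.ne) hkQ h5
    · have h1 := hF5 ((2 * S.C) ^ n) S.C S.w (S.g i) (S.g j) (S.g l) m (p * q) h' h
        (hU j (hE hj)).1 hw0 hw1 (one_le_pow₀ (by linarith)) hC hret hret'
      have h2 : 2 * (2 * S.C) ^ n * S.C = (2 * S.C) ^ (n + 1) := by ring
      rw [h2] at h1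
      exact h1
    · have h1 : P ^ (2 * (n + 1)) = P * P * P ^ (2 * n) := by ring
      rw [h1]
      push_cast
      have h2 : P * P ≤ (p : ℝ) * (q : ℝ) :=
        mul_le_mul hp1 hq1 (by linarith) (by linarith)
      exact mul_le_mul h2 hlo (by positivity) (by positivity)
    · have h1 : (4 * P ^ 2) ^ (n + 1) = (2 * P) * (2 * P) * (4 * P ^ 2) ^ n := by ring
      rw [h1]
      push_cast
      have h2 : (p : ℝ) * (q : ℝ) ≤ (2 * P) * (2 * P) :=
        mul_le_mul hp2 hq2 (by positivity) (by linarith)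
      exact mul_le_mul h2 hup (by positivity) (by positivity)
    · rw [len_mul p q m hpp hqp hm0.ne', hlen]
      ring
    · intro r hr hrd
      rcases (Nat.Prime.dvd_mul hr).1 hrd with h1 | h1
      · rcases (Nat.Prime.dvd_mul hr).1 h1 with h2 | h2
        · exact ⟨n, Nat.lt_succ_self n, by
            rw [(Nat.prime_dvd_prime_iff_eq hr hpp).1 h2]; exact hpQ⟩
        · exact ⟨n, Nat.lt_succ_self n, by
            rw [(Nat.prime_dvd_prime_iff_eq hr hqp).1 h2]; exact hqQ⟩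
      · obtain ⟨k, hk, hkQ⟩ := hfac r hr h1
        exact ⟨k, hk.trans (Nat.lt_succ_self n), hkQ⟩

end HSL
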