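import Pool.Agent.Lib.HS.L.Spec

/-!
PROJECT H*, PLAN L (MP_a54f13_nt), part HS/L: `WkT`, loops act on the transported spaces (helper8).
-/

set_option autoImplicit false

namespace HSL

open Matrix

namespace WkT_aux

theorem toR_one : toR (1 : MZ) = (1 : MR) := by
  unfold toR
  exact Matrix.map_one _ (by simp) (by simp)

theorem toR_smul (z : ℤ) : toR (z • (1 : MZ)) = (z : ℝ) • (1 : MR) := by
  ext i j
  change (((z • (1 : MZ)) i j : ℤ) : ℝ) = ((z : ℝ) • (1 : MR)) i j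
  rw [Matrix.smul_apply, Matrix.smul_apply, smul_eq_mul, smul_eq_mul, Int.cast_mul]
  by_cases h : i = j
  · subst h
    rw [Matrix.one_apply_eq, Matrix.one_apply_eq, Int.cast_one]
  · rw [Matrix.one_apply_ne h, Matrix.one_apply_ne h, Int.cast_zero]

/-- a walk is exact if all steps are -/
theorem walk_exact (hSub : S_Sub) (S : Sys) (E : Finset S.ι) (Q : ℕ → Finset ℕ)
    (I : S.ι → Submodule ℝ (MvPolynomial (Fin 2 × Fin 2) ℝ)) (M : ℝ)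
    (hM : ∀ j, ∀ p ∈ Q j, ∀ q ∈ Q j, ((p * q : ℕ) : ℝ) ≤ M)
    (hE : ∀ x ∈ E, ∀ x' ∈ E, ∀ (m : ℕ) (h : MZ), (m : ℝ) ≤ M →
        Ret S.C S.w (S.g x) (S.g x') m h →
        (∀ f ∈ I x, sub (toR h) f ∈ I x') ∧ (∀ F ∈ I x', ∃ f ∈ I x, sub (toR h) f = F))
    (n : ℕ) (x z : S.ι) (h : MZ) (hw : Walk S E Q n x z h) :
    x ∈ E ∧ z ∈ E ∧ (∀ f ∈ I x, sub (toR h) f ∈ I z) ∧
      (∀ F ∈ I z, ∃ f ∈ I x, sub (toR h) f = F) := by
  obtain ⟨-, -, h3, h4, -, -, h7, -, -⟩ := id hSub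
  induction hw with
  | nil i hi =>
    refine ⟨hi, hi, fun f hf => ?_, fun F hF => ⟨F, hF, ?_⟩⟩
    · rw [toR_one, h4]
      exact hf
    · rw [toR_one, h4]
  | cons n i j l p q h h' hw hl hs ih =>
    obtain ⟨hi, hj, ih1, ih2⟩ := ih
    obtain ⟨hp, hq, -, hr⟩ := hs
    obtain ⟨e1, e2⟩ := hE j hj l hl (p * q) h' (hM n p hp q hq) hr
    refine ⟨hi, hl, fun f hf => ?_, fun F hF => ?_⟩
    · rw [h7, ← h3]
      exact e1 _ (ih1 f hf)
    · obtain ⟨F', hF', hF2⟩ := e2 F hF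
      obtain ⟨f, hf, hf2⟩ := ih2 F' hF'
      refine ⟨f, hf, ?_⟩
      rw [h7, ← h3, hf2, hF2]

end WkT_aux

open WkT_aux in
theorem tWkT : S_Sub → S_WkT := by
  intro hSub e S E Q n I M hM hI hE x z h1 h2 hw1 hw2 f hf
  obtain ⟨hx, -, a1, -⟩ := walk_exact hSub S E Q I M hM hE n x z h1 hw1
  obtain ⟨-, -, -, b2⟩ := walk_exact hSub S E Q I M hM hE n x z h2 hw2
  obtain ⟨-, -, h3, -, -, h6, h7, -, -⟩ := id hSub
  obtain ⟨f2, hf2, hF⟩ := b2 _ (a1 f hf)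
  have e1 : sub (toR (h2.adjugate * h1)) f = ((h2.det : ℤ) : ℝ) ^ e • f2 := by
    rw [h7, ← h3, ← hF, h3, ← h7, Matrix.adjugate_mul, toR_smul, h6 _ e f2 (hI x hx f2 hf2)]
  rw [e1]
  exact (I x).smul_mem _ hf2

end HSL
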