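import Pool.Agent.Lib.HS.L.Alg
import Pool.Agent.Lib.HS.L.Box
import Pool.Agent.Lib.HS.L.CL0
import Pool.Agent.Lib.HS.L.CLN
import Pool.Agent.Lib.HS.L.CLZ
import Pool.Agent.Lib.HS.L.CS
import Pool.Agent.Lib.HS.L.Cls
import Pool.Agent.Lib.HS.L.Diag
import Pool.Agent.Lib.HS.L.End
import Pool.Agent.Lib.HS.L.Exa
import Pool.Agent.Lib.HS.L.Fin
import Pool.Agent.Lib.HS.L.Fr
import Pool.Agent.Lib.HS.L.GP
import Pool.Agent.Lib.HS.L.Loop
import Pool.Agent.Lib.HS.L.Mon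
import Pool.Agent.Lib.HS.L.One
import Pool.Agent.Lib.HS.L.SSt
import Pool.Agent.Lib.HS.L.Sel
import Pool.Agent.Lib.HS.L.Spl
import Pool.Agent.Lib.HS.L.Sub
import Pool.Agent.Lib.HS.L.TR
import Pool.Agent.Lib.HS.L.WkN
import Pool.Agent.Lib.HS.L.WkR
import Pool.Agent.Lib.HS.L.WkT

/-!
Assembly of HS/L: general position `S_GP` from the three remaining counts.
-/

set_option autoImplicit false

namespace HSL

theorem aMon : S_Mon := tMon tFr
theorem aWkR : S_WkR := tWkR tFr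
theorem aWkN : S_WkN := tWkN tFr aWkR tCls tOne
theorem aExa : S_Exa := tExa tSub (tSSt tFr) aMon tFin
theorem aTR : S_TR := tTR aMon tFin aExa
theorem aAlg : S_Alg := tAlg tSub (tDiag tSub) tBox
theorem aWkT : S_WkT := tWkT tSub

theorem aEnd (hA : S_CLA) : S_End := tEnd aWkN aWkR tCS hA aMon tSpl

theorem aLoop (hL : S_CLL) (hB : S_CLB) : S_Loop :=
  tLoop aWkN aWkR tCS tCL0 (tCLZ tFr) tCLN hL hB tSel tSpl

theorem aGP (hL : S_CLL) (hB : S_CLB) (hA : S_CLA) : S_GP :=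
  tGP tSub aMon aTR aWkT aAlg (aLoop hL hB) (aEnd hA)

end HSL
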