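import Pool.Agent.Lib.HS.L.SpecCL

/-!
PROJECT H*, PLAN L, part HS/L: the count of all pairs at level `K` (S_CLA) from the three parts: pairs with
discriminant not zero (S_CLAm), nilpotent non-scalar loops (S_CNil) and scalar loops (S_CL0).
-/

set_option autoImplicit false

namespace HSL

open Matrix

namespace CLAAux

/-- `2 x <= y` for `x = K^(2+ε/2)`, `y = K^(2+ε)` and `K` large -/
theorem two_rpow_le (ε : ℝ) (hε : 0 < ε) : ∃ K1 : ℝ, 1 ≤ K1 ∧ ∀ K : ℝ, K1 ≤ K →
    2 * K ^ (2 + ε / 2 : ℝ) ≤ K ^ (2 + ε : ℝ) := by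
  refine ⟨(2 : ℝ) ^ (2 / ε), ?_, ?_⟩
  · exact Real.one_le_rpow (by norm_num) (by positivity)
  · intro K hK
    have h20 : (0 : ℝ) < (2 : ℝ) ^ (2 / ε) := by positivity
    have hK0 : 0 < K := lt_of_lt_of_le h20 hK
    have e1 : K ^ (2 + ε : ℝ) = K ^ (ε / 2) * K ^ (2 + ε / 2 : ℝ) := by
      rw [← Real.rpow_add hK0]
      congr 1
      ring
    have e2 : (2 : ℝ) ≤ K ^ (ε / 2) := by
      have h := Real.rpow_le_rpow (le_of_lt h20) hK (by positivity : 0 ≤ ε / 2)
      rw [← Real.rpow_mul (by norm_num)] at h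
      have e3 : 2 / ε * (ε / 2) = 1 := by field_simp
      rw [e3, Real.rpow_one] at h
      exact h
    rw [e1]
    exact mul_le_mul_of_nonneg_right e2 (by positivity)

end CLAAux

open CLAAux

theorem tCLA (hM : S_CLAm) (hN : S_CNil) (h0 : S_CL0) : S_CLA := by
  classical
  intro k C R ε hk hC hR hε
  obtain ⟨KM, hKM⟩ := hM k C R (ε / 2) hk hC hR (by positivity)
  obtain ⟨KN, hKN⟩ := hN k C R (ε / 2) hk hC hR (by positivity)
  obtain ⟨K1, hK1, hK2⟩ := two_rpow_le ε hε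
  refine ⟨max KM (max KN K1), ?_⟩
  intro S B hSC hSR hK hB hU hO i hi hT H hH
  have hKM' : KM ≤ S.K := le_trans (le_max_left _ _) hK
  have hKN' : KN ≤ S.K := le_trans (le_trans (le_max_left _ _) (le_max_right _ _)) hK
  have hK1' : K1 ≤ S.K := le_trans (le_trans (le_max_right _ _) (le_max_right _ _)) hK
  -- the three parts
  set A1 := (prs H).filter (fun t => dsc (lp t) ≠ 0) with hA1
  set A2 := (prs H).filter (fun t => dsc (lp t) = 0 ∧ tf (lp t) ≠ 0) with hA2
  set A3 := (prs H).filter (fun t => tf (lp t) = 0) with hA3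
  have hsub : prs H ⊆ A1 ∪ (A2 ∪ A3) := by
    intro t ht
    simp only [hA1, hA2, hA3, Finset.mem_union, Finset.mem_filter]
    by_cases h1 : dsc (lp t) = 0
    · by_cases h2 : tf (lp t) = 0
      · exact Or.inr (Or.inr ⟨ht, h2⟩)
      · exact Or.inr (Or.inl ⟨ht, h1, h2⟩)
    · exact Or.inl ⟨ht, h1⟩
  have c1 : (A1.card : ℝ) ≤ B * S.K ^ (2 + ε / 2 : ℝ) :=
    hKM S B hSC hSR hKM' hB hU hO i hi hT H hH A1 (Finset.filter_subset _ _)
      (fun t ht => (Finset.mem_filter.mp ht).2)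
  have c2 : (A2.card : ℝ) ≤ B * S.K ^ (2 + ε / 2 : ℝ) :=
    hKN S B hSC hSR hKN' hB hU hO i hi H hH A2 (Finset.filter_subset _ _)
      (fun t ht => (Finset.mem_filter.mp ht).2)
  have c3 : (A3.card : ℝ) ≤ 2 * (H.card : ℝ) := by
    refine h0 S.ι H A3 ?_ (Finset.filter_subset _ _) (fun t ht => (Finset.mem_filter.mp ht).2)
    intro t ht
    obtain ⟨-, hp, m, hm, -, -⟩ := hH t ht
    refine ⟨hp, ?_⟩
    rw [hm.1]
    have := hm.2.1
    positivity
  have hcard : ((prs H).card : ℝ) ≤ (A1.card : ℝ) + ((A2.card : ℝ) + (A3.card : ℝ)) := by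
    have h1 := Finset.card_le_card hsub
    have h2 := Finset.card_union_le A1 (A2 ∪ A3)
    have h3 := Finset.card_union_le A2 A3
    exact_mod_cast (by omega : (prs H).card ≤ A1.card + (A2.card + A3.card))
  have hfin := mul_le_mul_of_nonneg_left (hK2 S.K hK1') (by linarith : (0 : ℝ) ≤ B)
  linarith

end HSL
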