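import Pool.Agent.Lib.HS.L.SpecCon
import Pool.Agent.Lib.HS.L.Fr

/-! PROJECT H*, PLAN L (MP_a54f13_nt), module Bas: basis and coordinates. -/

set_option autoImplicit false

namespace HSL

open Matrix
open Pool.Agent.HS.Ct (ix qf GP AdmM M2eStmt)

namespace Bas_aux

/-- the vector of the entries -/
def vv (r : MZ) : Fin 4 → ℝ := ![((r 0 0 : ℤ) : ℝ), ((r 0 1 : ℤ) : ℝ), ((r 1 0 : ℤ) : ℝ), ((r 1 1 : ℤ) : ℝ)]

theorem ix_cast (h : Fin 4 → MZ) : ((ix h : ℤ) : ℝ) = (Matrix.of (fun l => vv (h l))).det := by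
  unfold Pool.Agent.HS.Ct.ix
  show (Int.castRingHom ℝ) (Matrix.det _) = _
  rw [RingHom.map_det]
  congr 1
  ext i j
  fin_cases i <;> fin_cases j <;> simp [vv]

theorem four {A : Set MZ} (hs : Submodule.span ℝ (vv '' A) = ⊤) :
    ∃ h : Fin 4 → MZ, (∀ l, h l ∈ A) ∧ ix h ≠ 0 := by
  obtain ⟨b, hb1, hb2, hb3⟩ := exists_linearIndependent ℝ (vv '' A)
  have hspan : ⊤ ≤ Submodule.span ℝ (Set.range (fun x : b => (x : Fin 4 → ℝ))) := by
    rw [Subtype.range_coe, hb2, hs]
  let B := Module.Basis.mk hb3 hspan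
  let σ := (B.indexEquiv (Pi.basisFun ℝ (Fin 4))).symm
  have h1 : ∀ l : Fin 4, ∃ r ∈ A, vv r = (σ l : Fin 4 → ℝ) := fun l => hb1 (σ l).2
  choose h hA hv using h1
  refine ⟨h, hA, ?_⟩
  intro h0
  have h2 : LinearIndependent ℝ (fun l => vv (h l)) := by
    have h3 : (fun l => vv (h l)) = (fun x : b => (x : Fin 4 → ℝ)) ∘ σ := by
      funext l
      exact hv l
    rw [h3]
    exact hb3.comp _ σ.injective
  have h4 : IsUnit (Matrix.of (fun l => vv (h l))) :=
    Matrix.linearIndependent_rows_iff_isUnit.1 h2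
  have h5 := (Matrix.isUnit_iff_isUnit_det _).1 h4
  rw [← ix_cast, h0] at h5
  simp at h5

/-- the linear form of a functional -/
noncomputable def lf (c : Fin 4 → ℝ) : MvPolynomial (Fin 2 × Fin 2) ℝ :=
  MvPolynomial.C (c 0) * MvPolynomial.X (0, 0) + MvPolynomial.C (c 1) * MvPolynomial.X (0, 1) +
    MvPolynomial.C (c 2) * MvPolynomial.X (1, 0) + MvPolynomial.C (c 3) * MvPolynomial.X (1, 1)

theorem lf_hom (c : Fin 4 → ℝ) : (lf c).IsHomogeneous 1 := by
  unfold lf
  have h : ∀ (t : ℝ) (i : Fin 2 × Fin 2),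
      (MvPolynomial.C t * MvPolynomial.X i : MvPolynomial (Fin 2 × Fin 2) ℝ).IsHomogeneous 1 := by
    intro t i
    have := (MvPolynomial.isHomogeneous_C (Fin 2 × Fin 2) t).mul (MvPolynomial.isHomogeneous_X ℝ i)
    simpa using this
  exact (((h _ _).add (h _ _)).add (h _ _)).add (h _ _)

theorem lf_ev (c : Fin 4 → ℝ) (x : Fin 2 × Fin 2 → ℝ) : MvPolynomial.eval x (lf c) =
    c 0 * x (0, 0) + c 1 * x (0, 1) + c 2 * x (1, 0) + c 3 * x (1, 1) := by
  simp [lf]

theorem lf_ne {c : Fin 4 → ℝ} (hc : c ≠ 0) : lf c ≠ 0 := by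
  intro h
  apply hc
  have key : ∀ x : Fin 2 × Fin 2 → ℝ, c 0 * x (0, 0) + c 1 * x (0, 1) + c 2 * x (1, 0) + c 3 * x (1, 1) = 0 := by
    intro x
    rw [← lf_ev, h, map_zero]
  have h0 := key (Function.update 0 (0, 0) 1)
  have h1 := key (Function.update 0 (0, 1) 1)
  have h2 := key (Function.update 0 (1, 0) 1)
  have h3 := key (Function.update 0 (1, 1) 1)
  simp [Function.update] at h0 h1 h2 h3
  funext i
  fin_cases i
  · exact h0
  · exact h1
  · exact h2
  · exact h3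

theorem span_top {e : ℕ} (he : 1 ≤ e) {A : Set MZ} (hG : Gen e A) : Submodule.span ℝ (vv '' A) = ⊤ := by
  by_contra hne
  have hlt : Submodule.span ℝ (vv '' A) < ⊤ := lt_top_iff_ne_top.2 hne
  obtain ⟨f, hf0, hf⟩ := Submodule.exists_le_ker_of_lt_top _ hlt
  set c : Fin 4 → ℝ := fun l => f (Pi.single l 1) with hc
  have hfc : ∀ x : Fin 4 → ℝ, f x = c 0 * x 0 + c 1 * x 1 + c 2 * x 2 + c 3 * x 3 := by
    intro x
    have hx : x = ∑ l, x l • (Pi.single l 1 : Fin 4 → ℝ) := by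
      funext j
      simp [Finset.sum_apply, Pi.single_apply]
    conv_lhs => rw [hx]
    rw [map_sum, Fin.sum_univ_four]
    simp only [map_smul, smul_eq_mul, hc]
    ring
  have hc0 : c ≠ 0 := by
    intro h0
    apply hf0
    ext l
    have := congrFun h0 l
    simpa [hc] using this
  have h1 := hG (MvPolynomial.X (0, 0) ^ (e - 1) * lf c) (by
      have h2 := ((MvPolynomial.isHomogeneous_X ℝ ((0, 0) : Fin 2 × Fin 2)).pow (e - 1)).mul (lf_hom c)
      have h3 : 1 * (e - 1) + 1 = e := by omega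
      rw [h3] at h2
      exact h2) (by
      intro r hr
      unfold ev
      rw [map_mul, lf_ev]
      have h2 : f (vv r) = 0 := hf (Submodule.subset_span ⟨r, hr, rfl⟩)
      rw [hfc] at h2
      simp only [vv] at h2
      have h3 : c 0 * ((r 0 0 : ℤ) : ℝ) + c 1 * ((r 0 1 : ℤ) : ℝ) + c 2 * ((r 1 0 : ℤ) : ℝ) +
        c 3 * ((r 1 1 : ℤ) : ℝ) = 0 := by simpa using h2
      rw [h3, mul_zero])
  rcases mul_eq_zero.1 h1 with h2 | h2
  · exact pow_ne_zero _ (MvPolynomial.X_ne_zero _) h2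
  · exact lf_ne hc0 h2

/-- frame of a multiple -/
theorem fr_smul (a b : MR) (c : ℤ) (r : MZ) (i j : Fin 2) : fr a b (c • r) i j = (c : ℝ) * fr a b r i j := by
  have h1 : toR (c • r) = (c : ℝ) • toR r := by
    ext i' j'
    simp only [toR, Matrix.map_apply, Matrix.smul_apply, smul_eq_mul]
    push_cast
    ring
  unfold fr
  rw [h1, Matrix.mul_smul, Matrix.smul_mul, Matrix.smul_apply, smul_eq_mul]

end Bas_aux

open Bas_aux

theorem tBas : S_Bas := by
  classical
  intro hBx4 hCra hGpt hSel D e K N a b hDe he hN hKN ha hb hG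
  obtain ⟨hC1, hC2⟩ := hCra
  set A := SS K N a b with hA
  have hN4 : N ≤ 24 * N ^ 4 := by
    have h1 : N ≤ N ^ 4 := le_self_pow₀ hN (by norm_num)
    have h2 : 0 ≤ N ^ 4 := by positivity
    linarith
  have hK : 0 < K := by nlinarith
  have hN0 : 0 < N := by linarith
  have hNK : N / K ≤ 1 / 2 := by
    rw [div_le_iff₀ hK]
    nlinarith
  -- bounds
  have bd : ∀ g : Fin 4 → MZ, (∀ l, g l ∈ A) → |((ix g : ℤ) : ℝ)| ≤ 24 * N ^ 4 := by
    intro g hg
    have h1 := hBx4 a b g (K * N) (N / K) ha hb (by positivity) (by positivity) (by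
      intro l
      obtain ⟨-, -, h2, -, h4, h5, h6⟩ := hg l
      exact ⟨h2, h5, h6, h4⟩)
    refine h1.trans (le_of_eq ?_)
    field_simp
  obtain ⟨h, hh, hix⟩ := four (span_top he hG)
  have bu : ∀ r ∈ A, ∀ l, |((ix (Function.update h l r) : ℤ) : ℝ)| ≤ 24 * N ^ 4 := by
    intro r hr l
    apply bd
    intro l'
    by_cases hl : l' = l
    · subst hl
      rw [Function.update_self]
      exact hr
    · rw [Function.update_of_ne hl]
      exact hh l'
  -- signs
  let sg : MZ → ℤ := fun r => if 0 ≤ fr a b r 0 0 then 1 else -1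
  have hsg : ∀ r, sg r = 1 ∨ sg r = -1 := by
    intro r
    by_cases h0 : 0 ≤ fr a b r 0 0
    · left; simp only [sg, if_pos h0]
    · right; simp only [sg, if_neg h0]
  have hsg0 : ∀ r, ((sg r : ℤ) : ℝ) * fr a b r 0 0 = |fr a b r 0 0| := by
    intro r
    by_cases h0 : 0 ≤ fr a b r 0 0
    · simp only [sg, if_pos h0, abs_of_nonneg h0]; push_cast; ring
    · simp only [sg, if_neg h0, abs_of_neg (not_le.1 h0)]; push_cast; ring
  have hsg1 : ∀ r ∈ A, ((sg r : ℤ) : ℝ) * fr a b r 1 1 = |fr a b r 1 1| := by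
    intro r hr
    obtain ⟨⟨m, hm, hdet⟩, -, -, -, -, h5, h6⟩ := hr
    have hd := Fr_aux.fr_det a b r ha hb
    rw [Matrix.det_fin_two, hdet] at hd
    push_cast at hd
    have hm1 : (1 : ℝ) ≤ (m : ℝ) ^ 2 := by
      have : (1 : ℝ) ≤ m := by exact_mod_cast hm
      nlinarith
    have hoff : |fr a b r 0 1 * fr a b r 1 0| ≤ 1 / 2 * (1 / 2) := by
      rw [abs_mul]
      exact mul_le_mul (h5.trans hNK) (h6.trans hNK) (abs_nonneg _) (by norm_num)
    have hpos : 0 < fr a b r 0 0 * fr a b r 1 1 := by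
      have := (abs_le.1 hoff).1
      nlinarith
    by_cases h0 : 0 ≤ fr a b r 0 0
    · have h1 : 0 < fr a b r 1 1 := by
        by_contra hcon
        have := not_lt.1 hcon
        nlinarith
      simp only [sg, if_pos h0, abs_of_pos h1]; push_cast; ring
    · have h1 : fr a b r 1 1 < 0 := by
        by_contra hcon
        have := not_lt.1 hcon
        have h0' := not_le.1 h0
        nlinarith
      simp only [sg, if_neg h0, abs_of_neg h1]; push_cast; ring
  let δ : MZ → ℤ := fun r => Int.sign (ix h) * sg r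
  have hδ : ∀ r, δ r = 1 ∨ δ r = -1 := by
    intro r
    have h1 : Int.sign (ix h) = 1 ∨ Int.sign (ix h) = -1 := by
      rcases lt_trichotomy (ix h) 0 with h0 | h0 | h0
      · right; exact Int.sign_eq_neg_one_of_neg h0
      · exact absurd h0 hix
      · left; exact Int.sign_eq_one_of_pos h0
    rcases h1 with h1 | h1 <;> rcases hsg r with h2 | h2 <;> simp [δ, h1, h2]
  have hδδ : ∀ r, δ r * δ r = 1 := by
    intro r
    rcases hδ r with h1 | h1 <;> rw [h1] <;> norm_num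
  let nn : MZ → Fin 4 → ℤ := fun r l => δ r * ix (Function.update h l r)
  have hnb : ∀ r ∈ A, ∀ l, |((nn r l : ℤ) : ℝ)| ≤ 24 * N ^ 4 := by
    intro r hr l
    have h1 : |((nn r l : ℤ) : ℝ)| = |((ix (Function.update h l r) : ℤ) : ℝ)| := by
      simp only [nn]
      push_cast
      rw [abs_mul]
      rcases hδ r with h1 | h1 <;> rw [h1] <;> simp
    rw [h1]
    exact bu r hr l
  have hsum : ∀ r, ∑ l, nn r l • h l = (δ r * ix h) • r := by
    intro r
    have h1 := hC1 h r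
    calc ∑ l, nn r l • h l = δ r • ∑ l, ix (Function.update h l r) • h l := by
          rw [Finset.smul_sum]
          refine Finset.sum_congr rfl fun l _ => ?_
          simp only [nn, mul_smul]
      _ = _ := by rw [h1, ← mul_smul]
  -- the finite set
  set B0 : ℤ := ⌊24 * N ^ 4⌋ with hB0
  let Bx : Finset (Fin 4 → ℤ) := Fintype.piFinset (fun _ => Finset.Icc (-B0) B0)
  let T1 : Finset (Fin 4 → ℤ) := Bx.filter (fun n => ∃ r ∈ A, n = nn r)
  have hT1 : ∀ r ∈ A, nn r ∈ T1 := by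
    intro r hr
    simp only [T1, Finset.mem_filter]
    refine ⟨?_, r, hr, rfl⟩
    simp only [Bx, Fintype.mem_piFinset, Finset.mem_Icc]
    intro l
    have h1 := abs_le.1 (hnb r hr l)
    constructor
    · have h2 : -((nn r l : ℤ) : ℝ) ≤ 24 * N ^ 4 := by linarith
      have h3 : -(nn r l) ≤ B0 := Int.le_floor.2 (by push_cast; exact h2)
      linarith
    · exact Int.le_floor.2 h1.2
  have hGP : GP D T1 := by
    refine hGpt ⟨hC1, hC2⟩ D e h A T1 hDe hix hG ?_
    intro r hr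
    refine ⟨nn r, hT1 r hr, δ r, hδ r, ?_⟩
    intro l
    simp only [nn]
    rw [← mul_assoc, hδδ, one_mul]
  obtain ⟨T, hTT, hTc, hTG⟩ := hSel D T1 hGP
  have hTr : ∀ n ∈ T, ∃ r ∈ A, n = nn r := by
    intro n hn
    exact (Finset.mem_filter.1 (hTT hn)).2
  have hab : ∀ r, ((δ r * ix h : ℤ) : ℝ) = |((ix h : ℤ) : ℝ)| * ((sg r : ℤ) : ℝ) := by
    intro r
    have h1 : δ r * ix h = |ix h| * sg r := by
      have h2 := Int.sign_mul_self_eq_abs (ix h)
      simp only [δ]
      rw [← h2]; ring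
    rw [h1]
    push_cast
    ring
  have hix1 : (1 : ℝ) ≤ |((ix h : ℤ) : ℝ)| := by
    have h1 : 1 ≤ |ix h| := Int.one_le_abs hix
    exact_mod_cast h1
  have hKL : K / (24 * N ^ 4) ≤ K / N := by
    apply div_le_div_of_nonneg_left hK.le hN0 hN4
  refine ⟨h, T, hh, hix, bd h hh, ?_, ?_, hTc, hTG, ?_⟩
  · -- the loop is not scalar
    intro htf
    obtain ⟨⟨m, hm, hdet⟩, -⟩ := hh 0
    set t := ((h 0).adjugate * h 1).trace with ht
    have h1 : (2 : ℤ) • ((h 0).adjugate * h 1) = t • (1 : MZ) := by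
      have := htf
      unfold tf at this
      rw [sub_eq_zero] at this
      exact this
    have h2 : (2 * (h 0).det) • h 1 = t • h 0 := by
      calc (2 * (h 0).det) • h 1 = h 0 * ((2 : ℤ) • ((h 0).adjugate * h 1)) := by
            rw [Matrix.mul_smul, ← Matrix.mul_assoc, Matrix.mul_adjugate, Matrix.smul_mul, Matrix.one_mul,
              ← mul_smul]
        _ = _ := by rw [h1, Matrix.mul_smul, Matrix.mul_one]
    have e1 := hC2 h (Pi.single 1 (2 * (h 0).det)) 1
    have e2 := hC2 h (Pi.single 0 t) 1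
    have s1 : ∑ l', (Pi.single 1 (2 * (h 0).det) : Fin 4 → ℤ) l' • h l' = (2 * (h 0).det) • h 1 := by
      rw [Finset.sum_eq_single 1]
      · simp
      · intro l _ hl
        rw [Pi.single_eq_of_ne hl, zero_smul]
      · simp
    have s2 : ∑ l', (Pi.single 0 t : Fin 4 → ℤ) l' • h l' = t • h 0 := by
      rw [Finset.sum_eq_single 0]
      · simp
      · intro l _ hl
        rw [Pi.single_eq_of_ne hl, zero_smul]
      · simp
    rw [s1, h2, Pi.single_eq_same] at e1
    rw [s2, Pi.single_eq_of_ne (by decide), mul_zero] at e2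
    rw [e2] at e1
    rcases mul_eq_zero.1 e1.symm with h3 | h3
    · exact hix h3
    · have hmz : (0 : ℤ) < (m : ℤ) := by exact_mod_cast hm
      rw [hdet] at h3
      nlinarith [pow_pos hmz 2]
  · intro n hn l
    obtain ⟨r, hr, rfl⟩ := hTr n hn
    exact hnb r hr l
  · refine ⟨?_, ha, ?_, ?_, ?_, ?_, ?_, ?_, ?_⟩
    · rw [Matrix.det_adjugate, hb]; simp
    · intro l
      obtain ⟨-, -, h2, -, -, -, -⟩ := hh l
      exact h2.trans (mul_le_mul_of_nonneg_left hN4 hK.le)
    · intro l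
      obtain ⟨-, -, -, -, h2, -, -⟩ := hh l
      exact h2.trans (mul_le_mul_of_nonneg_left hN4 hK.le)
    · intro l
      obtain ⟨-, -, -, -, -, h2, -⟩ := hh l
      exact h2.trans (div_le_div_of_nonneg_right hN4 hK.le)
    · intro l
      obtain ⟨-, -, -, -, -, -, h2⟩ := hh l
      exact h2.trans (div_le_div_of_nonneg_right hN4 hK.le)
    · intro n hn
      obtain ⟨r, hr, rfl⟩ := hTr n hn
      show K / (24 * N ^ 4) ≤ fr a b (∑ l, nn r l • h l) 0 0
      rw [hsum, fr_smul, hab, mul_assoc, hsg0]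
      obtain ⟨-, h2, -⟩ := hr
      have h3 : 0 ≤ |fr a b r 0 0| := abs_nonneg _
      nlinarith
    · intro n hn
      obtain ⟨r, hr, rfl⟩ := hTr n hn
      show K / (24 * N ^ 4) ≤ fr a b (∑ l, nn r l • h l) 1 1
      rw [hsum, fr_smul, hab, mul_assoc, hsg1 r hr]
      obtain ⟨-, -, -, h2, -⟩ := hr
      have h3 : 0 ≤ |fr a b r 1 1| := abs_nonneg _
      nlinarith
    · intro n hn
      obtain ⟨r, hr, rfl⟩ := hTr n hn
      obtain ⟨⟨m, hm, hdet⟩, -⟩ := hr
      unfold Pool.Agent.HS.Ct.qf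
      rw [hsum, Matrix.det_smul, hdet]
      refine ⟨δ r * ix h * m, ?_⟩
      simp only [Fintype.card_fin]
      ring

end HSL
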