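import Pool.Agent.Lib.HS.L.SpecCon

set_option autoImplicit false

/-! Module `Bx4` of HS/L/Con: the determinant of four matrices with frames in a thin box. -/

namespace HSL

open Matrix
open Pool.Agent.HS.Ct (ix)

namespace Bx4_aux

/-- the four entries of a matrix -/
def fl (M : MR) : Fin 4 → ℝ := ![M 0 0, M 0 1, M 1 0, M 1 1]

/-- the Kronecker product of `cᵀ` and `a` -/
def PP (c a : MR) : Matrix (Fin 4) (Fin 4) ℝ :=
  !![c 0 0 * a 0 0, c 0 0 * a 0 1, c 1 0 * a 0 0, c 1 0 * a 0 1;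
     c 0 0 * a 1 0, c 0 0 * a 1 1, c 1 0 * a 1 0, c 1 0 * a 1 1;
     c 0 1 * a 0 0, c 0 1 * a 0 1, c 1 1 * a 0 0, c 1 1 * a 0 1;
     c 0 1 * a 1 0, c 0 1 * a 1 1, c 1 1 * a 1 0, c 1 1 * a 1 1]

lemma det_PP (c a : MR) : (PP c a).det = c.det ^ 2 * a.det ^ 2 := by
  rw [Matrix.det_fin_two, Matrix.det_fin_two]
  simp [PP, Matrix.det_succ_row_zero, Fin.sum_univ_succ, Fin.succAbove]
  ring

lemma mul_PP (c a : MR) (x : Fin 4 → MR) :
    (Matrix.of fun l => fl (c * x l * a)) = (Matrix.of fun l => fl (x l)) * PP c a := by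
  ext l j
  fin_cases j <;>
  simp [fl, PP, Matrix.mul_apply, Fin.sum_univ_succ] <;> ring

lemma bound (F : Matrix (Fin 4) (Fin 4) ℝ) (X Y : ℝ) (hX : 0 ≤ X) (hY : 0 ≤ Y)
    (h : ∀ l, |F l 0| ≤ X ∧ |F l 1| ≤ Y ∧ |F l 2| ≤ Y ∧ |F l 3| ≤ X) :
    |F.det| ≤ 24 * (X ^ 2 * Y ^ 2) := by
  rw [Matrix.det_apply]
  refine (Finset.abs_sum_le_sum_abs _ _).trans ?_
  have h1 : ∀ σ ∈ (Finset.univ : Finset (Equiv.Perm (Fin 4))),
      |Equiv.Perm.sign σ • ∏ i, F (σ i) i| ≤ X ^ 2 * Y ^ 2 := by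
    intro σ _
    have e1 : |Equiv.Perm.sign σ • ∏ i, F (σ i) i| = ∏ i, |F (σ i) i| := by
      rcases Int.units_eq_one_or (Equiv.Perm.sign σ) with e | e
      · rw [e, one_smul, Finset.abs_prod]
      · rw [e, Units.neg_smul, one_smul, abs_neg, Finset.abs_prod]
    rw [e1]
    calc ∏ i, |F (σ i) i| = |F (σ 0) 0| * |F (σ 1) 1| * |F (σ 2) 2| * |F (σ 3) 3| := by
          simp [Fin.prod_univ_succ, mul_assoc]
      _ ≤ X * Y * Y * X := by
          have a0 := (h (σ 0)).1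
          have a1 := (h (σ 1)).2.1
          have a2 := (h (σ 2)).2.2.1
          have a3 := (h (σ 3)).2.2.2
          gcongr
      _ = X ^ 2 * Y ^ 2 := by ring
  refine (Finset.sum_le_card_nsmul _ _ _ h1).trans ?_
  rw [Finset.card_univ, Fintype.card_perm, Fintype.card_fin]
  simp [Nat.factorial]

end Bx4_aux

open Bx4_aux in
theorem tBx4 : S_Bx4 := by
  intro a b h X Y ha hb hX hY hb4
  have e0 : ((ix h : ℤ) : ℝ) = (Matrix.of fun l => fl (toR (h l))).det := by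
    refine (Int.cast_det _).trans ?_
    congr 1
    ext i j
    fin_cases i <;> fin_cases j <;> simp [fl, toR]
  have e1 : (Matrix.of fun l => fl (fr a b (h l))).det = ((ix h : ℤ) : ℝ) := by
    unfold fr
    rw [mul_PP, Matrix.det_mul, det_PP, ← e0, ha, Matrix.det_adjugate, hb]
    simp
  rw [← e1]
  refine bound _ X Y hX hY ?_
  intro l
  simpa [fl] using hb4 l

end HSL
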