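import Pool.Agent.Lib.HS.L.SpecCon

/-!
PROJECT H*, PLAN L (MP_a54f13_nt), part HS/L/Con: the contradiction in the form of HS/C (helper3).
-/

set_option autoImplicit false

namespace HSL

open Pool.Agent.HS.Ct (M2eStmt)

/-- the conclusion of `S_Con` -/
def ConC : Prop :=
  ∃ k0 : ℕ, ∀ (k : ℕ) (C R θ : ℝ), k0 ≤ k → 1 ≤ k → 1 ≤ C → 1 ≤ R → 0 < θ → θ ≤ 1 / (100 * (k : ℝ)) →
    ∃ K0 : ℝ, ∀ S : Sys, S.C = C → S.R = R → K0 ≤ S.K → Hyp S k θ →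
      S.Ovl (S.K ^ (1 / 200 : ℝ)) (S.K ^ (1 / 10 : ℝ)) → False

theorem con_of (h1 : S_Con) (h2 : S_Bas) (h3 : S_Fib) (h4 : S_GP)
    (h5 : ∀ ε : ℝ, 0 < ε → M2eStmt ε) : ConC := h1 h2 h3 h4 h5

/-- the form used in HS/C: fixed constant `B`, all `C'` -/
theorem conF (h : ConC) : ∃ k0 : ℕ, ∀ (k : ℕ) (C R B : ℝ), k0 ≤ k → 1 ≤ k → 1 ≤ C → 1 ≤ R → 1 ≤ B →
    ∃ K1 : ℝ, ∀ S : Sys, S.C = C → S.R = R → K1 ≤ S.K → Hyp S k (1 / (100000 * (k : ℝ))) →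
      (∀ C' : ℝ, 1 ≤ C' → S.Ovl C' (B * C' ^ 14)) → False := by
  obtain ⟨k0, h0⟩ := h
  refine ⟨k0, ?_⟩
  intro k C R B hk hk1 hC hR hB
  have hkR : (1 : ℝ) ≤ (k : ℝ) := by exact_mod_cast hk1
  obtain ⟨K0, h1⟩ := h0 k C R (1 / (100000 * (k : ℝ))) hk hk1 hC hR (by positivity)
    (by
      apply one_div_le_one_div_of_le
      · positivity
      · nlinarith)
  refine ⟨max K0 (max 1 (B ^ (100 / 3 : ℝ))), ?_⟩
  intro S hSC hSR hSK hH hO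
  have hK0 : K0 ≤ S.K := (le_max_left _ _).trans hSK
  have hK1 : 1 ≤ S.K := ((le_max_left _ _).trans (le_max_right _ _)).trans hSK
  have hK2 : B ^ (100 / 3 : ℝ) ≤ S.K := ((le_max_right _ _).trans (le_max_right _ _)).trans hSK
  have hKp : 0 < S.K := by linarith
  refine h1 S hSC hSR hK0 hH ?_
  have h2 := hO (S.K ^ (1 / 200 : ℝ)) (Real.one_le_rpow hK1 (by norm_num))
  intro i hi h m hd hm T hT
  refine (h2 i hi h m hd hm T hT).trans ?_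
  have h3 : B ≤ S.K ^ (3 / 100 : ℝ) := by
    calc B = (B ^ (100 / 3 : ℝ)) ^ (3 / 100 : ℝ) := by
          rw [← Real.rpow_mul (by linarith)]; norm_num
      _ ≤ S.K ^ (3 / 100 : ℝ) := Real.rpow_le_rpow (by positivity) hK2 (by norm_num)
  calc B * (S.K ^ (1 / 200 : ℝ)) ^ 14 ≤ S.K ^ (3 / 100 : ℝ) * (S.K ^ (1 / 200 : ℝ)) ^ 14 :=
        mul_le_mul_of_nonneg_right h3 (by positivity)
    _ = S.K ^ (1 / 10 : ℝ) := by
        rw [← Real.rpow_natCast, ← Real.rpow_mul hKp.le, ← Real.rpow_add hKp]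
        norm_num

end HSL
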