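import Pool.Agent.Lib.HS.L.SpecCon

set_option autoImplicit false

/-! PROJECT H*, PLAN L, module Cra: coordinates by Cramer's rule. -/

namespace HSL

open Matrix
open Pool.Agent.HS.Ct (ix qf GP AdmM M2eStmt)

namespace Cra_aux

/-- the `4 × 4` determinant, expanded along the first row -/
def d4 (a0 a1 a2 a3 b0 b1 b2 b3 c0 c1 c2 c3 e0 e1 e2 e3 : ℤ) : ℤ :=
  a0 * (b1 * (c2 * e3 - c3 * e2) - b2 * (c1 * e3 - c3 * e1) + b3 * (c1 * e2 - c2 * e1)) -
  a1 * (b0 * (c2 * e3 - c3 * e2) - b2 * (c0 * e3 - c3 * e0) + b3 * (c0 * e2 - c2 * e0)) +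
  a2 * (b0 * (c1 * e3 - c3 * e1) - b1 * (c0 * e3 - c3 * e0) + b3 * (c0 * e1 - c1 * e0)) -
  a3 * (b0 * (c1 * e2 - c2 * e1) - b1 * (c0 * e2 - c2 * e0) + b2 * (c0 * e1 - c1 * e0))

theorem ix_eq (h : Fin 4 → MZ) : ix h =
    d4 (h 0 0 0) (h 0 0 1) (h 0 1 0) (h 0 1 1) (h 1 0 0) (h 1 0 1) (h 1 1 0) (h 1 1 1)
      (h 2 0 0) (h 2 0 1) (h 2 1 0) (h 2 1 1) (h 3 0 0) (h 3 0 1) (h 3 1 0) (h 3 1 1) := by
  unfold Pool.Agent.HS.Ct.ix d4
  simp [Matrix.det_succ_row_zero, Fin.sum_univ_succ, Fin.succAbove]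
  ring

end Cra_aux

open Cra_aux

theorem tCra : S_Cra := by
  constructor
  · intro h r
    ext i j
    rw [Fin.sum_univ_four]
    simp only [ix_eq, Matrix.add_apply, Matrix.smul_apply, smul_eq_mul]
    fin_cases i <;> fin_cases j <;>
      simp [Function.update, d4] <;> ring
  · intro h n l
    have e : ∀ i j, (∑ l', n l' • h l') i j =
        n 0 * h 0 i j + n 1 * h 1 i j + n 2 * h 2 i j + n 3 * h 3 i j := by
      intro i j
      rw [Fin.sum_univ_four]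
      simp only [Matrix.add_apply, Matrix.smul_apply, smul_eq_mul]
    generalize (∑ l', n l' • h l') = r at e
    have e00 := e 0 0
    have e01 := e 0 1
    have e10 := e 1 0
    have e11 := e 1 1
    clear e
    rw [ix_eq, ix_eq]
    fin_cases l <;>
      simp [Function.update, d4, e00, e01, e10, e11] <;> ring

end HSL
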