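import Pool.Agent.Lib.HS.L.SpecCon
import Pool.Agent.Lib.HS.L.Fr
import Pool.Agent.Lib.MP_640417_ag.All.Divisor

/-!
PROJECT H*, PLAN L (MP_a54f13_nt), part HS/L/Con, module Fib: the fibre (helper3).
-/

set_option autoImplicit false

namespace HSL

open Matrix

namespace Fib_aux

lemma loop_fr (a b : MR) (h1 h2 : MZ) (hb : b.det = 1) :
    fr a a (h1.adjugate * h2) = (fr a b h1).adjugate * fr a b h2 := by
  rw [Fr_aux.fr_mul a b a h1.adjugate h2 hb, Fr_aux.fr_adj]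

lemma pairs (x y u v X Y U V : ℝ) (hx : |x| ≤ X) (hy : |y| ≤ Y) (hu : |u| ≤ U) (hv : |v| ≤ V) :
    |x * y - u * v| ≤ X * Y + U * V := by
  have h1 : |x * y| ≤ X * Y := by
    rw [abs_mul]; exact mul_le_mul hx hy (abs_nonneg _) ((abs_nonneg _).trans hx)
  have h2 : |u * v| ≤ U * V := by
    rw [abs_mul]; exact mul_le_mul hu hv (abs_nonneg _) ((abs_nonneg _).trans hu)
  have h3 := abs_sub (x * y) (u * v)
  linarith

/-- entries of the frame of a loop -/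
lemma loop_entries (K N : ℝ) (a b : MR) (h1 h2 : MZ) (hK : 0 < K) (hN : 1 ≤ N) (hNK : N ≤ K)
    (hb : b.det = 1) (H1 : h1 ∈ SS K N a b) (H2 : h2 ∈ SS K N a b) :
    |fr a a (h1.adjugate * h2) 0 0| ≤ 2 * K ^ 2 * N ^ 2 ∧
    |fr a a (h1.adjugate * h2) 1 1| ≤ 2 * K ^ 2 * N ^ 2 ∧
    |fr a a (h1.adjugate * h2) 0 1| ≤ 2 * N ^ 2 ∧ |fr a a (h1.adjugate * h2) 1 0| ≤ 2 * N ^ 2 := by
  obtain ⟨-, -, a1, -, a2, a3, a4⟩ := H1
  obtain ⟨-, -, b1, -, b2, b3, b4⟩ := H2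
  have e1 : K * N * (N / K) = N ^ 2 := by field_simp
  have e2 : N / K * (K * N) = N ^ 2 := by field_simp
  have e3 : N / K * (N / K) ≤ K * N * (K * N) := by
    have h1 : N / K ≤ K * N := by
      rw [div_le_iff₀ hK]
      have : 1 ≤ K := hN.trans hNK
      nlinarith [mul_nonneg hK.le (by linarith : (0 : ℝ) ≤ N), mul_le_mul this this (by norm_num) hK.le]
    exact mul_le_mul h1 h1 (by positivity) (by positivity)
  have e4 : K * N * (K * N) = K ^ 2 * N ^ 2 := by ring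
  rw [loop_fr a b h1 h2 hb]
  simp only [Matrix.adjugate_fin_two, Matrix.mul_apply, Fin.sum_univ_two, Matrix.of_apply,
    Matrix.cons_val', Matrix.cons_val_zero, Matrix.cons_val_one, Matrix.cons_val_fin_one]
  have p1 := pairs _ _ _ _ _ _ _ _ a2 b1 a3 b4
  have p2 := pairs _ _ _ _ _ _ _ _ a1 b2 a4 b3
  have p3 := pairs _ _ _ _ _ _ _ _ a2 b3 a3 b2
  have p4 := pairs _ _ _ _ _ _ _ _ a1 b4 a4 b1
  refine ⟨?_, ?_, ?_, ?_⟩
  · have : fr a b h1 1 1 * fr a b h2 0 0 + -fr a b h1 0 1 * fr a b h2 1 0 =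
      fr a b h1 1 1 * fr a b h2 0 0 - fr a b h1 0 1 * fr a b h2 1 0 := by ring
    rw [this]; linarith
  · have : -fr a b h1 1 0 * fr a b h2 0 1 + fr a b h1 0 0 * fr a b h2 1 1 =
      fr a b h1 0 0 * fr a b h2 1 1 - fr a b h1 1 0 * fr a b h2 0 1 := by ring
    rw [this]; linarith
  · have : fr a b h1 1 1 * fr a b h2 0 1 + -fr a b h1 0 1 * fr a b h2 1 1 =
      fr a b h1 1 1 * fr a b h2 0 1 - fr a b h1 0 1 * fr a b h2 1 1 := by ring
    rw [this]; linarith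
  · have : -fr a b h1 1 0 * fr a b h2 0 0 + fr a b h1 0 0 * fr a b h2 1 0 =
      fr a b h1 0 0 * fr a b h2 1 0 - fr a b h1 1 0 * fr a b h2 0 0 := by ring
    rw [this]; linarith

lemma fr_tf (a : MR) (s : MZ) (ha : a.det = 1) :
    fr a a (tf s) = (2 : ℝ) • fr a a s - ((s.trace : ℤ) : ℝ) • (1 : MR) := by
  have h1 : a.adjugate * a = 1 := by rw [Matrix.adjugate_mul, ha, one_smul]
  have h2 : toR (tf s) = (2 : ℝ) • toR s - ((s.trace : ℤ) : ℝ) • (1 : MR) := by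
    ext i j
    simp only [tf, toR, Matrix.map_apply, Matrix.sub_apply, Matrix.smul_apply, smul_eq_mul,
      Int.cast_sub, Int.cast_mul]
    fin_cases i <;> fin_cases j <;> simp
  unfold fr
  rw [h2, Matrix.mul_sub, Matrix.sub_mul, Matrix.mul_smul, Matrix.mul_smul, Matrix.smul_mul,
    Matrix.smul_mul, Matrix.mul_one, h1]

lemma fr_smul (a b : MR) (d : ℤ) (v : MZ) : fr a b (d • v) = ((d : ℤ) : ℝ) • fr a b v := by
  have h2 : toR (d • v) = ((d : ℤ) : ℝ) • toR v := by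
    ext i j
    simp only [toR, Matrix.map_apply, Matrix.smul_apply, smul_eq_mul, Int.cast_mul]
  unfold fr
  rw [h2, Matrix.mul_smul, Matrix.smul_mul]

lemma abs_trace (a : MR) (s : MZ) (ha : a.det = 1) :
    ((s.trace : ℤ) : ℝ) = fr a a s 0 0 + fr a a s 1 1 := by
  have h1 : a * a.adjugate = 1 := by rw [Matrix.mul_adjugate, ha, one_smul]
  have h2 : (fr a a s).trace = (toR s).trace := by
    unfold fr
    rw [Matrix.mul_assoc, Matrix.trace_mul_comm, Matrix.mul_assoc, h1, Matrix.mul_one]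
  have h3 : (toR s).trace = ((s.trace : ℤ) : ℝ) := by
    simp [toR, Matrix.trace_fin_two]
  rw [← h3, ← h2, Matrix.trace_fin_two]

/-- the content of a loop is bounded by the torus lemma -/
lemma content_le (S : Sys) (i : S.ι) (N : ℝ) (s : MZ) (hK : 1 ≤ S.K)
    (ha : (S.g i).det = 1) (hg : S.GoodT i) (hs : tf s ≠ 0)
    (h00 : |fr (S.g i) (S.g i) s 0 0| ≤ 2 * S.K ^ 2 * N ^ 2)
    (h11 : |fr (S.g i) (S.g i) s 1 1| ≤ 2 * S.K ^ 2 * N ^ 2)
    (h01 : |fr (S.g i) (S.g i) s 0 1| ≤ 2 * N ^ 2) (h10 : |fr (S.g i) (S.g i) s 1 0| ≤ 2 * N ^ 2)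
    (d : ℤ) (hd : 0 < d) (hdv : ∀ i j, d ∣ s i j) :
    (d : ℝ) ≤ 4 * N ^ 2 * S.K ^ (1 + 1 / 200 : ℝ) := by
  by_contra hcon
  push Not at hcon
  have hK0 : 0 < S.K := by linarith
  have hdR : (0 : ℝ) < d := by exact_mod_cast hd
  have hT : d ∣ s.trace := by
    rw [Matrix.trace_fin_two]; exact dvd_add (hdv 0 0) (hdv 1 1)
  have hdt : ∀ i j, d ∣ tf s i j := by
    intro i j
    simp only [tf, Matrix.sub_apply, Matrix.smul_apply, smul_eq_mul]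
    exact dvd_sub (Dvd.dvd.mul_left (hdv i j) _) (Dvd.dvd.mul_right hT _)
  choose v hv using hdt
  set V : MZ := Matrix.of v with hVd
  have hV : tf s = d • V := by
    ext i j
    rw [hv i j]; simp [hVd]
  have hV0 : V ≠ 0 := by
    intro h; rw [h, smul_zero] at hV; exact hs hV
  have hVt : V.trace = 0 := by
    have h1 : (tf s).trace = 0 := by
      simp only [tf, Matrix.trace_fin_two, Matrix.sub_apply, Matrix.smul_apply, smul_eq_mul,
        Matrix.one_apply_eq]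
      ring
    rw [hV, Matrix.trace_smul, smul_eq_mul] at h1
    rcases mul_eq_zero.mp h1 with h2 | h2
    · exact absurd h2 hd.ne'
    · exact h2
  have hfr : (d : ℝ) • fr (S.g i) (S.g i) V =
      (2 : ℝ) • fr (S.g i) (S.g i) s - ((s.trace : ℤ) : ℝ) • (1 : MR) := by
    rw [← fr_tf _ _ ha, hV, fr_smul]
  have htr := abs_trace (S.g i) s ha
  have f00 : (d : ℝ) * fr (S.g i) (S.g i) V 0 0 =
      fr (S.g i) (S.g i) s 0 0 - fr (S.g i) (S.g i) s 1 1 := by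
    have := congrFun (congrFun hfr 0) 0
    simp only [Matrix.smul_apply, Matrix.sub_apply, smul_eq_mul, Matrix.one_apply_eq, mul_one] at this
    rw [this, htr]; ring
  have f01 : (d : ℝ) * fr (S.g i) (S.g i) V 0 1 = 2 * fr (S.g i) (S.g i) s 0 1 := by
    have := congrFun (congrFun hfr 0) 1
    simp only [Matrix.smul_apply, Matrix.sub_apply, smul_eq_mul] at this
    rw [this]; simp
  have f10 : (d : ℝ) * fr (S.g i) (S.g i) V 1 0 = 2 * fr (S.g i) (S.g i) s 1 0 := by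
    have := congrFun (congrFun hfr 1) 0
    simp only [Matrix.smul_apply, Matrix.sub_apply, smul_eq_mul] at this
    rw [this]; simp
  have k1 : S.K ^ (1 - 1 / 200 : ℝ) * S.K ^ (1 + 1 / 200 : ℝ) = S.K ^ 2 := by
    rw [← Real.rpow_add hK0, ← Real.rpow_natCast]; norm_num
  have k2 : S.K ^ (-1 - 1 / 200 : ℝ) * S.K ^ (1 + 1 / 200 : ℝ) = 1 := by
    rw [← Real.rpow_add hK0]; norm_num
  have kp1 : 0 < S.K ^ (1 - 1 / 200 : ℝ) := Real.rpow_pos_of_pos hK0 _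
  have kp2 : 0 < S.K ^ (-1 - 1 / 200 : ℝ) := Real.rpow_pos_of_pos hK0 _
  refine hg V hV0 hVt ?_ ?_ ?_
  · have h1 : (d : ℝ) * |fr (S.g i) (S.g i) V 0 0| ≤ 4 * S.K ^ 2 * N ^ 2 := by
      rw [show (d : ℝ) * |fr (S.g i) (S.g i) V 0 0| = |(d : ℝ) * fr (S.g i) (S.g i) V 0 0| by
        rw [abs_mul, abs_of_pos hdR], f00]
      have := abs_sub (fr (S.g i) (S.g i) s 0 0) (fr (S.g i) (S.g i) s 1 1)
      linarith
    have h2 : 4 * S.K ^ 2 * N ^ 2 ≤ (d : ℝ) * S.K ^ (1 - 1 / 200 : ℝ) := by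
      calc 4 * S.K ^ 2 * N ^ 2 = 4 * N ^ 2 * S.K ^ (1 + 1 / 200 : ℝ) * S.K ^ (1 - 1 / 200 : ℝ) := by
            rw [← k1]; ring
        _ ≤ (d : ℝ) * S.K ^ (1 - 1 / 200 : ℝ) := mul_le_mul_of_nonneg_right hcon.le kp1.le
    exact le_of_mul_le_mul_left (h1.trans h2) hdR
  · have h1 : (d : ℝ) * |fr (S.g i) (S.g i) V 0 1| ≤ 4 * N ^ 2 := by
      rw [show (d : ℝ) * |fr (S.g i) (S.g i) V 0 1| = |(d : ℝ) * fr (S.g i) (S.g i) V 0 1| by
        rw [abs_mul, abs_of_pos hdR], f01, abs_mul, abs_two]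
      linarith
    have h2 : 4 * N ^ 2 ≤ (d : ℝ) * S.K ^ (-1 - 1 / 200 : ℝ) := by
      calc 4 * N ^ 2 = 4 * N ^ 2 * S.K ^ (1 + 1 / 200 : ℝ) * S.K ^ (-1 - 1 / 200 : ℝ) := by
            rw [mul_assoc (4 * N ^ 2), mul_comm (S.K ^ (1 + 1 / 200 : ℝ)), k2, mul_one]
        _ ≤ (d : ℝ) * S.K ^ (-1 - 1 / 200 : ℝ) := mul_le_mul_of_nonneg_right hcon.le kp2.le
    exact le_of_mul_le_mul_left (h1.trans h2) hdR
  · have h1 : (d : ℝ) * |fr (S.g i) (S.g i) V 1 0| ≤ 4 * N ^ 2 := by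
      rw [show (d : ℝ) * |fr (S.g i) (S.g i) V 1 0| = |(d : ℝ) * fr (S.g i) (S.g i) V 1 0| by
        rw [abs_mul, abs_of_pos hdR], f10, abs_mul, abs_two]
      linarith
    have h2 : 4 * N ^ 2 ≤ (d : ℝ) * S.K ^ (-1 - 1 / 200 : ℝ) := by
      calc 4 * N ^ 2 = 4 * N ^ 2 * S.K ^ (1 + 1 / 200 : ℝ) * S.K ^ (-1 - 1 / 200 : ℝ) := by
            rw [mul_assoc (4 * N ^ 2), mul_comm (S.K ^ (1 + 1 / 200 : ℝ)), k2, mul_one]
        _ ≤ (d : ℝ) * S.K ^ (-1 - 1 / 200 : ℝ) := mul_le_mul_of_nonneg_right hcon.le kp2.le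
    exact le_of_mul_le_mul_left (h1.trans h2) hdR

/-- a system of representatives of the classes -/
lemma reps (A : Finset MZ) : ∃ H : Finset MZ, H ⊆ A ∧
    (∀ h ∈ H, ∀ h' ∈ H, ∀ γ : MZ, γ.det = 1 → h' = γ * h → h = h') ∧
    (∀ h ∈ A, ∃ h0 ∈ H, ∃ γ : MZ, γ.det = 1 ∧ h = γ * h0) := by
  classical
  induction A using Finset.induction_on with
  | empty => exact ⟨∅, by simp, by simp, by simp⟩
  | insert x A hx ih =>
    obtain ⟨H, h1, h2, h3⟩ := ih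
    by_cases hc : ∃ h0 ∈ H, ∃ γ : MZ, γ.det = 1 ∧ x = γ * h0
    · refine ⟨H, h1.trans (Finset.subset_insert _ _), h2, ?_⟩
      intro h hh
      rcases Finset.mem_insert.mp hh with rfl | hh
      · exact hc
      · exact h3 h hh
    · refine ⟨insert x H, Finset.insert_subset_insert _ h1, ?_, ?_⟩
      · intro h hh h' hh' γ hγ he
        rcases Finset.mem_insert.mp hh with rfl | hh
        · rcases Finset.mem_insert.mp hh' with rfl | hh'
          · rfl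
          · exfalso
            refine hc ⟨h', hh', γ.adjugate, ?_, ?_⟩
            · rw [Matrix.det_adjugate, hγ]; simp
            · rw [he, ← Matrix.mul_assoc, Matrix.adjugate_mul, hγ, one_smul, Matrix.one_mul]
        · rcases Finset.mem_insert.mp hh' with hx' | hh'
          · exact absurd ⟨h, hh, γ, hγ, hx' ▸ he⟩ hc
          · exact h2 h hh h' hh' γ hγ he
      · intro h hh
        rcases Finset.mem_insert.mp hh with rfl | hh
        · exact ⟨h, Finset.mem_insert_self _ _, 1, by simp, by simp⟩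
        · obtain ⟨h0, m0, γ, g1, g2⟩ := h3 h hh
          exact ⟨h0, Finset.mem_insert_of_mem m0, γ, g1, g2⟩

/-- the size of the level -/
lemma level (K N : ℝ) (a b : MR) (h : MZ) (m : ℕ) (hN : 1 ≤ N) (hNK : 2 * N ^ 2 ≤ K)
    (ha : a.det = 1) (hb : b.det = 1) (H : h ∈ SS K N a b) (hm : h.det = (m : ℤ) ^ 2) :
    0 < m ∧ K / (2 * N) ≤ (m : ℝ) ∧ (m : ℝ) ^ 2 ≤ K ^ 4 := by
  obtain ⟨⟨m', hm', hd⟩, a0, a1, b0, b1, c1, c2⟩ := H
  have hN0 : 0 < N := by linarith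
  have hK2 : 2 ≤ K := by nlinarith
  have hK : 0 < K := by linarith
  have hmm : m = m' := by
    have h1 : ((m : ℤ)) ^ 2 = (m' : ℤ) ^ 2 := by rw [← hm, hd]
    have h2 : m ^ 2 = m' ^ 2 := by exact_mod_cast h1
    exact Nat.pow_left_injective (by norm_num : 2 ≠ 0) h2
  subst hmm
  have hdet : (m : ℝ) ^ 2 = fr a b h 0 0 * fr a b h 1 1 - fr a b h 0 1 * fr a b h 1 0 := by
    have h1 := Fr_aux.fr_det a b h ha hb
    rw [hm, Matrix.det_fin_two] at h1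
    rw [h1]; push_cast; ring
  have hKN : 0 < K / N := by positivity
  have hoff : |fr a b h 0 1 * fr a b h 1 0| ≤ N ^ 2 / K ^ 2 := by
    rw [abs_mul]
    calc |fr a b h 0 1| * |fr a b h 1 0| ≤ N / K * (N / K) :=
          mul_le_mul c1 c2 (abs_nonneg _) (by positivity)
      _ = N ^ 2 / K ^ 2 := by field_simp
  have hlow : K ^ 2 / N ^ 2 ≤ |fr a b h 0 0 * fr a b h 1 1| := by
    rw [abs_mul]
    calc K ^ 2 / N ^ 2 = K / N * (K / N) := by field_simp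
      _ ≤ |fr a b h 0 0| * |fr a b h 1 1| := mul_le_mul a0 b0 hKN.le (abs_nonneg _)
  have hup : |fr a b h 0 0 * fr a b h 1 1| ≤ K ^ 2 * N ^ 2 := by
    rw [abs_mul]
    calc |fr a b h 0 0| * |fr a b h 1 1| ≤ K * N * (K * N) :=
          mul_le_mul a1 b1 (abs_nonneg _) (by positivity)
      _ = K ^ 2 * N ^ 2 := by ring
  have hm2 : (0 : ℝ) ≤ (m : ℝ) ^ 2 := by positivity
  have e1 : fr a b h 0 0 * fr a b h 1 1 = (m : ℝ) ^ 2 + fr a b h 0 1 * fr a b h 1 0 := by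
    rw [hdet]; ring
  have hN2 : N ^ 2 ≤ K / 2 := by linarith
  have hsmall : N ^ 2 / K ^ 2 ≤ 3 / 4 * (K ^ 2 / N ^ 2) := by
    rw [div_le_iff₀ (by positivity)]
    have : 3 / 4 * (K ^ 2 / N ^ 2) * K ^ 2 = 3 / 4 * K ^ 4 / N ^ 2 := by field_simp
    rw [this, le_div_iff₀ (by positivity)]
    have h4 : N ^ 2 * N ^ 2 ≤ K / 2 * (K / 2) := mul_le_mul hN2 hN2 (by positivity) (by linarith)
    have h5 : K / 2 * (K / 2) ≤ 3 / 4 * K ^ 4 := by
      have h6 : (1 : ℝ) ≤ K ^ 2 := by nlinarith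
      nlinarith [mul_nonneg (sq_nonneg K) (by linarith : (0 : ℝ) ≤ K ^ 2 - 1)]
    linarith
  refine ⟨hm', ?_, ?_⟩
  · have h1 : K ^ 2 / N ^ 2 ≤ (m : ℝ) ^ 2 + N ^ 2 / K ^ 2 := by
      calc K ^ 2 / N ^ 2 ≤ |(m : ℝ) ^ 2 + fr a b h 0 1 * fr a b h 1 0| := by rw [← e1]; exact hlow
        _ ≤ |(m : ℝ) ^ 2| + |fr a b h 0 1 * fr a b h 1 0| := abs_add_le _ _
        _ ≤ (m : ℝ) ^ 2 + N ^ 2 / K ^ 2 := by rw [abs_of_nonneg hm2]; linarith
    have h2 : (K / (2 * N)) ^ 2 ≤ (m : ℝ) ^ 2 := by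
      have : (K / (2 * N)) ^ 2 = 1 / 4 * (K ^ 2 / N ^ 2) := by field_simp; norm_num
      rw [this]; linarith
    exact (sq_le_sq₀ (by positivity) (by positivity)).mp h2
  · have h1 : (m : ℝ) ^ 2 ≤ K ^ 2 * N ^ 2 + N ^ 2 / K ^ 2 := by
      have h2 : (m : ℝ) ^ 2 = fr a b h 0 0 * fr a b h 1 1 - fr a b h 0 1 * fr a b h 1 0 := hdet
      have h3 := le_abs_self (fr a b h 0 0 * fr a b h 1 1)
      have h4 := neg_abs_le (fr a b h 0 1 * fr a b h 1 0)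
      linarith
    have h2 : N ^ 2 / K ^ 2 ≤ K ^ 2 * N ^ 2 := by
      rw [div_le_iff₀ (by positivity)]
      have h6 : (1 : ℝ) ≤ K ^ 2 := by nlinarith
      have h7 : (1 : ℝ) ≤ K ^ 2 * K ^ 2 := by nlinarith
      nlinarith [mul_nonneg (sq_nonneg N) (by linarith : (0 : ℝ) ≤ K ^ 2 * K ^ 2 - 1)]
    have h3 : K ^ 2 * N ^ 2 ≤ K ^ 2 * (K / 2) := mul_le_mul_of_nonneg_left hN2 (by positivity)
    have h4 : K ^ 2 * (K / 2) * 2 ≤ K ^ 4 := by
      have : K ^ 2 * (K / 2) * 2 = K ^ 3 := by ring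
      rw [this]
      exact pow_le_pow_right₀ (by linarith) (by norm_num)
    linarith

lemma ret_of_SS (K N : ℝ) (a b : MR) (h : MZ) (m : ℕ) (hN : 1 ≤ N) (hNK : 2 * N ^ 2 ≤ K)
    (ha : a.det = 1) (hb : b.det = 1) (H : h ∈ SS K N a b) (hm : h.det = (m : ℤ) ^ 2) :
    Ret (2 * N ^ 2) (1 / K ^ 2) a b m h := by
  obtain ⟨hm0, hlow, -⟩ := level K N a b h m hN hNK ha hb H hm
  obtain ⟨-, a0, a1, b0, b1, c1, c2⟩ := H
  have hN0 : 0 < N := by linarith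
  have hK2 : 2 ≤ K := by nlinarith
  have hK : 0 < K := by linarith
  have e1 : K * N ≤ 2 * N ^ 2 * (m : ℝ) := by
    calc K * N = 2 * N ^ 2 * (K / (2 * N)) := by field_simp
      _ ≤ 2 * N ^ 2 * (m : ℝ) := mul_le_mul_of_nonneg_left hlow (by positivity)
  have e2 : N / K ≤ 2 * N ^ 2 * (1 / K ^ 2) * (m : ℝ) := by
    calc N / K = 2 * N ^ 2 * (1 / K ^ 2) * (K / (2 * N)) := by field_simp
      _ ≤ 2 * N ^ 2 * (1 / K ^ 2) * (m : ℝ) := mul_le_mul_of_nonneg_left hlow (by positivity)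
  exact ⟨hm, hm0, a1.trans e1, b1.trans e1, c1.trans e2, c2.trans e2⟩

lemma fiber (S : Sys) (i : S.ι) (N B : ℝ) (m1 c : ℕ) (s : MZ) (p : S.ι → MZ) (r : S.ι → MZ)
    (J : Finset S.ι) (hHrm : S_Hrm) (hU : S.Unim) (hN : 1 ≤ N) (hNK : 2 * N ^ 2 ≤ S.K)
    (hB : 0 ≤ B) (hi : i ∈ S.V) (hOvl : S.Ovl (2 * N ^ 2) B) (hJV : J ⊆ S.V)
    (hp : ∀ j ∈ J, p j ∈ SS S.K N (S.g i) (S.g j) ∧ (p j).det = (m1 : ℤ) ^ 2 ∧
      (p j).adjugate * r j = s) (hc : 0 < c)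
    (hcont : ∀ d : ℤ, 0 < d → (∀ i j, d ∣ s i j) → d ≤ (c : ℤ)) :
    (J.card : ℝ) ≤ ((m1 ^ 2).divisors.card * c : ℕ) * B := by
  classical
  rcases J.eq_empty_or_nonempty with rfl | ⟨j1, hj1⟩
  · simp only [Finset.card_empty, Nat.cast_zero]
    positivity
  have hm1 : 0 < m1 :=
    (level S.K N _ _ _ m1 hN hNK (hU i hi).1 (hU j1 (hJV hj1)).1 (hp j1 hj1).1 (hp j1 hj1).2.1).1
  obtain ⟨H, hHA, hH1, hH2⟩ := reps (J.image p)
  have hHmem : ∀ h ∈ H, ∃ j ∈ J, p j = h := fun h hh => by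
    obtain ⟨j, hj, he⟩ := Finset.mem_image.mp (hHA hh)
    exact ⟨j, hj, he⟩
  have hHc : H.card ≤ (m1 ^ 2).divisors.card * c := by
    refine hHrm s (m1 ^ 2) c H (by positivity) hc hcont ?_ hH1
    intro h hh
    obtain ⟨j, hj, rfl⟩ := hHmem h hh
    exact ⟨by rw [(hp j hj).2.1]; push_cast; ring, r j, (hp j hj).2.2⟩
  have hcover : J ⊆ H.biUnion (fun h0 => J.filter (fun j => ∃ γ : MZ, γ.det = 1 ∧ p j = γ * h0)) := by
    intro j hj
    obtain ⟨h0, m0, γ, g1, g2⟩ := hH2 (p j) (Finset.mem_image_of_mem p hj)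
    exact Finset.mem_biUnion.mpr ⟨h0, m0, Finset.mem_filter.mpr ⟨hj, γ, g1, g2⟩⟩
  have hone : ∀ h0 ∈ H,
      ((J.filter (fun j => ∃ γ : MZ, γ.det = 1 ∧ p j = γ * h0)).card : ℝ) ≤ B := by
    intro h0 m0
    obtain ⟨j0, hj0, rfl⟩ := hHmem h0 m0
    have hex : ∀ j ∈ J.filter (fun j => ∃ γ : MZ, γ.det = 1 ∧ p j = γ * p j0),
        ∃ γ : MZ, γ.det = 1 ∧ p j = γ * p j0 := fun j hj => (Finset.mem_filter.mp hj).2
    choose! γ hγ using hex
    have h1 : (J.filter (fun j => ∃ γ : MZ, γ.det = 1 ∧ p j = γ * p j0)).card =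
        ((J.filter (fun j => ∃ γ : MZ, γ.det = 1 ∧ p j = γ * p j0)).image
          (fun j => (j, γ j))).card := by
      rw [Finset.card_image_of_injective]
      intro x y hxy
      exact (Prod.mk.inj hxy).1
    rw [h1]
    refine hOvl i hi (p j0) m1 (hp j0 hj0).2.1 hm1 _ ?_
    intro t ht
    obtain ⟨j, hj, rfl⟩ := Finset.mem_image.mp ht
    have hjJ := (Finset.mem_filter.mp hj).1
    refine ⟨hJV hjJ, (hγ j hj).1, ?_⟩
    rw [← (hγ j hj).2]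
    exact ret_of_SS S.K N _ _ _ m1 hN hNK (hU i hi).1 (hU j (hJV hjJ)).1 (hp j hjJ).1
      (hp j hjJ).2.1
  calc (J.card : ℝ) ≤ ((H.biUnion (fun h0 =>
          J.filter (fun j => ∃ γ : MZ, γ.det = 1 ∧ p j = γ * h0))).card : ℝ) := by
        exact_mod_cast Finset.card_le_card hcover
    _ ≤ ((∑ h0 ∈ H, (J.filter (fun j => ∃ γ : MZ, γ.det = 1 ∧ p j = γ * h0)).card : ℕ) : ℝ) := by
        exact_mod_cast Finset.card_biUnion_le
    _ = ∑ h0 ∈ H, ((J.filter (fun j => ∃ γ : MZ, γ.det = 1 ∧ p j = γ * h0)).card : ℝ) := by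
        push_cast; rfl
    _ ≤ ∑ _h0 ∈ H, B := Finset.sum_le_sum hone
    _ = (H.card : ℝ) * B := by rw [Finset.sum_const, nsmul_eq_mul]
    _ ≤ ((m1 ^ 2).divisors.card * c : ℕ) * B :=
        mul_le_mul_of_nonneg_right (by exact_mod_cast hHc) hB

end Fib_aux

/-- the fibre -/
theorem tFib : S_Loc → S_Hrm → S_Fib := by
  intro hLoc hHrm R ε hR hε
  obtain ⟨C1, hC1, hdiv⟩ := Pool.Agent.Lib.MP_640417_ag.All.divisor_bound (ε / 4) (by positivity)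
  refine ⟨10 * (34 * R ^ 2) ^ 4 * C1, 1, ?_⟩
  intro S N B i m1 m2 T J hSR _ hU hN hNK hB hi hg hOvl hJV hJ
  classical
  have hN0 : 0 < N := by linarith
  have hK2 : 2 ≤ S.K := by nlinarith
  have hK : 0 < S.K := by linarith
  have hNK' : N ≤ S.K := by nlinarith
  obtain ⟨ha, haR⟩ := hU i hi
  have hJ' : ∀ j ∈ J, ∃ p : MZ × MZ, p.1 ∈ SS S.K N (S.g i) (S.g j) ∧
      p.2 ∈ SS S.K N (S.g i) (S.g j) ∧ p.1.det = (m1 : ℤ) ^ 2 ∧ p.2.det = (m2 : ℤ) ^ 2 ∧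
      (p.1.adjugate * p.2).trace = T ∧ tf (p.1.adjugate * p.2) ≠ 0 := by
    intro j hj
    obtain ⟨h1, a1, h2, a2, a3⟩ := hJ j hj
    exact ⟨(h1, h2), a1, a2, a3⟩
  choose! p hp using hJ'
  have hx0 : (0 : ℝ) ≤ 4 * N ^ 2 * S.K ^ (1 + 1 / 200 : ℝ) := by positivity
  have hKp : 1 ≤ S.K ^ (1 + 1 / 200 : ℝ) := Real.one_le_rpow (by linarith) (by norm_num)
  obtain ⟨c, hcdef⟩ : ∃ c : ℕ, c = ⌈4 * N ^ 2 * S.K ^ (1 + 1 / 200 : ℝ)⌉₊ := ⟨_, rfl⟩
  have hc1 : 4 * N ^ 2 * S.K ^ (1 + 1 / 200 : ℝ) ≤ (c : ℝ) := by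
    rw [hcdef]; exact Nat.le_ceil _
  have hN2 : 1 ≤ N ^ 2 := by nlinarith
  have hc2 : (c : ℝ) ≤ 5 * N ^ 2 * S.K ^ (1 + 1 / 200 : ℝ) := by
    have h1 := (Nat.ceil_lt_add_one hx0).le
    rw [← hcdef] at h1
    have h2 : 1 ≤ N ^ 2 * S.K ^ (1 + 1 / 200 : ℝ) := by nlinarith
    linarith
  have hc0 : 0 < c := by
    have h1 : (0 : ℝ) < c := lt_of_lt_of_le (by positivity) hc1
    exact_mod_cast h1
  have hX : ((J.image (fun j => (p j).1.adjugate * (p j).2)).card : ℝ) ≤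
      2 * (17 * R ^ 2 * (2 * N ^ 2)) ^ 4 := by
    refine hLoc R (2 * N ^ 2) (S.g i) T (((m1 : ℤ) * m2) ^ 2) _ hR (by linarith) ha
      (by rw [← hSR]; exact haR) ?_
    intro s hs
    obtain ⟨j, hj, rfl⟩ := Finset.mem_image.mp hs
    obtain ⟨q1, q2, q3, q4, q5, q6⟩ := hp j hj
    have e := Fib_aux.loop_entries S.K N (S.g i) (S.g j) _ _ hK hN hNK' (hU j (hJV hj)).1 q1 q2
    refine ⟨q5, ?_, e.2.2.1, e.2.2.2⟩
    rw [Matrix.det_mul, Matrix.det_adjugate, q3, q4]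
    simp only [Fintype.card_fin]
    ring
  have hfib : ∀ s ∈ J.image (fun j => (p j).1.adjugate * (p j).2),
      ((J.filter (fun j => (p j).1.adjugate * (p j).2 = s)).card : ℝ) ≤
        C1 * S.K ^ ε * (5 * N ^ 2 * S.K ^ (1 + 1 / 200 : ℝ)) * B := by
    intro s hs
    obtain ⟨j0, hj0, hs0⟩ := Finset.mem_image.mp hs
    obtain ⟨q1, q2, q3, q4, q5, q6⟩ := hp j0 hj0
    have e := Fib_aux.loop_entries S.K N (S.g i) (S.g j0) _ _ hK hN hNK' (hU j0 (hJV hj0)).1 q1 q2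
    have hcont : ∀ d : ℤ, 0 < d → (∀ i j, d ∣ s i j) → d ≤ (c : ℤ) := by
      intro d hd hdv
      rw [← hs0] at hdv
      have h1 := Fib_aux.content_le S i N _ (by linarith) ha hg q6 e.1 e.2.1 e.2.2.1 e.2.2.2 d hd hdv
      have h2 : (d : ℝ) ≤ (c : ℝ) := h1.trans hc1
      exact_mod_cast h2
    have h1 := Fib_aux.fiber S i N B m1 c s (fun j => (p j).1) (fun j => (p j).2)
      (J.filter (fun j => (p j).1.adjugate * (p j).2 = s)) hHrm hU hN hNK hB hi hOvl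
      ((Finset.filter_subset _ _).trans hJV)
      (by
        intro j hj
        obtain ⟨hj1, hj2⟩ := Finset.mem_filter.mp hj
        exact ⟨(hp j hj1).1, (hp j hj1).2.2.1, hj2⟩) hc0 hcont
    refine h1.trans (mul_le_mul_of_nonneg_right ?_ hB)
    obtain ⟨hm0, -, hm4⟩ := Fib_aux.level S.K N _ _ _ m1 hN hNK ha (hU j0 (hJV hj0)).1 q1 q3
    have h2 : ((m1 ^ 2).divisors.card : ℝ) ≤ C1 * S.K ^ ε := by
      refine (hdiv (m1 ^ 2) (by positivity)).trans (mul_le_mul_of_nonneg_left ?_ hC1.le)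
      have h3 : (((m1 ^ 2 : ℕ)) : ℝ) ≤ S.K ^ 4 := by push_cast; exact hm4
      calc (((m1 ^ 2 : ℕ)) : ℝ) ^ (ε / 4) ≤ (S.K ^ 4) ^ (ε / 4) :=
            Real.rpow_le_rpow (by positivity) h3 (by positivity)
        _ = S.K ^ ε := by
            rw [← Real.rpow_natCast, ← Real.rpow_mul hK.le]
            congr 1
            push_cast; ring
    push_cast
    have h4 : (0 : ℝ) ≤ C1 * S.K ^ ε := by positivity
    exact mul_le_mul (by exact_mod_cast h2) hc2 (by positivity) h4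
  have hsum : (J.card : ℝ) = ∑ s ∈ J.image (fun j => (p j).1.adjugate * (p j).2),
      ((J.filter (fun j => (p j).1.adjugate * (p j).2 = s)).card : ℝ) := by
    have h1 := Finset.card_eq_sum_card_image (fun j => (p j).1.adjugate * (p j).2) J
    exact_mod_cast h1
  have hKK : S.K ^ (1 + 1 / 200 + ε : ℝ) = S.K ^ (1 + 1 / 200 : ℝ) * S.K ^ ε := by
    rw [Real.rpow_add hK]
  have hQ : (0 : ℝ) ≤ C1 * S.K ^ ε * (5 * N ^ 2 * S.K ^ (1 + 1 / 200 : ℝ)) * B := by positivity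
  calc (J.card : ℝ) = _ := hsum
    _ ≤ ∑ _s ∈ J.image (fun j => (p j).1.adjugate * (p j).2),
        C1 * S.K ^ ε * (5 * N ^ 2 * S.K ^ (1 + 1 / 200 : ℝ)) * B := Finset.sum_le_sum hfib
    _ = ((J.image (fun j => (p j).1.adjugate * (p j).2)).card : ℝ) *
        (C1 * S.K ^ ε * (5 * N ^ 2 * S.K ^ (1 + 1 / 200 : ℝ)) * B) := by
        rw [Finset.sum_const, nsmul_eq_mul]
    _ ≤ 2 * (17 * R ^ 2 * (2 * N ^ 2)) ^ 4 *
        (C1 * S.K ^ ε * (5 * N ^ 2 * S.K ^ (1 + 1 / 200 : ℝ)) * B) :=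
        mul_le_mul_of_nonneg_right hX hQ
    _ = 10 * (34 * R ^ 2) ^ 4 * C1 * N ^ 10 * B * S.K ^ (1 + 1 / 200 + ε : ℝ) := by
        rw [hKK]; ring
    _ ≤ 10 * (34 * R ^ 2) ^ 4 * C1 * N ^ 14 * B * S.K ^ (1 + 1 / 200 + ε : ℝ) := by
        have h1 : N ^ 10 ≤ N ^ 14 := pow_le_pow_right₀ hN (by norm_num)
        have h2 : 10 * (34 * R ^ 2) ^ 4 * C1 * N ^ 10 ≤ 10 * (34 * R ^ 2) ^ 4 * C1 * N ^ 14 :=
          mul_le_mul_of_nonneg_left h1 (by positivity)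
        exact mul_le_mul_of_nonneg_right (mul_le_mul_of_nonneg_right h2 hB)
          (Real.rpow_nonneg hK.le _)

end HSL
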