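import Pool.Agent.Lib.HS.L.SpecCon

set_option autoImplicit false

/-! PROJECT H*, PLAN L, module Gpt: transfer of general position to the coordinates. -/

namespace HSL

open Matrix
open Pool.Agent.HS.Ct (ix qf GP AdmM M2eStmt)

namespace Gpt_aux

/-- the `4 × 4` determinant, expanded along the first row -/
def d4 (a0 a1 a2 a3 b0 b1 b2 b3 c0 c1 c2 c3 e0 e1 e2 e3 : ℤ) : ℤ :=
  a0 * (b1 * (c2 * e3 - c3 * e2) - b2 * (c1 * e3 - c3 * e1) + b3 * (c1 * e2 - c2 * e1)) -
  a1 * (b0 * (c2 * e3 - c3 * e2) - b2 * (c0 * e3 - c3 * e0) + b3 * (c0 * e2 - c2 * e0)) +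
  a2 * (b0 * (c1 * e3 - c3 * e1) - b1 * (c0 * e3 - c3 * e0) + b3 * (c0 * e1 - c1 * e0)) -
  a3 * (b0 * (c1 * e2 - c2 * e1) - b1 * (c0 * e2 - c2 * e0) + b2 * (c0 * e1 - c1 * e0))

theorem ix_eq (h : Fin 4 → MZ) : ix h =
    d4 (h 0 0 0) (h 0 0 1) (h 0 1 0) (h 0 1 1) (h 1 0 0) (h 1 0 1) (h 1 1 0) (h 1 1 1)
      (h 2 0 0) (h 2 0 1) (h 2 1 0) (h 2 1 1) (h 3 0 0) (h 3 0 1) (h 3 1 0) (h 3 1 1) := by
  unfold Pool.Agent.HS.Ct.ix d4
  simp [Matrix.det_succ_row_zero, Fin.sum_univ_succ, Fin.succAbove]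
  ring

/-- the coefficients of the coordinate forms -/
def kk (h : Fin 4 → MZ) (l : Fin 4) (ij : Fin 2 × Fin 2) : ℤ :=
  ix (Function.update h l (Matrix.single ij.1 ij.2 (1 : ℤ)))

theorem ix_lin (h : Fin 4 → MZ) (l : Fin 4) (r : MZ) :
    ix (Function.update h l r) = ∑ ij : Fin 2 × Fin 2, kk h l ij * r ij.1 ij.2 := by
  rw [Fintype.sum_prod_type, Fin.sum_univ_two, Fin.sum_univ_two, Fin.sum_univ_two]
  unfold kk
  simp only [ix_eq]
  fin_cases l <;>
    simp [Function.update, d4, Matrix.single] <;> ring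

/-- the coordinate forms -/
noncomputable def LL (h : Fin 4 → MZ) (l : Fin 4) : MvPolynomial (Fin 2 × Fin 2) ℝ :=
  ∑ ij : Fin 2 × Fin 2, MvPolynomial.C ((kk h l ij : ℤ) : ℝ) * MvPolynomial.X ij

theorem LL_hom (h : Fin 4 → MZ) (l : Fin 4) : (LL h l).IsHomogeneous 1 := by
  unfold LL
  apply MvPolynomial.IsHomogeneous.sum
  intro ij _
  have h1 := (MvPolynomial.isHomogeneous_C (Fin 2 × Fin 2) ((kk h l ij : ℤ) : ℝ)).mul
    (MvPolynomial.isHomogeneous_X ℝ ij)
  simpa using h1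

theorem LL_ev (h : Fin 4 → MZ) (l : Fin 4) (r : MZ) :
    ev r (LL h l) = ((ix (Function.update h l r) : ℤ) : ℝ) := by
  unfold ev LL
  rw [ix_lin, map_sum]
  push_cast
  apply Finset.sum_congr rfl
  intro ij _
  simp

/-- the transferred form -/
noncomputable def GG (h : Fin 4 → MZ) (F : MvPolynomial (Fin 4) ℚ) : MvPolynomial (Fin 2 × Fin 2) ℝ :=
  MvPolynomial.aeval (LL h) F

theorem GG_ev (h : Fin 4 → MZ) (F : MvPolynomial (Fin 4) ℚ) (r : MZ) :
    ev r (GG h F) = ((MvPolynomial.eval (fun l => ((ix (Function.update h l r) : ℤ) : ℚ)) F : ℚ) : ℝ) := by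
  have h1 : ∀ l, MvPolynomial.eval (fun ij : Fin 2 × Fin 2 => ((r ij.1 ij.2 : ℤ) : ℝ)) (LL h l) =
      ((ix (Function.update h l r) : ℤ) : ℝ) := fun l => LL_ev h l r
  unfold ev GG
  induction F using MvPolynomial.induction_on with
  | C a =>
    simp [MvPolynomial.algebraMap_eq, MvPolynomial.algebraMap_apply]
  | add p q hp hq =>
    rw [map_add, map_add, map_add, hp, hq]
    push_cast
    rfl
  | mul_X p l hp =>
    rw [map_mul, map_mul, map_mul, hp, MvPolynomial.aeval_X, MvPolynomial.eval_X, h1]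
    push_cast
    rfl

theorem eval_smul {d : ℕ} {F : MvPolynomial (Fin 4) ℚ} (hF : F.IsHomogeneous d) (u : ℚ) (x : Fin 4 → ℚ) :
    MvPolynomial.eval (fun l => u * x l) F = u ^ d * MvPolynomial.eval x F := by
  rw [MvPolynomial.eval_eq', MvPolynomial.eval_eq', Finset.mul_sum]
  apply Finset.sum_congr rfl
  intro m hm
  have h2 := hF (MvPolynomial.mem_support_iff.mp hm)
  have h3 : ∑ i : Fin 4, m i = d := by
    rw [← h2, Finsupp.weight_apply, Finsupp.sum_fintype _ _ (by simp)]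
    simp
  calc MvPolynomial.coeff m F * ∏ i, (u * x i) ^ m i
      = MvPolynomial.coeff m F * ((∏ i, u ^ m i) * ∏ i, (x i) ^ m i) := by
        rw [← Finset.prod_mul_distrib]
        simp only [mul_pow]
    _ = u ^ d * (MvPolynomial.coeff m F * ∏ i, x i ^ m i) := by
        rw [Finset.prod_pow_eq_pow_sum, h3]
        ring

theorem zero_of_int {F : MvPolynomial (Fin 4) ℚ}
    (h : ∀ n : Fin 4 → ℤ, MvPolynomial.eval (fun l => (n l : ℚ)) F = 0) : F = 0 := by
  apply MvPolynomial.funext_set (fun _ : Fin 4 => Set.range (fun n : ℤ => (n : ℚ)))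
  · intro i
    exact Set.infinite_range_of_injective Int.cast_injective
  · intro x hx
    have h1 : ∀ l, ∃ n : ℤ, (n : ℚ) = x l := fun l => hx l (Set.mem_univ l)
    choose n hn using h1
    have h2 : x = fun l => (n l : ℚ) := by
      funext l
      rw [hn]
    rw [h2, h n]
    simp

end Gpt_aux

open Gpt_aux

theorem tGpt : S_Gpt := by
  intro hC D e h A T hDe hix hG hA d hd F hF hF0
  by_contra hcon
  push Not at hcon
  -- values on the coordinates
  have hval : ∀ r ∈ A, ev r (GG h F) = 0 := by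
    intro r hr
    obtain ⟨n, hn, u, hu, hc⟩ := hA r hr
    rw [GG_ev]
    have e1 : (fun l => ((ix (Function.update h l r) : ℤ) : ℚ)) = fun l => (u : ℚ) * (n l : ℚ) := by
      funext l
      rw [hc l]
      push_cast
      rfl
    rw [e1, Gpt_aux.eval_smul hF, hcon n hn]
    simp
  have hhom : (GG h F).IsHomogeneous d := by
    have h1 := hF.aeval (LL h) (LL_hom h)
    rw [one_mul] at h1
    exact h1
  -- multiplied up to degree e
  have hX : (MvPolynomial.X ((0 : Fin 2), (0 : Fin 2)) ^ (e - d) * GG h F :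
      MvPolynomial (Fin 2 × Fin 2) ℝ) = 0 := by
    apply hG
    · have h1 := ((MvPolynomial.isHomogeneous_X ℝ ((0 : Fin 2), (0 : Fin 2))).pow (e - d)).mul hhom
      have h2 : 1 * (e - d) + d = e := by omega
      rw [h2] at h1
      exact h1
    · intro r hr
      have h1 := hval r hr
      unfold ev at h1 ⊢
      rw [map_mul, h1, mul_zero]
  have hGG : GG h F = 0 := by
    rcases mul_eq_zero.mp hX with h1 | h1
    · exact absurd h1 (pow_ne_zero _ (MvPolynomial.X_ne_zero _))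
    · exact h1
  apply hF0
  apply zero_of_int
  intro n
  have h1 := GG_ev h F (∑ l', n l' • h l')
  rw [hGG] at h1
  have h2 : (fun l => ((ix (Function.update h l (∑ l', n l' • h l')) : ℤ) : ℚ)) =
      fun l => ((ix h : ℤ) : ℚ) * (n l : ℚ) := by
    funext l
    rw [hC.2 h n l]
    push_cast
    rfl
  rw [h2, Gpt_aux.eval_smul hF] at h1
  have h3 : ((((ix h : ℤ) : ℚ) ^ d * MvPolynomial.eval (fun l => (n l : ℚ)) F : ℚ) : ℝ) = 0 := by
    rw [← h1]
    simp [ev]
  have h4 : ((ix h : ℤ) : ℚ) ^ d * MvPolynomial.eval (fun l => (n l : ℚ)) F = 0 := by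
    exact_mod_cast h3
  rcases mul_eq_zero.mp h4 with h5 | h5
  · exact absurd h5 (pow_ne_zero _ (by exact_mod_cast hix))
  · exact h5

end HSL
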