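import Pool.Agent.Lib.HS.L.SpecCon

set_option autoImplicit false

/-!
PROJECT H*, PLAN L (MP_a54f13_nt), part HS/L/Con, module Hrm: classes of left divisors.
-/

namespace HSL

open Matrix

namespace Hrm_aux

/-- Hermite normal form -/
theorem hnf (h : MZ) (M : ℕ) (hM : 0 < M) (hd : h.det = (M : ℤ)) :
    ∃ (γ : MZ) (α β δ : ℕ), γ.det = 1 ∧ 0 < α ∧ α * δ = M ∧ β < δ ∧
      γ * h = !![(α : ℤ), (β : ℤ); 0, (δ : ℤ)] := by
  rw [Matrix.det_fin_two] at hd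
  have hM' : (0 : ℤ) < (M : ℤ) := by exact_mod_cast hM
  obtain ⟨g, hg⟩ : ∃ g : ℕ, g = Int.gcd (h 0 0) (h 1 0) := ⟨_, rfl⟩
  have hgpos : 0 < g := by
    rw [hg]
    apply Nat.pos_of_ne_zero
    intro h0
    rw [Int.gcd_eq_zero_iff] at h0
    rw [h0.1, h0.2] at hd
    simp at hd
    omega
  have hgZ : (0 : ℤ) < (g : ℤ) := by exact_mod_cast hgpos
  have hbez := Int.gcd_eq_gcd_ab (h 0 0) (h 1 0)
  rw [← hg] at hbez
  obtain ⟨x, hx⟩ : ∃ x, x = (h 0 0).gcdA (h 1 0) := ⟨_, rfl⟩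
  obtain ⟨y, hy⟩ : ∃ y, y = (h 0 0).gcdB (h 1 0) := ⟨_, rfl⟩
  rw [← hx, ← hy] at hbez
  obtain ⟨a', ha'⟩ : (g : ℤ) ∣ h 0 0 := by rw [hg]; exact Int.gcd_dvd_left _ _
  obtain ⟨c', hc'⟩ : (g : ℤ) ∣ h 1 0 := by rw [hg]; exact Int.gcd_dvd_right _ _
  have hone : a' * x + c' * y = 1 := by
    have h1 : (g : ℤ) * (a' * x + c' * y) = g * 1 := by
      rw [mul_one]
      conv_rhs => rw [hbez]
      rw [ha', hc']
      ring
    exact mul_left_cancel₀ hgZ.ne' h1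
  obtain ⟨d, hdd⟩ : ∃ d, d = a' * h 1 1 - c' * h 0 1 := ⟨_, rfl⟩
  obtain ⟨b, hb⟩ : ∃ b, b = x * h 0 1 + y * h 1 1 := ⟨_, rfl⟩
  have hgd : (g : ℤ) * d = M := by
    rw [← hd, hdd, ha', hc']
    ring
  have hdpos : 0 < d := by
    by_contra hcon
    push Not at hcon
    have : (g : ℤ) * d ≤ 0 := mul_nonpos_of_nonneg_of_nonpos hgZ.le hcon
    omega
  have hmod1 := Int.emod_nonneg b hdpos.ne'
  have hmod2 := Int.emod_lt_of_pos b hdpos
  have hmod3 := Int.emod_add_mul_ediv b d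
  refine ⟨!![x + (b / d) * c', y - (b / d) * a'; -c', a'], g, (b % d).toNat, d.toNat, ?_, hgpos, ?_,
    ?_, ?_⟩
  · rw [Matrix.det_fin_two_of]
    linear_combination hone
  · have h1 : ((g * d.toNat : ℕ) : ℤ) = (M : ℤ) := by
      push_cast
      rw [Int.toNat_of_nonneg hdpos.le, hgd]
    exact_mod_cast h1
  · omega
  · rw [Int.toNat_of_nonneg hdpos.le, Int.toNat_of_nonneg hmod1]
    ext i j
    fin_cases i <;> fin_cases j <;> simp [Matrix.mul_apply, Fin.sum_univ_two]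
    · rw [ha', hc']
      linear_combination (g : ℤ) * hone
    · linear_combination (-hb) + (b / d) * hdd - hmod3
    · rw [ha', hc']
      ring
    · rw [hdd]
      ring

/-- the condition on the pair `(α, β)` -/
def Cnd (t : MZ) (α β δ : ℕ) : Prop :=
  ∃ τ ω : Fin 2 → ℤ, ∀ i, t i 0 = τ i * (α : ℤ) ∧ t i 1 = τ i * (β : ℤ) + ω i * (δ : ℤ)

theorem cnd_of (t h r γ : MZ) (α β δ : ℕ) (hγ : γ.det = 1) (ht : t = r * h)
    (hN : γ * h = !![(α : ℤ), (β : ℤ); 0, (δ : ℤ)]) : Cnd t α β δ := by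
  have h1 : h = γ.adjugate * !![(α : ℤ), (β : ℤ); 0, (δ : ℤ)] := by
    rw [← hN, ← mul_assoc, Matrix.adjugate_mul, hγ, one_smul, one_mul]
  have h2 : t = (r * γ.adjugate) * !![(α : ℤ), (β : ℤ); 0, (δ : ℤ)] := by
    rw [ht, mul_assoc, ← h1]
  refine ⟨fun i => (r * γ.adjugate) i 0, fun i => (r * γ.adjugate) i 1, fun i => ?_⟩
  constructor
  · conv_lhs => rw [h2]
    rw [Matrix.mul_apply, Fin.sum_univ_two]
    simp
  · conv_lhs => rw [h2]
    rw [Matrix.mul_apply, Fin.sum_univ_two]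
    simp

theorem bnd (t : MZ) (α δ c : ℕ) (hα : 0 < α) (hδ : 0 < δ)
    (ht : ∀ d : ℤ, 0 < d → (∀ i j, d ∣ t i j) → d ≤ (c : ℤ)) (B : Finset ℕ)
    (hB : ∀ β ∈ B, β < δ ∧ Cnd t α β δ) : B.card ≤ c := by
  rcases B.eq_empty_or_nonempty with hB0 | ⟨β₀, hβ₀⟩
  · rw [hB0]
    exact Nat.zero_le _
  obtain ⟨_, τ, ω, hτ⟩ := hB β₀ hβ₀
  obtain ⟨u, hu⟩ : ∃ u : ℕ, u = Nat.gcd (Nat.gcd (τ 0).natAbs (τ 1).natAbs) δ := ⟨_, rfl⟩
  have hupos : 0 < u := by
    rw [hu]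
    exact Nat.gcd_pos_of_pos_right _ hδ
  have huδ : u ∣ δ := by rw [hu]; exact Nat.gcd_dvd_right _ _
  have hu0 : ∀ i : Fin 2, (u : ℤ) ∣ τ i := by
    intro i
    rw [Int.natCast_dvd]
    have h1 : u ∣ Nat.gcd (τ 0).natAbs (τ 1).natAbs := by rw [hu]; exact Nat.gcd_dvd_left _ _
    fin_cases i
    · exact h1.trans (Nat.gcd_dvd_left _ _)
    · exact h1.trans (Nat.gcd_dvd_right _ _)
  have huc : (u : ℤ) ≤ c := by
    apply ht _ (by exact_mod_cast hupos)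
    intro i j
    have hδ' : (u : ℤ) ∣ (δ : ℤ) := Int.natCast_dvd_natCast.2 huδ
    fin_cases j
    · change (u : ℤ) ∣ t i 0
      rw [(hτ i).1]
      exact (hu0 i).mul_right _
    · change (u : ℤ) ∣ t i 1
      rw [(hτ i).2]
      exact dvd_add ((hu0 i).mul_right _) (hδ'.mul_left _)
  obtain ⟨e, he⟩ := huδ
  have hepos : 0 < e := by
    rcases Nat.eq_zero_or_pos e with h0 | h0
    · rw [h0, mul_zero] at he
      omega
    · exact h0
  have hmod : ∀ β ∈ B, β % e = β₀ % e := by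
    intro β hβ
    obtain ⟨_, τ', ω', hτ'⟩ := hB β hβ
    have hα' : (α : ℤ) ≠ 0 := by exact_mod_cast hα.ne'
    have h1 : ∀ i, τ' i = τ i := fun i =>
      mul_right_cancel₀ hα' (by rw [← (hτ' i).1, ← (hτ i).1])
    have h2 : ∀ i, (δ : ℤ) ∣ τ i * ((β : ℤ) - β₀) := by
      intro i
      refine ⟨ω i - ω' i, ?_⟩
      have e1 := (hτ i).2
      have e2 := (hτ' i).2
      rw [h1 i] at e2
      linear_combination e1 - e2
    have h3 : ∀ i, δ ∣ (τ i).natAbs * ((β : ℤ) - β₀).natAbs := by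
      intro i
      rw [← Int.natAbs_mul]
      exact Int.natCast_dvd.1 (h2 i)
    have h4 : δ ∣ u * ((β : ℤ) - β₀).natAbs := by
      rw [hu, ← Nat.gcd_mul_right, ← Nat.gcd_mul_right]
      exact Nat.dvd_gcd (Nat.dvd_gcd (h3 0) (h3 1)) (Dvd.intro _ rfl)
    rw [he] at h4
    have h5 : e ∣ ((β : ℤ) - β₀).natAbs := Nat.dvd_of_mul_dvd_mul_left hupos h4
    have h6 : (e : ℤ) ∣ (β : ℤ) - β₀ := Int.natCast_dvd.2 h5
    have h8 : (β : ℤ) % e = (β₀ : ℤ) % e := (Int.modEq_iff_dvd.2 h6).symm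
    exact_mod_cast h8
  have hinj : Set.InjOn (fun β : ℕ => β / e) (B : Set ℕ) := by
    intro β1 h1 β2 h2 h12
    have h12' : β1 / e = β2 / e := h12
    have e1 := Nat.div_add_mod β1 e
    have e2 := Nat.div_add_mod β2 e
    rw [hmod β1 h1, h12'] at e1
    rw [hmod β2 h2] at e2
    omega
  have hmaps : Set.MapsTo (fun β : ℕ => β / e) (B : Set ℕ) (Finset.range u : Set ℕ) := by
    intro β hβ
    rw [Finset.mem_coe, Finset.mem_range, Nat.div_lt_iff_lt_mul hepos, ← he]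
    exact (hB β hβ).1
  have hcard := Finset.card_le_card_of_injOn _ hmaps hinj
  rw [Finset.card_range] at hcard
  have : u ≤ c := by exact_mod_cast huc
  omega

end Hrm_aux

open Hrm_aux in
theorem tHrm : S_Hrm := by
  classical
  intro s M c H hM hc hcont hH hcls
  have hcont' : ∀ d : ℤ, 0 < d → (∀ i j, d ∣ s.adjugate i j) → d ≤ (c : ℤ) := by
    intro d hd hdd
    apply hcont d hd
    rw [Matrix.adjugate_fin_two] at hdd
    have h1 := hdd 0 0
    have h2 := hdd 0 1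
    have h3 := hdd 1 0
    have h4 := hdd 1 1
    simp at h1 h2 h3 h4
    intro i j
    fin_cases i <;> fin_cases j
    · exact h4
    · exact h2
    · exact h3
    · exact h1
  have key : ∀ h ∈ H, ∃ p : ℕ × ℕ, p.1 ∈ M.divisors ∧ p.2 < M / p.1 ∧
      Cnd s.adjugate p.1 p.2 (M / p.1) ∧
      ∃ γ : MZ, γ.det = 1 ∧ γ * h = !![(p.1 : ℤ), (p.2 : ℤ); 0, ((M / p.1 : ℕ) : ℤ)] := by
    intro h hh
    obtain ⟨hdet, r, hr⟩ := hH h hh
    obtain ⟨γ, α, β, δ, g1, g2, g3, g4, g5⟩ := hnf h M hM hdet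
    have hδ : M / α = δ := by
      rw [← g3]
      exact Nat.mul_div_cancel_left δ g2
    refine ⟨(α, β), ?_, ?_, ?_, γ, g1, ?_⟩
    · exact Nat.mem_divisors.2 ⟨⟨δ, g3.symm⟩, hM.ne'⟩
    · simpa [hδ] using g4
    · simp only [hδ]
      refine cnd_of _ h r.adjugate γ α β δ g1 ?_ g5
      rw [← hr, Matrix.adjugate_mul_distrib, Matrix.adjugate_adjugate _ (by simp)]
      simp
    · simp only [hδ]
      exact g5
  choose! f hf1 hf2 hf3 hf4 using key
  have hfinj : ∀ h ∈ H, ∀ h' ∈ H, f h = f h' → h = h' := by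
    intro h hh h' hh' heq
    obtain ⟨γ, g1, g2⟩ := hf4 h hh
    obtain ⟨γ', g1', g2'⟩ := hf4 h' hh'
    rw [← heq, ← g2] at g2'
    apply hcls h hh h' hh' (γ'.adjugate * γ)
    · rw [Matrix.det_mul, Matrix.det_adjugate, g1, g1']
      simp
    · rw [mul_assoc, ← g2', ← mul_assoc, Matrix.adjugate_mul, g1', one_smul, one_mul]
  rw [mul_comm]
  apply Finset.card_le_mul_card_image_of_maps_to (f := fun h => (f h).1) (fun h hh => hf1 h hh)
  intro α hα
  have hαM := Nat.mem_divisors.1 hα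
  have hαpos : 0 < α := Nat.pos_of_mem_divisors hα
  have hδpos : 0 < M / α := Nat.div_pos (Nat.le_of_dvd hM hαM.1) hαpos
  have h1 : (H.filter (fun h => (f h).1 = α)).card =
      ((H.filter (fun h => (f h).1 = α)).image (fun h => (f h).2)).card := by
    symm
    apply Finset.card_image_of_injOn
    intro h hh h' hh' heq
    rw [Finset.mem_coe, Finset.mem_filter] at hh hh'
    exact hfinj h hh.1 h' hh'.1 (Prod.ext (by rw [hh.2, hh'.2]) heq)
  rw [h1]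
  apply bnd s.adjugate α (M / α) c hαpos hδpos hcont'
  intro β hβ
  rw [Finset.mem_image] at hβ
  obtain ⟨h, hh, rfl⟩ := hβ
  rw [Finset.mem_filter] at hh
  have e2 := hf2 h hh.1
  have e3 := hf3 h hh.1
  rw [hh.2] at e2 e3
  exact ⟨e2, e3⟩

end HSL
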