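import Pool.Agent.Lib.HS.L.SpecCon

/-!
PROJECT H*, part HS/L/Con, module Loc (helper65): few loops with given trace and determinant.
-/

set_option autoImplicit false

namespace HSL

open Matrix

namespace Loc_aux

/-- integral matrices whose entries differ by at most `B` -/
theorem box (P : Finset MZ) (B : ℝ) (hB : 0 ≤ B)
    (h : ∀ s ∈ P, ∀ s' ∈ P, ∀ i j, |((s i j : ℤ) : ℝ) - ((s' i j : ℤ) : ℝ)| ≤ B) :
    (P.card : ℝ) ≤ (2 * B + 1) ^ 4 := by
  rcases P.eq_empty_or_nonempty with rfl | ⟨s0, hs0⟩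
  · simp only [Finset.card_empty, Nat.cast_zero]
    positivity
  set n : ℕ := ⌊B⌋₊ with hn
  have hnB : (n : ℝ) ≤ B := Nat.floor_le hB
  let F : MZ → (Fin 2 × Fin 2 → ℤ) := fun s ij => s ij.1 ij.2 - s0 ij.1 ij.2
  have hmaps : ∀ s ∈ P, F s ∈ Fintype.piFinset
      (fun _ : Fin 2 × Fin 2 => Finset.Icc (-(n : ℤ)) (n : ℤ)) := by
    intro s hs
    rw [Fintype.mem_piFinset]
    intro ij
    rw [Finset.mem_Icc, ← abs_le]
    have h1 := h s hs s0 hs0 ij.1 ij.2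
    have h2 : ((|F s ij| : ℤ) : ℝ) ≤ B := by
      simp only [F]
      rw [Int.cast_abs]
      push_cast
      exact h1
    have h3 : |F s ij|.toNat ≤ n := by
      rw [hn]
      apply Nat.le_floor
      have h4 : ((|F s ij|.toNat : ℕ) : ℝ) = ((|F s ij| : ℤ) : ℝ) := by
        have h5 : ((|F s ij|.toNat : ℕ) : ℤ) = |F s ij| := Int.toNat_of_nonneg (abs_nonneg _)
        exact_mod_cast h5
      rw [h4]
      exact h2
    have h5 : ((|F s ij|.toNat : ℕ) : ℤ) = |F s ij| := Int.toNat_of_nonneg (abs_nonneg _)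
    omega
  have hinj : Set.InjOn F (P : Set MZ) := by
    intro s _ s' _ hss
    ext i j
    have h1 := congrFun hss (i, j)
    simp only [F] at h1
    linarith
  have hcard := Finset.card_le_card_of_injOn F hmaps hinj
  rw [Fintype.card_piFinset, Finset.prod_const, Finset.card_univ, Int.card_Icc] at hcard
  have h4 : Fintype.card (Fin 2 × Fin 2) = 4 := by simp
  rw [h4] at hcard
  have h5 : ((n : ℤ) + 1 - -(n : ℤ)).toNat = 2 * n + 1 := by omega
  rw [h5] at hcard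
  calc (P.card : ℝ) ≤ (((2 * n + 1) ^ 4 : ℕ) : ℝ) := by exact_mod_cast hcard
    _ = (2 * (n : ℝ) + 1) ^ 4 := by push_cast; ring
    _ ≤ (2 * B + 1) ^ 4 := pow_le_pow_left₀ (by positivity) (by linarith) 4

/-- products of three matrices -/
theorem tri (A D B : MR) (R Z : ℝ) (hR : 0 ≤ R) (hZ : 0 ≤ Z) (hA : ∀ i j, |A i j| ≤ R)
    (hD : ∀ i j, |D i j| ≤ Z) (hB : ∀ i j, |B i j| ≤ R) (i j : Fin 2) :
    |(A * D * B) i j| ≤ 4 * (R ^ 2 * Z) := by
  have key : ∀ x y z : ℝ, |x| ≤ R → |y| ≤ Z → |z| ≤ R → |x * y * z| ≤ R ^ 2 * Z := by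
    intro x y z hx hy hz
    rw [abs_mul, abs_mul]
    calc |x| * |y| * |z| ≤ R * Z * R := by gcongr
      _ = R ^ 2 * Z := by ring
  have h1 := key _ _ _ (hA i 0) (hD 0 0) (hB 0 j)
  have h2 := key _ _ _ (hA i 1) (hD 1 0) (hB 0 j)
  have h3 := key _ _ _ (hA i 0) (hD 0 1) (hB 1 j)
  have h4 := key _ _ _ (hA i 1) (hD 1 1) (hB 1 j)
  have h5 : (A * D * B) i j = A i 0 * D 0 0 * B 0 j + A i 1 * D 1 0 * B 0 j +
      A i 0 * D 0 1 * B 1 j + A i 1 * D 1 1 * B 1 j := by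
    simp only [Matrix.mul_apply, Fin.sum_univ_two]
    ring
  rw [h5]
  rw [abs_le] at *
  constructor <;> linarith

theorem same (t t' Y : ℝ) (ht : 0 ≤ t) (ht' : 0 ≤ t') (hY : 0 ≤ Y)
    (h : |t ^ 2 - t' ^ 2| ≤ 8 * Y ^ 2) : |t - t'| ≤ 3 * Y := by
  have h1 : (t - t') ^ 2 ≤ (3 * Y) ^ 2 := by
    rw [abs_le] at h
    rcases le_total t t' with h2 | h2
    · nlinarith [mul_nonneg ht (sub_nonneg.mpr h2), sq_nonneg Y]
    · nlinarith [mul_nonneg ht' (sub_nonneg.mpr h2), sq_nonneg Y]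
  exact abs_le_of_sq_le_sq h1 (by linarith)

/-- the integral matrix from its frame -/
theorem back (a : MR) (s : MZ) (ha : a.det = 1) : toR s = a * fr a a s * a.adjugate := by
  have h1 : a * a.adjugate = 1 := by rw [Matrix.mul_adjugate, ha, one_smul]
  unfold fr
  calc toR s = (a * a.adjugate) * toR s * (a * a.adjugate) := by rw [h1]; simp
    _ = a * (a.adjugate * toR s * a) * a.adjugate := by simp only [Matrix.mul_assoc]

theorem tr_fr (a : MR) (s : MZ) (ha : a.det = 1) :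
    fr a a s 0 0 + fr a a s 1 1 = ((s.trace : ℤ) : ℝ) := by
  have h1 : a * a.adjugate = 1 := by rw [Matrix.mul_adjugate, ha, one_smul]
  have h2 : (fr a a s).trace = (toR s).trace := by
    unfold fr
    rw [Matrix.mul_assoc, Matrix.trace_mul_comm, Matrix.mul_assoc, h1, Matrix.mul_one]
  rw [Matrix.trace_fin_two, Matrix.trace_fin_two] at h2
  rw [h2, Matrix.trace_fin_two]
  simp [toR]

/-- two matrices of the fibre on the same side -/
theorem close (R Y : ℝ) (a : MR) (T Δ : ℤ) (hR : 1 ≤ R) (hY : 1 ≤ Y) (ha : a.det = 1)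
    (hFr : S_Fr) (haR : ∀ i j, |a i j| ≤ R) (s s' : MZ)
    (hs : s.trace = T ∧ s.det = Δ ∧ |fr a a s 0 1| ≤ Y ∧ |fr a a s 1 0| ≤ Y)
    (hs' : s'.trace = T ∧ s'.det = Δ ∧ |fr a a s' 0 1| ≤ Y ∧ |fr a a s' 1 0| ≤ Y)
    (hsg : (0 ≤ fr a a s 0 0 - fr a a s 1 1 ∧ 0 ≤ fr a a s' 0 0 - fr a a s' 1 1) ∨
      (fr a a s 0 0 - fr a a s 1 1 ≤ 0 ∧ fr a a s' 0 0 - fr a a s' 1 1 ≤ 0)) (i j : Fin 2) :
    |((s i j : ℤ) : ℝ) - ((s' i j : ℤ) : ℝ)| ≤ 8 * R ^ 2 * Y := by
  obtain ⟨_, hdet, _⟩ := hFr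
  obtain ⟨hs1, hs2, hs3, hs4⟩ := hs
  obtain ⟨hs1', hs2', hs3', hs4'⟩ := hs'
  have htr := tr_fr a s ha
  have htr' := tr_fr a s' ha
  have hd := hdet a a s ha ha
  have hd' := hdet a a s' ha ha
  rw [Matrix.det_fin_two] at hd hd'
  rw [hs1] at htr
  rw [hs1'] at htr'
  rw [hs2] at hd
  rw [hs2'] at hd'
  have hm : |fr a a s 0 1 * fr a a s 1 0| ≤ Y ^ 2 := by
    rw [abs_mul, sq]
    exact mul_le_mul hs3 hs4 (abs_nonneg _) (by linarith)
  have hm' : |fr a a s' 0 1 * fr a a s' 1 0| ≤ Y ^ 2 := by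
    rw [abs_mul, sq]
    exact mul_le_mul hs3' hs4' (abs_nonneg _) (by linarith)
  have hsq : |(fr a a s 0 0 - fr a a s 1 1) ^ 2 - (fr a a s' 0 0 - fr a a s' 1 1) ^ 2| ≤
      8 * Y ^ 2 := by
    have h1 : (fr a a s 0 0 - fr a a s 1 1) ^ 2 - (fr a a s' 0 0 - fr a a s' 1 1) ^ 2 =
        4 * (fr a a s' 0 1 * fr a a s' 1 0) - 4 * (fr a a s 0 1 * fr a a s 1 0) := by
      have h2 : (fr a a s 0 0 - fr a a s 1 1) ^ 2 = (fr a a s 0 0 + fr a a s 1 1) ^ 2 -
          4 * (fr a a s 0 0 * fr a a s 1 1) := by ring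
      have h3 : (fr a a s' 0 0 - fr a a s' 1 1) ^ 2 = (fr a a s' 0 0 + fr a a s' 1 1) ^ 2 -
          4 * (fr a a s' 0 0 * fr a a s' 1 1) := by ring
      rw [h2, h3, htr, htr']
      linarith
    rw [h1]
    rw [abs_le] at *
    constructor <;> linarith
  have htt : |(fr a a s 0 0 - fr a a s 1 1) - (fr a a s' 0 0 - fr a a s' 1 1)| ≤ 3 * Y := by
    rcases hsg with ⟨h1, h2⟩ | ⟨h1, h2⟩
    · exact same _ _ Y h1 h2 (by linarith) hsq
    · have h3 := same (-(fr a a s 0 0 - fr a a s 1 1)) (-(fr a a s' 0 0 - fr a a s' 1 1)) Y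
        (by linarith) (by linarith) (by linarith) (by rw [neg_sq, neg_sq]; exact hsq)
      rw [abs_le] at h3 ⊢
      constructor <;> linarith [h3.1, h3.2]
  have hM : ∀ k l, |(fr a a s - fr a a s') k l| ≤ 2 * Y := by
    have h00 : |(fr a a s - fr a a s') 0 0| ≤ 2 * Y := by
      rw [Matrix.sub_apply]
      rw [abs_le] at htt ⊢
      constructor <;> linarith [htt.1, htt.2]
    have h11 : |(fr a a s - fr a a s') 1 1| ≤ 2 * Y := by
      rw [Matrix.sub_apply]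
      rw [abs_le] at htt ⊢
      constructor <;> linarith [htt.1, htt.2]
    have h01 : |(fr a a s - fr a a s') 0 1| ≤ 2 * Y := by
      rw [Matrix.sub_apply]
      rw [abs_le] at hs3 hs3' ⊢
      constructor <;> linarith [hs3.1, hs3.2, hs3'.1, hs3'.2]
    have h10 : |(fr a a s - fr a a s') 1 0| ≤ 2 * Y := by
      rw [Matrix.sub_apply]
      rw [abs_le] at hs4 hs4' ⊢
      constructor <;> linarith [hs4.1, hs4.2, hs4'.1, hs4'.2]
    intro k l
    fin_cases k <;> fin_cases l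
    · exact h00
    · exact h01
    · exact h10
    · exact h11
  have hadj : ∀ k l, |a.adjugate k l| ≤ R := by
    intro k l
    rw [Matrix.adjugate_fin_two]
    fin_cases k <;> fin_cases l
    · simpa using haR 1 1
    · simpa using haR 0 1
    · simpa using haR 1 0
    · simpa using haR 0 0
  have h9 := tri a (fr a a s - fr a a s') a.adjugate R (2 * Y) (by linarith) (by linarith)
    haR hM hadj i j
  have h10 : a * (fr a a s - fr a a s') * a.adjugate = toR s - toR s' := by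
    rw [Matrix.mul_sub, Matrix.sub_mul, ← back a s ha, ← back a s' ha]
  rw [h10, Matrix.sub_apply] at h9
  have h11 : (toR s) i j - (toR s') i j = ((s i j : ℤ) : ℝ) - ((s' i j : ℤ) : ℝ) := by
    simp [toR]
  rw [h11] at h9
  linarith

end Loc_aux

theorem tLoc : S_Fr → S_Loc := by
  intro hFr R Y a T Δ X hR hY ha haR hX
  classical
  have hRY : 1 ≤ R ^ 2 * Y := by nlinarith [mul_le_mul hR hR (by norm_num) (by linarith)]
  have hB : 0 ≤ 8 * R ^ 2 * Y := by positivity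
  have hfin : (2 * (8 * R ^ 2 * Y) + 1) ^ 4 ≤ (17 * R ^ 2 * Y) ^ 4 :=
    pow_le_pow_left₀ (by positivity) (by linarith) 4
  have h1 := Loc_aux.box (X.filter (fun s => 0 ≤ fr a a s 0 0 - fr a a s 1 1)) _ hB (by
    intro s hs s' hs' i j
    rw [Finset.mem_filter] at hs hs'
    exact Loc_aux.close R Y a T Δ hR hY ha hFr haR s s' (hX s hs.1) (hX s' hs'.1)
      (Or.inl ⟨hs.2, hs'.2⟩) i j)
  have h2 := Loc_aux.box (X.filter (fun s => ¬ 0 ≤ fr a a s 0 0 - fr a a s 1 1)) _ hB (by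
    intro s hs s' hs' i j
    rw [Finset.mem_filter] at hs hs'
    exact Loc_aux.close R Y a T Δ hR hY ha hFr haR s s' (hX s hs.1) (hX s' hs'.1)
      (Or.inr ⟨(not_le.mp hs.2).le, (not_le.mp hs'.2).le⟩) i j)
  have h3 : (X.card : ℝ) = ((X.filter (fun s => 0 ≤ fr a a s 0 0 - fr a a s 1 1)).card : ℝ) +
      ((X.filter (fun s => ¬ 0 ≤ fr a a s 0 0 - fr a a s 1 1)).card : ℝ) := by
    rw [← Nat.cast_add, Finset.card_filter_add_card_filter_not]
  rw [h3]
  linarith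

end HSL
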