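import Pool.Agent.Lib.HS.L.Ctr
import Pool.Agent.Lib.HS.L.ConF
import Pool.Agent.Lib.HS.L.Fib
import Pool.Agent.Lib.HS.L.Bx4
import Pool.Agent.Lib.HS.L.Bas
import Pool.Agent.Lib.HS.L.Cra
import Pool.Agent.Lib.HS.L.Gpt
import Pool.Agent.Lib.HS.L.Loc
import Pool.Agent.Lib.HS.L.Hrm
import Pool.Agent.Lib.HS.Ct.Sel
import Pool.Agent.Lib.HS.Ct.Main

/-!
PROJECT H*, PLAN L (MP_a54f13_nt), part HS/L/Con: assembly of the contradiction.
-/

set_option autoImplicit false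

namespace HSL

/-- the contradiction, given the general position of almost all pairs -/
theorem conA (hGP : S_GP) : ConC :=
  con_of (tCon tBx4 tCra tGpt Pool.Agent.HS.Ct.tSel) tBas (tFib (tLoc tFr) tHrm) hGP
    Pool.Agent.HS.Ct.m2e

/-- the form used in HS/C (`StmtHyp`) -/
theorem conG (hGP : S_GP) : ∃ k0 : ℕ, ∀ (k : ℕ) (C R B : ℝ), k0 ≤ k → 1 ≤ k → 1 ≤ C → 1 ≤ R →
    1 ≤ B → ∃ K1 : ℝ, ∀ S : Sys, S.C = C → S.R = R → K1 ≤ S.K →
      Hyp S k (1 / (100000 * (k : ℝ))) → (∀ C' : ℝ, 1 ≤ C' → S.Ovl C' (B * C' ^ 14)) → False :=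
  conF (conA hGP)

end HSL
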