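import Pool.Agent.Lib.HS.L.All
import Pool.Agent.Lib.HS.L.CLA
import Pool.Agent.Lib.HS.L.CLAm
import Pool.Agent.Lib.HS.L.CLB
import Pool.Agent.Lib.HS.L.CLL
import Pool.Agent.Lib.HS.L.CLD
import Pool.Agent.Lib.HS.L.CL
import Pool.Agent.Lib.HS.L.Cor
import Pool.Agent.Lib.HS.L.M2
import Pool.Agent.Lib.HS.L.Nil
import Pool.Agent.Lib.HS.L.Tub
import Pool.Agent.Lib.HS.L.ConA

/-!
Assembly of HS/L: general position `S_GP` and the final contradiction `aCon`, without hypotheses.
-/

set_option autoImplicit false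

namespace HSL

theorem aCor : S_Cor := tCor tFr (tCLD tCL)

theorem aCLA : S_CLA := tCLA (tCLAm aCor tTub) (tCNil tM2) tCL0

/-- general position -/
theorem aGPf : S_GP := aGP (tCLL aCor tTub) (tCLB aCor tTub) aCLA

theorem aCon : type_of% (conG aGPf) := conG aGPf

end HSL
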