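import Pool.Agent.Lib.HS.L.SpecCon

/-!
PROJECT H*, PLAN L (MP_a54f13_nt), part HS/L/Con, module Con: the contradiction.
-/

set_option autoImplicit false

namespace HSL

open Matrix
open Pool.Agent.HS.Ct (ix qf GP AdmM M2eStmt)

namespace Con_aux

lemma exists_range {α : Type} (T : Finset α) (c : ℕ) (hT : T.Nonempty) (hc : T.card ≤ c) :
    ∃ f : Fin c → α, ∀ x, x ∈ T ↔ ∃ j, f j = x := by
  classical
  obtain ⟨a, ha⟩ := hT
  refine ⟨fun j => if h : j.val < T.card then (T.equivFin.symm ⟨j.val, h⟩ : α) else a, ?_⟩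
  intro x
  constructor
  · intro hx
    have h1 : (T.equivFin ⟨x, hx⟩).val < c := (T.equivFin ⟨x, hx⟩).isLt.trans_le hc
    refine ⟨⟨(T.equivFin ⟨x, hx⟩).val, h1⟩, ?_⟩
    simp
  · rintro ⟨j, rfl⟩
    by_cases h : j.val < T.card
    · simp [h]
    · simpa [h] using ha

lemma group {α β γ : Type} [DecidableEq β] [DecidableEq γ] (G : Finset α) (κ : α → β)
    (Y : Finset β) (φ : α → γ) (X P : ℝ) (hP0 : 0 ≤ P)
    (hY : ∀ a ∈ G, κ a ∈ Y)
    (hX : ∀ b ∈ Y, (((G.filter (fun a => κ a = b)).image φ).card : ℝ) ≤ X)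
    (hP : ∀ b ∈ Y, ∀ c, (((G.filter (fun a => κ a = b)).filter (fun a => φ a = c)).card : ℝ) ≤ P) :
    (G.card : ℝ) ≤ Y.card * (X * P) := by
  have h1 : (G.card : ℝ) = ∑ b ∈ Y, ((G.filter (fun a => κ a = b)).card : ℝ) := by
    exact_mod_cast Finset.card_eq_sum_card_fiberwise hY
  have h2 : ∀ b ∈ Y, ((G.filter (fun a => κ a = b)).card : ℝ) ≤ X * P := by
    intro b hb
    have h3 : ((G.filter (fun a => κ a = b)).card : ℝ) =
        ∑ c ∈ (G.filter (fun a => κ a = b)).image φ,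
          (((G.filter (fun a => κ a = b)).filter (fun a => φ a = c)).card : ℝ) := by
      exact_mod_cast Finset.card_eq_sum_card_image φ (G.filter (fun a => κ a = b))
    rw [h3]
    calc _ ≤ ∑ _c ∈ (G.filter (fun a => κ a = b)).image φ, P :=
          Finset.sum_le_sum (fun c _ => hP b hb c)
      _ = (((G.filter (fun a => κ a = b)).image φ).card : ℝ) * P := by
          rw [Finset.sum_const, nsmul_eq_mul]
      _ ≤ X * P := mul_le_mul_of_nonneg_right (hX b hb) hP0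
  rw [h1]
  calc _ ≤ ∑ _b ∈ Y, X * P := Finset.sum_le_sum h2
    _ = Y.card * (X * P) := by rw [Finset.sum_const, nsmul_eq_mul]

lemma fib_pairs {ι : Type} [DecidableEq ι] (G : Finset (ι × ι)) (V : Finset ι) (P : ℝ)
    (h1 : ∀ t ∈ G, t.1 ∈ V)
    (hP : ∀ i ∈ V, (((G.filter (fun t => t.1 = i)).image Prod.snd).card : ℝ) ≤ P) :
    (G.card : ℝ) ≤ V.card * P := by
  have h2 : (G.card : ℝ) = ∑ i ∈ V, ((G.filter (fun t => t.1 = i)).card : ℝ) := by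
    exact_mod_cast Finset.card_eq_sum_card_fiberwise h1
  rw [h2]
  calc _ ≤ ∑ _i ∈ V, P := by
        refine Finset.sum_le_sum (fun i hi => ?_)
        have h3 : ((G.filter (fun t => t.1 = i)).image Prod.snd).card =
            (G.filter (fun t => t.1 = i)).card := by
          apply Finset.card_image_of_injOn
          intro x hx y hy hxy
          have hx1 := (Finset.mem_filter.mp (Finset.mem_coe.mp hx)).2
          have hy1 := (Finset.mem_filter.mp (Finset.mem_coe.mp hy)).2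
          exact Prod.ext (hx1.trans hy1.symm) hxy
        rw [← h3]
        exact hP i hi
    _ = V.card * P := by rw [Finset.sum_const, nsmul_eq_mul]

lemma det_add_two (x y : MZ) : (x + y).det = x.det + (x.adjugate * y).trace + y.det := by
  simp only [Matrix.det_fin_two, Matrix.adjugate_fin_two, Matrix.trace_fin_two, Matrix.mul_apply,
    Fin.sum_univ_two, Matrix.add_apply, Matrix.of_apply, Matrix.cons_val', Matrix.cons_val_zero,
    Matrix.cons_val_one, Matrix.cons_val_fin_one]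
  ring

lemma qf_zero (h : Fin 4 → MZ) : qf h (Pi.single 0 1) = (h 0).det := by
  unfold qf
  congr 1
  rw [Finset.sum_eq_single 0]
  · simp
  · intro b _ hb
    simp [Pi.single_eq_of_ne hb]
  · intro h; exact absurd (Finset.mem_univ _) h

lemma qf_one (h : Fin 4 → MZ) : qf h (Pi.single 1 1) = (h 1).det := by
  unfold qf
  congr 1
  rw [Finset.sum_eq_single 1]
  · simp
  · intro b _ hb
    simp [Pi.single_eq_of_ne hb]
  · intro h; exact absurd (Finset.mem_univ _) h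

lemma qf_two (h : Fin 4 → MZ) :
    qf h (Pi.single 0 1 + Pi.single 1 1) =
      (h 0).det + ((h 0).adjugate * h 1).trace + (h 1).det := by
  rw [← det_add_two]
  unfold qf
  congr 1
  rw [Fin.sum_univ_four]
  simp

/-- number of keys -/
lemma keys (L : ℝ) (c : ℕ) (hL : 1 ≤ L) :
    ((((Fintype.piFinset (fun _ : Fin c => Fintype.piFinset (fun _ : Fin 4 =>
      Finset.Icc (-⌊L⌋) ⌊L⌋))) ×ˢ Finset.range (⌊L⌋₊ + 1)).card : ℕ) : ℝ) ≤
      (3 * L) ^ (4 * c + 1) := by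
  rw [Finset.card_product, Fintype.card_piFinset, Finset.card_range]
  simp only [Fintype.card_piFinset, Finset.prod_const, Finset.card_univ, Fintype.card_fin,
    Int.card_Icc]
  have h0 : 0 ≤ ⌊L⌋ := Int.floor_nonneg.mpr (by linarith)
  have h1 : (((⌊L⌋ + 1 - -⌊L⌋).toNat : ℕ) : ℝ) ≤ 3 * L := by
    have h2 : (((⌊L⌋ + 1 - -⌊L⌋).toNat : ℕ) : ℤ) = ⌊L⌋ + 1 - -⌊L⌋ := Int.toNat_of_nonneg (by omega)
    have h3 : (((⌊L⌋ + 1 - -⌊L⌋).toNat : ℕ) : ℝ) = (⌊L⌋ : ℝ) + 1 - -(⌊L⌋ : ℝ) := by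
      have := congrArg (fun z : ℤ => (z : ℝ)) h2
      push_cast at this
      simpa using this
    rw [h3]
    have := Int.floor_le L
    linarith
  have h4 : (((⌊L⌋₊ + 1 : ℕ)) : ℝ) ≤ 3 * L := by
    push_cast
    have := Nat.floor_le (by linarith : (0 : ℝ) ≤ L)
    linarith
  push_cast at h4 ⊢
  rw [pow_add, pow_one, pow_mul]
  refine mul_le_mul ?_ h4 (by positivity) (by positivity)
  exact pow_le_pow_left₀ (by positivity) (pow_le_pow_left₀ (by positivity) h1 4) c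

lemma ret_mono (C C' w : ℝ) (a b : MR) (m : ℕ) (h : MZ) (hw : 0 ≤ w) (hC : C ≤ C')
    (H : Ret C w a b m h) : Ret C' w a b m h := by
  obtain ⟨h1, h2, h3, h4, h5, h6⟩ := H
  have hm : (0 : ℝ) ≤ (m : ℝ) := Nat.cast_nonneg m
  have e1 : C * (m : ℝ) ≤ C' * m := mul_le_mul_of_nonneg_right hC hm
  have e2 : C * w * (m : ℝ) ≤ C' * w * m :=
    mul_le_mul_of_nonneg_right (mul_le_mul_of_nonneg_right hC hw) hm
  exact ⟨h1, h2, h3.trans e1, h4.trans e1, h5.trans e2, h6.trans e2⟩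

lemma large (c δ : ℝ) (hδ : 0 < δ) : ∃ K3 : ℝ, 1 ≤ K3 ∧ ∀ K : ℝ, K3 ≤ K → c ≤ K ^ δ := by
  refine ⟨max 1 ((max c 1) ^ (1 / δ)), le_max_left _ _, ?_⟩
  intro K hK
  have h1 : (max c 1) ^ (1 / δ) ≤ K := (le_max_right _ _).trans hK
  have h0 : (0 : ℝ) ≤ max c 1 := (by norm_num : (0 : ℝ) ≤ 1).trans (le_max_right _ _)
  calc c ≤ max c 1 := le_max_left _ _
    _ = ((max c 1) ^ (1 / δ)) ^ δ := by
        rw [← Real.rpow_mul h0, one_div_mul_cancel hδ.ne', Real.rpow_one]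
    _ ≤ K ^ δ := Real.rpow_le_rpow (Real.rpow_nonneg h0 _) h1 hδ.le

/-- the number of forms for one key -/
lemma forms {ι : Type} (D C1 A1 : ℕ) (K L ε : ℝ) (hL : 1 ≤ L) (hCL : (C1 : ℝ) * L ^ A1 ≤ K)
    (hM2 : ∀ (K L : ℝ) (T : Finset (Fin 4 → ℤ)) (I : ℕ), 1 ≤ L → C1 * L ^ A1 ≤ K → 1 ≤ I →
      (∀ n ∈ T, ∀ l, |(n l : ℝ)| ≤ L) → GP D T →
      ∀ F : Finset (Fin 4 → Matrix (Fin 2) (Fin 2) ℤ),
        (∀ h ∈ F, |ix h| = I) → (∀ h ∈ F, ∃ g g', AdmM K L T h g g') →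
        (∀ h ∈ F, ∀ h' ∈ F, (∀ n, qf h n = qf h' n) → h = h') →
        (F.card : ℝ) ≤ C1 * L ^ A1 * K ^ ε)
    (G : Finset ι) (T : Finset (Fin 4 → ℤ)) (I : ℕ) (hh : ι → (Fin 4 → MZ))
    (hI : 1 ≤ I) (hT : ∀ n ∈ T, ∀ l, |((n l : ℤ) : ℝ)| ≤ L) (hGP : GP D T)
    (hG : ∀ t ∈ G, (ix (hh t)).natAbs = I ∧ ∃ g g', AdmM K L T (hh t) g g')
    [DecidableEq ((Fin 4 → ℤ) → ℤ)] :
    (((G.image (fun t => qf (hh t))).card : ℕ) : ℝ) ≤ C1 * L ^ A1 * K ^ ε := by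
  classical
  have hex : ∀ φ ∈ G.image (fun t => qf (hh t)), ∃ h : Fin 4 → MZ, (∃ t ∈ G, hh t = h) ∧
      qf h = φ := by
    intro φ hφ
    obtain ⟨t, ht, rfl⟩ := Finset.mem_image.mp hφ
    exact ⟨hh t, ⟨t, ht, rfl⟩, rfl⟩
  choose! τ hτ using hex
  have hcard : ((G.image (fun t => qf (hh t))).image τ).card =
      (G.image (fun t => qf (hh t))).card := by
    apply Finset.card_image_of_injOn
    intro x hx y hy hxy
    rw [← (hτ x (Finset.mem_coe.mp hx)).2, ← (hτ y (Finset.mem_coe.mp hy)).2, hxy]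
  rw [← hcard]
  refine hM2 K L T I hL hCL hI hT hGP _ ?_ ?_ ?_
  · intro h hh1
    obtain ⟨φ, hφ, rfl⟩ := Finset.mem_image.mp hh1
    obtain ⟨⟨t, ht, he⟩, -⟩ := hτ φ hφ
    rw [← he, ← (hG t ht).1]
    exact (Int.natCast_natAbs _).symm
  · intro h hh1
    obtain ⟨φ, hφ, rfl⟩ := Finset.mem_image.mp hh1
    obtain ⟨⟨t, ht, he⟩, -⟩ := hτ φ hφ
    rw [← he]
    exact (hG t ht).2
  · intro h hh1 h' hh2 heq
    obtain ⟨φ, hφ, rfl⟩ := Finset.mem_image.mp hh1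
    obtain ⟨φ', hφ', rfl⟩ := Finset.mem_image.mp hh2
    have h3 : qf (τ φ) = qf (τ φ') := funext heq
    rw [(hτ φ hφ).2, (hτ φ' hφ').2] at h3
    rw [h3]

/-- the number of pairs with one form -/
lemma one_form (S : Sys) (N P : ℝ) (G : Finset (S.ι × S.ι)) (hh : S.ι × S.ι → (Fin 4 → MZ))
    (φ : (Fin 4 → ℤ) → ℤ) [DecidableEq S.ι] (hP0 : 0 ≤ P)
    (hFib : ∀ (i : S.ι) (m1 m2 : ℕ) (T : ℤ) (J : Finset S.ι), i ∈ S.V → J ⊆ S.V →
      (∀ j ∈ J, ∃ h1 ∈ SS S.K N (S.g i) (S.g j), ∃ h2 ∈ SS S.K N (S.g i) (S.g j),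
        h1.det = (m1 : ℤ) ^ 2 ∧ h2.det = (m2 : ℤ) ^ 2 ∧ (h1.adjugate * h2).trace = T ∧
        tf (h1.adjugate * h2) ≠ 0) → (J.card : ℝ) ≤ P)
    (hV : ∀ t ∈ G, t.1 ∈ S.V ∧ t.2 ∈ S.V)
    (hG : ∀ t ∈ G, (∀ l, hh t l ∈ SS S.K N (S.g t.1) (S.g t.2)) ∧
      tf ((hh t 0).adjugate * hh t 1) ≠ 0 ∧ qf (hh t) = φ) :
    (G.card : ℝ) ≤ S.V.card * P := by
  rcases G.eq_empty_or_nonempty with rfl | ⟨t0, ht0⟩
  · simp only [Finset.card_empty, Nat.cast_zero]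
    positivity
  obtain ⟨m1, hm1, e1⟩ := ((hG t0 ht0).1 0).1
  obtain ⟨m2, hm2, e2⟩ := ((hG t0 ht0).1 1).1
  refine fib_pairs G S.V P (fun t ht => (hV t ht).1) ?_
  intro i hi
  refine hFib i m1 m2 (φ (Pi.single 0 1 + Pi.single 1 1) - φ (Pi.single 0 1) - φ (Pi.single 1 1))
    _ hi ?_ ?_
  · intro j hj
    obtain ⟨t, ht, rfl⟩ := Finset.mem_image.mp hj
    exact (hV t (Finset.mem_filter.mp ht).1).2
  · intro j hj
    obtain ⟨t, ht, rfl⟩ := Finset.mem_image.mp hj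
    obtain ⟨htG, hti⟩ := Finset.mem_filter.mp ht
    obtain ⟨a1, a2, a3⟩ := hG t htG
    have b3 := (hG t0 ht0).2.2
    refine ⟨hh t 0, by rw [← hti]; exact a1 0, hh t 1, by rw [← hti]; exact a1 1, ?_, ?_, ?_, a2⟩
    · rw [← e1, ← qf_zero, ← qf_zero, a3, b3]
    · rw [← e2, ← qf_one, ← qf_one, a3, b3]
    · rw [← a3, qf_two, qf_zero, qf_one]; ring

end Con_aux

/-- the contradiction -/
theorem tCon : S_Bx4 → S_Cra → S_Gpt → Pool.Agent.HS.Ct.SelStmt → S_Con := by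
  intro hx4 hcra hgpt hsel hBas0 hFib hGP hM
  have hBas := hBas0 hx4 hcra hgpt hsel
  obtain ⟨D, C1, A1, hM2⟩ := hM (1 / 10) (by norm_num)
  obtain ⟨e, he⟩ : ∃ e : ℕ, e = max D 1 := ⟨_, rfl⟩
  obtain ⟨c, hc⟩ : ∃ c : ℕ, c = (D + 1) ^ 5 := ⟨_, rfl⟩
  obtain ⟨d, hd⟩ : ∃ d : ℕ, d = Dm e + 1 := ⟨_, rfl⟩
  have hdR : ((Dm e : ℕ) : ℝ) + 1 = (d : ℝ) := by rw [hd]; push_cast; ring
  refine ⟨300 * (4 * A1 + 16 * c + 100) * d, ?_⟩
  intro k C R θ hk hk1 hC hR hθ hθk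
  have hkR : (1 : ℝ) ≤ (k : ℝ) := by exact_mod_cast hk1
  have hk0 : (0 : ℝ) < (k : ℝ) := by linarith
  have hd1 : 1 ≤ d := by omega
  have hk100 : 100 * (Dm e + 1) ≤ k := by
    rw [← hd]
    refine le_trans ?_ hk
    have : 100 * d ≤ 300 * (4 * A1 + 16 * c + 100) * d := by
      apply Nat.mul_le_mul_right
      omega
    exact this
  obtain ⟨K1, hK1⟩ := hGP e k C R θ hk100 hC hR hθ hθk
  obtain ⟨A, K2, hK2⟩ := hFib R (1 / 200) hR (by norm_num)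
  obtain ⟨K3, hK31, hK3⟩ := Con_aux.large ((C1 : ℝ) * 24 ^ A1) (99 / 100) (by norm_num)
  obtain ⟨K4, hK41, hK4⟩ := Con_aux.large 2 (1 / 250) (by norm_num)
  obtain ⟨K5, hK51, hK5⟩ := Con_aux.large
    (3 ^ (4 * c + 1) * 24 ^ (4 * c + 1 + A1) * (C1 : ℝ) * |A| + 1) (1 / 2) (by norm_num)
  refine ⟨max (max K1 K2) (max (max K3 K4) K5), ?_⟩
  intro S hSC hSR hSK hHyp hOvl
  have k1 : K1 ≤ S.K := ((le_max_left _ _).trans (le_max_left _ _)).trans hSK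
  have k2 : K2 ≤ S.K := ((le_max_right _ _).trans (le_max_left _ _)).trans hSK
  have k3 : K3 ≤ S.K :=
    (((le_max_left _ _).trans (le_max_left _ _)).trans (le_max_right _ _)).trans hSK
  have k4 : K4 ≤ S.K :=
    (((le_max_right _ _).trans (le_max_left _ _)).trans (le_max_right _ _)).trans hSK
  have k5 : K5 ≤ S.K := ((le_max_right _ _).trans (le_max_right _ _)).trans hSK
  have hKone : 1 ≤ S.K := hK31.trans k3
  have hK : 0 < S.K := by linarith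
  obtain ⟨ν, hν⟩ : ∃ ν : ℝ, ν = 3 * ((Dm e : ℝ) + 1) / (k : ℝ) := ⟨_, rfl⟩
  have hν0 : 0 ≤ ν := by rw [hν]; positivity
  have hνb : ((4 * A1 + 16 * c + 100 : ℕ) : ℝ) * ν ≤ 1 / 100 := by
    rw [hν, hdR]
    have h1 : ((300 * (4 * A1 + 16 * c + 100) * d : ℕ) : ℝ) ≤ (k : ℝ) := by exact_mod_cast hk
    rw [← mul_div_assoc, div_le_div_iff₀ hk0 (by norm_num)]
    push_cast at h1 ⊢
    linarith
  obtain ⟨N, hN⟩ : ∃ N : ℝ, N = S.K ^ ν := ⟨_, rfl⟩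
  have hN1 : 1 ≤ N := by rw [hN]; exact Real.one_le_rpow hKone hν0
  have hNn : ∀ n : ℕ, n ≤ 4 * A1 + 16 * c + 100 → N ^ n ≤ S.K ^ (1 / 100 : ℝ) := by
    intro n hn
    rw [hN, ← Real.rpow_natCast, ← Real.rpow_mul hK.le]
    apply Real.rpow_le_rpow_of_exponent_le hKone
    have h1 : (n : ℝ) ≤ ((4 * A1 + 16 * c + 100 : ℕ) : ℝ) := by exact_mod_cast hn
    calc ν * (n : ℝ) ≤ ν * ((4 * A1 + 16 * c + 100 : ℕ) : ℝ) := mul_le_mul_of_nonneg_left h1 hν0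
      _ ≤ 1 / 100 := by rw [mul_comm]; exact hνb
  have hN2 : 2 * N ^ 2 ≤ S.K ^ (1 / 200 : ℝ) := by
    have h1 : N ^ 2 ≤ S.K ^ (1 / 1000 : ℝ) := by
      rw [hN, ← Real.rpow_natCast, ← Real.rpow_mul hK.le]
      apply Real.rpow_le_rpow_of_exponent_le hKone
      have h2 : (100 : ℝ) ≤ ((4 * A1 + 16 * c + 100 : ℕ) : ℝ) := by
        push_cast
        have : (0 : ℝ) ≤ 4 * A1 + 16 * c := by positivity
        linarith
      have h3 : 100 * ν ≤ 1 / 100 := (mul_le_mul_of_nonneg_right h2 hν0).trans hνb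
      push_cast
      linarith
    calc 2 * N ^ 2 ≤ S.K ^ (1 / 250 : ℝ) * S.K ^ (1 / 1000 : ℝ) :=
          mul_le_mul (hK4 S.K k4) h1 (by positivity) (Real.rpow_nonneg hK.le _)
      _ = S.K ^ (1 / 200 : ℝ) := by rw [← Real.rpow_add hK]; norm_num
  have hNK : 2 * N ^ 2 ≤ S.K := by
    refine hN2.trans ?_
    calc S.K ^ (1 / 200 : ℝ) ≤ S.K ^ (1 : ℝ) :=
          Real.rpow_le_rpow_of_exponent_le hKone (by norm_num)
      _ = S.K := Real.rpow_one _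
  have hN4 : 1 ≤ N ^ 4 := one_le_pow₀ hN1
  obtain ⟨L, hL⟩ : ∃ L : ℝ, L = 24 * N ^ 4 := ⟨_, rfl⟩
  have hL1 : 1 ≤ L := by rw [hL]; linarith
  have hLA : L ^ A1 ≤ 24 ^ A1 * S.K ^ (1 / 100 : ℝ) := by
    rw [hL, mul_pow, ← pow_mul]
    exact mul_le_mul_of_nonneg_left (hNn _ (by omega)) (by positivity)
  have hCL : (C1 : ℝ) * L ^ A1 ≤ S.K := by
    calc (C1 : ℝ) * L ^ A1 ≤ (C1 : ℝ) * (24 ^ A1 * S.K ^ (1 / 100 : ℝ)) :=
          mul_le_mul_of_nonneg_left hLA (by positivity)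
      _ = ((C1 : ℝ) * 24 ^ A1) * S.K ^ (1 / 100 : ℝ) := by ring
      _ ≤ S.K ^ (99 / 100 : ℝ) * S.K ^ (1 / 100 : ℝ) :=
          mul_le_mul_of_nonneg_right (hK3 S.K k3) (Real.rpow_nonneg hK.le _)
      _ = S.K := by rw [← Real.rpow_add hK]; norm_num
  obtain ⟨G, hG1, hG2⟩ := hK1 S hSC hSR k1 hHyp
  rw [← hν, ← hN] at hG1
  classical
  have hU := hHyp.unim
  have hex : ∀ t ∈ G, ∃ p : (Fin 4 → MZ) × Finset (Fin 4 → ℤ),
      (∀ l, p.1 l ∈ SS S.K N (S.g t.1) (S.g t.2)) ∧ ix p.1 ≠ 0 ∧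
      |((ix p.1 : ℤ) : ℝ)| ≤ L ∧ tf ((p.1 0).adjugate * p.1 1) ≠ 0 ∧
      (∀ n ∈ p.2, ∀ l, |((n l : ℤ) : ℝ)| ≤ L) ∧ p.2.card ≤ c ∧ GP D p.2 ∧
      AdmM S.K L p.2 p.1 (S.g t.2).adjugate (S.g t.1) := by
    intro t ht
    obtain ⟨g1, g2, g3⟩ := hG1 t ht
    obtain ⟨h, T, q⟩ := hBas D e S.K N (S.g t.1) (S.g t.2) (by rw [he]; exact le_max_left _ _)
      (by rw [he]; exact le_max_right _ _) hN1 hNK (hU _ g1).1 (hU _ g2).1 g3
    rw [← hL, ← hc] at q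
    exact ⟨(h, T), q⟩
  choose! p hp using hex
  have hTne : ∀ t ∈ G, (p t).2.Nonempty := by
    intro t ht
    obtain ⟨-, -, -, -, -, -, hgp, -⟩ := hp t ht
    obtain ⟨n, hn, -⟩ := hgp 0 (Nat.zero_le _) 1 (MvPolynomial.isHomogeneous_one _ _) one_ne_zero
    exact ⟨n, hn⟩
  have hfex : ∀ t ∈ G, ∃ f : Fin c → (Fin 4 → ℤ), ∀ x, x ∈ (p t).2 ↔ ∃ j, f j = x :=
    fun t ht => Con_aux.exists_range (p t).2 c (hTne t ht) (hp t ht).2.2.2.2.2.1
  choose! f hf using hfex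
  obtain ⟨Y, hY⟩ : ∃ Y : Finset ((Fin c → Fin 4 → ℤ) × ℕ), Y =
      (Fintype.piFinset (fun _ : Fin c => Fintype.piFinset (fun _ : Fin 4 =>
        Finset.Icc (-⌊L⌋) ⌊L⌋))) ×ˢ Finset.range (⌊L⌋₊ + 1) := ⟨_, rfl⟩
  have hYc : (Y.card : ℝ) ≤ (3 * L) ^ (4 * c + 1) := by
    rw [hY]; exact Con_aux.keys L c hL1
  obtain ⟨Pf, hPf⟩ : ∃ Pf : ℝ, Pf = |A| * N ^ 14 * S.K ^ (1 / 10 : ℝ) *
      S.K ^ (1 + 1 / 200 + 1 / 200 : ℝ) := ⟨_, rfl⟩
  have hPf0 : 0 ≤ Pf := by rw [hPf]; positivity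
  have hOvl2 : S.Ovl (2 * N ^ 2) (S.K ^ (1 / 10 : ℝ)) := by
    intro i hi h m hdet hm T hT
    refine hOvl i hi h m hdet hm T (fun t ht => ?_)
    obtain ⟨t1, t2, t3⟩ := hT t ht
    refine ⟨t1, t2, Con_aux.ret_mono _ _ _ _ _ _ _ ?_ hN2 t3⟩
    unfold Sys.w
    positivity
  have hFib2 : ∀ (i : S.ι) (m1 m2 : ℕ) (T : ℤ) (J : Finset S.ι), i ∈ S.V → J ⊆ S.V →
      (∀ j ∈ J, ∃ h1 ∈ SS S.K N (S.g i) (S.g j), ∃ h2 ∈ SS S.K N (S.g i) (S.g j),
        h1.det = (m1 : ℤ) ^ 2 ∧ h2.det = (m2 : ℤ) ^ 2 ∧ (h1.adjugate * h2).trace = T ∧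
        tf (h1.adjugate * h2) ≠ 0) → (J.card : ℝ) ≤ Pf := by
    intro i m1 m2 T J hi hJV hJ
    have h1 := hK2 S N (S.K ^ (1 / 10 : ℝ)) i m1 m2 T J hSR k2 hU hN1 hNK
      (Real.rpow_nonneg hK.le _) hi (hHyp.gt i hi) hOvl2 hJV hJ
    refine h1.trans ?_
    rw [hPf]
    have h2 : A * N ^ 14 ≤ |A| * N ^ 14 := mul_le_mul_of_nonneg_right (le_abs_self A) (by positivity)
    exact mul_le_mul_of_nonneg_right (mul_le_mul_of_nonneg_right h2 (Real.rpow_nonneg hK.le _))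
      (Real.rpow_nonneg hK.le _)
  have hmain : (G.card : ℝ) ≤ Y.card * ((C1 * L ^ A1 * S.K ^ (1 / 10 : ℝ)) *
      ((S.V.card : ℝ) * Pf)) := by
    refine Con_aux.group G (fun t => (f t, (ix (p t).1).natAbs)) Y (fun t => qf (p t).1)
      (C1 * L ^ A1 * S.K ^ (1 / 10 : ℝ)) ((S.V.card : ℝ) * Pf) (by positivity) ?_ ?_ ?_
    · intro t ht
      obtain ⟨q1, q2, q3, q4, q5, q6, q7, q8⟩ := hp t ht
      rw [hY]
      refine Finset.mem_product.mpr ⟨?_, ?_⟩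
      · refine Fintype.mem_piFinset.mpr (fun j => Fintype.mem_piFinset.mpr (fun l => ?_))
        have h1 := q5 (f t j) ((hf t ht _).mpr ⟨j, rfl⟩) l
        rw [abs_le] at h1
        refine Finset.mem_Icc.mpr ⟨?_, Int.le_floor.mpr h1.2⟩
        have h2 : -(f t j l) ≤ ⌊L⌋ := Int.le_floor.mpr (by push_cast; linarith [h1.1])
        linarith
      · refine Finset.mem_range.mpr (Nat.lt_succ_of_le (Nat.le_floor ?_))
        have h1 : (((ix (p t).1).natAbs : ℕ) : ℝ) = |((ix (p t).1 : ℤ) : ℝ)| := by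
          rw [← Int.cast_abs, ← Int.natCast_natAbs]; simp
        rw [h1]
        exact q3
    · intro b _
      rcases (G.filter (fun t => (f t, (ix (p t).1).natAbs) = b)).eq_empty_or_nonempty with
        h0 | ⟨t0, ht0⟩
      · rw [h0]
        simp only [Finset.image_empty, Finset.card_empty, Nat.cast_zero]
        positivity
      · obtain ⟨ht0G, ht0b⟩ := Finset.mem_filter.mp ht0
        obtain ⟨q1, q2, q3, q4, q5, q6, q7, q8⟩ := hp t0 ht0G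
        have hTeq : ∀ t ∈ G.filter (fun t => (f t, (ix (p t).1).natAbs) = b),
            (p t).2 = (p t0).2 := by
          intro t ht
          obtain ⟨htG, htb⟩ := Finset.mem_filter.mp ht
          have h1 : f t = f t0 := by
            have h2 := htb.trans ht0b.symm
            exact (Prod.mk.inj h2).1
          ext x
          rw [hf t htG x, hf t0 ht0G x, h1]
        refine Con_aux.forms D C1 A1 S.K L (1 / 10) hL1 hCL hM2 _ (p t0).2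
          (ix (p t0).1).natAbs (fun t => (p t).1) (Nat.pos_of_ne_zero (Int.natAbs_ne_zero.mpr q2))
          q5 q7 ?_
        intro t ht
        obtain ⟨htG, htb⟩ := Finset.mem_filter.mp ht
        have h2 := htb.trans ht0b.symm
        refine ⟨(Prod.mk.inj h2).2, (S.g t.2).adjugate, S.g t.1, ?_⟩
        rw [← hTeq t ht]
        exact (hp t htG).2.2.2.2.2.2.2
    · intro b _ φ
      refine Con_aux.one_form S N Pf _ (fun t => (p t).1) φ hPf0 hFib2 ?_ ?_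
      · intro t ht
        have htG := (Finset.mem_filter.mp (Finset.mem_filter.mp ht).1).1
        exact ⟨(hG1 t htG).1, (hG1 t htG).2.1⟩
      · intro t ht
        have htG := (Finset.mem_filter.mp (Finset.mem_filter.mp ht).1).1
        exact ⟨(hp t htG).1, (hp t htG).2.2.2.1, (Finset.mem_filter.mp ht).2⟩
  -- numbers
  have hsg : sg k θ ≤ 1 / 1000 ∧ 10 * (k : ℝ) * sg k θ ≤ 1 / 1000 := by
    have h0 : θ ≤ 1 / 100 := by
      refine hθk.trans ?_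
      apply one_div_le_one_div_of_le (by norm_num)
      linarith
    unfold sg
    constructor
    · rw [div_le_div_iff₀ (by positivity) (by norm_num)]
      nlinarith
    · have h1 : 10 * (k : ℝ) * (θ / (200 * (k : ℝ) ^ 2)) = θ / (20 * k) := by
        field_simp; norm_num
      rw [h1, div_le_div_iff₀ (by positivity) (by norm_num)]
      nlinarith
  have hVc : (S.V.card : ℝ) ≤ S.K ^ (2 + 1 / 1000 : ℝ) :=
    hHyp.hi.trans (Real.rpow_le_rpow_of_exponent_le hKone (by linarith [hsg.1]))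
  have hlow : S.K ^ (4 - 1 / 1000 : ℝ) ≤ (G.card : ℝ) :=
    le_trans (Real.rpow_le_rpow_of_exponent_le hKone (by linarith [hsg.2])) hG2
  obtain ⟨Q, hQ⟩ : ∃ Q : ℝ, Q = 3 ^ (4 * c + 1) * 24 ^ (4 * c + 1 + A1) * (C1 : ℝ) * |A| :=
    ⟨_, rfl⟩
  have hQ0 : 0 ≤ Q := by rw [hQ]; positivity
  have hup : (G.card : ℝ) ≤ Q * S.K ^ (33 / 10 : ℝ) := by
    calc (G.card : ℝ) ≤ Y.card * ((C1 * L ^ A1 * S.K ^ (1 / 10 : ℝ)) * ((S.V.card : ℝ) * Pf)) := hmain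
      _ ≤ (3 * L) ^ (4 * c + 1) * ((C1 * L ^ A1 * S.K ^ (1 / 10 : ℝ)) *
          (S.K ^ (2 + 1 / 1000 : ℝ) * Pf)) := by
          refine mul_le_mul hYc ?_ (by positivity) (by positivity)
          refine mul_le_mul_of_nonneg_left ?_ (by positivity)
          exact mul_le_mul_of_nonneg_right hVc hPf0
      _ = Q * N ^ (4 * (4 * c + 1) + 4 * A1 + 14) * (S.K ^ (1 / 10 : ℝ) *
          (S.K ^ (2 + 1 / 1000 : ℝ) * (S.K ^ (1 / 10 : ℝ) *
            S.K ^ (1 + 1 / 200 + 1 / 200 : ℝ)))) := by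
          rw [hQ, hPf, hL]
          rw [mul_pow, mul_pow, mul_pow, ← pow_mul, ← pow_mul, pow_add 24, pow_add N, pow_add N]
          ring
      _ ≤ Q * S.K ^ (1 / 100 : ℝ) * (S.K ^ (1 / 10 : ℝ) *
          (S.K ^ (2 + 1 / 1000 : ℝ) * (S.K ^ (1 / 10 : ℝ) *
            S.K ^ (1 + 1 / 200 + 1 / 200 : ℝ)))) := by
          refine mul_le_mul_of_nonneg_right ?_ (by positivity)
          exact mul_le_mul_of_nonneg_left (hNn _ (by omega)) hQ0
      _ = Q * S.K ^ (1 / 100 + (1 / 10 + (2 + 1 / 1000 + (1 / 10 +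
            (1 + 1 / 200 + 1 / 200)))) : ℝ) := by
          rw [Real.rpow_add hK (1 / 100), Real.rpow_add hK (1 / 10),
            Real.rpow_add hK (2 + 1 / 1000), Real.rpow_add hK (1 / 10)]
          ring
      _ ≤ Q * S.K ^ (33 / 10 : ℝ) := by
          refine mul_le_mul_of_nonneg_left ?_ hQ0
          exact Real.rpow_le_rpow_of_exponent_le hKone (by norm_num)
  have hfin : Q + 1 ≤ S.K ^ (1 / 2 : ℝ) := by rw [hQ]; exact hK5 S.K k5
  have h33 : 0 < S.K ^ (33 / 10 : ℝ) := Real.rpow_pos_of_pos hK _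
  have h1 : S.K ^ (4 - 1 / 1000 : ℝ) ≤ Q * S.K ^ (33 / 10 : ℝ) := hlow.trans hup
  have h2 : (Q + 1) * S.K ^ (33 / 10 : ℝ) ≤ S.K ^ (4 - 1 / 1000 : ℝ) := by
    calc (Q + 1) * S.K ^ (33 / 10 : ℝ) ≤ S.K ^ (1 / 2 : ℝ) * S.K ^ (33 / 10 : ℝ) :=
          mul_le_mul_of_nonneg_right hfin h33.le
      _ = S.K ^ (1 / 2 + 33 / 10 : ℝ) := by rw [Real.rpow_add hK]
      _ ≤ S.K ^ (4 - 1 / 1000 : ℝ) := Real.rpow_le_rpow_of_exponent_le hKone (by norm_num)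
  nlinarith

end HSL
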