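import Pool.Agent.Lib.HS.L.Spec

/-!
PROJECT H*, PLAN L: the statement `S_Mon` (monotonicity of square elements, returns are square
elements).
-/

set_option autoImplicit false

namespace HSL

open Matrix

namespace Mon_aux

theorem lower (m C x y p q : ℝ) (hm : 0 < m) (hC : 1 ≤ C) (hx : |x| ≤ C * m)
    (hdet : x * y - p * q = m ^ 2) (hpq : |p * q| ≤ m ^ 2 / 2) : m / (2 * C) ≤ |y| := by
  have hC0 : 0 < C := by linarith
  have h1 : m ^ 2 / 2 ≤ |x| * |y| := by
    rw [← abs_mul]
    have h2 : x * y = m ^ 2 + p * q := by linarith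
    have h3 : m ^ 2 / 2 ≤ x * y := by
      have := (abs_le.mp hpq).1
      linarith
    exact h3.trans (le_abs_self _)
  have h4 : |x| * |y| ≤ C * m * |y| := mul_le_mul_of_nonneg_right hx (abs_nonneg _)
  rw [div_le_iff₀ (by positivity)]
  have h5 : m * m ≤ m * (|y| * (2 * C)) := by nlinarith
  exact le_of_mul_le_mul_left h5 hm

theorem prod_small (K C m p q : ℝ) (hK : 1 ≤ K) (hC : 1 ≤ C) (hm : 0 < m)
    (hKC : 2 * C ^ 2 ≤ K ^ 4) (hp : |p| ≤ C * (1 / K ^ 2) * m) (hq : |q| ≤ C * (1 / K ^ 2) * m) :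
    |p * q| ≤ m ^ 2 / 2 := by
  have hK0 : 0 < K := by linarith
  have hC0 : 0 < C := by linarith
  rw [abs_mul]
  calc |p| * |q| ≤ (C * (1 / K ^ 2) * m) * (C * (1 / K ^ 2) * m) :=
        mul_le_mul hp hq (abs_nonneg _) (by positivity)
    _ = (C ^ 2 / K ^ 4) * m ^ 2 := by field_simp
    _ ≤ (1 / 2) * m ^ 2 := by
        apply mul_le_mul_of_nonneg_right _ (by positivity)
        rw [div_le_div_iff₀ (by positivity) (by norm_num)]
        linarith
    _ = m ^ 2 / 2 := by ring

end Mon_aux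

open Mon_aux

theorem tMon : S_Fr → S_Mon := by
  intro hFr
  refine ⟨?_, ?_, ?_⟩
  · intro K N N' a b hK hN hNN r hr
    obtain ⟨h0, h1, h2, h3, h4, h5, h6⟩ := hr
    have hN0 : 0 < N := by linarith
    have a1 : K / N' ≤ K / N := div_le_div_of_nonneg_left hK.le hN0 hNN
    have a2 : K * N ≤ K * N' := mul_le_mul_of_nonneg_left hNN hK.le
    have a3 : N / K ≤ N' / K := div_le_div_of_nonneg_right hNN hK.le
    exact ⟨h0, a1.trans h1, h2.trans a2, a1.trans h3, h4.trans a2, h5.trans a3, h6.trans a3⟩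
  · intro e A B hAB hA f hf hz
    exact hA f hf (fun r hr => hz r (hAB hr))
  · intro K C B a b m h hK hC hB hKC ha hb hret hKm hmB
    obtain ⟨hd, hm, n1, n2, n3, n4⟩ := hret
    have hdet := hFr.2.1 a b h ha hb
    rw [hd, Matrix.det_fin_two] at hdet
    push_cast at hdet
    have hK0 : 0 < K := by linarith
    have hC0 : 0 < C := by linarith
    have hB0 : 0 < B := by linarith
    have hm0 : 0 < (m : ℝ) := by exact_mod_cast hm
    have hpq := prod_small K C m _ _ hK hC hm0 hKC n3 n4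
    have l1 : (m : ℝ) / (2 * C) ≤ |fr a b h 1 1| := lower m C _ _ _ _ hm0 hC n1 hdet hpq
    have l0 : (m : ℝ) / (2 * C) ≤ |fr a b h 0 0| :=
      lower m C _ _ _ _ hm0 hC n2 (by linarith) hpq
    have e1 : K / (2 * C * B) ≤ (m : ℝ) / (2 * C) := by
      rw [div_le_div_iff₀ (by positivity) (by positivity)]
      have : K * (2 * C) ≤ (m : ℝ) * (2 * C) := mul_le_mul_of_nonneg_right hKm (by positivity)
      have h2 : (m : ℝ) * (2 * C) ≤ (m : ℝ) * (2 * C * B) := by
        apply mul_le_mul_of_nonneg_left _ hm0.le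
        nlinarith
      linarith
    have e2 : C * (m : ℝ) ≤ K * (2 * C * B) := by
      have : C * (m : ℝ) ≤ C * (B * K) := mul_le_mul_of_nonneg_left hmB hC0.le
      have h3 : 0 ≤ C * (B * K) := by positivity
      nlinarith
    have e3 : C * (1 / K ^ 2) * (m : ℝ) ≤ 2 * C * B / K := by
      have h3 : C * (1 / K ^ 2) * (m : ℝ) ≤ C * (1 / K ^ 2) * (B * K) :=
        mul_le_mul_of_nonneg_left hmB (by positivity)
      have h4 : C * (1 / K ^ 2) * (B * K) = C * B / K := by field_simp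
      have h5 : C * B / K ≤ 2 * C * B / K := by
        apply div_le_div_of_nonneg_right _ hK0.le
        nlinarith [mul_pos hC0 hB0]
      linarith
    exact ⟨⟨m, hm, hd⟩, e1.trans l0, n1.trans e2, e1.trans l1, n2.trans e2, n3.trans e3,
      n4.trans e3⟩

end HSL
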