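import Pool.Agent.Lib.HS.L.Spec
import Pool.Agent.Lib.HS.Ct.SpecB

/-!
PROJECT H*, PLAN L (MP_a54f13_nt), part HS/L/Con: the final contradiction (helper3).

`S_GP` (general position of almost all pairs) + `M2eStmt` (few determinant forms, HS/Ct) + the fibre `S_Fib`
(few pairs with a given form; no isometries) contradict each other: `S_Con`.
The only input besides `Hyp S k θ` is a bounded overlap of the cells for a larger constant:
`S.Ovl (S.K ^ (1/200)) (S.K ^ (1/10))`.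

Every `S_...` is a statement with a complete proof in its docstring; the module `X` proves the theorem
`tX : ... → S_X` in Pool/Agent/Lib/HS/L/X.lean. Order: Bx4, Cra, Gpt, Bas (basis and coordinates);
Loc, Fib (fibre); Con.
-/

set_option autoImplicit false

namespace HSL

open Matrix
open Pool.Agent.HS.Ct (ix qf GP AdmM M2eStmt)

/-! ### Basis and coordinates -/

/-- Bx4. The determinant of four matrices with frames in a thin box. PROOF. Let `A` be the `4 × 4` real matrix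
with rows `(h_l 00, h_l 01, h_l 10, h_l 11)` (so `det A = ix h`, cast) and `F` the matrix with rows
`(f_l 00, f_l 01, f_l 10, f_l 11)`, `f_l = b^adj * toR (h_l) * a`. `F = A * P` where the `4 × 4` matrix `P` has the
entries `P (k,l) (i,j) = (adj b) i k * a l j`; `det P = (det a)^2 (det b)^2 = 1` (expand, `ring`; 24 terms).
So `ix h = det F`. `Matrix.det_apply`: `24` products with one factor from each column; the columns are bounded by
`X, Y, Y, X`: every product is at most `X^2 Y^2` in absolute value. -/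
def S_Bx4 : Prop :=
  ∀ (a b : MR) (h : Fin 4 → MZ) (X Y : ℝ), a.det = 1 → b.det = 1 → 0 ≤ X → 0 ≤ Y →
    (∀ l, |fr a b (h l) 0 0| ≤ X ∧ |fr a b (h l) 0 1| ≤ Y ∧ |fr a b (h l) 1 0| ≤ Y ∧
      |fr a b (h l) 1 1| ≤ X) →
    |((ix h : ℤ) : ℝ)| ≤ 24 * (X ^ 2 * Y ^ 2)

/-- Cra. Coordinates by Cramer's rule. `cd h r l = ix (h with the entry number l replaced by r)`.
PROOF. `∑ l, ix (update h l r) • h l = ix h • r`: four scalar identities, entry by entry a polynomial identity in the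
twenty entries (`ring` after expanding the determinants, or `Matrix.mulVec_cramer` for the transpose).
`cd h (∑ n_l h_l) = ix h * n` : multilinear and alternating (or `ring`). -/
def S_Cra : Prop :=
  (∀ (h : Fin 4 → MZ) (r : MZ), ∑ l, ix (Function.update h l r) • h l = ix h • r) ∧
  (∀ (h : Fin 4 → MZ) (n : Fin 4 → ℤ) (l : Fin 4),
    ix (Function.update h l (∑ l', n l' • h l')) = ix h * n l)

/-- Gpt. Transfer of general position to the coordinates. PROOF. Let `F` be a form of degree `d ≤ D` over `ℚ`,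
`F ≠ 0`, with `F(c(r)) = 0` for all `r ∈ A`, `c(r) l = ix (update h l r)`. `c(r) l = ∑_(i,j) k_(l,i,j) r i j` with
integers `k_(l,i,j) = ix (update h l (single i j 1))` (`ix` is linear in every argument). Let
`G = F(∑ k_(0,i,j) X_ij, ..)` as a real polynomial in the four variables `X_ij` (`MvPolynomial.aeval` after
`MvPolynomial.map (algebraMap ℚ ℝ)`), homogeneous of degree `d`, `ev r G = F(c(r))` (cast). `G ≠ 0`: otherwise
`F(c(r)) = 0` for all integral `r`; for integral `n` take `r = ∑ n_l h_l`: `c(r) = ix h * n` (S_Cra (2)), so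
`(ix h)^d F(n) = 0`, `F(n) = 0` for all integral `n`, and by homogeneity for all rational points (common
denominator), so `F = 0` (`MvPolynomial.funext`). Then `X_00^(e-d) * G` is a non-zero form of degree `e` vanishing on
`A`: contradiction with `Gen e A`. -/
def S_Gpt : Prop :=
  S_Cra → ∀ (D e : ℕ) (h : Fin 4 → MZ) (A : Set MZ) (T : Finset (Fin 4 → ℤ)), D ≤ e → ix h ≠ 0 → Gen e A →
    (∀ r ∈ A, (∃ n ∈ T, ∃ u : ℤ, (u = 1 ∨ u = -1) ∧ ∀ l, ix (Function.update h l r) = u * n l)) → GP D T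

/-- Bas. BASIS AND COORDINATES. PROOF. (1) Four linearly independent elements of `A = SS K N a b`: otherwise the real
span of `A` in `ℝ^4` is not everything, there is a non-zero real linear form `ℓ` in the four entries vanishing on `A`, and
`X_00^(e-1) * ℓ` is a non-zero form of degree `e` vanishing on `A` (`exists_linearIndependent`). So `ix h ≠ 0` for
`h : Fin 4 → MZ` with `h l ∈ A`. (2) `|ix h| ≤ 24 N^4` by S_Bx4 with `X = K N`, `Y = N/K`; the same bound for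
`ix (update h l r)`, `r ∈ A`. (3) For `r ∈ A`: `m^2 = M00 M11 - M01 M10` (`M = fr a b r`), `|M01 M10| ≤ N^2/K^2 < 1`, so
`M00`, `M11` have the same sign. Put `n(r) l = δ ix (update h l r)`, `δ = sign(ix h) * sign(M00)`, so that
`∑ n(r) l • h l = |ix h| • (sign(M00) • r)` (S_Cra) has frame entries 00, 11 at least `|ix h| K/N ≥ K/L`
(`L = 24 N^4 ≥ N`). `T1` = the set of the `n(r)`, `r ∈ A`: contained in the box `|n l| ≤ 24 N^4`, so finite
(`Set.Finite.subset` and `Set.Finite.toFinset`). (4) `GP D T1` by S_Gpt. (5) `SelStmt` gives `T ⊆ T1` with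
`T.card ≤ (D+1)^5` and `GP D T`. (6) `AdmM K L T h (adj b) a`: `det (adj b) = det b = 1`; `K N ≤ K L`, `N/K ≤ L/K`;
`qf h n = det (∑ n l • h l) = (ix h)^2 det r = (ix h * m)^2` is a square. (7) `tf ((adj h0) h1) ≠ 0`: otherwise
`2 adj(h0) h1 = t • 1`, multiply by `h0`: `2 det(h0) h1 = t h0`, `det h0 > 0`, so the first two rows are dependent and
`ix h = 0`. -/
def S_Bas : Prop :=
  S_Bx4 → S_Cra → S_Gpt → Pool.Agent.HS.Ct.SelStmt →
  ∀ (D e : ℕ) (K N : ℝ) (a b : MR), D ≤ e → 1 ≤ e → 1 ≤ N → 2 * N ^ 2 ≤ K → a.det = 1 → b.det = 1 →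
    Gen e (SS K N a b) →
    ∃ (h : Fin 4 → MZ) (T : Finset (Fin 4 → ℤ)),
      (∀ l, h l ∈ SS K N a b) ∧ ix h ≠ 0 ∧ |((ix h : ℤ) : ℝ)| ≤ 24 * N ^ 4 ∧
      tf ((h 0).adjugate * h 1) ≠ 0 ∧
      (∀ n ∈ T, ∀ l, |((n l : ℤ) : ℝ)| ≤ 24 * N ^ 4) ∧ T.card ≤ (D + 1) ^ 5 ∧ GP D T ∧
      AdmM K (24 * N ^ 4) T h b.adjugate a

/-! ### The fibre -/

/-- Loc. Few loops with given trace and determinant. PROOF. Let `a` be the matrix of the cell, `s, s' ∈ X`, frames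
`M = fr a a s`, `M' = fr a a s'`. `M00 + M11 = tr s = T` (`tr (adj a * s * a) = tr s` as `det a = 1`),
`M00 M11 - M01 M10 = det s = Δ` (`S_Fr (2)`). Put `t = M00 - M11`: `t^2 = T^2 - 4Δ - 4 M01 M10`, so
`|t^2 - t'^2| ≤ 8 Y^2`. If `t t' ≥ 0` then `|t - t'| ≤ |t + t'|`, so `(t - t')^2 ≤ 8 Y^2` and `|t - t'| ≤ 3 Y`.
Then `M - M'` has all entries at most `2 Y` in absolute value, and `s - s' = a (M - M') adj(a)` has entries at most
`8 R^2 Y` (four terms, `|a i j| ≤ R`). So the elements of `X` with `t ≥ 0` have their entries in an interval around the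
entries of one of them: at most `(16 R^2 Y + 1)^4 ≤ (17 R^2 Y)^4` elements; the same for `t < 0`. (Exponent 4 instead of
3 is enough.) -/
def S_Loc : Prop :=
  ∀ (R Y : ℝ) (a : MR) (T Δ : ℤ) (X : Finset MZ), 1 ≤ R → 1 ≤ Y → a.det = 1 → (∀ i j, |a i j| ≤ R) →
    (∀ s ∈ X, s.trace = T ∧ s.det = Δ ∧ |fr a a s 0 1| ≤ Y ∧ |fr a a s 1 0| ≤ Y) →
    (X.card : ℝ) ≤ 2 * (17 * R ^ 2 * Y) ^ 4

/-- Hrm. Classes of left divisors. PROOF. Let `t = adj s = adj(h2) h1`, so `h1` is a right divisor of `t`. By the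
Hermite normal form (Mathlib: `FixedDetMatrices`, or by hand) every class `SL2(ℤ) h1` contains `(α β; 0 δ)`, `α δ = M`,
`α, δ > 0`, `0 ≤ β < δ`. `t adj(h1) = 0` mod `M`: `t_i1 δ = 0`, `- t_i1 β + t_i2 α = 0` mod `α δ`, so `α ∣ t_i1`,
`t_i1 = α τ_i`, `τ_i β = t_i2` mod `δ` (`i = 1, 2`). Two solutions `β, β'` for the same `α` satisfy
`τ_i (β - β') = 0` mod `δ`, so `β = β'` mod `δ/u`, `u = gcd(τ_1, τ_2, δ)`; `u` divides `t_i1`, `t_i2`, so it divides
the content of `t` = content of `s`: at most `u ≤ c` values `β` for each divisor `α` of `M`.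
(This is (M1) of HS/L/Mult.lean, helper44, applied to `adj s`; use it if it is on main.) -/
def S_Hrm : Prop :=
  ∀ (s : MZ) (M c : ℕ) (H : Finset MZ), 0 < M → 0 < c →
    (∀ d : ℤ, 0 < d → (∀ i j, d ∣ s i j) → d ≤ (c : ℤ)) →
    (∀ h ∈ H, h.det = (M : ℤ) ∧ ∃ r : MZ, h.adjugate * r = s) →
    (∀ h ∈ H, ∀ h' ∈ H, ∀ γ : MZ, γ.det = 1 → h' = γ * h → h = h') →
    H.card ≤ M.divisors.card * c

/-- Fib. THE FIBRE. PROOF. For `j ∈ J` choose `(h1, h2)`, `s = adj(h1) h2`. `fr (g i) (g i) s = adj(M1) M2`,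
`M_ν = fr (g i) (g j) h_ν` (`S_Fr (1),(3)`), so its entries 01, 10 are at most `2 K N N/K = 2 N^2` and the diagonal
entries at most `2 K^2 N^2`; `det s = (m1 m2)^2`, `tr s = T`. (a) By `S_Loc` with `Y = 2 N^2` there are at most
`2 (34 R^2 N^2)^4 = A1 N^8` matrices `s`. (b) CONTENT: let `d > 0` divide all entries of `s`. `d ∣ T` too, so
`v = tf s / d` is integral, `v ≠ 0`, `tr v = 0`, with frame entries 01, 10 at most `4 N^2/d` and 00 at most
`2 * 2 K^2 N^2/d` (`tf s` has frame `2 M - T`, i.e. `M00 - M11`, `2 M01`, `2 M10`). If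
`d ≥ 4 N^2 K^(1+1/200)` these are at most `K^(-1-1/200)` and `K^(1-1/200)`: contradiction with `GoodT i`. So all
such `d` are `≤ c := ⌈4 N^2 K^(1+1/200)⌉`, `c ≤ 5 N^2 K^(1+1/200)`. (c) CLASSES: for given `s` the matrices `h1`
(`det h1 = m1^2`, `adj(h1) h2 = s`) lie in at most `τ(m1^2) c` classes `SL2(ℤ) h1` by `S_Hrm` (applied to a system of
representatives), and `τ(m1^2) ≤ C_ε K^(ε/2)` (`m1 ≤ 2 K N ≤ K^2`: `m1^2 = M00 M11 - M01 M10 ≤ 2 K^2 N^2`). (d) OVERLAP: the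
`j ∈ J` with `h1 = γ_j h0`, `h0` the representative, `γ_j ∈ SL2(ℤ)`: `m1^2 ≥ K^2/N^2 - N^2/K^2 ≥ K^2/(4 N^2)`, so
`m1 ≥ K/(2N)`, and the bounds `|M00|, |M11| ≤ K N ≤ 2 N^2 m1`, `|M01|, |M10| ≤ N/K ≤ 2 N^2 w m1` say
`Ret (2 N^2) w (g i) (g j) m1 (γ_j h0)`; `Ovl (2 N^2) B` applied to the set of the `(j, γ_j)`: at most `B` such `j`.
Total `card J ≤ A1 N^8 * C_ε K^(ε/2) * 5 N^2 K^(1+1/200) * B ≤ A N^14 B K^(1+1/200+ε)`. -/
def S_Fib : Prop :=
  ∀ (R ε : ℝ), 1 ≤ R → 0 < ε → ∃ A K0 : ℝ, ∀ (S : Sys) (N B : ℝ) (i : S.ι) (m1 m2 : ℕ) (T : ℤ)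
    (J : Finset S.ι), S.R = R → K0 ≤ S.K → S.Unim → 1 ≤ N → 2 * N ^ 2 ≤ S.K → 0 ≤ B →
    i ∈ S.V → S.GoodT i → S.Ovl (2 * N ^ 2) B → J ⊆ S.V →
    (∀ j ∈ J, ∃ h1 ∈ SS S.K N (S.g i) (S.g j), ∃ h2 ∈ SS S.K N (S.g i) (S.g j),
      h1.det = (m1 : ℤ) ^ 2 ∧ h2.det = (m2 : ℤ) ^ 2 ∧ (h1.adjugate * h2).trace = T ∧
      tf (h1.adjugate * h2) ≠ 0) →
    (J.card : ℝ) ≤ A * N ^ 14 * B * S.K ^ (1 + 1 / 200 + ε)

/-! ### The contradiction -/

/-- Con. THE CONTRADICTION. PROOF. `M2eStmt (1/10)` gives `D, C1, A1`. Put `e = max D 1`, `c = (D+1)^5`,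
`ν = 3 (Dm e + 1)/k`, `N = K^ν`, `L = 24 N^4`; `k0` so large that `100 (Dm e + 1) ≤ k` and
`(4 A1 + 16 c + 100) ν ≤ 1/100` for `k ≥ k0`. `S_GP` gives `G`, `card G ≥ K^(4 - 10 k sg) ≥ K^(4 - 1/100)`
(`10 k sg k θ = θ/(20 k) ≤ 1/100`). For `t = (i, j) ∈ G` let `(h_t, T_t)` be from `S_Bas` (`2 N^2 ≤ K`). `T_t` is not
empty (`GP` in degree 0), so there is `f_t : Fin c → (Fin 4 → ℤ)` with range `T_t`. KEY
`κ(t) = (f_t, |ix h_t|)`: at most `(2L+1)^(4c) (L+1) ≤ (3L)^(4c+1)` keys. For one key `(T, I)` let `Φ` be the set of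
functions `qf h_t`, `κ(t) = (f, I)`, and choose for every `φ ∈ Φ` one `t` with `qf h_t = φ`; the set `F` of the chosen `h_t`
has the three properties of `M2eStmt` (`AdmM` with `g = adj (g j)`, `g' = g i`), so
`card Φ = card F ≤ C1 L^A1 K^(1/10)`. For one `φ` and one `i` let `J = {j : (i,j) ∈ G, κ = (f,I), qf h_(i,j) = φ}`:
`det h_0 = φ(e_0) = m1^2`, `det h_1 = φ(e_1) = m2^2` (they are in `SS`; `m1, m2` depend only on `φ`),
`tr(adj(h_0) h_1) = φ(e_0 + e_1) - φ(e_0) - φ(e_1)` (`det (x+y) = det x + tr(adj x * y) + det y`), and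
`tf (adj(h_0) h_1) ≠ 0`. `S_Fib` with `ε = 1/200`, `B = K^(1/10)` (`Ovl (2N^2) B` follows from
`Ovl (K^(1/200)) B`, since `Ret` is monotone in the constant and `2 N^2 ≤ K^(1/200)`): `card J ≤ A N^14 K^(1/10) K^(1+1/100)`.
Sum over `i ∈ V` (`card V ≤ K^(2+1/100)`), over `Φ` and over the keys:
`card G ≤ (3L)^(4c+1) * C1 L^A1 K^(1/10) * K^(2+1/100) * A N^14 K^(1/10) K^(1+1/100) ≤ A' K^(3 + 1/4) < K^(4 - 1/100)` for `K` large. -/
def S_Con : Prop :=
  S_Bas → S_Fib → S_GP → (∀ ε : ℝ, 0 < ε → M2eStmt ε) →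
  ∃ k0 : ℕ, ∀ (k : ℕ) (C R θ : ℝ), k0 ≤ k → 1 ≤ k → 1 ≤ C → 1 ≤ R → 0 < θ → θ ≤ 1 / (100 * (k : ℝ)) →
    ∃ K0 : ℝ, ∀ S : Sys, S.C = C → S.R = R → K0 ≤ S.K → Hyp S k θ →
      S.Ovl (S.K ^ (1 / 200 : ℝ)) (S.K ^ (1 / 10 : ℝ)) → False

end HSL
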