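import Pool.Agent.Lib.HS.L.All
import Pool.Agent.Lib.HS.L.CLL
import Pool.Agent.Lib.HS.L.CLB
import Pool.Agent.Lib.HS.L.CLA
import Pool.Agent.Lib.HS.L.CLAm
import Pool.Agent.Lib.HS.L.CLD
import Pool.Agent.Lib.HS.L.Cor
import Pool.Agent.Lib.HS.L.Nil
import Pool.Agent.Lib.HS.L.M2
import Pool.Agent.Lib.HS.L.Tub
import Pool.Agent.Lib.HS.L.ConA

/-!
PROJECT H*, PLAN L (MP_a54f13_nt), part HS/L: final statements without hypotheses.
-/

set_option autoImplicit false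

namespace HSL

theorem zCor : S_Cor := tCor tFr (tCLD tCL)

theorem zCLA : S_CLA := tCLA (tCLAm zCor tTub) (tCNil tM2) tCL0

/-- general position of almost all pairs -/
theorem zGP : S_GP := aGP (tCLL zCor tTub) (tCLB zCor tTub) zCLA

/-- the contradiction: there is no critical system of cells -/
theorem zCon : ∃ k0 : ℕ, ∀ (k : ℕ) (C R B : ℝ), k0 ≤ k → 1 ≤ k → 1 ≤ C → 1 ≤ R → 1 ≤ B →
    ∃ K1 : ℝ, ∀ S : Sys, S.C = C → S.R = R → K1 ≤ S.K →
      Hyp S k (1 / (100000 * (k : ℝ))) → (∀ C' : ℝ, 1 ≤ C' → S.Ovl C' (B * C' ^ 14)) → False :=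
  conG zGP

end HSL
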